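import Mathlib

/-!
# The Euler derivation `X d/dX` on Laurent series over `ℚ`
-/

namespace Pool.Agent.SS

open HahnSeries

/-- coefficientwise multiplication by the exponent -/
noncomputable def eulerFun (f : LaurentSeries ℚ) : LaurentSeries ℚ where
  coeff n := (n : ℚ) * f.coeff n
  isPWO_support' := f.isPWO_support.mono (by
    intro n hn
    simp only [Function.mem_support, ne_eq, mul_eq_zero, not_or] at hn
    exact hn.2)

@[simp] theorem eulerFun_coeff (f : LaurentSeries ℚ) (n : ℤ) :
    (eulerFun f).coeff n = (n : ℚ) * f.coeff n := rfl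

theorem eulerFun_support (f : LaurentSeries ℚ) : (eulerFun f).support ⊆ f.support := by
  intro n hn
  simp only [HahnSeries.mem_support, eulerFun_coeff, ne_eq, mul_eq_zero, not_or] at hn
  exact hn.2

/-- The Euler derivation. -/
noncomputable def euler : LaurentSeries ℚ →+ LaurentSeries ℚ where
  toFun := eulerFun
  map_zero' := by ext n; simp
  map_add' := by intro f g; ext n; simp [mul_add]

@[simp] theorem euler_coeff (f : LaurentSeries ℚ) (n : ℤ) :
    (euler f).coeff n = (n : ℚ) * f.coeff n := rfl

theorem euler_mul (f g : LaurentSeries ℚ) :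
    euler (f * g) = euler f * g + f * euler g := by
  change eulerFun (f * g) = eulerFun f * g + f * eulerFun g
  ext n
  simp only [eulerFun_coeff, HahnSeries.coeff_add]
  rw [HahnSeries.coeff_mul, 
    HahnSeries.coeff_mul_right' g.isPWO_support (eulerFun_support g),
    HahnSeries.coeff_mul_left' f.isPWO_support (eulerFun_support f), Finset.mul_sum,
    ← Finset.sum_add_distrib]
  refine Finset.sum_congr rfl fun ij hij => ?_
  have : ij.1 + ij.2 = n := by
    simpa using (Finset.mem_antidiagonal.1 hij).2.2
  rw [← this]
  simp only [eulerFun_coeff]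
  push_cast
  ring

theorem ratCast_eq_C (q : ℚ) : ((q : ℚ) : LaurentSeries ℚ) = HahnSeries.C q := by
  have := map_ratCast (HahnSeries.C : ℚ →+* LaurentSeries ℚ) q
  simpa using this.symm

theorem exists_rat_of_euler_eq_zero {f : LaurentSeries ℚ} (h : euler f = 0) :
    ∃ q : ℚ, f = (q : LaurentSeries ℚ) := by
  refine ⟨f.coeff 0, ?_⟩
  ext n
  have h1 := congrArg (fun g => HahnSeries.coeff g n) h
  simp only [euler_coeff, HahnSeries.coeff_zero, mul_eq_zero, Int.cast_eq_zero] at h1
  rw [ratCast_eq_C, HahnSeries.C_apply, HahnSeries.coeff_single]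
  by_cases hn : n = 0
  · subst hn; simp
  · rw [if_neg hn]
    rcases h1 with h1 | h1
    · exact absurd h1 hn
    · exact h1

theorem coeff_zero_euler (f : LaurentSeries ℚ) : (euler f).coeff 0 = 0 := by simp

/-- Compatibility with power series: `X f'`. -/
theorem euler_coe (f : PowerSeries ℚ) :
    euler (f : LaurentSeries ℚ) = ((PowerSeries.X * PowerSeries.derivative ℚ f : PowerSeries ℚ) :
      LaurentSeries ℚ) := by
  ext n
  rw [euler_coeff, PowerSeries.coeff_coe, PowerSeries.coeff_coe]
  split_ifs with hn
  · simp
  · obtain ⟨m, rfl⟩ : ∃ m : ℕ, n = m := ⟨n.natAbs, by omega⟩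
    simp only [Int.natAbs_natCast]
    cases m with
    | zero => simp
    | succ m =>
      rw [PowerSeries.coeff_succ_X_mul, PowerSeries.coeff_derivative]
      push_cast
      ring

end Pool.Agent.SS
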