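import Pool.Agent.SS.ExpLevel
import Pool.Agent.SS.Laurent

/-!
# The differential field of Laurent series, and iterated primitives of exponentials
-/

namespace Pool.Agent.SS

open Polynomial

theorem charZero_LS : CharZero (LaurentSeries ℚ) :=
  charZero_of_injective_ringHom (f := (HahnSeries.C : ℚ →+* LaurentSeries ℚ)) HahnSeries.C_injective

attribute [local instance] charZero_LS

/-- Laurent series with the Euler derivation -/
noncomputable def LS : DField (LaurentSeries ℚ) where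
  θ := euler
  mul' := euler_mul
  K := (Rat.castHom (LaurentSeries ℚ)).fieldRange
  mem_K := fun f => by
    constructor
    · intro h
      obtain ⟨q, hq⟩ := exists_rat_of_euler_eq_zero h
      exact ⟨q, hq.symm⟩
    · rintro ⟨q, rfl⟩
      ext n
      rw [Rat.castHom, euler_coeff]
      simp only [RingHom.coe_mk, MonoidHom.coe_mk, OneHom.coe_mk, HahnSeries.coeff_zero]
      rw [ratCast_eq_C, HahnSeries.C_apply, HahnSeries.coeff_single]
      split_ifs with h
      · subst h; simp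
      · simp

theorem LS_θ (f : LaurentSeries ℚ) : LS.θ f = euler f := rfl

theorem mem_LS_K {f : LaurentSeries ℚ} : f ∈ LS.K ↔ ∃ q : ℚ, (q : LaurentSeries ℚ) = f := Iff.rfl

/-- the variable -/
noncomputable def zz : LaurentSeries ℚ := ((PowerSeries.X : PowerSeries ℚ) : LaurentSeries ℚ)

theorem zz_eq : zz = HahnSeries.single 1 1 := PowerSeries.coe_X

theorem zz_ne_zero : zz ≠ 0 := by
  rw [zz_eq]; exact HahnSeries.single_ne_zero one_ne_zero

theorem θ_zz : LS.θ zz = zz := by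
  rw [LS_θ, zz_eq]
  ext n
  rw [euler_coeff, HahnSeries.coeff_single]
  split_ifs with h
  · subst h; simp
  · simp

theorem coeff_zz_mul (f : LaurentSeries ℚ) (n : ℤ) : (zz * f).coeff n = f.coeff (n - 1) := by
  have h := HahnSeries.coeff_single_mul_add (r := (1 : ℚ)) (x := f) (a := n - 1) (b := (1 : ℤ))
  rw [zz_eq]
  have h1 : n - 1 + 1 = n := by ring
  rw [h1, one_mul] at h
  exact h

theorem coeff_rat_mul (q : ℚ) (f : LaurentSeries ℚ) (n : ℤ) :
    ((q : LaurentSeries ℚ) * f).coeff n = q * f.coeff n := by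
  rw [ratCast_eq_C, HahnSeries.C_mul_eq_smul, HahnSeries.coeff_smul, smul_eq_mul]

/-- the base field `ℚ(z)` -/
noncomputable def F0 : Subfield (LaurentSeries ℚ) := adjF LS.K zz

theorem LS_K_stab : LS.Stab LS.K := fun x hx => by rw [(LS.mem_K x).2 hx]; exact LS.K.zero_mem

theorem F0_stab : LS.Stab F0 :=
  LS.stab_adjF LS_K_stab (by rw [θ_zz]; exact self_mem_adjF _ _)

theorem K_le_F0 : LS.K ≤ F0 := le_adjF _ _

theorem zz_mem_F0 : zz ∈ F0 := self_mem_adjF _ _

theorem rat_mem_K (q : ℚ) : (q : LaurentSeries ℚ) ∈ LS.K := ⟨q, rfl⟩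

theorem noExp_F0 {r : ℚ} (hr : r ≠ 0) : LS.NoExp F0 (r * zz) :=
  LS.noExp_base zz_ne_zero θ_zz (rat_mem_K r) (by exact_mod_cast hr)

theorem noConst (F : Subfield (LaurentSeries ℚ)) (r : ℚ) : LS.NoConst F (r * zz) := by
  rintro n b _ c ⟨q, rfl⟩ h
  have hcoef : ∀ m : ℤ, (m : ℚ) * b.coeff m + n * r * b.coeff (m - 1) = if m = 0 then q else 0 := by
    intro m
    have h1 := congrArg (fun f => HahnSeries.coeff f m) h
    rw [HahnSeries.coeff_add, LS_θ, euler_coeff] at h1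
    have h2 : (n : LaurentSeries ℚ) * (r * zz) * b = (((n * r : ℚ)) : LaurentSeries ℚ) * (zz * b) := by
      push_cast; ring
    rw [h2, coeff_rat_mul, coeff_zz_mul] at h1
    rw [h1]
    change ((q : ℚ) : LaurentSeries ℚ).coeff m = _
    rw [ratCast_eq_C, HahnSeries.C_apply, HahnSeries.coeff_single]
    split_ifs <;> rfl
  have hneg : b.coeff (-1) = 0 := by
    by_contra hne
    have hb : b ≠ 0 := by rintro rfl; simp at hne
    have h1 : b.order ≤ -1 := HahnSeries.order_le_of_coeff_ne_zero hne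
    have h2 := hcoef b.order
    rw [HahnSeries.coeff_eq_zero_of_lt_order (i := b.order - 1) (by omega), if_neg (by omega)] at h2
    have h3 : b.coeff b.order ≠ 0 := fun h => hb (HahnSeries.coeff_order_eq_zero.1 h)
    have h4 : ((b.order : ℤ) : ℚ) ≠ 0 := by
      have : b.order ≠ 0 := by omega
      exact_mod_cast this
    apply mul_ne_zero h4 h3
    linarith
  have h0 := hcoef 0
  rw [if_pos rfl] at h0
  simp only [zero_sub, hneg, Int.cast_zero, zero_mul, mul_zero, add_zero] at h0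
  rw [← h0]; simp

theorem coeff_zero_of_eq_θ {g e : LaurentSeries ℚ} (h : g = LS.θ e) : g.coeff 0 = 0 := by
  rw [h, LS_θ]; exact coeff_zero_euler e

/-- index type of the tower -/
abbrev Idx (ι : Type*) := Option (ι ⊕ ι ⊕ ι)

/-- the combined family -/
def fam {ι : Type*} (X : LaurentSeries ℚ) (y₁ y₂ y₃ : ι → LaurentSeries ℚ) :
    Idx ι → LaurentSeries ℚ
  | none => X
  | some (Sum.inl i) => y₁ i
  | some (Sum.inr (Sum.inl i)) => y₂ i
  | some (Sum.inr (Sum.inr i)) => y₃ i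


/-- **Function level independence**: three levels of iterated primitives of exponentials -/
theorem tower_algIndep {ι : Type*} [Fintype ι] [DecidableEq ι] {r : ℚ} (hr : r ≠ 0)
    (X : LaurentSeries ℚ) (hX0 : X ≠ 0) (hX : LS.θ X = r * zz * X)
    (n : ι → ℤ) (hn0 : ∀ i, n i ≠ 0) (hninj : Function.Injective n)
    (y₁ y₂ y₃ h : ι → LaurentSeries ℚ) (hy₁ : ∀ i, LS.θ (y₁ i) = X ^ (n i) - 1)
    (hy₂ : ∀ i, LS.θ (y₂ i) = y₁ i) (hy₃ : ∀ i, LS.θ (y₃ i) = h i * y₂ i)
    (hh : ∀ i, h i ∈ adjF F0 X) (hh0 : ∀ i, (h i).coeff 0 ≠ 0) :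
    AlgebraicIndependent F0 (fam X y₁ y₂ y₃) := by
  classical
  set x := fam X y₁ y₂ y₃ with hx
  let l₁ : ι ↪ Idx ι := ⟨fun i => some (Sum.inl i), fun i j h => by simpa using h⟩
  let l₂ : ι ↪ Idx ι := ⟨fun i => some (Sum.inr (Sum.inl i)), fun i j h => by simpa using h⟩
  let l₃ : ι ↪ Idx ι := ⟨fun i => some (Sum.inr (Sum.inr i)), fun i j h => by simpa using h⟩
  let s₀ : Finset (Idx ι) := {none}
  let s₁ : Finset (Idx ι) := Finset.univ.map l₁
  let s₂ : Finset (Idx ι) := Finset.univ.map l₂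
  let s₃ : Finset (Idx ι) := Finset.univ.map l₃
  have haF : (r : LaurentSeries ℚ) * zz ∈ F0 := F0.mul_mem (K_le_F0 (rat_mem_K r)) zz_mem_F0
  have hL₀ : fld F0 x s₀ = adjF F0 X := by
    have : s₀ = insert none ∅ := rfl
    rw [this, fld_insert, fld_empty]; rfl
  have hst₀ : LS.Stab (fld F0 x s₀) := by
    rw [hL₀]
    apply LS.stab_adjF F0_stab
    rw [hX]
    exact (adjF F0 X).mul_mem (le_adjF _ _ haF) (self_mem_adjF _ _)
  have hKL₀ : LS.K ≤ fld F0 x s₀ := K_le_F0.trans (le_fld _ _ _)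
  -- level 0
  have hA₀ : AlgebraicIndepOn F0 x (s₀ : Set (Idx ι)) := by
    have h0 : AlgebraicIndepOn F0 x ((∅ : Finset (Idx ι)) : Set (Idx ι)) := by
      rw [Finset.coe_empty]
      exact algebraicIndependent_empty_type
    have : (s₀ : Set (Idx ι)) = insert none ((∅ : Finset (Idx ι)) : Set (Idx ι)) := by
      simp [s₀]
    rw [this]
    apply h0.insert
    apply transcendental_adjoin_of
    rw [fld_empty]
    intro p hp hp0
    exact LS.transc_exp F0_stab hX0 haF hX (noExp_F0 hr) p hp hp0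
  -- level 1
  have hXz : ∀ m : ℤ, X ^ m ∈ fld F0 x s₀ := fun m => by
    rw [hL₀]; exact (adjF F0 X).zpow_mem (self_mem_adjF _ _) m
  have hθ₁ : ∀ j ∈ s₁, LS.θ (x j) ∈ fld F0 x s₀ := by
    intro j hj
    obtain ⟨i, _, rfl⟩ := Finset.mem_map.1 hj
    change LS.θ (y₁ i) ∈ _
    rw [hy₁]
    exact (fld F0 x s₀).sub_mem (hXz _) (fld F0 x s₀).one_mem
  have hlf₁ : LS.LinFree (fld F0 x s₀) x s₁ := by
    rw [hL₀]
    let N : Idx ι → ℤ := fun o => match o with
      | some (Sum.inl i) => n i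
      | _ => 1
    apply LS.linFree_exp F0_stab K_le_F0 hX0 haF hX (noExp_F0 hr) (noConst _ r) x s₁ N
    · intro j hj
      obtain ⟨i, _, rfl⟩ := Finset.mem_map.1 hj
      exact hn0 i
    · intro j hj j' hj' hjj
      obtain ⟨i, _, rfl⟩ := Finset.mem_map.1 hj
      obtain ⟨i', _, rfl⟩ := Finset.mem_map.1 hj'
      exact congrArg l₁ (hninj hjj)
    · intro j hj
      obtain ⟨i, _, rfl⟩ := Finset.mem_map.1 hj
      exact hy₁ i
  obtain ⟨hA₁, hst₁⟩ := LS.algIndep_level K_le_F0 x s₀ s₁ hA₀ hst₀ hθ₁ hlf₁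
  -- level 2
  have hθ₂ : ∀ j ∈ s₂, LS.θ (x j) ∈ fld F0 x (s₀ ∪ s₁) := by
    intro j hj
    obtain ⟨i, _, rfl⟩ := Finset.mem_map.1 hj
    change LS.θ (y₂ i) ∈ _
    rw [hy₂]
    exact mem_fld (y := x) (i := l₁ i) (Finset.mem_union_right _ (Finset.mem_map_of_mem _ (Finset.mem_univ _)))
  have hlf₂ : LS.LinFree (fld F0 x (s₀ ∪ s₁)) x s₂ := by
    intro c hc hcx j hj
    obtain ⟨i, _, rfl⟩ := Finset.mem_map.1 hj
    rw [fld_union] at hcx
    have h1 := LS.chain hst₀ hKL₀ x s₁ hθ₁ hlf₁ _ hcx (fun o => match o with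
      | some (Sum.inl i) => c (l₂ i)
      | _ => 0) (by
        intro j hj
        obtain ⟨i, _, rfl⟩ := Finset.mem_map.1 hj
        exact hKL₀ (hc _)) 0 (fld F0 x s₀).zero_mem (by
        rw [map_sum, Finset.sum_map, Finset.sum_map, add_zero]
        refine Finset.sum_congr rfl fun i _ => ?_
        rw [LS.const_mul (hc _)]
        change c (l₂ i) * LS.θ (y₂ i) = c (l₂ i) * y₁ i
        rw [hy₂]) (l₁ i) (Finset.mem_map_of_mem _ (Finset.mem_univ _))
    obtain ⟨e, _, he⟩ := h1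
    have h2 : c (l₂ i) = LS.θ e := he
    have h3 := coeff_zero_of_eq_θ h2
    obtain ⟨q, hq⟩ := hc (l₂ i)
    have hq' : ((q : ℚ) : LaurentSeries ℚ) = c (l₂ i) := hq
    rw [← hq', ratCast_eq_C, HahnSeries.C_apply, HahnSeries.coeff_single_same] at h3
    rw [← hq', h3]; simp
  obtain ⟨hA₂, hst₂⟩ := LS.algIndep_level K_le_F0 x (s₀ ∪ s₁) s₂ hA₁ hst₁ hθ₂ hlf₂
  have hKL₁ : LS.K ≤ fld F0 x (s₀ ∪ s₁) := K_le_F0.trans (le_fld _ _ _)
  -- level 3
  have hhL : ∀ i, h i ∈ fld F0 x (s₀ ∪ s₁) := fun i => by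
    have h1 := hh i
    rw [← hL₀] at h1
    exact fld_mono le_rfl Finset.subset_union_left h1
  have hθ₃ : ∀ j ∈ s₃, LS.θ (x j) ∈ fld F0 x (s₀ ∪ s₁ ∪ s₂) := by
    intro j hj
    obtain ⟨i, _, rfl⟩ := Finset.mem_map.1 hj
    change LS.θ (y₃ i) ∈ _
    rw [hy₃]
    exact (fld F0 x (s₀ ∪ s₁ ∪ s₂)).mul_mem (fld_mono le_rfl Finset.subset_union_left (hhL i))
      (mem_fld (y := x) (i := l₂ i) (Finset.mem_union_right _ (Finset.mem_map_of_mem _ (Finset.mem_univ _))))
  have hlf₃ : LS.LinFree (fld F0 x (s₀ ∪ s₁ ∪ s₂)) x s₃ := by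
    intro c hc hcx j hj
    obtain ⟨i, _, rfl⟩ := Finset.mem_map.1 hj
    rw [fld_union] at hcx
    have h1 := LS.chain hst₁ hKL₁ x s₂ hθ₂ hlf₂ _ hcx (fun o => match o with
      | some (Sum.inr (Sum.inl i)) => c (l₃ i) * h i
      | _ => 0) (by
        intro j hj
        obtain ⟨i, _, rfl⟩ := Finset.mem_map.1 hj
        exact (fld F0 x (s₀ ∪ s₁)).mul_mem (hKL₁ (hc _)) (hhL i))
        0 (fld F0 x (s₀ ∪ s₁)).zero_mem (by
        rw [map_sum, Finset.sum_map, Finset.sum_map, add_zero]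
        refine Finset.sum_congr rfl fun i _ => ?_
        rw [LS.const_mul (hc _)]
        change c (l₃ i) * LS.θ (y₃ i) = c (l₃ i) * h i * y₂ i
        rw [hy₃, mul_assoc]) (l₂ i) (Finset.mem_map_of_mem _ (Finset.mem_univ _))
    obtain ⟨e, _, he⟩ := h1
    have h2 : c (l₃ i) * h i = LS.θ e := he
    have h3 := coeff_zero_of_eq_θ h2
    obtain ⟨q, hq⟩ := hc (l₃ i)
    have hq' : ((q : ℚ) : LaurentSeries ℚ) = c (l₃ i) := hq
    rw [← hq', coeff_rat_mul] at h3
    have h4 : q = 0 := (mul_eq_zero.1 h3).resolve_right (hh0 i)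
    rw [← hq', h4]; simp
  obtain ⟨hA₃, _⟩ := LS.algIndep_level K_le_F0 x (s₀ ∪ s₁ ∪ s₂) s₃ hA₂ hst₂ hθ₃ hlf₃
  have huniv : (((s₀ ∪ s₁ ∪ s₂ ∪ s₃ : Finset (Idx ι))) : Set (Idx ι)) = Set.univ := by
    ext o
    simp only [Finset.coe_union, Set.mem_union, Finset.mem_coe, Set.mem_univ, iff_true]
    rcases o with _ | i | i | i
    · left; left; left; simp [s₀]
    · left; left; right; exact Finset.mem_map_of_mem l₁ (Finset.mem_univ i)
    · left; right; exact Finset.mem_map_of_mem l₂ (Finset.mem_univ i)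
    · right; exact Finset.mem_map_of_mem l₃ (Finset.mem_univ i)
  rw [huniv] at hA₃
  have h5 := (algebraicIndependent_equiv (R := F0) (f := x) (Equiv.Set.univ (Idx ι))).1 (by
    exact hA₃)
  exact h5

end Pool.Agent.SS
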