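import Pool.Agent.SS.EFun
import Pool.Agent.SS.LS

/-!
# Algebraic independence of values of `E`-functions
-/

namespace Pool.Agent.SS

open Polynomial

theorem exists_int_multiple {J : Type*} [Fintype J] (c : J → ℚ) :
    ∃ (D : ℕ) (z : J → ℤ), 0 < D ∧ ∀ j, (D : ℚ) * c j = z j := by
  classical
  refine ⟨∏ j, (c j).den, fun j => (c j).num * (∏ i ∈ Finset.univ.erase j, (c i).den : ℕ), ?_, ?_⟩
  · exact Finset.prod_pos fun j _ => (c j).den_pos
  · intro j
    rw [← Finset.mul_prod_erase Finset.univ (fun j => (c j).den) (Finset.mem_univ j)]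
    push_cast
    have h : ((c j).den : ℚ) * c j = (c j).num := by rw [mul_comm]; exact Rat.mul_den_eq_num _
    rw [← h]; ring

/-- Siegel–Shidlovskii for families indexed by a finite type -/
theorem ss_fintype {J : Type*} [Fintype J] (f : J → PowerSeries ℚ) (hE : ∀ j, IsE (f j))
    (hst : ∀ j, ths (f j) ∈ Submodule.span ℚ[X] (Set.range f))
    (hli : ∀ P : J → ℚ[X], ∑ j, (P j : PowerSeries ℚ) * f j = 0 → P = 0)
    (j0 : J) (hj0 : f j0 = 1) (c : J → ℚ) (hc : ∑ j, (c j : ℝ) * ev (f j) = 0) : c = 0 := by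
  classical
  let e : Fin (Fintype.card J) ≃ J := (Fintype.equivFin J).symm
  let a : Fin (Fintype.card J) → ℕ → ℚ := fun i n =>
    (n.factorial : ℚ) * PowerSeries.coeff n (f (e i))
  have ha : ∀ i, eser (a i) = f (e i) := fun i => eser_coeff _
  have hM : ∀ i, ∃ m : Fin (Fintype.card J) → ℚ[X],
      ths (eser (a i)) = ∑ j, (m j : PowerSeries ℚ) * eser (a j) := by
    intro i
    rw [ha]
    obtain ⟨m, hm⟩ := (Submodule.mem_span_range_iff_exists_fun _).1 (hst (e i))
    refine ⟨fun j => m (e j), ?_⟩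
    rw [← hm, ← Equiv.sum_comp e]
    refine Finset.sum_congr rfl fun j _ => ?_
    rw [ha, Algebra.smul_def, PowerSeries.algebraMap_apply']
    simp
  choose M hM using hM
  obtain ⟨D, z, hD, hz⟩ := exists_int_multiple c
  by_contra hne
  have hlam : (fun i => z (e i)) ≠ 0 := by
    intro h
    apply hne
    ext j
    have h1 := congrFun h (e.symm j)
    simp only [Equiv.apply_symm_apply, Pi.zero_apply] at h1
    have h2 := hz j
    rw [h1, Int.cast_zero] at h2
    exact (mul_eq_zero.1 h2).resolve_left (by positivity)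
  refine ss_linear (Matrix.of M) a (fun i => hE (e i)) (fun i => hM i) ?_ (e.symm j0) ?_
    (fun i => z (e i)) hlam ?_
  · intro P hP
    have h1 := hli (fun j => P (e.symm j)) (by
      rw [← hP, lin, ← Equiv.sum_comp e]
      refine Finset.sum_congr rfl fun i _ => ?_
      rw [Equiv.symm_apply_apply, ha])
    ext1 i
    have h2 := congrFun h1 (e i)
    simpa using h2
  · rw [ha, Equiv.apply_symm_apply, hj0]
  · have h1 : ∑ i, ((z (e i) : ℤ) : ℝ) * ev (eser (a i)) = (D : ℝ) * ∑ j, (c j : ℝ) * ev (f j) := by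
      rw [Finset.mul_sum, ← Equiv.sum_comp e]
      refine Finset.sum_congr rfl fun i _ => ?_
      rw [ha]
      have h2 : ((z (e i) : ℤ) : ℝ) = (D : ℝ) * (c (e i) : ℝ) := by
        have := hz (e i)
        have h3 : (((D : ℚ) * c (e i) : ℚ) : ℝ) = (((z (e i) : ℤ) : ℚ) : ℝ) := by rw [this]
        push_cast at h3
        exact h3.symm
      rw [h2]; ring
    rw [h1, hc, mul_zero]

/-- `e^{c z}` -/
noncomputable def ex (c : ℚ) : PowerSeries ℚ := eser fun n => c ^ n

theorem ex_eq (c : ℚ) : ex c = PowerSeries.rescale c (PowerSeries.exp ℚ) := by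
  ext n
  rw [ex, coeff_eser, PowerSeries.coeff_rescale, PowerSeries.coeff_exp]
  simp [div_eq_mul_inv]

theorem ex_add (a b : ℚ) : ex (a + b) = ex a * ex b := by
  rw [ex_eq, ex_eq, ex_eq, PowerSeries.exp_mul_exp_eq_exp_add]

theorem ex_zero : ex 0 = 1 := by
  ext n
  rw [ex, coeff_eser, PowerSeries.coeff_one]
  rcases Nat.eq_zero_or_pos n with rfl | hn
  · simp
  · rw [if_neg hn.ne', zero_pow hn.ne', zero_div]

theorem isE_ex (c : ℚ) : IsE (ex c) := by
  apply isE_eser
  have := edata_one.scale c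
  simpa using this

theorem ths_ex (c : ℚ) : ths (ex c) = ((C c * X : ℚ[X]) : PowerSeries ℚ) * ex c := by
  have hcoe : ((C c * X : ℚ[X]) : PowerSeries ℚ) = PowerSeries.C c * PowerSeries.X := by
    rw [Polynomial.coe_mul, Polynomial.coe_C, Polynomial.coe_X]
  ext n
  rw [coeff_ths, hcoe, mul_assoc, PowerSeries.coeff_C_mul]
  cases n with
  | zero => simp
  | succ n =>
    rw [PowerSeries.coeff_succ_X_mul, ex, coeff_eser, coeff_eser, Nat.factorial_succ]
    have : (n.factorial : ℚ) ≠ 0 := by exact_mod_cast (Nat.factorial_pos n).ne'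
    push_cast
    field_simp
    ring

theorem ev_ex (c : ℚ) : ev (ex c) = Real.exp c := by
  unfold ev
  rw [Real.exp_eq_exp_ℝ, NormedSpace.exp_eq_tsum_div]
  congr 1
  ext n
  rw [ex, coeff_eser]
  push_cast; rfl

section mono

variable {ι : Type*} [Fintype ι]

/-- monomials -/
noncomputable def mono (r : ℚ) (y : ι → PowerSeries ℚ) (p : ℤ × (ι → ℕ)) : PowerSeries ℚ :=
  ex (p.1 * r) * ∏ i, y i ^ p.2 i

/-- weight -/
def wgt (w : ι → ℕ) (p : ℤ × (ι → ℕ)) : ℕ := p.1.natAbs + ∑ i, p.2 i * w i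

/-- the module of functions of weight `≤ T` -/
noncomputable def VV (r : ℚ) (y : ι → PowerSeries ℚ) (w : ι → ℕ) (T : ℕ) :
    Submodule ℚ[X] (PowerSeries ℚ) := Submodule.span ℚ[X] (mono r y '' {p | wgt w p ≤ T})

variable {r : ℚ} {y : ι → PowerSeries ℚ} {w : ι → ℕ}

theorem VV_mono {S T : ℕ} (h : S ≤ T) : VV r y w S ≤ VV r y w T :=
  Submodule.span_mono (Set.image_mono fun _ hp => le_trans hp h)

theorem mono_mem {p : ℤ × (ι → ℕ)} {T : ℕ} (h : wgt w p ≤ T) : mono r y p ∈ VV r y w T :=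
  Submodule.subset_span ⟨p, h, rfl⟩

theorem mono_mul (p q : ℤ × (ι → ℕ)) : mono r y p * mono r y q = mono r y (p + q) := by
  simp only [mono, Prod.fst_add, Prod.snd_add, Pi.add_apply, pow_add, Finset.prod_mul_distrib]
  push_cast
  rw [add_mul, ex_add]; ring

theorem wgt_add_le (p q : ℤ × (ι → ℕ)) : wgt w (p + q) ≤ wgt w p + wgt w q := by
  simp only [wgt, Prod.fst_add, Prod.snd_add, Pi.add_apply, add_mul, Finset.sum_add_distrib]
  have := Int.natAbs_add_le p.1 q.1
  omega

theorem VV_mul {S T : ℕ} {f g : PowerSeries ℚ} (hf : f ∈ VV r y w S) (hg : g ∈ VV r y w T) :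
    f * g ∈ VV r y w (S + T) := by
  have h1 : f * g ∈ VV r y w S * VV r y w T := Submodule.mul_mem_mul hf hg
  unfold VV at h1
  rw [Submodule.span_mul_span] at h1
  refine Submodule.span_le.2 ?_ h1
  rintro _ ⟨_, ⟨p, hp, rfl⟩, _, ⟨q, hq, rfl⟩, rfl⟩
  simp only [mono_mul]
  exact mono_mem ((wgt_add_le p q).trans (add_le_add hp hq))

/-- functions of weight `≤ T` whose derivative has weight `≤ T` -/
def WW (r : ℚ) (y : ι → PowerSeries ℚ) (w : ι → ℕ) (T : ℕ) (f : PowerSeries ℚ) : Prop :=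
  f ∈ VV r y w T ∧ ths f ∈ VV r y w T

theorem WW.mul {S T : ℕ} {f g : PowerSeries ℚ} (hf : WW r y w S f) (hg : WW r y w T g) :
    WW r y w (S + T) (f * g) := by
  refine ⟨VV_mul hf.1 hg.1, ?_⟩
  rw [ths_mul]
  exact Submodule.add_mem _ (VV_mul hf.2 hg.1) (VV_mul hf.1 hg.2)

theorem smul_eq_coe_mul (p : ℚ[X]) (f : PowerSeries ℚ) : p • f = (p : PowerSeries ℚ) * f := by
  rw [Algebra.smul_def, PowerSeries.algebraMap_apply']
  simp

theorem WW_one : WW r y w 0 1 := by
  have h1 : (1 : PowerSeries ℚ) = mono r y 0 := by simp [mono, ex_zero]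
  refine ⟨?_, ?_⟩
  · rw [h1]; exact mono_mem (by simp [wgt])
  · have : ths (1 : PowerSeries ℚ) = 0 := by
      ext n
      rw [coeff_ths, PowerSeries.coeff_one, map_zero]
      split_ifs with h
      · subst h; simp
      · simp
    rw [this]; exact Submodule.zero_mem _

theorem WW_ex (n : ℤ) : WW r y w n.natAbs (ex (n * r)) := by
  have h1 : ex (n * r) = mono r y (n, 0) := by simp [mono]
  have h2 : mono r y (n, 0) ∈ VV r y w n.natAbs := mono_mem (by simp [wgt])
  refine ⟨by rw [h1]; exact h2, ?_⟩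
  rw [ths_ex, ← smul_eq_coe_mul, h1]
  exact Submodule.smul_mem _ _ h2

theorem WW.pow {S : ℕ} {f : PowerSeries ℚ} (hf : WW r y w S f) (n : ℕ) :
    WW r y w (n * S) (f ^ n) := by
  induction n with
  | zero => rw [pow_zero, zero_mul]; exact WW_one
  | succ n ih => rw [pow_succ, add_mul, one_mul]; exact ih.mul hf

theorem WW.prod (s : Finset ι) (f : ι → PowerSeries ℚ) (S : ι → ℕ)
    (h : ∀ i ∈ s, WW r y w (S i) (f i)) : WW r y w (∑ i ∈ s, S i) (∏ i ∈ s, f i) := by
  classical
  induction s using Finset.induction_on with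
  | empty => rw [Finset.prod_empty, Finset.sum_empty]; exact WW_one
  | insert a s ha ih =>
    rw [Finset.prod_insert ha, Finset.sum_insert ha]
    exact (h a (Finset.mem_insert_self _ _)).mul (ih fun i hi => h i (Finset.mem_insert_of_mem hi))

theorem ths_mono_mem (hθ : ∀ i, ths (y i) ∈ VV r y w (w i)) (p : ℤ × (ι → ℕ)) :
    ths (mono r y p) ∈ VV r y w (wgt w p) := by
  classical
  have hy : ∀ i, WW r y w (w i) (y i) := by
    intro i
    refine ⟨?_, hθ i⟩
    have h1 : y i = mono r y (0, Pi.single i 1) := by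
      simp only [mono, Int.cast_zero, zero_mul, ex_zero, one_mul]
      rw [Finset.prod_eq_single i]
      · simp
      · intro j _ hj; simp [Pi.single_eq_of_ne hj]
      · intro h; exact absurd (Finset.mem_univ _) h
    have h2 : mono r y (0, Pi.single i 1) ∈ VV r y w (w i) := by
      apply mono_mem
      simp only [wgt, Int.natAbs_zero, zero_add]
      rw [Finset.sum_eq_single i]
      · simp
      · intro j _ hj; simp [Pi.single_eq_of_ne hj]
      · intro h; exact absurd (Finset.mem_univ _) h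
    rw [← h1] at h2
    exact h2
  exact ((WW_ex p.1).mul (WW.prod Finset.univ _ _ fun i _ => (hy i).pow (p.2 i))).2

/-- the finite index set -/
noncomputable def JJ (w : ι → ℕ) (T : ℕ) : Finset (ℤ × (ι → ℕ)) := by
  classical
  exact (Finset.Icc (-(T : ℤ)) T ×ˢ Fintype.piFinset fun _ => Finset.range (T + 1)).filter
    fun p => wgt w p ≤ T

theorem mem_JJ (hw : ∀ i, 1 ≤ w i) {T : ℕ} {p : ℤ × (ι → ℕ)} : p ∈ JJ w T ↔ wgt w p ≤ T := by
  classical
  unfold JJ
  rw [Finset.mem_filter, Finset.mem_product, Finset.mem_Icc, Fintype.mem_piFinset]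
  refine ⟨fun h => h.2, fun h => ⟨⟨?_, ?_⟩, h⟩⟩
  · unfold wgt at h
    constructor <;> omega
  · intro i
    have h1 : p.2 i * w i ≤ ∑ i, p.2 i * w i :=
      Finset.single_le_sum (f := fun i => p.2 i * w i) (fun _ _ => Nat.zero_le _) (Finset.mem_univ i)
    have h2 : p.2 i ≤ p.2 i * w i := Nat.le_mul_of_pos_right _ (hw i)
    unfold wgt at h
    rw [Finset.mem_range]
    omega

theorem isE_mono (hE : ∀ i, IsE (y i)) (p : ℤ × (ι → ℕ)) : IsE (mono r y p) :=
  (isE_ex _).mul (IsE.prod _ _ fun i _ => (hE i).pow _)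

theorem ev_one : ev 1 = 1 := by
  have h2 := ev_coe (1 : ℚ[X])
  rw [Polynomial.coe_one] at h2
  rw [h2]; simp

theorem ev_pow {f : PowerSeries ℚ} (hf : IsE f) (n : ℕ) : ev (f ^ n) = ev f ^ n := by
  induction n with
  | zero => rw [pow_zero, pow_zero, ev_one]
  | succ n ih => rw [pow_succ, pow_succ, ev_mul (hf.pow n).asum hf.asum, ih]

theorem ev_prod {α : Type*} (s : Finset α) (f : α → PowerSeries ℚ) (h : ∀ i ∈ s, IsE (f i)) :
    ev (∏ i ∈ s, f i) = ∏ i ∈ s, ev (f i) := by
  classical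
  induction s using Finset.induction_on with
  | empty => rw [Finset.prod_empty, Finset.prod_empty, ev_one]
  | insert a s ha ih =>
    rw [Finset.prod_insert ha, Finset.prod_insert ha, ev_mul (h a (Finset.mem_insert_self _ _)).asum
      (IsE.prod s f fun i hi => h i (Finset.mem_insert_of_mem hi)).asum,
      ih fun i hi => h i (Finset.mem_insert_of_mem hi)]

theorem ev_mono (hE : ∀ i, IsE (y i)) (p : ℤ × (ι → ℕ)) :
    ev (mono r y p) = Real.exp (p.1 * r) * ∏ i, ev (y i) ^ p.2 i := by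
  rw [mono, ev_mul (isE_ex _).asum (IsE.prod _ _ fun i _ => (hE i).pow _).asum, ev_ex,
    ev_prod _ _ fun i _ => (hE i).pow _]
  congr 1
  · push_cast; rfl
  · exact Finset.prod_congr rfl fun i _ => ev_pow (hE i) _

/-- **Linear independence of the values of all monomials**, from function level independence. -/
theorem ss_mono (hw : ∀ i, 1 ≤ w i) (hE : ∀ i, IsE (y i)) (hθ : ∀ i, ths (y i) ∈ VV r y w (w i))
    (T : ℕ)
    (hli : ∀ P : JJ w T → ℚ[X], ∑ j, (P j : PowerSeries ℚ) * mono r y j = 0 → P = 0)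
    (c : JJ w T → ℚ)
    (hc : ∑ j, (c j : ℝ) * (Real.exp ((j : ℤ × (ι → ℕ)).1 * r) *
      ∏ i, ev (y i) ^ (j : ℤ × (ι → ℕ)).2 i) = 0) : c = 0 := by
  apply ss_fintype (fun j : JJ w T => mono r y j) (fun j => isE_mono hE _) _ hli
    ⟨0, (mem_JJ hw).2 (by simp [wgt])⟩ (by simp [mono, ex_zero]) c
  · rw [← hc]
    refine Finset.sum_congr rfl fun j _ => ?_
    rw [ev_mono hE]
  · intro j
    have h1 := ths_mono_mem hθ (j : ℤ × (ι → ℕ))
    have h2 : VV r y w (wgt w (j : ℤ × (ι → ℕ))) ≤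
        Submodule.span ℚ[X] (Set.range fun j : JJ w T => mono r y j) := by
      apply Submodule.span_mono
      rintro _ ⟨p, hp, rfl⟩
      exact ⟨⟨p, (mem_JJ hw).2 (le_trans hp ((mem_JJ hw).1 j.2))⟩, rfl⟩
    exact h2 h1

end mono

end Pool.Agent.SS
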