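import Mathlib

/-!
# Nonvanishing maximal minors of a matrix with linearly independent rows
-/

namespace Pool.Agent.SS

open Matrix

/-- Over a field: a matrix with linearly independent rows has a nonzero maximal minor. -/
theorem exists_minor_field {K : Type*} [Field K] {r : ℕ} {ι : Type*} [Fintype ι]
    (P : Matrix (Fin r) ι K) (h : LinearIndependent K P.row) :
    ∃ I : Fin r → ι, (P.submatrix id I).det ≠ 0 := by
  classical
  have hrank : P.rank = r := by simpa using h.rank_matrix
  have hcol : Submodule.span K (Set.range P.col) = ⊤ := by
    apply Submodule.eq_top_of_finrank_eq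
    rw [← Matrix.rank_eq_finrank_span_cols, hrank]
    simp
  obtain ⟨κ, a, _, hsp, hli⟩ := exists_linearIndependent' K P.col
  rw [hcol] at hsp
  let b : Module.Basis κ K (Fin r → K) := Module.Basis.mk hli (by rw [hsp])
  have hfin : Finite κ := Module.Finite.finite_basis b
  haveI := Fintype.ofFinite κ
  have hcard : Fintype.card κ = r := by
    have := Module.finrank_eq_card_basis b
    simpa using this.symm
  let e : Fin r ≃ κ := (Fintype.equivFinOfCardEq hcard).symm
  refine ⟨a ∘ e, ?_⟩
  have hli2 : LinearIndependent K (P.submatrix id (a ∘ e)).col := by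
    have := hli.comp e e.injective
    exact this
  rw [Matrix.linearIndependent_cols_iff_isUnit, Matrix.isUnit_iff_isUnit_det] at hli2
  exact hli2.ne_zero

/-- Over a domain. -/
theorem exists_minor {A : Type*} [CommRing A] [IsDomain A] {r : ℕ} {ι : Type*} [Fintype ι]
    (P : Matrix (Fin r) ι A) (h : ∀ v : Fin r → A, v ᵥ* P = 0 → v = 0) :
    ∃ I : Fin r → ι, (P.submatrix id I).det ≠ 0 := by
  classical
  let K := FractionRing A
  have h1 : LinearIndependent K (P.map (algebraMap A K)).row := by
    rw [← LinearIndependent.iff_fractionRing A K, Fintype.linearIndependent_iff]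
    intro g hg i
    have : g = 0 := by
      apply h
      ext j
      have hj := congrFun hg j
      simp only [Matrix.row, Finset.sum_apply, Pi.smul_apply, Matrix.map_apply, Pi.zero_apply] at hj
      have h3 : algebraMap A K (∑ i, g i * P i j) = 0 := by
        rw [map_sum, ← hj]
        refine Finset.sum_congr rfl fun i _ => ?_
        rw [map_mul, Algebra.smul_def]
      have h4 := (IsFractionRing.injective A K) (h3.trans (map_zero _).symm)
      simpa [Matrix.vecMul, dotProduct] using h4
    rw [this]; rfl
  obtain ⟨I, hI⟩ := exists_minor_field _ h1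
  refine ⟨I, fun h0 => hI ?_⟩
  have : ((P.map (algebraMap A K)).submatrix id I) = (P.submatrix id I).map (algebraMap A K) := rfl
  rw [this, ← RingHom.mapMatrix_apply, ← RingHom.map_det, h0, map_zero]

end Pool.Agent.SS
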