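import Pool.Agent.SS.Defs

/-!
# Sizes of integer polynomials and the integral version of the derived forms
-/

namespace Pool.Agent.SS

open Polynomial

variable {w : ℕ}

/-- `ℓ¹` norm of an integer polynomial -/
noncomputable def l1 (p : ℤ[X]) : ℝ := ∑ i ∈ Finset.range (p.natDegree + 1), |(p.coeff i : ℝ)|

theorem l1_nonneg (p : ℤ[X]) : 0 ≤ l1 p := Finset.sum_nonneg fun _ _ => abs_nonneg _

theorem l1_eq (p : ℤ[X]) {N : ℕ} (h : p.natDegree < N) :
    l1 p = ∑ i ∈ Finset.range N, |(p.coeff i : ℝ)| := by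
  apply Finset.sum_subset
  · intro i hi
    simp only [Finset.mem_range] at hi ⊢
    omega
  · intro i _ hi2
    simp only [Finset.mem_range, not_lt] at hi2
    rw [Polynomial.coeff_eq_zero_of_natDegree_lt (by omega)]
    simp

theorem l1_zero : l1 0 = 0 := by simp [l1]

theorem l1_add_le (p q : ℤ[X]) : l1 (p + q) ≤ l1 p + l1 q := by
  have h1 := natDegree_add_le p q
  rw [l1_eq p (N := max p.natDegree q.natDegree + 1) (by omega),
    l1_eq q (N := max p.natDegree q.natDegree + 1) (by omega),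
    l1_eq (p + q) (N := max p.natDegree q.natDegree + 1) (by omega), ← Finset.sum_add_distrib]
  refine Finset.sum_le_sum fun i _ => ?_
  rw [Polynomial.coeff_add]
  push_cast
  exact abs_add_le _ _

theorem l1_sum_le {α : Type*} (s : Finset α) (f : α → ℤ[X]) :
    l1 (∑ i ∈ s, f i) ≤ ∑ i ∈ s, l1 (f i) := by
  classical
  induction s using Finset.induction_on with
  | empty => simp [l1_zero]
  | insert a s ha ih =>
    rw [Finset.sum_insert ha, Finset.sum_insert ha]
    exact (l1_add_le _ _).trans (add_le_add le_rfl ih)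

theorem l1_C_mul_X_pow_mul (b : ℤ) (a : ℕ) (p : ℤ[X]) :
    l1 (C b * X ^ a * p) ≤ |(b : ℝ)| * l1 p := by
  have hdeg : (C b * X ^ a * p).natDegree < a + (p.natDegree + 1) := by
    have h1 := natDegree_mul_le (p := C b * X ^ a) (q := p)
    have h2 := natDegree_C_mul_X_pow_le b a
    omega
  rw [l1_eq _ hdeg, Finset.sum_range_add]
  have h1 : ∑ i ∈ Finset.range a, |((C b * X ^ a * p).coeff i : ℝ)| = 0 := by
    apply Finset.sum_eq_zero
    intro i hi
    rw [mul_assoc, coeff_C_mul, coeff_X_pow_mul', if_neg (by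
      simp only [Finset.mem_range] at hi; omega)]
    simp
  rw [h1, zero_add, l1, Finset.mul_sum]
  refine Finset.sum_le_sum fun i _ => ?_
  rw [mul_assoc, coeff_C_mul, coeff_X_pow_mul', if_pos (by omega)]
  have : a + i - a = i := by omega
  rw [this]
  push_cast
  rw [abs_mul]

theorem l1_mul_le (p q : ℤ[X]) : l1 (p * q) ≤ l1 p * l1 q := by
  conv_lhs => rw [p.as_sum_range_C_mul_X_pow]
  rw [Finset.sum_mul]
  refine (l1_sum_le _ _).trans ?_
  have h : l1 p * l1 q = ∑ i ∈ Finset.range (p.natDegree + 1), |(p.coeff i : ℝ)| * l1 q := by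
    rw [l1, Finset.sum_mul]
  rw [h]
  refine Finset.sum_le_sum fun i _ => l1_C_mul_X_pow_mul _ _ _

/-- `θ` on integer polynomials -/
noncomputable def thZ (p : ℤ[X]) : ℤ[X] := X * derivative p

theorem coeff_thZ (p : ℤ[X]) (i : ℕ) : (thZ p).coeff i = i * p.coeff i := by
  cases i with
  | zero => simp [thZ]
  | succ i =>
    rw [thZ, coeff_X_mul, coeff_derivative]
    push_cast; ring

theorem natDegree_thZ_le (p : ℤ[X]) : (thZ p).natDegree ≤ p.natDegree := by
  rw [natDegree_le_iff_coeff_eq_zero]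
  intro i hi
  rw [coeff_thZ, coeff_eq_zero_of_natDegree_lt hi, mul_zero]

theorem l1_thZ_le (p : ℤ[X]) : l1 (thZ p) ≤ p.natDegree * l1 p := by
  rw [l1_eq (thZ p) (N := p.natDegree + 1) (Nat.lt_succ_of_le (natDegree_thZ_le p)), l1,
    Finset.mul_sum]
  refine Finset.sum_le_sum fun i hi => ?_
  rw [coeff_thZ]
  push_cast
  rw [abs_mul, abs_of_nonneg (by positivity : (0 : ℝ) ≤ (i : ℝ))]
  apply mul_le_mul_of_nonneg_right _ (abs_nonneg _)
  simp only [Finset.mem_range] at hi
  exact_mod_cast Nat.lt_succ_iff.1 hi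

theorem abs_eval_one_le (p : ℤ[X]) : |((p.eval 1 : ℤ) : ℝ)| ≤ l1 p := by
  rw [eval_eq_sum_range]
  simp only [one_pow, mul_one]
  push_cast
  exact Finset.abs_sum_le_sum_abs _ _

/-- integral version of `DD`, multiplied by `c` -/
noncomputable def DZ (c : ℕ) (M' : Matrix (Fin w) (Fin w) ℤ[X]) (P : Fin w → ℤ[X]) : Fin w → ℤ[X] :=
  fun j => C (c : ℤ) * thZ (P j) + ∑ i, P i * M' i j

/-- The cast from integer to rational polynomials -/
noncomputable def toQ : ℤ[X] →+* ℚ[X] := mapRingHom (Int.castRingHom ℚ)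

theorem toQ_thZ (p : ℤ[X]) : toQ (thZ p) = thp (toQ p) := by
  simp [toQ, thZ, thp, derivative_map]

theorem DD_smul (M : Matrix (Fin w) (Fin w) ℚ[X]) (q : ℚ) (P : Fin w → ℚ[X]) :
    DD M (fun i => C q * P i) = fun i => C q * DD M P i := by
  ext1 j
  simp only [DD, thp, derivative_C_mul, mul_add, Finset.mul_sum]
  congr 1
  · ring
  · refine Finset.sum_congr rfl fun i _ => by ring

theorem toQ_DZ (c : ℕ) (M : Matrix (Fin w) (Fin w) ℚ[X]) (M' : Matrix (Fin w) (Fin w) ℤ[X])
    (hM : ∀ i j, toQ (M' i j) = C (c : ℚ) * M i j) (P : Fin w → ℤ[X]) (j : Fin w) :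
    toQ (DZ c M' P j) = C (c : ℚ) * DD M (fun i => toQ (P i)) j := by
  simp only [DZ, DD, map_add, map_mul, map_sum, hM, toQ_thZ, mul_add, Finset.mul_sum]
  congr 1
  · congr 1
    simp [toQ]
  · refine Finset.sum_congr rfl fun i _ => by ring

theorem toQ_DZ_iterate (c : ℕ) (M : Matrix (Fin w) (Fin w) ℚ[X]) (M' : Matrix (Fin w) (Fin w) ℤ[X])
    (hM : ∀ i j, toQ (M' i j) = C (c : ℚ) * M i j) (P : Fin w → ℤ[X]) (k : ℕ) (j : Fin w) :
    toQ ((DZ c M')^[k] P j) = C ((c : ℚ) ^ k) * (DD M)^[k] (fun i => toQ (P i)) j := by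
  induction k generalizing j with
  | zero => simp
  | succ k ih =>
    rw [Function.iterate_succ_apply', toQ_DZ c M M' hM]
    have : (fun i => toQ ((DZ c M')^[k] P i)) = fun i => C ((c : ℚ) ^ k) *
        (DD M)^[k] (fun i => toQ (P i)) i := by
      ext1 i; exact ih i
    rw [this, DD_smul, Function.iterate_succ_apply', pow_succ, C_mul]
    ring

/-- growth of degrees and of the `ℓ¹` norms -/
theorem DZ_bounds (c : ℕ) (M' : Matrix (Fin w) (Fin w) ℤ[X]) {t : ℕ}
    (ht : ∀ i j, (M' i j).natDegree ≤ t) {μ : ℝ} (hμ : ∀ j, ∑ i, l1 (M' i j) ≤ μ)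
    (P : Fin w → ℤ[X]) {n : ℕ} {B : ℝ}
    (hn : ∀ i, (P i).natDegree ≤ n) (hB : ∀ i, l1 (P i) ≤ B) (k K : ℕ) (hk : k ≤ K) (j : Fin w) :
    ((DZ c M')^[k] P j).natDegree ≤ n + k * t ∧
      l1 ((DZ c M')^[k] P j) ≤ (c * (n + K * t) + μ) ^ k * B := by
  have hB0 : 0 ≤ B := (l1_nonneg _).trans (hB j)
  have hμ0 : 0 ≤ μ := (Finset.sum_nonneg fun i _ => l1_nonneg _).trans (hμ j)
  induction k generalizing j with
  | zero => exact ⟨by simpa using hn j, by simpa using hB j⟩
  | succ k ih =>
    have ih' := ih (by omega)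
    rw [Function.iterate_succ_apply']
    set Q := (DZ c M')^[k] P with hQ
    constructor
    · unfold DZ
      refine natDegree_add_le_of_degree_le ?_ ?_
      · refine le_trans natDegree_mul_le ?_
        have h1 := natDegree_thZ_le (Q j)
        have h2 := (ih' j).1
        rw [natDegree_C]
        have : n + k * t ≤ n + (k + 1) * t := by nlinarith
        omega
      · refine natDegree_sum_le_of_forall_le _ _ fun i _ => ?_
        refine le_trans natDegree_mul_le ?_
        have h1 := (ih' i).1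
        have h2 := ht i j
        have : n + k * t + t = n + (k + 1) * t := by ring
        omega
    · have h1 : l1 (DZ c M' Q j) ≤ c * ((n + K * t) * ((c * (n + K * t) + μ) ^ k * B)) +
          ∑ i, ((c * (n + K * t) + μ) ^ k * B) * l1 (M' i j) := by
        unfold DZ
        refine (l1_add_le _ _).trans (add_le_add ?_ ?_)
        · have h2 := l1_C_mul_X_pow_mul (c : ℤ) 0 (thZ (Q j))
          simp only [pow_zero, mul_one] at h2
          refine h2.trans ?_
          have h3 : |(((c : ℕ) : ℤ) : ℝ)| = (c : ℝ) := by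
            push_cast; exact abs_of_nonneg (by positivity)
          rw [h3]
          apply mul_le_mul_of_nonneg_left _ (by positivity)
          refine (l1_thZ_le _).trans ?_
          apply mul_le_mul _ (ih' j).2 (l1_nonneg _) (by positivity)
          have h4 := (ih' j).1
          have h5 : (((Q j).natDegree : ℕ) : ℝ) ≤ ((n + k * t : ℕ) : ℝ) := by exact_mod_cast h4
          refine h5.trans ?_
          push_cast
          have h6 : (k : ℝ) * t ≤ K * t := by
            apply mul_le_mul_of_nonneg_right _ (by positivity)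
            exact_mod_cast (by omega : k ≤ K)
          linarith
        · refine (l1_sum_le _ _).trans (Finset.sum_le_sum fun i _ => ?_)
          refine (l1_mul_le _ _).trans ?_
          exact mul_le_mul_of_nonneg_right (ih' i).2 (l1_nonneg _)
      refine h1.trans ?_
      rw [← Finset.mul_sum, pow_succ]
      have h2 : (c * (n + K * t) + μ) ^ k * B * ∑ i, l1 (M' i j) ≤
          (c * (n + K * t) + μ) ^ k * B * μ :=
        mul_le_mul_of_nonneg_left (hμ j) (by positivity)
      have h3 : (c : ℝ) * ((n + K * t) * ((c * (n + K * t) + μ) ^ k * B)) +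
          (c * (n + K * t) + μ) ^ k * B * μ = (c * (n + K * t) + μ) ^ k * (c * (n + K * t) + μ) * B := by
        ring
      linarith

end Pool.Agent.SS
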