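import Pool.Agent.SS.Minor
import Pool.Agent.SS.Size

/-!
# Linear algebra used in the final step
-/

namespace Pool.Agent.SS

open Polynomial Matrix

variable {w : ℕ}

/-- a common denominator of a rational polynomial -/
theorem exists_int_poly (p : ℚ[X]) : ∃ (c : ℕ), 0 < c ∧ ∀ e : ℕ, c ∣ e → ∃ q : ℤ[X],
    toQ q = C (e : ℚ) * p ∧ q.natDegree ≤ p.natDegree := by
  classical
  refine ⟨∏ i ∈ Finset.range (p.natDegree + 1), (p.coeff i).den, ?_, ?_⟩
  · exact Finset.prod_pos fun i _ => (p.coeff i).den_pos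
  · intro e he
    have h1 : ∀ i, ∃ z : ℤ, (e : ℚ) * p.coeff i = z := by
      intro i
      by_cases hi : i ∈ Finset.range (p.natDegree + 1)
      · obtain ⟨f, hf⟩ := (Finset.dvd_prod_of_mem (fun i => (p.coeff i).den) hi).trans he
        refine ⟨f * (p.coeff i).num, ?_⟩
        rw [hf]
        push_cast
        have h2 : ((p.coeff i).den : ℚ) * p.coeff i = (p.coeff i).num := by
          rw [mul_comm]; exact Rat.mul_den_eq_num _
        calc ((p.coeff i).den : ℚ) * f * p.coeff i = f * (((p.coeff i).den : ℚ) * p.coeff i) := by ring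
          _ = _ := by rw [h2]
      · refine ⟨0, ?_⟩
        rw [Polynomial.coeff_eq_zero_of_natDegree_lt (by simpa [Nat.lt_succ_iff] using hi)]
        simp
    choose z hz using h1
    refine ⟨∑ i ∈ Finset.range (p.natDegree + 1), C (z i) * X ^ i, ?_, ?_⟩
    · ext i
      rw [coeff_C_mul, hz]
      simp only [toQ, coe_mapRingHom, coeff_map, finsetSum_coeff, coeff_C_mul_X_pow]
      rw [Finset.sum_ite_eq]
      split_ifs with h
      · simp
      · simp only [map_zero]
        have h3 := hz i
        rw [Polynomial.coeff_eq_zero_of_natDegree_lt (by simpa [Nat.lt_succ_iff] using h)] at h3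
        rw [← h3]; simp
    · refine natDegree_sum_le_of_forall_le _ _ fun i hi => ?_
      refine le_trans (natDegree_C_mul_X_pow_le _ _) ?_
      exact Nat.lt_succ_iff.1 (Finset.mem_range.1 hi)

/-- a common denominator of a matrix of rational polynomials -/
theorem exists_int_matrix (M : Matrix (Fin w) (Fin w) ℚ[X]) :
    ∃ (c : ℕ) (M' : Matrix (Fin w) (Fin w) ℤ[X]), 0 < c ∧
      (∀ i j, toQ (M' i j) = C (c : ℚ) * M i j) ∧ (∀ i j, (M' i j).natDegree ≤ (M i j).natDegree) := by
  classical
  choose c hc0 hc using fun i j => exists_int_poly (M i j)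
  choose q hq using fun i j => hc i j (∏ i, ∏ j, c i j)
    ((Finset.dvd_prod_of_mem (fun j => c i j) (Finset.mem_univ j)).trans
      (Finset.dvd_prod_of_mem (fun i => ∏ j, c i j) (Finset.mem_univ i)))
  exact ⟨∏ i, ∏ j, c i j, Matrix.of q, Finset.prod_pos fun i _ => Finset.prod_pos fun j _ => hc0 i j,
    fun i j => (hq i j).1, fun i j => (hq i j).2⟩

/-- Completing a nonzero vector by members of a family with trivial common kernel -/
theorem exists_complete {m : ℕ} (v : Fin m → Fin w → ℚ)
    (hv : ∀ lam : Fin w → ℚ, (∀ k, ∑ j, v k j * lam j = 0) → lam = 0)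
    (u : Fin w → ℚ) (hu : u ≠ 0) :
    ∃ (r0 : Fin w) (κ : Fin w → Fin m),
      (Matrix.of fun (r : Fin w) (j : Fin w) => if r = r0 then u j else v (κ r) j).det ≠ 0 := by
  classical
  have hli : LinearIndependent ℚ (Matrix.of v)ᵀ.row := by
    rw [Fintype.linearIndependent_iff]
    intro g hg i
    have : g = 0 := by
      apply hv
      intro k
      have hk := congrFun hg k
      simp only [Matrix.row, Finset.sum_apply, Pi.smul_apply, Matrix.transpose_apply,
        Matrix.of_apply, smul_eq_mul, Pi.zero_apply] at hk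
      rw [← hk]
      exact Finset.sum_congr rfl fun j _ => mul_comm _ _
    rw [this]; rfl
  obtain ⟨κ, hκ⟩ := exists_minor_field _ hli
  set A : Matrix (Fin w) (Fin w) ℚ := Matrix.of fun r j => v (κ r) j with hA
  have hA0 : A.det ≠ 0 := by
    rw [← Matrix.det_transpose]
    exact hκ
  by_contra hcon
  push Not at hcon
  have h1 : ∀ r0, (A.updateRow r0 u).det = 0 := by
    intro r0
    rw [← hcon r0 κ]
    congr 1
    ext r j
    rw [Matrix.updateRow_apply]
    rfl
  apply hu
  have h2 : Matrix.cramer Aᵀ u = 0 := by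
    ext r0
    rw [Matrix.cramer_transpose_apply, h1]
    rfl
  have h3 := Matrix.mulVec_cramer Aᵀ u
  rw [h2, Matrix.mulVec_zero, Matrix.det_transpose] at h3
  exact (smul_eq_zero.1 h3.symm).resolve_left hA0

/-- Row/column bound for determinants -/
theorem abs_det_le_of_le {n : Type*} [Fintype n] [DecidableEq n] (A : Matrix n n ℝ) (ρ κ : n → ℝ)
    (h : ∀ i j, |A i j| ≤ ρ i * κ j) :
    |A.det| ≤ (Fintype.card n).factorial * ((∏ i, ρ i) * ∏ j, κ j) := by
  rw [Matrix.det_apply]
  refine (Finset.abs_sum_le_sum_abs _ _).trans ?_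
  have h1 : ∀ σ ∈ (Finset.univ : Finset (Equiv.Perm n)),
      |Equiv.Perm.sign σ • ∏ i, A (σ i) i| ≤ (∏ i, ρ i) * ∏ j, κ j := by
    intro σ _
    have h2 : |Equiv.Perm.sign σ • ∏ i, A (σ i) i| = |∏ i, A (σ i) i| := by
      rcases Int.units_eq_one_or (Equiv.Perm.sign σ) with hs | hs
      · rw [hs, one_smul]
      · rw [hs, Units.neg_smul, one_smul, abs_neg]
    rw [h2, Finset.abs_prod]
    refine (Finset.prod_le_prod (fun _ _ => abs_nonneg _) fun i _ => h (σ i) i).trans ?_
    rw [Finset.prod_mul_distrib]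
    apply le_of_eq
    congr 1
    exact Equiv.prod_comp σ ρ
  refine (Finset.sum_le_card_nsmul _ _ _ h1).trans ?_
  rw [Finset.card_univ, Fintype.card_perm, nsmul_eq_mul]

end Pool.Agent.SS
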