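import Pool.Agent.SS.JFun

/-!
# The algebraic part of the argument
-/

namespace Pool.Agent.SS

open Polynomial Set

theorem affine_indep {R A ι : Type*} [CommRing R] [IsDomain R] [CommRing A] [Algebra R A]
    {x : ι → A} (hx : AlgebraicIndependent R x) (a b : ι → R) (ha : ∀ i, a i ≠ 0) :
    AlgebraicIndependent R (fun i => algebraMap R A (a i) * (algebraMap R A (b i) - x i)) := by
  have h := hx.polynomial_aeval_of_transcendental (f := fun i => C (a i) * (C (b i) - X)) (by
    intro i
    have h1 : (C (a i) * (C (b i) - X) : R[X]).coeff 1 = -a i := by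
      rw [coeff_C_mul, coeff_sub, coeff_C, coeff_X_one]; simp
    have h2 : (C (a i) * (C (b i) - X) : R[X]).natDegree ≠ 0 := by
      intro h
      rw [coeff_eq_zero_of_natDegree_lt (by omega)] at h1
      exact ha i (by simpa using h1.symm)
    apply Polynomial.transcendental _ h2
    apply mem_nonZeroDivisors_of_ne_zero
    intro h3
    rw [leadingCoeff_eq_zero.1 h3] at h2
    simp at h2)
  simpa using h

/-- passing to a large ring of scalars -/
theorem exists_scalars {R A κ₁ κ₂ : Type} [CommRing R] [IsDomain R] [CommRing A] [IsDomain A]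
    [Algebra R A] {x : κ₁ → A} {y : κ₂ → A} (h : AlgebraicIndependent R (Sum.elim x y)) :
    ∃ (S : Type) (_ : CommRing S) (_ : IsDomain S) (_ : Algebra R S) (_ : Algebra S A)
      (_ : IsScalarTower R S A), Function.Injective (algebraMap R S) ∧ AlgebraicIndependent S x ∧
      ∀ a : A, IsAlgebraic (Algebra.adjoin R (range y)) a → a ∈ range (algebraMap S A) := by
  have h1 := AlgebraicIndependent.sumElim_iff.1 h
  let R1 := Algebra.adjoin R (range y)
  have h2 : AlgebraicIndependent (Subalgebra.algebraicClosure R1 A) x :=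
    h1.2.subalgebraAlgebraicClosure
  refine ⟨Subalgebra.algebraicClosure R1 A, inferInstance, inferInstance, inferInstance,
    inferInstance, inferInstance, ?_, h2, ?_⟩
  · have h3 : Function.Injective (algebraMap R A) := h.algebraMap_injective
    intro a b hab
    apply h3
    exact congrArg Subtype.val hab
  · intro a ha
    exact ⟨⟨a, ha⟩, rfl⟩

/-- `J(r)` with `ζ(3)` replaced by an arbitrary real number -/
noncomputable def Jz (z : ℝ) (r : ℚ) : ℝ := Real.exp r * z - ev (Hk 3 r)

theorem ev_Hk_zero (k : ℕ) : ev (Hk k 0) = 0 := by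
  have : Hk k 0 = 0 := by
    ext n
    rw [Hk, coeff_eser]
    rcases Nat.eq_zero_or_pos n with rfl | hn
    · simp [harm_zero]
    · simp [hn.ne']
  rw [this, ev_zero]

theorem Jz_zero (z : ℝ) : Jz z 0 = z := by
  rw [Jz, ev_Hk_zero]; simp

theorem Jz_eq (z : ℝ) (r : ℚ) : Jz z r = Real.exp r * (z - ev (Uk 3 r)) := by
  rw [Jz, ev_Uk, mul_sub, ← mul_assoc, ← Real.exp_add]; simp

/-- `e^r` for `r` with bounded denominator is algebraic over `ℚ(e^{1/D})` -/
theorem exp_algebraic {R : Type*} [CommRing R] [IsDomain R] [Algebra R ℝ] {D : ℕ} {r : ℚ} {n : ℤ}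
    (hn : r = n * (1 / (D : ℚ))) (h : IsAlgebraic R (Real.exp ((1 / (D : ℚ) : ℚ)))) :
    IsAlgebraic R (Real.exp r) := by
  obtain ⟨m, rfl | rfl⟩ := n.eq_nat_or_neg
  · have h1 : (r : ℝ) = (m : ℝ) * ((1 / (D : ℚ) : ℚ) : ℝ) := by
      rw [hn]; push_cast; ring
    rw [h1, Real.exp_nat_mul]; exact h.pow m
  · have h1 : (r : ℝ) = -((m : ℝ) * ((1 / (D : ℚ) : ℚ) : ℝ)) := by
      rw [hn]; push_cast; ring
    rw [h1, Real.exp_neg, Real.exp_nat_mul]; exact (h.pow m).inv

/-- the values of `e^{-r} ∑ H_n r^n / n!` at nonzero rational numbers, over a large field -/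
theorem exists_scalars_U (S : Finset ℚ) (hS : ∀ r ∈ S, r ≠ 0) :
    ∃ (K : Type) (_ : CommRing K) (_ : IsDomain K) (_ : Algebra ℚ K) (_ : Algebra K ℝ)
      (_ : IsScalarTower ℚ K ℝ), AlgebraicIndependent K (fun r : S => ev (Uk 3 r)) ∧
      (∀ r ∈ S, Real.exp (r : ℚ) ∈ range (algebraMap K ℝ)) ∧
      (∀ a : ℝ, IsAlgebraic ℚ a → a ∈ range (algebraMap K ℝ)) ∧
      Real.exp 1 ∈ range (algebraMap K ℝ) ∧ Transcendental ℚ (Real.exp 1) := by
  classical
  obtain ⟨D, n, hD, hn⟩ := exists_common_den (fun r : S => (r : ℚ))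
  have hv := values_level3 (fun r : S => (r : ℚ)) (fun r => hS r r.2) Subtype.val_injective hD n hn
    (fun r => Uk 3 r) (fun r => - n r) (fun r => isE_Uk 3 r) (fun r => by
      rw [ths_Uk_succ]
      congr 2
      have := hn r
      push_cast
      linarith)
  -- reindex
  have h1 : AlgebraicIndependent ℚ (Sum.elim (fun r : S => ev (Uk 3 r))
      (fun _ : Unit => Real.exp ((1 / (D : ℚ) : ℚ)))) := by
    have h2 := hv.comp (Sum.elim (fun i => some (Sum.inr (Sum.inr i))) (fun _ : Unit => none)) (by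
      rintro (a | a) (b | b) h
      · simp only [Sum.elim_inl, Option.some.injEq, Sum.inr.injEq] at h
        rw [h]
      · simp at h
      · simp at h
      · rfl)
    convert h2 using 1
    funext o
    rcases o with i | i <;> rfl
  obtain ⟨K, i1, i2, i3, i4, i5, hinj, hK, halg⟩ := exists_scalars h1
  have he1 : Real.exp 1 = Real.exp ((1 / (D : ℚ) : ℚ)) ^ D := by
    rw [← Real.exp_nat_mul]
    congr 1
    push_cast
    have : (D : ℝ) ≠ 0 := by positivity
    field_simp
  refine ⟨K, i1, i2, i3, i4, i5, hK, ?_, ?_, ?_, ?_⟩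
  · intro r hr
    apply halg
    apply exp_algebraic (hn ⟨r, hr⟩)
    exact isAlgebraic_algebraMap (⟨_, Algebra.subset_adjoin ⟨(), rfl⟩⟩ :
      Algebra.adjoin ℚ (range fun _ : Unit => Real.exp ((1 / (D : ℚ) : ℚ))))
  · intro a ha
    apply halg
    exact ha.extendScalars (algebraMap ℚ _).injective
  · apply halg
    rw [he1]
    exact (isAlgebraic_algebraMap (⟨_, Algebra.subset_adjoin ⟨(), rfl⟩⟩ :
      Algebra.adjoin ℚ (range fun _ : Unit => Real.exp ((1 / (D : ℚ) : ℚ))))).pow D
  · intro h
    rw [he1] at h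
    exact h1.transcendental (Sum.inr ()) (IsAlgebraic.of_pow hD h)

/-- **Main algebraic statement.** -/
theorem Jz_dichotomy (z : ℝ) (r₀ : ℚ) :
    Transcendental ℚ (Jz z r₀) ∨ AlgebraicIndependent ℚ (fun o : Option {r : ℚ // r ≠ r₀} =>
      o.elim (Real.exp 1) fun r => Jz z r) := by
  classical
  by_cases htr : Transcendental ℚ (Jz z r₀)
  · exact Or.inl htr
  right
  have hβ : IsAlgebraic ℚ (Jz z r₀) := by
    rwa [Transcendental, not_not] at htr
  apply algebraicIndependent_of_finite_type
  intro t ht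
  have := ht.fintype
  let S : Finset ℚ := (insert r₀ (Finset.univ.image fun o : t =>
    (o : Option {r : ℚ // r ≠ r₀}).elim 0 fun r => (r : ℚ))).filter fun r => r ≠ 0
  have hS0 : ∀ r ∈ S, r ≠ 0 := fun r hr => (Finset.mem_filter.1 hr).2
  have htS : ∀ r : {r : ℚ // r ≠ r₀}, some r ∈ t → (r : ℚ) ≠ 0 → (r : ℚ) ∈ S := by
    intro r hrt hr
    exact Finset.mem_filter.2 ⟨Finset.mem_insert_of_mem (Finset.mem_image.2
      ⟨⟨some r, hrt⟩, Finset.mem_univ _, rfl⟩), hr⟩
  obtain ⟨K, i1, i2, i3, i4, i5, hK, hexp, halg, heK, hetr⟩ := exists_scalars_U S hS0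
  have hE1 : AlgebraicIndependent ℚ (fun _ : Unit => Real.exp 1) :=
    (algebraicIndependent_unique_type_iff (x := fun _ : Unit => Real.exp 1)).2 hetr
  by_cases hr₀ : r₀ = 0
  · -- the first case
    subst hr₀
    rw [Jz_zero] at hβ
    obtain ⟨b, hb⟩ := halg z hβ
    have h1 : ∀ r : S, ∃ a : K, algebraMap K ℝ a = Real.exp ((r : ℚ) : ℝ) :=
      fun r => hexp _ r.2
    choose a ha using h1
    have h3 := affine_indep hK a (fun _ => b) (fun r h => by
      have := ha r
      rw [h, map_zero] at this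
      exact (Real.exp_pos _).ne' this.symm)
    have h4 : AlgebraicIndependent K (fun r : S => Jz z (r : ℚ)) := by
      convert h3 using 1
      funext r
      rw [Jz_eq, ha, hb]
    have h5 := hE1.sumElim_of_tower (S := K) (y := fun r : S => Jz z (r : ℚ)) (by
        rintro _ ⟨_, rfl⟩
        exact heK) h4
    have h12 := h5.comp (fun o : t => match o with
      | ⟨none, _⟩ => Sum.inr ()
      | ⟨some r, hr⟩ => Sum.inl ⟨(r : ℚ), htS r hr r.2⟩) (by
        rintro ⟨o, ho⟩ ⟨o', ho'⟩ h
        rcases o with _ | r <;> rcases o' with _ | r'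
        · rfl
        · simp at h
        · simp at h
        · simp only [Sum.inl.injEq, Subtype.mk.injEq] at h
          exact Subtype.ext (congrArg some (Subtype.ext h)))
    convert h12 using 1
    funext o
    rcases o with ⟨_ | r, ho⟩ <;> rfl
  · -- the second case
    have hr₀S : r₀ ∈ S := Finset.mem_filter.2 ⟨Finset.mem_insert_self _ _, hr₀⟩
    set β := Jz z r₀ with hβdef
    obtain ⟨e₀, he₀⟩ := hexp r₀ hr₀S
    obtain ⟨β', hβ'⟩ := halg β hβ
    have hz : z = β * (Real.exp r₀)⁻¹ + ev (Uk 3 r₀) := by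
      rw [hβdef, Jz_eq]
      have := (Real.exp_pos (r₀ : ℝ)).ne'
      field_simp
      ring
    -- separate `r₀`
    have h1 : AlgebraicIndependent K (Sum.elim
        (fun r : {r : S // (r : ℚ) ≠ r₀} => ev (Uk 3 r)) (fun _ : Unit => ev (Uk 3 r₀))) := by
      have h2 := hK.comp (Sum.elim (fun r : {r : S // (r : ℚ) ≠ r₀} => (r : S))
        (fun _ : Unit => (⟨r₀, hr₀S⟩ : S))) (by
        rintro (a | a) (b | b) h
        · simp only [Sum.elim_inl] at h
          rw [Subtype.ext h]
        · simp only [Sum.elim_inl, Sum.elim_inr] at h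
          exact absurd (congrArg Subtype.val h) a.2
        · simp only [Sum.elim_inl, Sum.elim_inr] at h
          exact absurd (congrArg Subtype.val h).symm b.2
        · rfl)
      convert h2 using 1
      funext o
      rcases o with i | i <;> rfl
    obtain ⟨L, j1, j2, j3, j4, j5, hinj, hL, halgL⟩ := exists_scalars h1
    have hKL : ∀ a : K, ∃ l : L, algebraMap L ℝ l = algebraMap K ℝ a := fun a =>
      ⟨algebraMap K L a, (IsScalarTower.algebraMap_apply K L ℝ a).symm⟩
    let _ : Algebra ℚ L := ((algebraMap K L).comp (algebraMap ℚ K)).toAlgebra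
    have : IsScalarTower ℚ L ℝ := IsScalarTower.of_algebraMap_eq fun q => by
      change algebraMap ℚ ℝ q = algebraMap L ℝ (algebraMap K L (algebraMap ℚ K q))
      rw [← IsScalarTower.algebraMap_apply K L ℝ, ← IsScalarTower.algebraMap_apply ℚ K ℝ]
    have hU₀ : Transcendental K (ev (Uk 3 r₀)) := h1.transcendental (Sum.inr ())
    have hiK : IsAlgebraic K (β * (Real.exp r₀)⁻¹) := by
      rw [← hβ', ← he₀]
      exact (isAlgebraic_algebraMap _).mul (isAlgebraic_algebraMap _).inv
    have hztr : Transcendental K z := by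
      intro h3
      apply hU₀
      have h4 : ev (Uk 3 r₀) = z - β * (Real.exp r₀)⁻¹ := by rw [hz]; ring
      rw [h4]
      exact h3.sub hiK
    have hzL : z ∈ range (algebraMap L ℝ) := by
      apply halgL
      rw [hz]
      have h5 : IsAlgebraic (Algebra.adjoin K (range fun _ : Unit => ev (Uk 3 r₀)))
          (β * (Real.exp r₀)⁻¹) :=
        hiK.extendScalars (by
          intro a b hab
          exact h1.algebraMap_injective (congrArg Subtype.val hab))
      have h6 : IsAlgebraic (Algebra.adjoin K (range fun _ : Unit => ev (Uk 3 r₀)))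
          (ev (Uk 3 r₀)) := isAlgebraic_algebraMap (⟨_, Algebra.subset_adjoin ⟨(), rfl⟩⟩ :
        Algebra.adjoin K (range fun _ : Unit => ev (Uk 3 r₀)))
      exact h5.add h6
    obtain ⟨zL, hzL⟩ := hzL
    have h7 : ∀ r : {r : S // (r : ℚ) ≠ r₀}, ∃ a : L,
        algebraMap L ℝ a = Real.exp (((r : S) : ℚ) : ℝ) := by
      intro r
      obtain ⟨a, ha⟩ := hexp (r : S) (r : S).2
      obtain ⟨l, hl⟩ := hKL a
      exact ⟨l, hl.trans ha⟩
    choose a ha using h7
    have h8 := affine_indep hL a (fun _ => zL) (fun r h => by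
      have := ha r
      rw [h, map_zero] at this
      exact (Real.exp_pos _).ne' this.symm)
    have h9 : AlgebraicIndependent L (fun r : {r : S // (r : ℚ) ≠ r₀} => Jz z ((r : S) : ℚ)) := by
      convert h8 using 1
      funext r
      rw [Jz_eq, ha, hzL]
    have h10 : AlgebraicIndependent ℚ (Sum.elim (fun _ : Unit => z) (fun _ : Unit => Real.exp 1)) :=
      hE1.sumElim_of_tower (S := K) (y := fun _ : Unit => z) (by
        rintro _ ⟨_, rfl⟩
        exact heK) ((algebraicIndependent_unique_type_iff (x := fun _ : Unit => z)).2 hztr)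
    have h11 := h10.sumElim_of_tower (S := L) (y := fun r : {r : S // (r : ℚ) ≠ r₀} =>
      Jz z ((r : S) : ℚ)) (by
        rintro _ ⟨o, rfl⟩
        rcases o with _ | _
        · exact ⟨zL, hzL⟩
        · obtain ⟨a, ha⟩ := heK
          obtain ⟨l, hl⟩ := hKL a
          exact ⟨l, hl.trans ha⟩) h9
    have h12 := h11.comp (fun o : t => match o with
      | ⟨none, _⟩ => Sum.inr (Sum.inr ())
      | ⟨some r, hr⟩ => if h : (r : ℚ) = 0 then Sum.inr (Sum.inl ())
          else Sum.inl ⟨⟨(r : ℚ), htS r hr h⟩, r.2⟩) (by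
        rintro ⟨o, ho⟩ ⟨o', ho'⟩ hrs
        rcases o with _ | r <;> rcases o' with _ | r'
        · rfl
        · simp only at hrs
          split_ifs at hrs with h1
          simp at hrs
        · simp only at hrs
          split_ifs at hrs with h1
          simp at hrs
        · simp only at hrs
          split_ifs at hrs with h1 h2 h2
          · exact Subtype.ext (congrArg some (Subtype.ext (h1.trans h2.symm)))
          · simp only [Sum.inl.injEq, Subtype.mk.injEq] at hrs
            exact Subtype.ext (congrArg some (Subtype.ext hrs)))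
    convert h12 using 1
    funext o
    rcases o with ⟨_ | r, ho⟩
    · rfl
    · simp only [Function.comp_apply, Option.elim_some]
      split_ifs with h
      · simp only [Sum.elim_inr, Sum.elim_inl]
        rw [h, Jz_zero]
      · rfl

end Pool.Agent.SS
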