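import Pool.Agent.SS.Values

/-!
# Algebraic independence of values of `E`-functions
-/

namespace Pool.Agent.SS

open Polynomial

/-- power series as Laurent series -/
noncomputable def toL : PowerSeries ℚ →+* LaurentSeries ℚ := HahnSeries.ofPowerSeries ℤ ℚ

theorem toL_injective : Function.Injective toL := HahnSeries.ofPowerSeries_injective

theorem θ_toL (f : PowerSeries ℚ) : LS.θ (toL f) = toL (ths f) := euler_coe f

theorem toL_X : toL PowerSeries.X = zz := rfl

theorem toL_C (c : ℚ) : toL (PowerSeries.C c) = (c : LaurentSeries ℚ) := by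
  have h : (toL.comp (PowerSeries.C : ℚ →+* PowerSeries ℚ)) c = (c : LaurentSeries ℚ) := by
    have h1 := map_ratCast (toL.comp (PowerSeries.C : ℚ →+* PowerSeries ℚ)) c
    rwa [Rat.cast_id] at h1
  exact h

theorem toL_poly_mem (P : ℚ[X]) : toL (P : PowerSeries ℚ) ∈ F0 := by
  induction P using Polynomial.induction_on' with
  | add p q hp hq => rw [Polynomial.coe_add, map_add]; exact F0.add_mem hp hq
  | monomial n a =>
    have h1 : ((Polynomial.monomial n a : ℚ[X]) : PowerSeries ℚ) =
        PowerSeries.C a * PowerSeries.X ^ n := by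
      rw [← Polynomial.C_mul_X_pow_eq_monomial, Polynomial.coe_mul, Polynomial.coe_C,
        Polynomial.coe_pow, Polynomial.coe_X]
    rw [h1, map_mul, map_pow, toL_C, toL_X]
    exact F0.mul_mem (K_le_F0 (rat_mem_K a)) (F0.pow_mem zz_mem_F0 n)

theorem toL_poly_eq_zero {P : ℚ[X]} (h : toL (P : PowerSeries ℚ) = 0) : P = 0 := by
  have h1 : (P : PowerSeries ℚ) = 0 := toL_injective (h.trans (map_zero _).symm)
  exact Polynomial.coe_eq_zero_iff.1 h1

theorem ex_pow (c : ℚ) (n : ℕ) : ex c ^ n = ex (n * c) := by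
  induction n with
  | zero => simp [ex_zero]
  | succ n ih => rw [pow_succ, ih, ← ex_add]; congr 1; push_cast; ring

variable {ι : Type*} [Fintype ι]

theorem hli_of_algIndep (r : ℚ) (y : ι → PowerSeries ℚ) (w : ι → ℕ)
    (hx : AlgebraicIndependent F0 (fun o : Option ι => o.elim (toL (ex r)) (fun i => toL (y i))))
    (T : ℕ) (P : JJ w T → ℚ[X]) (hP : ∑ j, (P j : PowerSeries ℚ) * mono r y j = 0) : P = 0 := by
  classical
  set x : Option ι → LaurentSeries ℚ := fun o => o.elim (toL (ex r)) (fun i => toL (y i)) with hxdef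
  let Ph : JJ w T → F0 := fun j => ⟨toL (P j : PowerSeries ℚ), toL_poly_mem _⟩
  let e : JJ w T → Option ι →₀ ℕ := fun j => Finsupp.equivFunOnFinite.symm
    (fun o => o.elim ((j : ℤ × (ι → ℕ)).1 + T).toNat fun i => (j : ℤ × (ι → ℕ)).2 i)
  have hnn : ∀ j : JJ w T, 0 ≤ (j : ℤ × (ι → ℕ)).1 + T := by
    intro j
    have h1 : wgt w (j : ℤ × (ι → ℕ)) ≤ T := by
      have := j.2
      unfold JJ at this
      exact (Finset.mem_filter.1 this).2
    unfold wgt at h1
    omega
  have he : Function.Injective e := by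
    intro j j' h
    have h1 := DFunLike.congr_fun h none
    have h2 : ∀ i, (j : ℤ × (ι → ℕ)).2 i = (j' : ℤ × (ι → ℕ)).2 i := fun i =>
      DFunLike.congr_fun h (some i)
    have h3 : ((j : ℤ × (ι → ℕ)).1 + T).toNat = ((j' : ℤ × (ι → ℕ)).1 + T).toNat := h1
    apply Subtype.ext
    apply Prod.ext
    · have := hnn j
      have := hnn j'
      omega
    · funext i; exact h2 i
  let q : MvPolynomial (Option ι) F0 := ∑ j, MvPolynomial.monomial (e j) (Ph j)
  have hq : MvPolynomial.aeval x q = 0 := by
    have h1 : MvPolynomial.aeval x q =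
        toL (∑ j, (P j : PowerSeries ℚ) * mono r y j * ex (T * r)) := by
      rw [map_sum, map_sum]
      refine Finset.sum_congr rfl fun j _ => ?_
      rw [MvPolynomial.aeval_monomial, Finsupp.prod_fintype _ _ (fun _ => pow_zero _),
        Fintype.prod_option]
      have h2 : ex (T * r) * ex ((j : ℤ × (ι → ℕ)).1 * r) =
          ex r ^ ((j : ℤ × (ι → ℕ)).1 + T).toNat := by
        rw [← ex_add, ex_pow]
        congr 1
        have h3 : ((((j : ℤ × (ι → ℕ)).1 + T).toNat : ℕ) : ℚ) = (j : ℤ × (ι → ℕ)).1 + T := by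
          have h4 := Int.toNat_of_nonneg (hnn j)
          have h5 := congrArg (Int.cast (R := ℚ)) h4
          push_cast at h5
          exact h5
        rw [h3]; ring
      have h4 : (P j : PowerSeries ℚ) * mono r y j * ex (T * r) =
          (P j : PowerSeries ℚ) * (ex r ^ ((j : ℤ × (ι → ℕ)).1 + T).toNat *
            ∏ i, y i ^ (j : ℤ × (ι → ℕ)).2 i) := by
        rw [mono, ← h2]; ring
      rw [h4, map_mul, map_mul, map_pow, map_prod]
      simp only [map_pow]
      rfl
    rw [h1, ← Finset.sum_mul, hP, zero_mul, map_zero]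
  have hq0 : q = 0 := by
    have := (algebraicIndependent_iff.1 hx) q hq
    exact this
  ext1 j
  have h1 := congrArg (MvPolynomial.coeff (e j)) hq0
  rw [MvPolynomial.coeff_zero, MvPolynomial.coeff_sum] at h1
  simp only [MvPolynomial.coeff_monomial] at h1
  rw [Finset.sum_eq_single j] at h1
  · rw [if_pos rfl] at h1
    have h2 : toL (P j : PowerSeries ℚ) = 0 := congrArg Subtype.val h1
    simpa using toL_poly_eq_zero h2
  · intro j' _ hj'
    rw [if_neg (fun h => hj' (he h))]
  · intro h; exact absurd (Finset.mem_univ _) h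

/-- **Siegel–Shidlovskii, algebraic independence of values at `1`.** -/
theorem ss_algIndep {r : ℚ} {y : ι → PowerSeries ℚ} {w : ι → ℕ} (hw : ∀ i, 1 ≤ w i)
    (hE : ∀ i, IsE (y i)) (hθ : ∀ i, ths (y i) ∈ VV r y w (w i))
    (hx : AlgebraicIndependent F0 (fun o : Option ι => o.elim (toL (ex r)) (fun i => toL (y i)))) :
    AlgebraicIndependent ℚ (fun o : Option ι => o.elim (Real.exp r) (fun i => ev (y i))) := by
  classical
  rw [algebraicIndependent_iff]
  intro p hp
  let g : (Option ι →₀ ℕ) → ℤ × (ι → ℕ) := fun α => ((α none : ℕ), fun i => α (some i))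
  have hg : Function.Injective g := by
    intro α β h
    ext o
    rcases o with _ | i
    · have h1 : ((α none : ℕ) : ℤ) = ((β none : ℕ) : ℤ) := congrArg Prod.fst h
      exact_mod_cast h1
    · have := congrArg Prod.snd h
      exact congrFun this i
  let T : ℕ := ∑ α ∈ p.support, wgt w (g α)
  have hT : ∀ α ∈ p.support, g α ∈ JJ w T := fun α hα => (mem_JJ hw).2
    (Finset.single_le_sum (f := fun α => wgt w (g α)) (fun _ _ => Nat.zero_le _) hα)
  let Cf : ℤ × (ι → ℕ) → ℚ := fun q => ∑ α ∈ p.support, if g α = q then p.coeff α else 0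
  let val : ℤ × (ι → ℕ) → ℝ := fun q => Real.exp (q.1 * r) * ∏ i, ev (y i) ^ q.2 i
  have h1 : (fun j : JJ w T => Cf j) = 0 := by
    apply ss_mono hw hE hθ T (hli_of_algIndep r y w hx T)
    have h2 : ∑ j : JJ w T, ((Cf j : ℚ) : ℝ) * val j = ∑ q ∈ JJ w T, ((Cf q : ℚ) : ℝ) * val q :=
      Finset.sum_coe_sort (JJ w T) (fun q => ((Cf q : ℚ) : ℝ) * val q)
    have h3 : ∑ q ∈ JJ w T, ((Cf q : ℚ) : ℝ) * val q =
        ∑ α ∈ p.support, ((p.coeff α : ℚ) : ℝ) * val (g α) := by
      simp only [Cf]
      push_cast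
      simp only [Finset.sum_mul]
      rw [Finset.sum_comm]
      refine Finset.sum_congr rfl fun α hα => ?_
      rw [Finset.sum_eq_single (g α)]
      · simp
      · intro q _ hq
        rw [if_neg (fun h => hq h.symm)]; simp
      · intro h; exact absurd (hT α hα) h
    have h4 : ∑ α ∈ p.support, ((p.coeff α : ℚ) : ℝ) * val (g α) = 0 := by
      rw [← hp, MvPolynomial.aeval_def, MvPolynomial.eval₂_eq']
      refine Finset.sum_congr rfl fun α _ => ?_
      rw [Fintype.prod_option]
      have h5 : val (g α) = Real.exp r ^ α none * ∏ i, ev (y i) ^ α (some i) := by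
        simp only [val, g]
        congr 1
        rw [← Real.exp_nat_mul]
        push_cast; rfl
      rw [h5]; rfl
    have h6 := h2.trans (h3.trans h4)
    exact h6
  ext α
  rw [MvPolynomial.coeff_zero]
  by_cases hα : α ∈ p.support
  · have h2 := congrFun h1 ⟨g α, hT α hα⟩
    simp only [Cf, Pi.zero_apply] at h2
    rw [Finset.sum_eq_single α] at h2
    · simpa using h2
    · intro β _ hβ
      rw [if_neg (fun h => hβ (hg h))]
    · intro h; exact absurd hα h
  · exact MvPolynomial.notMem_support_iff.1 hα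

end Pool.Agent.SS
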