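import Pool.Agent.SS.Defs

/-!
# Evaluation of power series at `1`
-/

namespace Pool.Agent.SS

open Polynomial

variable {w : ℕ}

/-- value at `1` of a power series with rational coefficients -/
noncomputable def ev (g : PowerSeries ℚ) : ℝ := ∑' n, ((PowerSeries.coeff n g : ℚ) : ℝ)

/-- absolute convergence at `1` -/
def ASum (g : PowerSeries ℚ) : Prop := Summable fun n => |((PowerSeries.coeff n g : ℚ) : ℝ)|

theorem ASum.summable {g : PowerSeries ℚ} (h : ASum g) :
    Summable fun n => ((PowerSeries.coeff n g : ℚ) : ℝ) := Summable.of_abs h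

theorem ASum.add {f g : PowerSeries ℚ} (hf : ASum f) (hg : ASum g) : ASum (f + g) := by
  refine Summable.of_nonneg_of_le (fun _ => abs_nonneg _) (fun n => ?_) (Summable.add hf hg)
  rw [map_add]; push_cast
  exact abs_add_le _ _

theorem ev_add {f g : PowerSeries ℚ} (hf : ASum f) (hg : ASum g) : ev (f + g) = ev f + ev g := by
  unfold ev
  rw [← Summable.tsum_add hf.summable hg.summable]
  congr 1
  ext n
  rw [map_add]; push_cast; rfl

theorem ASum.zero : ASum 0 := by
  unfold ASum; simp only [map_zero, Rat.cast_zero, abs_zero]; exact summable_zero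

theorem ev_zero : ev 0 = 0 := by simp [ev]

theorem ASum.sum {α : Type*} (s : Finset α) (f : α → PowerSeries ℚ) (h : ∀ i ∈ s, ASum (f i)) :
    ASum (∑ i ∈ s, f i) := by
  classical
  induction s using Finset.induction_on with
  | empty => simpa using ASum.zero
  | insert a s ha ih =>
    rw [Finset.sum_insert ha]
    exact (h a (Finset.mem_insert_self _ _)).add (ih fun i hi => h i (Finset.mem_insert_of_mem hi))

theorem ev_sum {α : Type*} (s : Finset α) (f : α → PowerSeries ℚ) (h : ∀ i ∈ s, ASum (f i)) :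
    ev (∑ i ∈ s, f i) = ∑ i ∈ s, ev (f i) := by
  classical
  induction s using Finset.induction_on with
  | empty => simpa using ev_zero
  | insert a s ha ih =>
    rw [Finset.sum_insert ha, Finset.sum_insert ha,
      ev_add (h a (Finset.mem_insert_self _ _))
        (ASum.sum s f fun i hi => h i (Finset.mem_insert_of_mem hi)),
      ih fun i hi => h i (Finset.mem_insert_of_mem hi)]

theorem coeff_mul_cast (f g : PowerSeries ℚ) (n : ℕ) :
    ((PowerSeries.coeff n (f * g) : ℚ) : ℝ) = ∑ p ∈ Finset.HasAntidiagonal.antidiagonal n,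
      ((PowerSeries.coeff p.1 f : ℚ) : ℝ) * ((PowerSeries.coeff p.2 g : ℚ) : ℝ) := by
  rw [PowerSeries.coeff_mul]; push_cast; rfl

theorem ASum.mul {f g : PowerSeries ℚ} (hf : ASum f) (hg : ASum g) : ASum (f * g) := by
  have h := summable_norm_sum_mul_antidiagonal_of_summable_norm (f := fun n => ((PowerSeries.coeff n f : ℚ) : ℝ))
    (g := fun n => ((PowerSeries.coeff n g : ℚ) : ℝ)) hf hg
  unfold ASum
  simp only [Real.norm_eq_abs] at h
  simpa only [coeff_mul_cast] using h

theorem ev_mul {f g : PowerSeries ℚ} (hf : ASum f) (hg : ASum g) : ev (f * g) = ev f * ev g := by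
  unfold ev
  rw [tsum_mul_tsum_eq_tsum_sum_antidiagonal_of_summable_norm 
    (f := fun n => ((PowerSeries.coeff n f : ℚ) : ℝ))
    (g := fun n => ((PowerSeries.coeff n g : ℚ) : ℝ)) hf hg]
  simp only [coeff_mul_cast]

theorem ASum.coe (p : ℚ[X]) : ASum (p : PowerSeries ℚ) := by
  apply summable_of_ne_finset_zero (s := Finset.range (p.natDegree + 1))
  intro n hn
  simp only [Finset.mem_range, not_lt] at hn
  rw [Polynomial.coeff_coe, Polynomial.coeff_eq_zero_of_natDegree_lt (by omega)]
  simp

theorem ev_coe (p : ℚ[X]) : ev (p : PowerSeries ℚ) = ((p.eval 1 : ℚ) : ℝ) := by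
  unfold ev
  rw [tsum_eq_sum (s := Finset.range (p.natDegree + 1))]
  · rw [eval_eq_sum_range]
    simp only [Polynomial.coeff_coe, one_pow, mul_one]
    push_cast; rfl
  · intro n hn
    simp only [Finset.mem_range, not_lt] at hn
    rw [Polynomial.coeff_coe, Polynomial.coeff_eq_zero_of_natDegree_lt (by omega)]
    simp

theorem ASum.lin {f : Fin w → PowerSeries ℚ} (hf : ∀ i, ASum (f i)) (P : Fin w → ℚ[X]) :
    ASum (lin f P) := ASum.sum _ _ fun i _ => (ASum.coe _).mul (hf i)

theorem ev_lin {f : Fin w → PowerSeries ℚ} (hf : ∀ i, ASum (f i)) (P : Fin w → ℚ[X]) :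
    ev (lin f P) = ∑ i, (((P i).eval 1 : ℚ) : ℝ) * ev (f i) := by
  unfold SS.lin
  rw [ev_sum _ _ fun i _ => (ASum.coe _).mul (hf i)]
  refine Finset.sum_congr rfl fun i _ => ?_
  rw [ev_mul (ASum.coe _) (hf i), ev_coe]

/-- E-type power series converge absolutely -/
theorem ASum.of_bound {a : ℕ → ℚ} {C : ℕ} (ha : ∀ n, |a n| ≤ (C : ℚ) ^ (n + 1)) :
    ASum (PowerSeries.mk fun n => a n / (n.factorial : ℚ)) := by
  unfold ASum
  have h1 : Summable fun n : ℕ => (C : ℝ) * ((C : ℝ) ^ n / n.factorial) :=
    (Real.summable_pow_div_factorial (C : ℝ)).mul_left _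
  refine Summable.of_nonneg_of_le (fun _ => abs_nonneg _) (fun n => ?_) h1
  rw [PowerSeries.coeff_mk]
  push_cast
  rw [abs_div, abs_of_nonneg (by positivity : (0 : ℝ) ≤ (n.factorial : ℝ)), ← mul_div_assoc]
  apply div_le_div_of_nonneg_right _ (by positivity)
  have : |(a n : ℝ)| ≤ (C : ℝ) ^ (n + 1) := by exact_mod_cast ha n
  rw [pow_succ] at this
  linarith

/-- tail estimate -/
theorem tail_le (B : ℝ) (hB : 0 ≤ B) (N : ℕ) (g : ℕ → ℝ) (A : ℝ)
    (h0 : ∀ m < N, g m = 0) (h : ∀ m, N ≤ m → |g m| ≤ A * (B ^ m / m.factorial)) (hA : 0 ≤ A) :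
    |∑' m, g m| ≤ A * (B ^ N / N.factorial * Real.exp B) := by
  have hs : Summable fun m => |g (m + N)| := by
    refine Summable.of_nonneg_of_le (fun _ => abs_nonneg _) (fun m => ?_)
      (((Real.summable_pow_div_factorial B).mul_left (A * (B ^ N / N.factorial))))
    refine (h (m + N) (by omega)).trans ?_
    rw [mul_assoc]
    apply mul_le_mul_of_nonneg_left _ hA
    rw [pow_add, div_mul_div_comm, mul_comm (B ^ m)]
    apply div_le_div_of_nonneg_left (by positivity) (by positivity)
    have := Nat.factorial_mul_factorial_dvd_factorial_add N m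
    have h2 : N.factorial * m.factorial ≤ (N + m).factorial := Nat.le_of_dvd (Nat.factorial_pos _) this
    rw [add_comm m N]
    exact_mod_cast h2
  have h1 : ∑' m, g m = ∑' m, g (m + N) := by
    have hsg : Summable g := by
      rw [← summable_nat_add_iff N]
      exact Summable.of_abs hs
    rw [← hsg.sum_add_tsum_nat_add N, Finset.sum_eq_zero (fun m hm => h0 m (Finset.mem_range.1 hm)),
      zero_add]
  rw [h1]
  have h2 : |∑' m, g (m + N)| ≤ ∑' m, |g (m + N)| := by
    have := norm_tsum_le_tsum_norm (f := fun m => g (m + N)) (by simpa [Real.norm_eq_abs] using hs)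
    simpa [Real.norm_eq_abs] using this
  refine h2.trans ?_
  have h3 : ∑' m : ℕ, A * (B ^ N / N.factorial) * (B ^ m / m.factorial) =
      A * (B ^ N / N.factorial * Real.exp B) := by
    rw [tsum_mul_left, Real.exp_eq_exp_ℝ, NormedSpace.exp_eq_tsum_div]
    ring
  rw [← h3]
  apply Summable.tsum_le_tsum _ hs ((Real.summable_pow_div_factorial B).mul_left _)
  intro m
  refine (h (m + N) (by omega)).trans ?_
  rw [mul_assoc]
  apply mul_le_mul_of_nonneg_left _ hA
  rw [pow_add, div_mul_div_comm, mul_comm (B ^ m)]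
  apply div_le_div_of_nonneg_left (by positivity) (by positivity)
  have := Nat.factorial_mul_factorial_dvd_factorial_add N m
  have h2 : N.factorial * m.factorial ≤ (N + m).factorial := Nat.le_of_dvd (Nat.factorial_pos _) this
  rw [add_comm m N]
  exact_mod_cast h2

end Pool.Agent.SS
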