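import Pool.Agent.SS.Siegel
import Pool.Agent.SS.Size
import Pool.Agent.SS.Eval

/-!
# The auxiliary linear form
-/

namespace Pool.Agent.SS

open Polynomial

variable {w : ℕ}

/-- auxiliary polynomials built from the integers of Siegel's lemma -/
noncomputable def auxP (n : ℕ) (t : ℕ → ℤ) : ℤ[X] :=
  ∑ j ∈ Finset.range n, C (t j * ((n.factorial / j.factorial : ℕ) : ℤ)) * X ^ j

theorem coeff_auxP (n : ℕ) (t : ℕ → ℤ) (ht : ∀ j, n ≤ j → t j = 0) (j : ℕ) :
    (auxP n t).coeff j = t j * ((n.factorial / j.factorial : ℕ) : ℤ) := by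
  unfold auxP
  rw [finsetSum_coeff]
  simp only [coeff_C_mul_X_pow]
  by_cases h : j < n
  · rw [Finset.sum_ite_eq, if_pos (Finset.mem_range.2 h)]
  · rw [Finset.sum_ite_eq, if_neg (by simpa using h), ht j (by omega), zero_mul]

theorem natDegree_auxP (n : ℕ) (t : ℕ → ℤ) : (auxP n t).natDegree ≤ n := by
  unfold auxP
  refine natDegree_sum_le_of_forall_le _ _ fun j hj => ?_
  refine le_trans (natDegree_C_mul_X_pow_le _ _) ?_
  exact (Finset.mem_range.1 hj).le

theorem l1_auxP (n : ℕ) (t : ℕ → ℤ) (ht : ∀ j, n ≤ j → t j = 0) {T : ℝ} (hT : ∀ j, |(t j : ℝ)| ≤ T) :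
    l1 (auxP n t) ≤ (n + 1) * (T * n.factorial) := by
  have hT0 : 0 ≤ T := (abs_nonneg _).trans (hT 0)
  rw [l1_eq (auxP n t) (N := n + 1) (Nat.lt_succ_of_le (natDegree_auxP n t))]
  have h1 : ∀ j ∈ Finset.range (n + 1), |((auxP n t).coeff j : ℝ)| ≤ T * n.factorial := by
    intro j _
    rw [coeff_auxP n t ht]
    push_cast
    rw [abs_mul]
    apply mul_le_mul (hT j) _ (abs_nonneg _) hT0
    rw [abs_of_nonneg (by positivity)]
    exact_mod_cast Nat.div_le_self _ _
  refine (Finset.sum_le_card_nsmul _ _ _ h1).trans ?_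
  rw [Finset.card_range, nsmul_eq_mul]
  push_cast
  exact le_rfl

theorem auxP_ne_zero (n : ℕ) (t : ℕ → ℤ) (ht : ∀ j, n ≤ j → t j = 0) {j : ℕ} (hj : t j ≠ 0) :
    auxP n t ≠ 0 := by
  intro h
  have h1 := coeff_auxP n t ht j
  rw [h, coeff_zero] at h1
  have hjn : j ≤ n := by
    by_contra hcon
    exact hj (ht j (by omega))
  have h2 : 0 < n.factorial / j.factorial :=
    Nat.div_pos (Nat.factorial_le hjn) (Nat.factorial_pos _)
  rcases mul_eq_zero.1 h1.symm with h3 | h3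
  · exact hj h3
  · have : n.factorial / j.factorial = 0 := by exact_mod_cast h3
    omega

/-- The power series with coefficients `a n / n!`. -/
noncomputable def eser (a : ℕ → ℚ) : PowerSeries ℚ := PowerSeries.mk fun n => a n / (n.factorial : ℚ)

theorem coeff_lin_aux (a : Fin w → ℕ → ℚ) (n : ℕ) (t : Fin w → ℕ → ℤ)
    (ht : ∀ i j, n ≤ j → t i j = 0) (m : ℕ) :
    PowerSeries.coeff m (lin (fun i => eser (a i)) (fun i => toQ (auxP n (t i)))) =
      (n.factorial : ℚ) / (m.factorial : ℚ) * ∑ i, ∑ j ∈ Finset.range (m + 1),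
        (t i j : ℚ) * (m.choose j : ℚ) * a i (m - j) := by
  unfold lin eser
  rw [map_sum, Finset.mul_sum]
  refine Finset.sum_congr rfl fun i _ => ?_
  rw [PowerSeries.coeff_mul, Finset.Nat.sum_antidiagonal_eq_sum_range_succ_mk, Finset.mul_sum]
  refine Finset.sum_congr rfl fun j hj => ?_
  have hjm : j ≤ m := Nat.lt_succ_iff.1 (Finset.mem_range.1 hj)
  rw [Polynomial.coeff_coe, PowerSeries.coeff_mk]
  have h1 : (toQ (auxP n (t i))).coeff j = ((auxP n (t i)).coeff j : ℚ) := by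
    simp [toQ]
  rw [h1, coeff_auxP n (t i) (ht i)]
  by_cases hjn : n ≤ j
  · rw [ht i j hjn]; simp
  · push Not at hjn
    have h2 : ((n.factorial / j.factorial : ℕ) : ℚ) = (n.factorial : ℚ) / (j.factorial : ℚ) := by
      rw [Nat.cast_div (Nat.factorial_dvd_factorial hjn.le)]
      exact_mod_cast (Nat.factorial_pos j).ne'
    rw [Int.cast_mul, Int.cast_natCast, h2]
    have h3 : ((m.choose j : ℕ) : ℚ) = (m.factorial : ℚ) / ((j.factorial : ℚ) * ((m - j).factorial : ℚ)) :=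
      Nat.cast_choose ℚ hjm
    rw [h3]
    have h4 : (m.factorial : ℚ) ≠ 0 := by exact_mod_cast (Nat.factorial_pos m).ne'
    have h5 : (j.factorial : ℚ) ≠ 0 := by exact_mod_cast (Nat.factorial_pos j).ne'
    have h6 : ((m - j).factorial : ℚ) ≠ 0 := by exact_mod_cast (Nat.factorial_pos (m - j)).ne'
    field_simp

theorem abs_coeff_lin_aux_le (a : Fin w → ℕ → ℚ) {C : ℕ} (hC : 1 ≤ C)
    (ha : ∀ i n, |a i n| ≤ (C : ℚ) ^ (n + 1)) (n : ℕ) (t : Fin w → ℕ → ℤ)
    (ht : ∀ i j, n ≤ j → t i j = 0) {T : ℝ} (hT : ∀ i j, |(t i j : ℝ)| ≤ T) (hT0 : 0 ≤ T) (m : ℕ) :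
    |((PowerSeries.coeff m (lin (fun i => eser (a i)) (fun i => toQ (auxP n (t i)))) : ℚ) : ℝ)| ≤
      (n.factorial : ℝ) * (w * (T * C)) * ((2 * C) ^ m / m.factorial) := by
  rw [coeff_lin_aux a n t ht m]
  push_cast
  rw [abs_mul, abs_of_nonneg (by positivity : (0 : ℝ) ≤ (n.factorial : ℝ) / (m.factorial : ℝ))]
  have h1 : |∑ i : Fin w, ∑ j ∈ Finset.range (m + 1), (t i j : ℝ) * (m.choose j : ℝ) *
      ((a i (m - j) : ℚ) : ℝ)| ≤ w * (T * C * (2 * C) ^ m) := by
    refine (Finset.abs_sum_le_sum_abs _ _).trans ?_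
    have h2 : ∀ i ∈ (Finset.univ : Finset (Fin w)), |∑ j ∈ Finset.range (m + 1),
        (t i j : ℝ) * (m.choose j : ℝ) * ((a i (m - j) : ℚ) : ℝ)| ≤ T * C * (2 * C) ^ m := by
      intro i _
      refine (Finset.abs_sum_le_sum_abs _ _).trans ?_
      have h3 : ∀ j ∈ Finset.range (m + 1), |(t i j : ℝ) * (m.choose j : ℝ) *
          ((a i (m - j) : ℚ) : ℝ)| ≤ (T * C * (C : ℝ) ^ m) * (m.choose j : ℝ) := by
        intro j hj
        rw [abs_mul, abs_mul, abs_of_nonneg (by positivity : (0 : ℝ) ≤ (m.choose j : ℝ))]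
        have h4 : |((a i (m - j) : ℚ) : ℝ)| ≤ (C : ℝ) ^ (m + 1) := by
          have h5 : |((a i (m - j) : ℚ) : ℝ)| ≤ (C : ℝ) ^ (m - j + 1) := by exact_mod_cast ha i (m - j)
          refine h5.trans ?_
          apply pow_le_pow_right₀ (by exact_mod_cast hC)
          omega
        calc |(t i j : ℝ)| * (m.choose j : ℝ) * |((a i (m - j) : ℚ) : ℝ)|
            ≤ T * (m.choose j : ℝ) * (C : ℝ) ^ (m + 1) := by
              apply mul_le_mul _ h4 (abs_nonneg _) (by positivity)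
              exact mul_le_mul_of_nonneg_right (hT i j) (by positivity)
          _ = _ := by ring
      refine (Finset.sum_le_sum h3).trans ?_
      rw [← Finset.mul_sum]
      have h6 : ∑ j ∈ Finset.range (m + 1), (m.choose j : ℝ) = 2 ^ m := by
        exact_mod_cast Nat.sum_range_choose m
      rw [h6, mul_pow]
      apply le_of_eq; ring
    refine (Finset.sum_le_card_nsmul _ _ _ h2).trans ?_
    rw [Finset.card_univ, Fintype.card_fin, nsmul_eq_mul]
  calc (n.factorial : ℝ) / (m.factorial : ℝ) * |∑ i : Fin w, ∑ j ∈ Finset.range (m + 1),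
        (t i j : ℝ) * (m.choose j : ℝ) * ((a i (m - j) : ℚ) : ℝ)|
      ≤ (n.factorial : ℝ) / (m.factorial : ℝ) * (w * (T * C * (2 * C) ^ m)) :=
        mul_le_mul_of_nonneg_left h1 (by positivity)
    _ = _ := by ring

end Pool.Agent.SS
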