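import Pool.Agent.SS.E1Int

/-!
# The function `K_0`
-/

namespace Pool.Agent.SS

open MeasureTheory Set Filter Topology Real

/-- `∫_0^∞ cosh(t)^n e^{-x cosh t} dt` -/
noncomputable def kc (n : ℕ) (x : ℝ) : ℝ := ∫ t in Ioi (0 : ℝ), cosh t ^ n * exp (-(x * cosh t))

/-- `K_0(x) = ∫_0^∞ e^{-x cosh t} dt` -/
noncomputable def K0 (x : ℝ) : ℝ := ∫ t in Ioi (0 : ℝ), exp (-(x * cosh t))

theorem kc_zero (x : ℝ) : kc 0 x = K0 x := by
  unfold kc K0
  simp

theorem half_le_cosh {t : ℝ} (ht : 0 ≤ t) : t / 2 ≤ cosh t := by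
  rw [cosh_eq]
  have h1 := add_one_le_exp t
  have h2 := exp_pos (-t)
  linarith

theorem cosh_pow_mul_exp_le (n : ℕ) {x t : ℝ} (hx : 0 < x) (ht : 0 ≤ t) :
    cosh t ^ n * exp (-(x * cosh t)) ≤ (n.factorial * (2 / x) ^ n) * exp (-(x / 4) * t) := by
  have hc := cosh_pos t
  have h1 := pow_div_factorial_le_exp (x / 2 * cosh t) (by positivity) n
  rw [div_le_iff₀ (by positivity), mul_pow] at h1
  have h2 : cosh t ^ n = (x / 2 * cosh t) ^ n * (2 / x) ^ n := by
    rw [← mul_pow]; congr 1; field_simp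
  have h3 : exp (-(x * cosh t)) = exp (-(x / 2 * cosh t)) * exp (-(x / 2 * cosh t)) := by
    rw [← exp_add]; congr 1; ring
  have h4 : exp (-(x / 2 * cosh t)) ≤ exp (-(x / 4) * t) := by
    apply exp_le_exp.2
    have := half_le_cosh ht
    nlinarith
  have h5 : exp (x / 2 * cosh t) * exp (-(x / 2 * cosh t)) = 1 := by
    rw [← exp_add]; simp
  rw [h2, h3, mul_pow]
  calc (x / 2) ^ n * cosh t ^ n * (2 / x) ^ n * (exp (-(x / 2 * cosh t)) * exp (-(x / 2 * cosh t)))
      ≤ exp (x / 2 * cosh t) * n.factorial * (2 / x) ^ n *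
        (exp (-(x / 2 * cosh t)) * exp (-(x / 2 * cosh t))) := by
        apply mul_le_mul_of_nonneg_right _ (by positivity)
        exact mul_le_mul_of_nonneg_right h1 (by positivity)
    _ = (n.factorial * (2 / x) ^ n) * exp (-(x / 2 * cosh t)) *
        (exp (x / 2 * cosh t) * exp (-(x / 2 * cosh t))) := by ring
    _ ≤ _ := by
        rw [h5, mul_one]
        exact mul_le_mul_of_nonneg_left h4 (by positivity)

theorem integrableOn_kc (n : ℕ) {x : ℝ} (hx : 0 < x) :
    IntegrableOn (fun t : ℝ => cosh t ^ n * exp (-(x * cosh t))) (Ioi 0) := by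
  have h1 : IntegrableOn (fun t : ℝ => (n.factorial * (2 / x) ^ n) * exp (-(x / 4) * t)) (Ioi 0) :=
    (exp_neg_integrableOn_Ioi 0 (by positivity : (0 : ℝ) < x / 4)).const_mul _
  refine Integrable.mono' h1 ?_ ?_
  · exact (by fun_prop : Continuous fun t : ℝ => cosh t ^ n * exp (-(x * cosh t))).aestronglyMeasurable
  · rw [ae_restrict_iff' measurableSet_Ioi]
    refine Eventually.of_forall fun t ht => ?_
    have hc := cosh_pos t
    rw [norm_of_nonneg (by positivity)]
    exact cosh_pow_mul_exp_le n hx (le_of_lt ht)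

theorem integrableOn_K0 {x : ℝ} (hx : 0 < x) :
    IntegrableOn (fun t : ℝ => exp (-(x * cosh t))) (Ioi 0) := by
  simpa using integrableOn_kc 0 hx

theorem hasDerivAt_kc (n : ℕ) {x : ℝ} (hx : 0 < x) : HasDerivAt (kc n) (-kc (n + 1) x) x := by
  have h := hasDerivAt_integral_of_dominated_loc_of_deriv_le (μ := volume.restrict (Ioi (0 : ℝ)))
    (F := fun y t => cosh t ^ n * exp (-(y * cosh t)))
    (F' := fun y t => -(cosh t ^ (n + 1) * exp (-(y * cosh t)))) (x₀ := x)
    (s := Ioi (x / 2)) (bound := fun t => cosh t ^ (n + 1) * exp (-(x / 2 * cosh t)))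
    (Ioi_mem_nhds (by linarith))
    (Eventually.of_forall fun y => (by fun_prop :
      Continuous fun t : ℝ => cosh t ^ n * exp (-(y * cosh t))).aestronglyMeasurable)
    (integrableOn_kc n hx)
    (by fun_prop : Continuous fun t : ℝ =>
      -(cosh t ^ (n + 1) * exp (-(x * cosh t)))).aestronglyMeasurable
    (Eventually.of_forall fun t y hy => by
      have hc := cosh_pos t
      have hy' : x / 2 < y := hy
      rw [norm_neg, norm_of_nonneg (by positivity)]
      apply mul_le_mul_of_nonneg_left _ (by positivity)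
      apply exp_le_exp.2
      nlinarith)
    (integrableOn_kc (n + 1) (by positivity))
    (Eventually.of_forall fun t y _ => by
      have h1 : HasDerivAt (fun y : ℝ => -(y * cosh t)) (-(1 * cosh t)) y :=
        ((hasDerivAt_id y).mul_const _).neg
      have h2 := (h1.exp).const_mul (cosh t ^ n)
      refine h2.congr_deriv ?_
      rw [pow_succ]; ring)
  have h2 := h.2
  rw [integral_neg] at h2
  exact h2

/-- the differential equation -/
theorem kc_ode {x : ℝ} (hx : 0 < x) : x ^ 2 * kc 2 x - x * kc 1 x = x ^ 2 * kc 0 x := by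
  have hd : ∀ t ∈ Ici (0 : ℝ), HasDerivAt (fun t : ℝ => -(x * sinh t * exp (-(x * cosh t))))
      (x ^ 2 * (cosh t ^ 2 * exp (-(x * cosh t))) - x * (cosh t ^ 1 * exp (-(x * cosh t))) -
        x ^ 2 * (cosh t ^ 0 * exp (-(x * cosh t)))) t := by
    intro t _
    have h1 : HasDerivAt (fun t : ℝ => exp (-(x * cosh t)))
        (exp (-(x * cosh t)) * -(x * sinh t)) t := ((hasDerivAt_cosh t).const_mul x).neg.exp
    have h2 := (((hasDerivAt_sinh t).const_mul x).fun_mul h1).fun_neg
    refine h2.congr_deriv ?_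
    have h3 : cosh t ^ 2 = 1 + sinh t ^ 2 := by
      have := cosh_sq t; linarith
    rw [h3]
    ring
  have h0 := integrableOn_kc 0 hx
  have h1 := integrableOn_kc 1 hx
  have h2 := integrableOn_kc 2 hx
  have hint : IntegrableOn (fun t : ℝ => x ^ 2 * (cosh t ^ 2 * exp (-(x * cosh t))) -
      x * (cosh t ^ 1 * exp (-(x * cosh t))) - x ^ 2 * (cosh t ^ 0 * exp (-(x * cosh t))))
      (Ioi 0) := ((h2.const_mul _).sub (h1.const_mul _)).sub (h0.const_mul _)
  have hlim : Tendsto (fun t : ℝ => -(x * sinh t * exp (-(x * cosh t)))) atTop (𝓝 0) := by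
    rw [tendsto_zero_iff_abs_tendsto_zero]
    have h3 : Tendsto (fun t : ℝ => x * ((1 : ℕ).factorial * (2 / x) ^ 1) * exp (-(x / 4 * t)))
        atTop (𝓝 (x * ((1 : ℕ).factorial * (2 / x) ^ 1) * 0)) := by
      apply Tendsto.const_mul
      apply tendsto_exp_neg_atTop_nhds_zero.comp
      exact tendsto_id.const_mul_atTop (by positivity)
    rw [mul_zero] at h3
    refine squeeze_zero' (Eventually.of_forall fun _ => abs_nonneg _) ?_ h3
    filter_upwards [eventually_ge_atTop 0] with t ht
    have h4 := cosh_pow_mul_exp_le 1 hx ht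
    have hs : 0 ≤ sinh t := sinh_nonneg_iff.2 ht
    have hsc : sinh t ≤ cosh t := (sinh_lt_cosh t).le
    simp only [Function.comp_apply]
    rw [abs_neg, abs_of_nonneg (by positivity)]
    have h5 : sinh t * exp (-(x * cosh t)) ≤ cosh t ^ 1 * exp (-(x * cosh t)) := by
      rw [pow_one]
      exact mul_le_mul_of_nonneg_right hsc (exp_pos _).le
    have h6 : -(x / 4) * t = -(x / 4 * t) := by ring
    rw [h6] at h4
    calc x * sinh t * exp (-(x * cosh t)) = x * (sinh t * exp (-(x * cosh t))) := by ring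
      _ ≤ x * (((1 : ℕ).factorial * (2 / x) ^ 1) * exp (-(x / 4 * t))) :=
        mul_le_mul_of_nonneg_left (h5.trans h4) hx.le
      _ = _ := by ring
  have hfin := integral_Ioi_of_hasDerivAt_of_tendsto' hd hint hlim
  have h12 : IntegrableOn (fun t : ℝ => x ^ 2 * (cosh t ^ 2 * exp (-(x * cosh t))) -
      x * (cosh t ^ 1 * exp (-(x * cosh t)))) (Ioi 0) := (h2.const_mul _).sub (h1.const_mul _)
  rw [integral_sub h12 (h0.const_mul _),
    integral_sub (h2.const_mul _) (h1.const_mul _), integral_const_mul, integral_const_mul,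
    integral_const_mul] at hfin
  simp only [sinh_zero, mul_zero, zero_mul, neg_zero, sub_zero] at hfin
  change x ^ 2 * kc 2 x - x * kc 1 x - x ^ 2 * kc 0 x = 0 at hfin
  linarith

theorem K0_nonneg (x : ℝ) : 0 ≤ K0 x :=
  setIntegral_nonneg measurableSet_Ioi fun _ _ => (exp_pos _).le

theorem K0_anti {x y : ℝ} (hx : 0 < x) (hxy : x ≤ y) : K0 y ≤ K0 x := by
  apply setIntegral_mono_on (integrableOn_K0 (hx.trans_le hxy)) (integrableOn_K0 hx) measurableSet_Ioi
  intro t _
  apply exp_le_exp.2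
  have := cosh_pos t
  nlinarith

theorem K0_le {x : ℝ} (hx : 0 < x) : K0 x ≤ exp (-(x / 2)) * K0 (x / 2) := by
  unfold K0
  rw [← integral_const_mul]
  apply setIntegral_mono_on (integrableOn_K0 hx) ((integrableOn_K0 (by positivity)).const_mul _)
    measurableSet_Ioi
  intro t _
  rw [← exp_add]
  apply exp_le_exp.2
  have := one_le_cosh t
  nlinarith

theorem K0_le' {x y : ℝ} (hx : 0 < x) (hxy : x ≤ y) : K0 y ≤ exp (-(y / 2)) * K0 (x / 2) := by
  refine (K0_le (hx.trans_le hxy)).trans ?_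
  apply mul_le_mul_of_nonneg_left _ (exp_pos _).le
  exact K0_anti (by positivity) (by linarith)

theorem hasDerivAt_K0 {x : ℝ} (hx : 0 < x) : HasDerivAt K0 (-kc 1 x) x := by
  have h := hasDerivAt_kc 0 hx
  have h1 : kc 0 = K0 := funext kc_zero
  rw [h1] at h
  exact h

theorem continuousOn_K0 : ContinuousOn K0 (Ioi 0) := fun _ hx =>
  (hasDerivAt_K0 hx).continuousAt.continuousWithinAt

/-- `E_1(y) = ∫_0^∞ e^{-y e^t} dt` -/
theorem E1_eq_integral_exp {y : ℝ} (hy : 0 < y) :
    E1 y = ∫ t in Ioi (0 : ℝ), exp (-(y * exp t)) := by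
  have h1 := integral_comp_exp_Ioi (fun u : ℝ => exp (-(y * u)) / u) 0
  rw [exp_zero] at h1
  have h2 : ∫ x in Ioi (0 : ℝ), exp x • (exp (-(y * exp x)) / exp x) =
      ∫ t in Ioi (0 : ℝ), exp (-(y * exp t)) := by
    apply setIntegral_congr_fun measurableSet_Ioi
    intro t _
    simp only [smul_eq_mul]
    field_simp
  rw [← h2, h1]
  have h3 := integral_comp_mul_left_Ioi (fun u : ℝ => exp (-u) / u) 1 hy
  rw [mul_one] at h3
  unfold E1
  have h4 : ∫ x in Ioi (1 : ℝ), exp (-(y * x)) / (y * x) =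
      y⁻¹ * ∫ x in Ioi (1 : ℝ), exp (-(y * x)) / x := by
    rw [← integral_const_mul]
    apply setIntegral_congr_fun measurableSet_Ioi
    intro t ht
    have : (0 : ℝ) < t := one_pos.trans ht
    simp only
    field_simp
  rw [h4, smul_eq_mul] at h3
  exact (mul_left_cancel₀ (inv_ne_zero hy.ne') h3).symm

theorem K0_sub_E1 {x : ℝ} (hx : 0 < x) : |K0 x - E1 (x / 2)| ≤ x / 2 := by
  have hE : IntegrableOn (fun t : ℝ => exp (-(x / 2 * exp t))) (Ioi 0) := by
    have h1 := (integrableOn_comp_exp_Ioi (fun u : ℝ => exp (-(x / 2 * u)) / u) 0).2 (by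
      rw [exp_zero]
      have h2 : IntegrableOn (fun u : ℝ => exp (-(x / 2) * u)) (Ioi 1) :=
        exp_neg_integrableOn_Ioi 1 (by positivity)
      refine Integrable.mono' h2 ?_ ?_
      · apply ContinuousOn.aestronglyMeasurable _ measurableSet_Ioi
        apply ContinuousOn.div (by fun_prop) (by fun_prop)
        intro t ht
        exact (one_pos.trans (show (1 : ℝ) < t from ht)).ne'
      · rw [ae_restrict_iff' measurableSet_Ioi]
        refine Eventually.of_forall fun t ht => ?_
        have ht1 : (1 : ℝ) < t := ht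
        have ht0 : 0 < t := one_pos.trans ht1
        rw [norm_of_nonneg (by positivity)]
        refine (div_le_self (exp_pos _).le ht1.le).trans (le_of_eq ?_)
        congr 1; ring)
    refine h1.congr_fun ?_ measurableSet_Ioi
    intro t _
    simp only [smul_eq_mul]
    field_simp
  rw [E1_eq_integral_exp (by positivity), abs_sub_comm]
  unfold K0
  rw [← integral_sub hE (integrableOn_K0 hx)]
  have hint : IntegrableOn (fun t : ℝ => x / 2 * exp (-t)) (Ioi 0) :=
    (integrableOn_exp_neg' 0).const_mul _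
  have hpt : ∀ t ∈ Ioi (0 : ℝ), 0 ≤ exp (-(x / 2 * exp t)) - exp (-(x * cosh t)) ∧
      exp (-(x / 2 * exp t)) - exp (-(x * cosh t)) ≤ x / 2 * exp (-t) := by
    intro t _
    have h1 : exp (-(x * cosh t)) = exp (-(x / 2 * exp t)) * exp (-(x / 2 * exp (-t))) := by
      rw [← exp_add, cosh_eq]; congr 1; ring
    have h2 := add_one_le_exp (-(x / 2 * exp (-t)))
    have h3 : exp (-(x / 2 * exp (-t))) ≤ 1 := exp_le_one_iff.2 (by
      have := exp_pos (-t)
      have : 0 < x / 2 * exp (-t) := by positivity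
      linarith)
    have h4 : exp (-(x / 2 * exp t)) ≤ 1 := exp_le_one_iff.2 (by
      have := exp_pos t
      have : 0 < x / 2 * exp t := by positivity
      linarith)
    have h5 := exp_pos (-(x / 2 * exp t))
    rw [h1]
    constructor
    · nlinarith
    · have h6 : exp (-(x / 2 * exp t)) - exp (-(x / 2 * exp t)) * exp (-(x / 2 * exp (-t))) =
        exp (-(x / 2 * exp t)) * (1 - exp (-(x / 2 * exp (-t)))) := by ring
      rw [h6]
      calc exp (-(x / 2 * exp t)) * (1 - exp (-(x / 2 * exp (-t))))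
          ≤ 1 * (1 - exp (-(x / 2 * exp (-t)))) := mul_le_mul_of_nonneg_right h4 (by linarith)
        _ ≤ _ := by linarith
  rw [abs_of_nonneg (setIntegral_nonneg measurableSet_Ioi fun t ht => (hpt t ht).1)]
  refine (setIntegral_mono_on (hE.sub (integrableOn_K0 hx)) hint measurableSet_Ioi
    fun t ht => (hpt t ht).2).trans ?_
  rw [integral_const_mul, integral_exp_neg']
  simp

end Pool.Agent.SS
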