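import Pool.Agent.SS.Riccati
import Pool.Agent.SS.LS

/-!
# Function level independence for the Bessel functions `I_0`, `K_0` and primitives
-/

namespace Pool.Agent.SS

open Polynomial

namespace DField

variable {𝕂 : Type*} [Field 𝕂] (δ : DField 𝕂) [CharZero 𝕂]

/-- the Riccati equation `θ v = c t - v ^ 2` has no solution in `K(t)`, `θ t = 2 t` -/
theorem riccati_not_mem {t v c : 𝕂} (ht0 : t ≠ 0) (ht : δ.θ t = 2 * t) (hc : c ∈ δ.K)
    (hc0 : c ≠ 0) (hθ : δ.θ v = c * t - v ^ 2) : v ∉ adjF δ.K t := by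
  have hKs : δ.Stab δ.K := fun x hx => by rw [(δ.mem_K x).2 hx]; exact δ.K.zero_mem
  have h2K : (2 : 𝕂) ∈ δ.K := by
    have := natCast_mem δ.K 2
    push_cast at this; exact this
  have hNK : δ.NoExp δ.K 2 := by
    intro n hn b hb h
    rw [(δ.mem_K b).2 hb] at h
    have h1 : (n : 𝕂) * 2 ≠ 0 := mul_ne_zero (by exact_mod_cast hn) two_ne_zero
    exact (mul_eq_zero.1 h.symm).resolve_left h1
  rintro ⟨A, B, hA, hB, hB0, hAB⟩
  have hmc : ∀ p : 𝕂[X], CF δ.K p → δ.mc p = 0 := by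
    intro p hp
    ext i; rw [coeff_mc, (δ.mem_K _).2 (hp i), coeff_zero]
  have hW : (C 2 * X : 𝕂[X]).eval t = δ.θ t := by rw [ht]; simp
  have h1 := congrArg δ.θ hAB
  rw [δ.mul', hθ, ← δ.eval_D hW A, ← δ.eval_D hW B] at h1
  have h2 : C c * X * (B * B) - A * A + A * δ.D (C 2 * X) B - δ.D (C 2 * X) A * B = 0 := by
    apply δ.transc_exp hKs ht0 h2K ht hNK
    · exact (((((CF.C hc).mul CF.X).mul (hB.mul hB)).sub (hA.mul hA)).add
        (hA.mul (δ.CF_D hKs ((CF.C h2K).mul CF.X) hB))).sub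
        ((δ.CF_D hKs ((CF.C h2K).mul CF.X) hA).mul hB)
    · simp only [eval_sub, eval_add, eval_mul, eval_C, eval_X, ← h1, ← hAB]
      ring
  have hBne : B ≠ 0 := by rintro rfl; simp at hB0
  have hBl : B.leadingCoeff ≠ 0 := leadingCoeff_ne_zero.2 hBne
  have hdegD : ∀ q : 𝕂[X], CF δ.K q → (δ.D (C 2 * X) q).natDegree ≤ q.natDegree := by
    intro q hq
    rw [D, hmc q hq, zero_add]
    rcases eq_or_ne (derivative q) 0 with h0 | h0
    · rw [h0]; simp
    · rw [mul_assoc]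
      refine (natDegree_C_mul_le _ _).trans ?_
      rw [natDegree_X_mul h0]
      have := natDegree_derivative_lt (p := q) (fun h => h0 (derivative_of_natDegree_zero h))
      omega
  have hd1 : (A * δ.D (C 2 * X) B).natDegree ≤ A.natDegree + B.natDegree :=
    natDegree_mul_le.trans (add_le_add le_rfl (hdegD B hB))
  have hd2 : (δ.D (C 2 * X) A * B).natDegree ≤ A.natDegree + B.natDegree :=
    natDegree_mul_le.trans (add_le_add (hdegD A hA) le_rfl)
  have hd3 : (C c * X * (B * B)).natDegree ≤ 1 + 2 * B.natDegree := by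
    rw [mul_assoc]
    refine (natDegree_C_mul_le _ _).trans ?_
    refine natDegree_mul_le.trans ?_
    have := natDegree_mul_le (p := B) (q := B)
    rw [natDegree_X]
    omega
  have hd4 : (A * A).natDegree ≤ 2 * A.natDegree := by
    have := natDegree_mul_le (p := A) (q := A)
    omega
  rcases Nat.lt_or_ge B.natDegree A.natDegree with h | h
  · -- the square of `A` dominates
    have h3 := congrArg (fun p => coeff p (A.natDegree + A.natDegree)) h2
    simp only [coeff_sub, coeff_add, coeff_zero] at h3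
    rw [coeff_eq_zero_of_natDegree_lt (by omega : (C c * X * (B * B)).natDegree < _),
      coeff_eq_zero_of_natDegree_lt (by omega : (A * δ.D (C 2 * X) B).natDegree < _),
      coeff_eq_zero_of_natDegree_lt (by omega : (δ.D (C 2 * X) A * B).natDegree < _),
      coeff_mul_degree_add_degree] at h3
    have h4 : A.leadingCoeff * A.leadingCoeff = 0 := by linear_combination -h3
    have h5 : A = 0 := leadingCoeff_eq_zero.1 (mul_self_eq_zero.1 h4)
    rw [h5, natDegree_zero] at h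
    omega
  · have h3 := congrArg (fun p => coeff p (B.natDegree + B.natDegree + 1)) h2
    simp only [coeff_sub, coeff_add, coeff_zero] at h3
    rw [coeff_eq_zero_of_natDegree_lt (by omega : (A * A).natDegree < _),
      coeff_eq_zero_of_natDegree_lt (by omega : (A * δ.D (C 2 * X) B).natDegree < _),
      coeff_eq_zero_of_natDegree_lt (by omega : (δ.D (C 2 * X) A * B).natDegree < _),
      mul_assoc, coeff_C_mul, coeff_X_mul, coeff_mul_degree_add_degree] at h3
    have h4 : c * (B.leadingCoeff * B.leadingCoeff) = 0 := by linear_combination h3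
    exact mul_ne_zero hc0 (mul_ne_zero hBl hBl) h4

end DField

attribute [local instance] charZero_LS

theorem noLog_LS : LS.NoLog := by
  intro x hx
  obtain ⟨q, hq⟩ := hx
  have hq' : ((q : ℚ) : LaurentSeries ℚ) = LS.θ x := hq
  have h3 := coeff_zero_of_eq_θ (g := LS.θ x) rfl
  rw [← hq', ratCast_eq_C, HahnSeries.C_apply, HahnSeries.coeff_single_same] at h3
  rw [← hq', h3]; simp

theorem θ_zz_sq : LS.θ (zz ^ 2) = 2 * zz ^ 2 := by
  rw [LS.pow', θ_zz]
  push_cast; ring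

/-- the base field `ℚ(z²)` -/
noncomputable def Fw : Subfield (LaurentSeries ℚ) := adjF LS.K (zz ^ 2)

theorem K_le_Fw : LS.K ≤ Fw := le_adjF _ _

theorem zz_sq_mem_Fw : zz ^ 2 ∈ Fw := self_mem_adjF _ _

theorem Fw_stab : LS.Stab Fw :=
  LS.stab_adjF LS_K_stab (by
    rw [θ_zz_sq]
    exact (adjF LS.K (zz ^ 2)).mul_mem (by
      have := natCast_mem (adjF LS.K (zz ^ 2)) 2
      simpa using this) (self_mem_adjF _ _))

/-- the six functions -/
noncomputable def bfam (v I u A₀ G₁ G₂ : LaurentSeries ℚ) : Fin 6 → LaurentSeries ℚ :=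
  ![v, I, u, A₀, G₁, G₂]

/-- **Function level independence** for Bessel functions -/
theorem bessel_tower {c : ℚ} (hc : c ≠ 0) (v I u A₀ G₁ G₂ : LaurentSeries ℚ) (hI0 : I ≠ 0)
    (hv : LS.θ v = c * zz ^ 2 - v ^ 2) (hI : LS.θ I = v * I) (hu : LS.θ u = 1 - 1 / I ^ 2)
    (hA₀ : LS.θ A₀ = I ^ 2 - 1) (hG₁ : LS.θ G₁ = A₀ + I ^ 2 * u)
    (hG₂ : LS.θ G₂ = 2 * G₁ + I ^ 2 * u ^ 2) :
    AlgebraicIndependent Fw (bfam v I u A₀ G₁ G₂) := by
  classical
  set x := bfam v I u A₀ G₁ G₂ with hx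
  have hcK : (c : LaurentSeries ℚ) ∈ LS.K := rat_mem_K c
  have hc0 : (c : LaurentSeries ℚ) ≠ 0 := by exact_mod_cast hc
  have hzz : zz ^ 2 ≠ 0 := pow_ne_zero _ zz_ne_zero
  have hg : (c : LaurentSeries ℚ) * zz ^ 2 ∈ Fw := Fw.mul_mem (K_le_Fw hcK) zz_sq_mem_Fw
  have hvF : v ∉ Fw := LS.riccati_not_mem hzz θ_zz_sq hcK hc0 hv
  have x0 : x 0 = v := rfl
  have x1 : x 1 = I := rfl
  have x2 : x 2 = u := rfl
  have x3 : x 3 = A₀ := rfl
  have x4 : x 4 = G₁ := rfl
  have x5 : x 5 = G₂ := rfl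
  let s₀ : Finset (Fin 6) := {0}
  let s₁ : Finset (Fin 6) := {1, 0}
  let s₂ : Finset (Fin 6) := {2, 3}
  let s₃ : Finset (Fin 6) := {4}
  let s₄ : Finset (Fin 6) := {5}
  have hL₀ : fld Fw x s₀ = adjF Fw v := by
    have : s₀ = insert 0 ∅ := rfl
    rw [this, fld_insert, fld_empty, x0]
  have hL₁ : fld Fw x s₁ = adjF (adjF Fw v) I := by
    have : s₁ = insert 1 s₀ := rfl
    rw [this, fld_insert, hL₀, x1]
  have hst₀ : LS.Stab (adjF Fw v) := by
    apply LS.stab_adjF Fw_stab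
    rw [hv]
    exact (adjF Fw v).sub_mem (le_adjF _ _ hg) ((adjF Fw v).pow_mem (self_mem_adjF _ _) 2)
  have hst₁ : LS.Stab (adjF (adjF Fw v) I) := by
    apply LS.stab_adjF hst₀
    rw [hI]
    exact Subfield.mul_mem _ (le_adjF _ _ (self_mem_adjF _ _)) (self_mem_adjF _ _)
  have hNE : LS.NoExp (adjF Fw v) v := LS.noExp_riccati Fw_stab noLog_LS hg hvF hv hI0 hI hu
  have hvm : v ∈ adjF Fw v := self_mem_adjF _ _
  have hK₀ : LS.K ≤ adjF Fw v := K_le_Fw.trans (le_adjF _ _)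
  have hK₁ : LS.K ≤ adjF (adjF Fw v) I := hK₀.trans (le_adjF _ _)
  -- levels 0 and 1
  have hA1 : AlgebraicIndepOn Fw x (s₁ : Set (Fin 6)) := by
    have h0 : AlgebraicIndepOn Fw x ((∅ : Finset (Fin 6)) : Set (Fin 6)) := by
      rw [Finset.coe_empty]
      exact algebraicIndependent_empty_type
    have h1 : AlgebraicIndepOn Fw x (s₀ : Set (Fin 6)) := by
      have : (s₀ : Set (Fin 6)) = insert 0 ((∅ : Finset (Fin 6)) : Set (Fin 6)) := by
        simp [s₀]
      rw [this]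
      apply h0.insert
      apply transcendental_adjoin_of
      rw [fld_empty, x0]
      exact LS.riccati_transc Fw_stab noLog_LS hg hvF hv hI0 hI hu
    have : (s₁ : Set (Fin 6)) = insert 1 (s₀ : Set (Fin 6)) := by
      simp [s₀, s₁]
    rw [this]
    apply h1.insert
    apply transcendental_adjoin_of
    rw [hL₀, x1]
    exact LS.transc_exp hst₀ hI0 hvm hI hNE
  -- level 2
  have hI2 : I ^ 2 ∈ adjF (adjF Fw v) I := Subfield.pow_mem _ (self_mem_adjF _ _) 2
  have hθu : LS.θ u ∈ adjF (adjF Fw v) I := by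
    rw [hu]
    exact Subfield.sub_mem _ (Subfield.one_mem _) (Subfield.div_mem _ (Subfield.one_mem _) hI2)
  have hθA : LS.θ A₀ ∈ adjF (adjF Fw v) I := by
    rw [hA₀]
    exact Subfield.sub_mem _ hI2 (Subfield.one_mem _)
  have hθ₂ : ∀ j ∈ s₂, LS.θ (x j) ∈ fld Fw x s₁ := by
    intro j hj
    rw [hL₁]
    simp only [s₂, Finset.mem_insert, Finset.mem_singleton] at hj
    rcases hj with rfl | rfl
    · exact hθu
    · exact hθA
  have hlf₂ : LS.LinFree (fld Fw x s₁) x s₂ := by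
    intro d hd hdx
    rw [hL₁] at hdx
    have hsum : ∑ i ∈ s₂, d i * x i = d 2 * u + d 3 * A₀ := by
      simp only [s₂]
      rw [Finset.sum_pair (by decide), x2, x3]
    rw [hsum] at hdx
    have hθd : LS.θ (d 2 * u + d 3 * A₀) = d 2 * (1 - 1 / I ^ 2) + d 3 * (I ^ 2 - 1) := by
      rw [map_add, LS.const_mul (hd 2), LS.const_mul (hd 3), hu, hA₀]
    let G : (LaurentSeries ℚ)[X] := C (d 3) * X ^ 4 + C (d 2 - d 3) * X ^ 2 - C (d 2)
    have hG : CF (adjF Fw v) G :=
      (((CF.C (hK₀ (hd 3))).mul (CF.X.pow 4)).add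
        ((CF.C ((adjF Fw v).sub_mem (hK₀ (hd 2)) (hK₀ (hd 3)))).mul (CF.X.pow 2))).sub
        (CF.C (hK₀ (hd 2)))
    have hxG : LS.θ (d 2 * u + d 3 * A₀) * I ^ 2 = G.eval I := by
      rw [hθd]
      simp only [G, eval_sub, eval_add, eval_mul, eval_C, eval_pow, eval_X]
      field_simp
      ring
    have hG4 : G.coeff 4 = d 3 := by
      simp only [G, coeff_sub, coeff_add, coeff_C_mul, coeff_X_pow, coeff_C]
      norm_num
    have hG0 : G.coeff 0 = -d 2 := by
      simp [G, coeff_X_pow]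
    -- coefficient 4
    have h3 : d 3 = 0 := by
      obtain ⟨b, hb, hGb⟩ := LS.laurent_coeff hst₀ hI0 hvm hI hNE hdx hG hxG 4
      rw [hG4] at hGb
      have h4 : LS.θ (b * I ^ 2 - d 3 * A₀) = d 3 := by
        rw [map_sub, LS.mul', LS.pow', hI, LS.const_mul (hd 3), hA₀]
        push_cast at hGb ⊢
        linear_combination (-I ^ 2) * hGb
      have h5 := noLog_LS (b * I ^ 2 - d 3 * A₀) (by rw [h4]; exact hd 3)
      rw [h4] at h5
      exact h5
    have h2 : d 2 = 0 := by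
      obtain ⟨b, hb, hGb⟩ := LS.laurent_coeff hst₀ hI0 hvm hI hNE hdx hG hxG 0
      rw [hG0] at hGb
      have h4 : LS.θ (b / I ^ 2 - d 2 * u) = -d 2 := by
        rw [map_sub, LS.inv_sq_θ hI0 hI, LS.const_mul (hd 2), hu]
        have h5 : LS.θ b = -d 2 + 2 * v * b := by
          push_cast at hGb
          linear_combination -hGb
        rw [h5]
        field_simp
        ring
      have h5 := noLog_LS (b / I ^ 2 - d 2 * u) (by rw [h4]; exact LS.K.neg_mem (hd 2))
      rw [h4] at h5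
      exact neg_eq_zero.1 h5
    intro i hi
    simp only [s₂, Finset.mem_insert, Finset.mem_singleton] at hi
    rcases hi with rfl | rfl
    · exact h2
    · exact h3
  have hst₁' : LS.Stab (fld Fw x s₁) := by rw [hL₁]; exact hst₁
  obtain ⟨hA₂, hst₂⟩ := LS.algIndep_level K_le_Fw x s₁ s₂ hA1 hst₁' hθ₂ hlf₂
  have hKf : ∀ s : Finset (Fin 6), LS.K ≤ fld Fw x s := fun s => K_le_Fw.trans (le_fld _ _ _)
  -- membership
  have hIm : ∀ s : Finset (Fin 6), 1 ∈ s → I ∈ fld Fw x s := fun s hs => mem_fld (y := x) hs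
  have hum : ∀ s : Finset (Fin 6), 2 ∈ s → u ∈ fld Fw x s := fun s hs => mem_fld (y := x) hs
  have hAm : ∀ s : Finset (Fin 6), 3 ∈ s → A₀ ∈ fld Fw x s := fun s hs => mem_fld (y := x) hs
  have hGm : ∀ s : Finset (Fin 6), 4 ∈ s → G₁ ∈ fld Fw x s := fun s hs => mem_fld (y := x) hs
  -- level 3
  have hθ₃ : ∀ j ∈ s₃, LS.θ (x j) ∈ fld Fw x (s₁ ∪ s₂) := by
    intro j hj
    simp only [s₃, Finset.mem_singleton] at hj
    subst hj
    rw [x4, hG₁]
    exact Subfield.add_mem _ (hAm _ (by decide)) (Subfield.mul_mem _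
      (Subfield.pow_mem _ (hIm _ (by decide)) 2) (hum _ (by decide)))
  have hlf₃ : LS.LinFree (fld Fw x (s₁ ∪ s₂)) x s₃ := by
    intro d hd hdx i hi
    simp only [s₃, Finset.mem_singleton] at hi
    subst hi
    simp only [s₃, Finset.sum_singleton] at hdx
    rw [x4, fld_union] at hdx
    have h1 := LS.chain hst₁' (hKf _) x s₂ hθ₂ hlf₂ _ hdx
      (fun o => if o = 3 then d 4 else d 4 * I ^ 2) (by
        intro j hj
        split_ifs
        · exact hKf _ (hd 4)
        · exact Subfield.mul_mem _ (hKf _ (hd 4)) (Subfield.pow_mem _ (hIm _ (by decide)) 2))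
      0 (Subfield.zero_mem _) (by
        simp only [s₂]
        rw [Finset.sum_pair (by decide), x2, x3, LS.const_mul (hd 4), hG₁, if_pos rfl,
          if_neg (by decide)]
        ring) 3 (by decide)
    obtain ⟨e, _, he⟩ := h1
    rw [if_pos rfl] at he
    have h2 := noLog_LS e (by rw [← he]; exact hd 4)
    rw [he, h2]
  obtain ⟨hA₃, hst₃⟩ := LS.algIndep_level K_le_Fw x (s₁ ∪ s₂) s₃ hA₂ hst₂ hθ₃ hlf₃
  -- level 4
  have hθ₄ : ∀ j ∈ s₄, LS.θ (x j) ∈ fld Fw x (s₁ ∪ s₂ ∪ s₃) := by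
    intro j hj
    simp only [s₄, Finset.mem_singleton] at hj
    subst hj
    rw [x5, hG₂]
    refine Subfield.add_mem _ (Subfield.mul_mem _ ?_ (hGm _ (by decide))) (Subfield.mul_mem _
      (Subfield.pow_mem _ (hIm _ (by decide)) 2) (Subfield.pow_mem _ (hum _ (by decide)) 2))
    have := natCast_mem (fld Fw x (s₁ ∪ s₂ ∪ s₃)) 2
    simpa using this
  have hlf₄ : LS.LinFree (fld Fw x (s₁ ∪ s₂ ∪ s₃)) x s₄ := by
    intro d hd hdx i hi
    simp only [s₄, Finset.mem_singleton] at hi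
    subst hi
    simp only [s₄, Finset.sum_singleton] at hdx
    rw [x5, fld_union] at hdx
    have h2K : 2 * d 5 ∈ LS.K := LS.K.mul_mem (by
      have := natCast_mem LS.K 2
      simpa using this) (hd 5)
    have h1 := LS.chain hst₂ (hKf _) x s₃ hθ₃ hlf₃ _ hdx
      (fun o => 2 * d 5) (fun _ _ => hKf _ h2K)
      (d 5 * (I ^ 2 * u ^ 2)) (Subfield.mul_mem _ (hKf _ (hd 5)) (Subfield.mul_mem _
        (Subfield.pow_mem _ (hIm _ (by decide)) 2) (Subfield.pow_mem _ (hum _ (by decide)) 2))) (by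
        simp only [s₃, Finset.sum_singleton]
        rw [x4, LS.const_mul (hd 5), hG₂]
        ring) 4 (by decide)
    obtain ⟨e, _, he⟩ := h1
    have h2 := noLog_LS e (by rw [← he]; exact h2K)
    rw [h2] at he
    exact (mul_eq_zero.1 he).resolve_left two_ne_zero
  obtain ⟨hA₄, _⟩ := LS.algIndep_level K_le_Fw x (s₁ ∪ s₂ ∪ s₃) s₄ hA₃ hst₃ hθ₄ hlf₄
  have huniv : (((s₁ ∪ s₂ ∪ s₃ ∪ s₄ : Finset (Fin 6))) : Set (Fin 6)) = Set.univ := by
    have : s₁ ∪ s₂ ∪ s₃ ∪ s₄ = Finset.univ := by decide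
    rw [this, Finset.coe_univ]
  rw [huniv] at hA₄
  exact (algebraicIndependent_equiv (R := Fw) (f := x) (Equiv.Set.univ (Fin 6))).1 hA₄

end Pool.Agent.SS
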