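import Pool.Agent.SS.AlgValues

/-!
# The functions `E_k(r z) = ∑ r^n z^n / (n^k n!)` and `∑ H_n^{(k)} r^n z^n / n!`
-/

namespace Pool.Agent.SS

open Polynomial

/-- `∑_{n ≥ 1} r^n z^n / (n^k n!)` -/
noncomputable def Ek (k : ℕ) (r : ℚ) : PowerSeries ℚ := eser fun n => r ^ n * recip k n

/-- `∑ H_n^{(k)} r^n z^n / n!` -/
noncomputable def Hk (k : ℕ) (r : ℚ) : PowerSeries ℚ := eser fun n => r ^ n * harm k n

theorem isE_Ek (k : ℕ) (r : ℚ) : IsE (Ek k r) := isE_eser ((edata_recip k).scale r)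

theorem isE_Hk (k : ℕ) (r : ℚ) : IsE (Hk k r) := isE_eser ((edata_harm k).scale r)

theorem ths_Ek_succ (k : ℕ) (r : ℚ) : ths (Ek (k + 1) r) = Ek k r := by
  ext n
  rw [coeff_ths, Ek, Ek, coeff_eser, coeff_eser, recip, recip]
  rcases Nat.eq_zero_or_pos n with rfl | hn
  · simp
  · rw [if_neg hn.ne', if_neg hn.ne']
    have h1 : (n : ℚ) ≠ 0 := by exact_mod_cast hn.ne'
    have h2 : (n.factorial : ℚ) ≠ 0 := by exact_mod_cast (Nat.factorial_pos n).ne'
    field_simp
    ring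

theorem Ek_zero (r : ℚ) : Ek 0 r = ex r - 1 := by
  ext n
  rw [map_sub, Ek, ex, coeff_eser, coeff_eser, PowerSeries.coeff_one, recip]
  rcases Nat.eq_zero_or_pos n with rfl | hn
  · simp
  · rw [if_neg hn.ne', if_neg hn.ne']; simp

theorem harm_succ (k n : ℕ) : harm k (n + 1) = harm k n + recip k (n + 1) := by
  unfold harm
  rw [Finset.sum_range_succ]

theorem harm_zero (k : ℕ) : harm k 0 = 0 := by simp [harm, recip]

theorem ths_Hk_succ (k : ℕ) (r : ℚ) :
    ths (Hk (k + 1) r) = ((C r * X : ℚ[X]) : PowerSeries ℚ) * Hk (k + 1) r + Ek k r := by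
  have hcoe : ((C r * X : ℚ[X]) : PowerSeries ℚ) = PowerSeries.C r * PowerSeries.X := by
    rw [Polynomial.coe_mul, Polynomial.coe_C, Polynomial.coe_X]
  ext n
  rw [map_add, coeff_ths, hcoe, mul_assoc, PowerSeries.coeff_C_mul]
  cases n with
  | zero => simp [Ek, coeff_eser, recip]
  | succ n =>
    rw [PowerSeries.coeff_succ_X_mul, Hk, Ek, coeff_eser, coeff_eser, coeff_eser, harm_succ,
      Nat.factorial_succ, recip, recip, if_neg (by omega), if_neg (by omega)]
    have h1 : (n.factorial : ℚ) ≠ 0 := by exact_mod_cast (Nat.factorial_pos n).ne'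
    have h2 : ((n : ℚ) + 1) ≠ 0 := by positivity
    push_cast
    field_simp
    ring

/-- `e^{-r z} ∑ H_n^{(k)} r^n z^n / n!` -/
noncomputable def Uk (k : ℕ) (r : ℚ) : PowerSeries ℚ := ex (-r) * Hk k r

theorem isE_Uk (k : ℕ) (r : ℚ) : IsE (Uk k r) := (isE_ex _).mul (isE_Hk _ _)

theorem ths_Uk_succ (k : ℕ) (r : ℚ) : ths (Uk (k + 1) r) = ex (-r) * Ek k r := by
  rw [Uk, ths_mul, ths_ex, ths_Hk_succ]
  simp only [Polynomial.coe_mul, Polynomial.coe_C, Polynomial.coe_X]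
  rw [map_neg]
  ring

theorem ev_Uk (k : ℕ) (r : ℚ) : ev (Uk k r) = Real.exp (-r) * ev (Hk k r) := by
  rw [Uk, ev_mul (isE_ex _).asum (isE_Hk _ _).asum, ev_ex]
  push_cast; rfl

theorem toL_ex_ne_zero (c : ℚ) : toL (ex c) ≠ 0 := by
  intro h
  have h1 : ex c = 0 := toL_injective (h.trans (map_zero _).symm)
  have h2 := congrArg (PowerSeries.coeff 0) h1
  rw [ex, coeff_eser] at h2
  simp at h2

theorem toL_ex_zpow (c : ℚ) (n : ℤ) : toL (ex c) ^ n = toL (ex (n * c)) := by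
  obtain ⟨m, rfl | rfl⟩ := n.eq_nat_or_neg
  · rw [zpow_natCast, ← map_pow, ex_pow]; push_cast; rfl
  · rw [zpow_neg, zpow_natCast, ← map_pow, ex_pow]
    apply inv_eq_of_mul_eq_one_right
    rw [← map_mul, ← ex_add]
    have : (m : ℚ) * c + ((-(m : ℤ) : ℤ) : ℚ) * c = 0 := by push_cast; ring
    rw [this, ex_zero, map_one]

section

variable {ι : Type*} [Fintype ι]

/-- common denominator -/
theorem exists_common_den (r : ι → ℚ) : ∃ (D : ℕ) (n : ι → ℤ), 0 < D ∧
    ∀ i, r i = n i * (1 / (D : ℚ)) := by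
  obtain ⟨D, z, hD, hz⟩ := exists_int_multiple r
  refine ⟨D, z, hD, fun i => ?_⟩
  rw [← hz]
  have : (D : ℚ) ≠ 0 := by positivity
  field_simp

theorem mem_VV_ex {κ : Type*} [Fintype κ] {r : ℚ} {y : κ → PowerSeries ℚ} {w : κ → ℕ} {T : ℕ}
    (n : ℤ) (h : n.natAbs ≤ T) : ex (n * r) ∈ VV r y w T := by
  have h1 : ex (n * r) = mono r y (n, 0) := by simp [mono]
  rw [h1]
  exact mono_mem (by simpa [wgt] using h)

theorem mem_VV_gen {κ : Type*} [Fintype κ] {r : ℚ} {y : κ → PowerSeries ℚ} {w : κ → ℕ} {T : ℕ}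
    (i : κ) (h : w i ≤ T) : y i ∈ VV r y w T := by
  classical
  have h1 : y i = mono r y (0, Pi.single i 1) := by
    simp only [mono, Int.cast_zero, zero_mul, ex_zero, one_mul]
    rw [Finset.prod_eq_single i]
    · simp
    · intro j _ hj; simp [Pi.single_eq_of_ne hj]
    · intro h; exact absurd (Finset.mem_univ _) h
  rw [h1]
  apply mono_mem
  simp only [wgt, Int.natAbs_zero, zero_add]
  rw [Finset.sum_eq_single i]
  · simpa using h
  · intro j _ hj; simp [Pi.single_eq_of_ne hj]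
  · intro h; exact absurd (Finset.mem_univ _) h

/-- **Algebraic independence of `e^{1/D}`, `E_1(r_i)`, `E_2(r_i)`, and a third level** -/
theorem values_level3 [DecidableEq ι] (r : ι → ℚ) (hr0 : ∀ i, r i ≠ 0) (hrinj : Function.Injective r)
    {D : ℕ} (hD : 0 < D) (n : ι → ℤ) (hn : ∀ i, r i = n i * (1 / (D : ℚ)))
    (y₃ : ι → PowerSeries ℚ) (m : ι → ℤ) (hE₃ : ∀ i, IsE (y₃ i))
    (hy₃ : ∀ i, ths (y₃ i) = ex (m i * (1 / (D : ℚ))) * Ek 2 (r i)) :
    AlgebraicIndependent ℚ (fun o : Option (ι ⊕ ι ⊕ ι) => o.elim (Real.exp ((1 / (D : ℚ) : ℚ)))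
      (Sum.elim (fun i => ev (Ek 1 (r i))) (Sum.elim (fun i => ev (Ek 2 (r i)))
        (fun i => ev (y₃ i))))) := by
  set r0 : ℚ := 1 / (D : ℚ) with hr0def
  have hr00 : r0 ≠ 0 := by positivity
  let y : ι ⊕ ι ⊕ ι → PowerSeries ℚ := Sum.elim (fun i => Ek 1 (r i))
    (Sum.elim (fun i => Ek 2 (r i)) y₃)
  let Q : ℕ := ∑ i, (n i).natAbs + ∑ i, (m i).natAbs + 1
  have hnQ : ∀ i, (n i).natAbs ≤ Q := fun i => by
    have := Finset.single_le_sum (f := fun i => (n i).natAbs) (fun _ _ => Nat.zero_le _)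
      (Finset.mem_univ i)
    simp only [Q]
    omega
  have hmQ : ∀ i, (m i).natAbs ≤ Q := fun i => by
    have := Finset.single_le_sum (f := fun i => (m i).natAbs) (fun _ _ => Nat.zero_le _)
      (Finset.mem_univ i)
    simp only [Q]
    omega
  let w : ι ⊕ ι ⊕ ι → ℕ := Sum.elim (fun _ => Q) (Sum.elim (fun _ => 2 * Q) (fun _ => 3 * Q))
  have hQ1 : 1 ≤ Q := by simp only [Q]; omega
  have hval : (fun o : Option (ι ⊕ ι ⊕ ι) => o.elim (Real.exp (r0 : ℚ))
      (Sum.elim (fun i => ev (Ek 1 (r i))) (Sum.elim (fun i => ev (Ek 2 (r i)))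
        (fun i => ev (y₃ i))))) = (fun o : Option (ι ⊕ ι ⊕ ι) => o.elim (Real.exp (r0 : ℚ))
        (fun i => ev (y i))) := by
    funext o
    rcases o with _ | i | i | i <;> rfl
  rw [hval]
  apply ss_algIndep (w := w)
  · rintro (i | i | i)
    · exact hQ1
    · change 1 ≤ 2 * Q; omega
    · change 1 ≤ 3 * Q; omega
  · rintro (i | i | i)
    · exact isE_Ek _ _
    · exact isE_Ek _ _
    · exact hE₃ i
  · rintro (i | i | i)
    · change ths (Ek 1 (r i)) ∈ VV r0 y w Q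
      rw [ths_Ek_succ, Ek_zero]
      apply Submodule.sub_mem
      · rw [hn i]; exact mem_VV_ex _ (hnQ i)
      · have := mem_VV_ex (r := r0) (y := y) (w := w) (T := Q) 0 (by simp)
        simpa [ex_zero] using this
    · change ths (Ek 2 (r i)) ∈ VV r0 y w (2 * Q)
      rw [ths_Ek_succ]
      exact mem_VV_gen (y := y) (Sum.inl i) (by change Q ≤ 2 * Q; omega)
    · change ths (y₃ i) ∈ VV r0 y w (3 * Q)
      rw [hy₃]
      have h1 : 3 * Q = Q + 2 * Q := by ring
      rw [h1]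
      exact VV_mul (mem_VV_ex _ (hmQ i)) (mem_VV_gen (y := y) (Sum.inr (Sum.inl i)) le_rfl)
  · have hfam : (fun o : Option (ι ⊕ ι ⊕ ι) => o.elim (toL (ex r0)) (fun i => toL (y i))) =
        fam (toL (ex r0)) (fun i => toL (Ek 1 (r i))) (fun i => toL (Ek 2 (r i)))
          (fun i => toL (y₃ i)) := by
      funext o
      rcases o with _ | i | i | i <;> rfl
    rw [hfam]
    have hXn : ∀ k : ℤ, toL (ex (k * r0)) ∈ adjF F0 (toL (ex r0)) := fun k => by
      rw [← toL_ex_zpow]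
      exact (adjF F0 _).zpow_mem (self_mem_adjF _ _) k
    apply tower_algIndep hr00 (toL (ex r0)) (toL_ex_ne_zero _) _ n _ _ _ _ _
      (fun i => toL (ex (m i * r0)))
    · intro i
      rw [θ_toL, ths_Ek_succ, Ek_zero, map_sub, map_one, hn i, toL_ex_zpow]
    · intro i
      rw [θ_toL, ths_Ek_succ]
    · intro i
      rw [θ_toL, hy₃, map_mul]
    · intro i; exact hXn _
    · intro i
      have h1 : (toL (ex (m i * r0))).coeff 0 = PowerSeries.coeff 0 (ex (m i * r0)) := by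
        have := PowerSeries.coeff_coe (ex (m i * r0)) (0 : ℤ)
        simpa [toL] using this
      rw [h1, ex, coeff_eser]
      simp
    · rw [θ_toL, ths_ex, map_mul]
      congr 1
      rw [Polynomial.coe_mul, Polynomial.coe_C, Polynomial.coe_X, map_mul, toL_C, toL_X]
    · intro i h
      apply hr0 i
      rw [hn i, h]; simp
    · intro i j h
      apply hrinj
      rw [hn i, hn j, h]

end

end Pool.Agent.SS
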