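import Pool.Agent.SS.EFun

/-!
# Further closure properties of `E`-functions: sums and primitives
-/

namespace Pool.Agent.SS

open Polynomial Nat Chebyshev

theorem IsE.add {f g : PowerSeries ℚ} (hf : IsE f) (hg : IsE g) : IsE (f + g) := by
  obtain ⟨C₁, d₁, hC₁, hd₁, hd₁0, ha₁, hi₁⟩ := hf.exists_bound
  obtain ⟨C₂, d₂, hC₂, hd₂, hd₂0, ha₂, hi₂⟩ := hg.exists_bound
  have h1 : (1 : ℚ) ≤ C₁ := by exact_mod_cast hC₁
  have h2 : (1 : ℚ) ≤ C₂ := by exact_mod_cast hC₂
  refine ⟨⟨2 * (C₁ * C₂), fun n => d₁ n * d₂ n, ?_, fun n => ?_,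
    fun n => Nat.mul_pos (hd₁0 n) (hd₂0 n), fun n => ?_, fun n k hk => ?_⟩⟩
  · have := Nat.mul_pos hC₁ hC₂
    omega
  · calc d₁ n * d₂ n ≤ C₁ ^ (n + 1) * C₂ ^ (n + 1) := Nat.mul_le_mul (hd₁ n) (hd₂ n)
      _ = (C₁ * C₂) ^ (n + 1) := by rw [mul_pow]
      _ ≤ _ := Nat.pow_le_pow_left (by omega) _
  · rw [map_add, mul_add]
    refine (abs_add_le _ _).trans ?_
    push_cast
    have hpow1 : (C₁ : ℚ) ^ (n + 1) ≤ (C₁ * C₂ : ℚ) ^ (n + 1) :=
      pow_le_pow_left₀ (by positivity) (by nlinarith) _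
    have hpow2 : (C₂ : ℚ) ^ (n + 1) ≤ (C₁ * C₂ : ℚ) ^ (n + 1) :=
      pow_le_pow_left₀ (by positivity) (by nlinarith) _
    have h3 : (2 : ℚ) ≤ 2 ^ (n + 1) := by
      have : (1 : ℚ) ≤ 2 ^ n := one_le_pow₀ (by norm_num)
      rw [pow_succ]; linarith
    have h4 : (0 : ℚ) ≤ (C₁ * C₂ : ℚ) ^ (n + 1) := by positivity
    calc _ ≤ (C₁ : ℚ) ^ (n + 1) + (C₂ : ℚ) ^ (n + 1) := add_le_add (ha₁ n) (ha₂ n)
      _ ≤ 2 * (C₁ * C₂ : ℚ) ^ (n + 1) := by linarith
      _ ≤ 2 ^ (n + 1) * (C₁ * C₂ : ℚ) ^ (n + 1) := by nlinarith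
      _ = _ := by rw [← mul_pow]
  · obtain ⟨m₁, hm₁⟩ := hi₁ n k hk
    obtain ⟨m₂, hm₂⟩ := hi₂ n k hk
    refine ⟨d₂ n * m₁ + d₁ n * m₂, ?_⟩
    rw [map_add, mul_add]
    push_cast
    rw [← hm₁, ← hm₂]; ring

theorem isE_C (c : ℚ) : IsE (PowerSeries.C c) := by
  have hden := c.den_pos
  have hcabs : |c| ≤ (c.num.natAbs : ℚ) := by
    have h1 : c = c.num / c.den := (Rat.num_div_den c).symm
    rw [h1, abs_div, abs_of_nonneg (by positivity : (0 : ℚ) ≤ (c.den : ℚ))]
    have h2 : |(c.num : ℚ)| = ((c.num.natAbs : ℕ) : ℚ) := by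
      rw [Nat.cast_natAbs, Int.cast_abs]
    rw [Rat.num_div_den, h2]
    exact div_le_self (by positivity) (by exact_mod_cast hden)
  refine ⟨⟨c.num.natAbs + c.den, fun _ => c.den, by omega, fun n => ?_, fun _ => c.den_pos,
    fun n => ?_, fun n k _ => ?_⟩⟩
  · calc c.den ≤ c.num.natAbs + c.den := by omega
      _ = (c.num.natAbs + c.den) ^ 1 := (pow_one _).symm
      _ ≤ _ := Nat.pow_le_pow_right (by omega) (by omega)
  · have h1 : (1 : ℚ) ≤ ((c.num.natAbs + c.den : ℕ) : ℚ) := by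
      have : 1 ≤ c.num.natAbs + c.den := by omega
      exact_mod_cast this
    rcases Nat.eq_zero_or_pos n with rfl | hn
    · simp only [Nat.factorial_zero, Nat.cast_one, one_mul, PowerSeries.coeff_C, if_true, zero_add,
        pow_one]
      refine hcabs.trans ?_
      push_cast
      have : (0 : ℚ) ≤ c.den := by positivity
      linarith
    · rw [PowerSeries.coeff_C, if_neg hn.ne', mul_zero, abs_zero]
      positivity
  · rcases Nat.eq_zero_or_pos k with rfl | hk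
    · refine ⟨c.num, ?_⟩
      simp only [Nat.factorial_zero, Nat.cast_one, one_mul, PowerSeries.coeff_C, if_true]
      rw [mul_comm]; exact Rat.mul_den_eq_num c
    · exact ⟨0, by rw [PowerSeries.coeff_C, if_neg hk.ne']; simp⟩

theorem IsE.sub {f g : PowerSeries ℚ} (hf : IsE f) (hg : IsE g) : IsE (f - g) := by
  have h1 : f - g = f + PowerSeries.C (-1) * g := by
    rw [map_neg, map_one]; ring
  rw [h1]
  exact hf.add ((isE_C _).mul hg)

/-- the primitive for `θ = z d/dz` with zero constant term (of a series without constant term) -/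
noncomputable def prim (f : PowerSeries ℚ) : PowerSeries ℚ :=
  PowerSeries.mk fun n => PowerSeries.coeff n f / n

theorem coeff_prim (f : PowerSeries ℚ) (n : ℕ) :
    PowerSeries.coeff n (prim f) = PowerSeries.coeff n f / n := by
  rw [prim, PowerSeries.coeff_mk]

theorem ths_prim {f : PowerSeries ℚ} (h0 : PowerSeries.coeff 0 f = 0) : ths (prim f) = f := by
  ext n
  rw [coeff_ths, coeff_prim]
  rcases Nat.eq_zero_or_pos n with rfl | hn
  · simp [h0]
  · have : (n : ℚ) ≠ 0 := by exact_mod_cast hn.ne'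
    field_simp

theorem IsE.prim {f : PowerSeries ℚ} (hf : IsE f) : IsE (prim f) := by
  obtain ⟨C, d, hC, hd, hd0, ha, hi⟩ := hf.exists_bound
  have hC' : (1 : ℚ) ≤ C := by exact_mod_cast hC
  refine ⟨⟨C * 219, fun n => d n * lcmUpto n, by omega, fun n => ?_,
    fun n => Nat.mul_pos (hd0 n) (lcmUpto_pos n), fun n => ?_, fun n k hk => ?_⟩⟩
  · calc d n * lcmUpto n ≤ C ^ (n + 1) * 219 ^ n := Nat.mul_le_mul (hd n) (lcmUpto_le_pow n)
      _ ≤ C ^ (n + 1) * 219 ^ (n + 1) :=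
        Nat.mul_le_mul le_rfl (Nat.pow_le_pow_right (by norm_num) (by omega))
      _ = _ := by rw [mul_pow]
  · rw [coeff_prim]
    have h1 : |(n.factorial : ℚ) * (PowerSeries.coeff n f / n)| ≤
        |(n.factorial : ℚ) * PowerSeries.coeff n f| := by
      rcases Nat.eq_zero_or_pos n with rfl | hn
      · simp
      · rw [← mul_div_assoc, abs_div]
        apply _root_.div_le_self (abs_nonneg _)
        have : (1 : ℚ) ≤ n := by exact_mod_cast hn
        rwa [abs_of_nonneg (by positivity)]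
    refine h1.trans ((ha n).trans ?_)
    apply pow_le_pow_left₀ (by positivity)
    push_cast
    linarith
  · rw [coeff_prim]
    rcases Nat.eq_zero_or_pos k with rfl | hk0
    · exact ⟨0, by simp⟩
    · obtain ⟨m, hm⟩ := hi n k hk
      obtain ⟨e, he⟩ := dvd_lcmUpto' hk0 hk
      refine ⟨m * e, ?_⟩
      have hk1 : (k : ℚ) ≠ 0 := by exact_mod_cast hk0.ne'
      push_cast
      rw [← hm, he]
      push_cast
      field_simp

end Pool.Agent.SS
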