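import Pool.Agent.SS.LS
import Pool.Agent.SS.JFun
import Pool.Agent.SS.Prim

/-!
# The functions attached to the square of the exponential integral
-/

namespace Pool.Agent.SS

open Polynomial

attribute [local instance] charZero_LS

/-- **Function level independence**: three levels of iterated primitives of exponentials, the third
level with a quadratic term -/
theorem tower_algIndep_sq {ι : Type*} [Fintype ι] [DecidableEq ι] {r : ℚ} (hr : r ≠ 0)
    (X : LaurentSeries ℚ) (hX0 : X ≠ 0) (hX : LS.θ X = r * zz * X)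
    (n : ι → ℤ) (hn0 : ∀ i, n i ≠ 0) (hninj : Function.Injective n)
    (y₁ y₂ y₃ h : ι → LaurentSeries ℚ) (hy₁ : ∀ i, LS.θ (y₁ i) = X ^ (n i) - 1)
    (hy₂ : ∀ i, LS.θ (y₂ i) = y₁ i)
    (hy₃ : ∀ i, LS.θ (y₃ i) = h i * y₂ i + y₁ i ^ 2)
    (hh : ∀ i, h i ∈ adjF F0 X) (hh0 : ∀ i, (h i).coeff 0 ≠ 0) :
    AlgebraicIndependent F0 (fam X y₁ y₂ y₃) := by
  classical
  set x := fam X y₁ y₂ y₃ with hx
  let l₁ : ι ↪ Idx ι := ⟨fun i => some (Sum.inl i), fun i j h => by simpa using h⟩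
  let l₂ : ι ↪ Idx ι := ⟨fun i => some (Sum.inr (Sum.inl i)), fun i j h => by simpa using h⟩
  let l₃ : ι ↪ Idx ι := ⟨fun i => some (Sum.inr (Sum.inr i)), fun i j h => by simpa using h⟩
  let s₀ : Finset (Idx ι) := {none}
  let s₁ : Finset (Idx ι) := Finset.univ.map l₁
  let s₂ : Finset (Idx ι) := Finset.univ.map l₂
  let s₃ : Finset (Idx ι) := Finset.univ.map l₃
  have haF : (r : LaurentSeries ℚ) * zz ∈ F0 := F0.mul_mem (K_le_F0 (rat_mem_K r)) zz_mem_F0
  have hL₀ : fld F0 x s₀ = adjF F0 X := by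
    have : s₀ = insert none ∅ := rfl
    rw [this, fld_insert, fld_empty]; rfl
  have hst₀ : LS.Stab (fld F0 x s₀) := by
    rw [hL₀]
    apply LS.stab_adjF F0_stab
    rw [hX]
    exact (adjF F0 X).mul_mem (le_adjF _ _ haF) (self_mem_adjF _ _)
  have hKL₀ : LS.K ≤ fld F0 x s₀ := K_le_F0.trans (le_fld _ _ _)
  -- level 0
  have hA₀ : AlgebraicIndepOn F0 x (s₀ : Set (Idx ι)) := by
    have h0 : AlgebraicIndepOn F0 x ((∅ : Finset (Idx ι)) : Set (Idx ι)) := by
      rw [Finset.coe_empty]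
      exact algebraicIndependent_empty_type
    have : (s₀ : Set (Idx ι)) = insert none ((∅ : Finset (Idx ι)) : Set (Idx ι)) := by
      simp [s₀]
    rw [this]
    apply h0.insert
    apply transcendental_adjoin_of
    rw [fld_empty]
    intro p hp hp0
    exact LS.transc_exp F0_stab hX0 haF hX (noExp_F0 hr) p hp hp0
  -- level 1
  have hXz : ∀ m : ℤ, X ^ m ∈ fld F0 x s₀ := fun m => by
    rw [hL₀]; exact (adjF F0 X).zpow_mem (self_mem_adjF _ _) m
  have hθ₁ : ∀ j ∈ s₁, LS.θ (x j) ∈ fld F0 x s₀ := by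
    intro j hj
    obtain ⟨i, _, rfl⟩ := Finset.mem_map.1 hj
    change LS.θ (y₁ i) ∈ _
    rw [hy₁]
    exact (fld F0 x s₀).sub_mem (hXz _) (fld F0 x s₀).one_mem
  have hlf₁ : LS.LinFree (fld F0 x s₀) x s₁ := by
    rw [hL₀]
    let N : Idx ι → ℤ := fun o => match o with
      | some (Sum.inl i) => n i
      | _ => 1
    apply LS.linFree_exp F0_stab K_le_F0 hX0 haF hX (noExp_F0 hr) (noConst _ r) x s₁ N
    · intro j hj
      obtain ⟨i, _, rfl⟩ := Finset.mem_map.1 hj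
      exact hn0 i
    · intro j hj j' hj' hjj
      obtain ⟨i, _, rfl⟩ := Finset.mem_map.1 hj
      obtain ⟨i', _, rfl⟩ := Finset.mem_map.1 hj'
      exact congrArg l₁ (hninj hjj)
    · intro j hj
      obtain ⟨i, _, rfl⟩ := Finset.mem_map.1 hj
      exact hy₁ i
  obtain ⟨hA₁, hst₁⟩ := LS.algIndep_level K_le_F0 x s₀ s₁ hA₀ hst₀ hθ₁ hlf₁
  -- level 2
  have hθ₂ : ∀ j ∈ s₂, LS.θ (x j) ∈ fld F0 x (s₀ ∪ s₁) := by
    intro j hj
    obtain ⟨i, _, rfl⟩ := Finset.mem_map.1 hj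
    change LS.θ (y₂ i) ∈ _
    rw [hy₂]
    exact mem_fld (y := x) (i := l₁ i) (Finset.mem_union_right _ (Finset.mem_map_of_mem _ (Finset.mem_univ _)))
  have hlf₂ : LS.LinFree (fld F0 x (s₀ ∪ s₁)) x s₂ := by
    intro c hc hcx j hj
    obtain ⟨i, _, rfl⟩ := Finset.mem_map.1 hj
    rw [fld_union] at hcx
    have h1 := LS.chain hst₀ hKL₀ x s₁ hθ₁ hlf₁ _ hcx (fun o => match o with
      | some (Sum.inl i) => c (l₂ i)
      | _ => 0) (by
        intro j hj
        obtain ⟨i, _, rfl⟩ := Finset.mem_map.1 hj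
        exact hKL₀ (hc _)) 0 (fld F0 x s₀).zero_mem (by
        rw [map_sum, Finset.sum_map, Finset.sum_map, add_zero]
        refine Finset.sum_congr rfl fun i _ => ?_
        rw [LS.const_mul (hc _)]
        change c (l₂ i) * LS.θ (y₂ i) = c (l₂ i) * y₁ i
        rw [hy₂]) (l₁ i) (Finset.mem_map_of_mem _ (Finset.mem_univ _))
    obtain ⟨e, _, he⟩ := h1
    have h2 : c (l₂ i) = LS.θ e := he
    have h3 := coeff_zero_of_eq_θ h2
    obtain ⟨q, hq⟩ := hc (l₂ i)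
    have hq' : ((q : ℚ) : LaurentSeries ℚ) = c (l₂ i) := hq
    rw [← hq', ratCast_eq_C, HahnSeries.C_apply, HahnSeries.coeff_single_same] at h3
    rw [← hq', h3]; simp
  obtain ⟨hA₂, hst₂⟩ := LS.algIndep_level K_le_F0 x (s₀ ∪ s₁) s₂ hA₁ hst₁ hθ₂ hlf₂
  have hKL₁ : LS.K ≤ fld F0 x (s₀ ∪ s₁) := K_le_F0.trans (le_fld _ _ _)
  -- level 3
  have hhL : ∀ i, h i ∈ fld F0 x (s₀ ∪ s₁) := fun i => by
    have h1 := hh i
    rw [← hL₀] at h1
    exact fld_mono le_rfl Finset.subset_union_left h1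
  have hθ₃ : ∀ j ∈ s₃, LS.θ (x j) ∈ fld F0 x (s₀ ∪ s₁ ∪ s₂) := by
    intro j hj
    obtain ⟨i, _, rfl⟩ := Finset.mem_map.1 hj
    change LS.θ (y₃ i) ∈ _
    rw [hy₃]
    refine (fld F0 x (s₀ ∪ s₁ ∪ s₂)).add_mem ((fld F0 x (s₀ ∪ s₁ ∪ s₂)).mul_mem
      (fld_mono le_rfl Finset.subset_union_left (hhL i))
      (mem_fld (y := x) (i := l₂ i) (Finset.mem_union_right _ (Finset.mem_map_of_mem _ (Finset.mem_univ _)))))
      ((fld F0 x (s₀ ∪ s₁ ∪ s₂)).pow_mem (mem_fld (y := x) (i := l₁ i)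
        (Finset.mem_union_left _ (Finset.mem_union_right _
          (Finset.mem_map_of_mem _ (Finset.mem_univ _))))) 2)
  have hlf₃ : LS.LinFree (fld F0 x (s₀ ∪ s₁ ∪ s₂)) x s₃ := by
    intro c hc hcx j hj
    obtain ⟨i, _, rfl⟩ := Finset.mem_map.1 hj
    rw [fld_union] at hcx
    have h1 := LS.chain hst₁ hKL₁ x s₂ hθ₂ hlf₂ _ hcx (fun o => match o with
      | some (Sum.inr (Sum.inl i)) => c (l₃ i) * h i
      | _ => 0) (by
        intro j hj
        obtain ⟨i, _, rfl⟩ := Finset.mem_map.1 hj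
        exact (fld F0 x (s₀ ∪ s₁)).mul_mem (hKL₁ (hc _)) (hhL i))
        (∑ i, c (l₃ i) * y₁ i ^ 2) ((fld F0 x (s₀ ∪ s₁)).sum_mem fun i _ =>
          (fld F0 x (s₀ ∪ s₁)).mul_mem (hKL₁ (hc _)) ((fld F0 x (s₀ ∪ s₁)).pow_mem
            (mem_fld (y := x) (i := l₁ i) (Finset.mem_union_right _
              (Finset.mem_map_of_mem _ (Finset.mem_univ _)))) 2)) (by
        rw [map_sum, Finset.sum_map, Finset.sum_map, ← Finset.sum_add_distrib]
        refine Finset.sum_congr rfl fun i _ => ?_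
        rw [LS.const_mul (hc _)]
        change c (l₃ i) * LS.θ (y₃ i) = c (l₃ i) * h i * y₂ i + c (l₃ i) * y₁ i ^ 2
        rw [hy₃]; ring) (l₂ i) (Finset.mem_map_of_mem _ (Finset.mem_univ _))
    obtain ⟨e, _, he⟩ := h1
    have h2 : c (l₃ i) * h i = LS.θ e := he
    have h3 := coeff_zero_of_eq_θ h2
    obtain ⟨q, hq⟩ := hc (l₃ i)
    have hq' : ((q : ℚ) : LaurentSeries ℚ) = c (l₃ i) := hq
    rw [← hq', coeff_rat_mul] at h3
    have h4 : q = 0 := (mul_eq_zero.1 h3).resolve_right (hh0 i)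
    rw [← hq', h4]; simp
  obtain ⟨hA₃, _⟩ := LS.algIndep_level K_le_F0 x (s₀ ∪ s₁ ∪ s₂) s₃ hA₂ hst₂ hθ₃ hlf₃
  have huniv : (((s₀ ∪ s₁ ∪ s₂ ∪ s₃ : Finset (Idx ι))) : Set (Idx ι)) = Set.univ := by
    ext o
    simp only [Finset.coe_union, Set.mem_union, Finset.mem_coe, Set.mem_univ, iff_true]
    rcases o with _ | i | i | i
    · left; left; left; simp [s₀]
    · left; left; right; exact Finset.mem_map_of_mem l₁ (Finset.mem_univ i)
    · left; right; exact Finset.mem_map_of_mem l₂ (Finset.mem_univ i)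
    · right; exact Finset.mem_map_of_mem l₃ (Finset.mem_univ i)
  rw [huniv] at hA₃
  have h5 := (algebraicIndependent_equiv (R := F0) (f := x) (Equiv.Set.univ (Idx ι))).1 (by
    exact hA₃)
  exact h5



/-- the function `W_r` with `θ W_r = E_1(r z)^2 - 2 E_2(r z)` -/
noncomputable def Wk (r : ℚ) : PowerSeries ℚ :=
  prim (Ek 1 r * Ek 1 r) - PowerSeries.C 2 * Ek 3 r

theorem isE_Wk (r : ℚ) : IsE (Wk r) :=
  (((isE_Ek 1 r).mul (isE_Ek 1 r)).prim).sub ((isE_C 2).mul (isE_Ek 3 r))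

theorem coeff_zero_Ek (k : ℕ) (r : ℚ) : PowerSeries.coeff 0 (Ek k r) = 0 := by
  rw [Ek, coeff_eser, recip, if_pos rfl]; simp

theorem ths_sub' (f g : PowerSeries ℚ) : ths (f - g) = ths f - ths g := by
  ext n
  rw [coeff_ths, map_sub, map_sub, coeff_ths, coeff_ths]; ring

theorem ths_C_mul' (c : ℚ) (f : PowerSeries ℚ) :
    ths (PowerSeries.C c * f) = PowerSeries.C c * ths f := by
  ext n
  rw [coeff_ths, PowerSeries.coeff_C_mul, PowerSeries.coeff_C_mul, coeff_ths]; ring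

theorem ths_Wk (r : ℚ) : ths (Wk r) = Ek 1 r ^ 2 - PowerSeries.C 2 * Ek 2 r := by
  rw [Wk, ths_sub', ths_C_mul', ths_prim, ths_Ek_succ, pow_two]
  rw [PowerSeries.coeff_mul]
  simp [coeff_zero_Ek]

section

variable {ι : Type*} [Fintype ι]

/-- **Algebraic independence of `e^{1/D}`, `E_1(r_i)`, `E_2(r_i)`, `W(r_i)`** -/
theorem values_Wk [DecidableEq ι] (r : ι → ℚ) (hr0 : ∀ i, r i ≠ 0) (hrinj : Function.Injective r)
    {D : ℕ} (hD : 0 < D) (n : ι → ℤ) (hn : ∀ i, r i = n i * (1 / (D : ℚ))) :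
    AlgebraicIndependent ℚ (fun o : Option (ι ⊕ ι ⊕ ι) => o.elim (Real.exp ((1 / (D : ℚ) : ℚ)))
      (Sum.elim (fun i => ev (Ek 1 (r i))) (Sum.elim (fun i => ev (Ek 2 (r i)))
        (fun i => ev (Wk (r i)))))) := by
  set r0 : ℚ := 1 / (D : ℚ) with hr0def
  have hr00 : r0 ≠ 0 := by positivity
  let y : ι ⊕ ι ⊕ ι → PowerSeries ℚ := Sum.elim (fun i => Ek 1 (r i))
    (Sum.elim (fun i => Ek 2 (r i)) (fun i => Wk (r i)))
  let Q : ℕ := ∑ i, (n i).natAbs + 1
  have hnQ : ∀ i, (n i).natAbs ≤ Q := fun i => by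
    have := Finset.single_le_sum (f := fun i => (n i).natAbs) (fun _ _ => Nat.zero_le _)
      (Finset.mem_univ i)
    simp only [Q]
    omega
  let w : ι ⊕ ι ⊕ ι → ℕ := Sum.elim (fun _ => Q) (Sum.elim (fun _ => 2 * Q) (fun _ => 3 * Q))
  have hQ1 : 1 ≤ Q := by simp only [Q]; omega
  have hval : (fun o : Option (ι ⊕ ι ⊕ ι) => o.elim (Real.exp (r0 : ℚ))
      (Sum.elim (fun i => ev (Ek 1 (r i))) (Sum.elim (fun i => ev (Ek 2 (r i)))
        (fun i => ev (Wk (r i)))))) = (fun o : Option (ι ⊕ ι ⊕ ι) => o.elim (Real.exp (r0 : ℚ))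
        (fun i => ev (y i))) := by
    funext o
    rcases o with _ | i | i | i <;> rfl
  rw [hval]
  apply ss_algIndep (w := w)
  · rintro (i | i | i)
    · exact hQ1
    · change 1 ≤ 2 * Q; omega
    · change 1 ≤ 3 * Q; omega
  · rintro (i | i | i)
    · exact isE_Ek _ _
    · exact isE_Ek _ _
    · exact isE_Wk _
  · rintro (i | i | i)
    · change ths (Ek 1 (r i)) ∈ VV r0 y w Q
      rw [ths_Ek_succ, Ek_zero]
      apply Submodule.sub_mem
      · rw [hn i]; exact mem_VV_ex _ (hnQ i)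
      · have := mem_VV_ex (r := r0) (y := y) (w := w) (T := Q) 0 (by simp)
        simpa [ex_zero] using this
    · change ths (Ek 2 (r i)) ∈ VV r0 y w (2 * Q)
      rw [ths_Ek_succ]
      exact mem_VV_gen (y := y) (Sum.inl i) (by change Q ≤ 2 * Q; omega)
    · change ths (Wk (r i)) ∈ VV r0 y w (3 * Q)
      rw [ths_Wk, pow_two]
      apply Submodule.sub_mem
      · have h1 : Ek 1 (r i) * Ek 1 (r i) ∈ VV r0 y w (Q + Q) :=
          VV_mul (mem_VV_gen (y := y) (Sum.inl i) le_rfl) (mem_VV_gen (y := y) (Sum.inl i) le_rfl)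
        exact VV_mono (by omega) h1
      · have h1 : Ek 2 (r i) ∈ VV r0 y w (3 * Q) :=
          mem_VV_gen (y := y) (Sum.inr (Sum.inl i)) (by change 2 * Q ≤ 3 * Q; omega)
        have h2 : PowerSeries.C (2 : ℚ) * Ek 2 (r i) = (C (2 : ℚ) : ℚ[X]) • Ek 2 (r i) := by
          rw [Algebra.smul_def, PowerSeries.algebraMap_apply']
          simp
        rw [h2]
        exact Submodule.smul_mem _ _ h1
  · have hfam : (fun o : Option (ι ⊕ ι ⊕ ι) => o.elim (toL (ex r0)) (fun i => toL (y i))) =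
        fam (toL (ex r0)) (fun i => toL (Ek 1 (r i))) (fun i => toL (Ek 2 (r i)))
          (fun i => toL (Wk (r i))) := by
      funext o
      rcases o with _ | i | i | i <;> rfl
    rw [hfam]
    have hC2 : toL (PowerSeries.C (2 : ℚ)) = ((2 : ℚ) : LaurentSeries ℚ) := by
      rw [toL_C]
    apply tower_algIndep_sq hr00 (toL (ex r0)) (toL_ex_ne_zero _) _ n _ _ _ _ _
      (fun _ => ((-2 : ℚ) : LaurentSeries ℚ))
    · intro i
      rw [θ_toL, ths_Ek_succ, Ek_zero, map_sub, map_one, hn i, toL_ex_zpow]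
    · intro i
      rw [θ_toL, ths_Ek_succ]
    · intro i
      rw [θ_toL, ths_Wk, map_sub, map_mul, map_pow, hC2]
      push_cast; ring
    · intro i; exact le_adjF _ _ (K_le_F0 (rat_mem_K _))
    · intro i
      rw [ratCast_eq_C, HahnSeries.C_apply, HahnSeries.coeff_single_same]
      norm_num
    · rw [θ_toL, ths_ex, map_mul]
      congr 1
      rw [Polynomial.coe_mul, Polynomial.coe_C, Polynomial.coe_X, map_mul, toL_C, toL_X]
    · intro i h
      apply hr0 i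
      rw [hn i, h]; simp
    · intro i j h
      apply hrinj
      rw [hn i, hn j, h]

end

end Pool.Agent.SS
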