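import Pool.Agent.SS.GenIndep
import Pool.Agent.SS.BesselFun
import Pool.Agent.SS.E1Fun

/-!
# The `E`-functions attached to `I_0`, `K_0`, and the algebraic independence of their values
-/

namespace Pool.Agent.SS

open Polynomial

attribute [local instance] charZero_LS

/-- `∑ s n / n!² X^{2n}` -/
noncomputable def evser (s : ℕ → ℚ) : PowerSeries ℚ :=
  PowerSeries.mk fun m => if Even m then s (m / 2) / ((m / 2).factorial : ℚ) ^ 2 else 0

theorem coeff_evser_even (s : ℕ → ℚ) (n : ℕ) :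
    PowerSeries.coeff (2 * n) (evser s) = s n / (n.factorial : ℚ) ^ 2 := by
  rw [evser, PowerSeries.coeff_mk, if_pos (even_two_mul n)]
  have : 2 * n / 2 = n := by omega
  rw [this]

theorem coeff_evser_odd (s : ℕ → ℚ) (n : ℕ) :
    PowerSeries.coeff (2 * n + 1) (evser s) = 0 := by
  rw [evser, PowerSeries.coeff_mk, if_neg (by rw [Nat.not_even_iff_odd]; exact odd_two_mul_add_one n)]

theorem isE_evser {s : ℕ → ℚ} (hs : EData s) : IsE (evser s) := by
  obtain ⟨C, d, hC, hd, hd0, ha, hi⟩ := hs.exists_bound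
  have hC' : (1 : ℚ) ≤ C := by exact_mod_cast hC
  have key : ∀ m, Even m → (m.factorial : ℚ) * PowerSeries.coeff m (evser s) =
      (m.choose (m / 2) : ℚ) * s (m / 2) := by
    intro m hm
    obtain ⟨n, rfl⟩ : ∃ n, m = 2 * n := hm.exists_two_nsmul.imp fun n hn => by simpa using hn
    have h2 : 2 * n / 2 = n := by omega
    rw [coeff_evser_even, h2]
    have h3 := Nat.choose_mul_factorial_mul_factorial (show n ≤ 2 * n by omega)
    have h4 : 2 * n - n = n := by omega
    rw [h4] at h3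
    have h5 : (n.factorial : ℚ) ≠ 0 := by exact_mod_cast (Nat.factorial_pos n).ne'
    have h6 : ((2 * n).factorial : ℚ) = (2 * n).choose n * n.factorial * n.factorial := by
      exact_mod_cast h3.symm
    rw [h6]
    field_simp
  have key' : ∀ m, ¬ Even m → (m.factorial : ℚ) * PowerSeries.coeff m (evser s) = 0 := by
    intro m hm
    rw [evser, PowerSeries.coeff_mk, if_neg hm, mul_zero]
  refine ⟨⟨2 * C, d, by omega, fun n => ?_, hd0, fun n => ?_, fun n k hk => ?_⟩⟩
  · exact (hd n).trans (Nat.pow_le_pow_left (by omega) _)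
  · by_cases hn : Even n
    · rw [key n hn, abs_mul, abs_of_nonneg (by positivity : (0 : ℚ) ≤ ((n.choose (n / 2) : ℕ) : ℚ))]
      have h1 : ((n.choose (n / 2) : ℕ) : ℚ) ≤ 2 ^ n := by
        exact_mod_cast Nat.choose_le_two_pow n (n / 2)
      have h2 : |s (n / 2)| ≤ (C : ℚ) ^ (n + 1) :=
        (ha _).trans (pow_le_pow_right₀ hC' (by omega))
      push_cast
      rw [mul_pow]
      apply mul_le_mul _ h2 (abs_nonneg _) (by positivity)
      exact h1.trans (pow_le_pow_right₀ (by norm_num) (by omega))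
    · rw [key' n hn, abs_zero]; positivity
  · by_cases hk' : Even k
    · rw [key k hk']
      obtain ⟨m, hm⟩ := hi n (k / 2) (by omega)
      refine ⟨(k.choose (k / 2) : ℤ) * m, ?_⟩
      push_cast
      rw [← hm]; ring
    · rw [key' k hk']
      exact ⟨0, by simp⟩

theorem ths_evser (s : ℕ → ℚ) : ths (evser s) = evser fun n => 2 * n * s n := by
  ext m
  rw [coeff_ths]
  rcases m.even_or_odd' with ⟨n, rfl | rfl⟩
  · rw [coeff_evser_even, coeff_evser_even]; push_cast; ring
  · rw [coeff_evser_odd, coeff_evser_odd, mul_zero]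

theorem X_sq_mul_evser (s : ℕ → ℚ) :
    PowerSeries.X ^ 2 * evser s = evser fun n => (n : ℚ) ^ 2 * s (n - 1) := by
  ext m
  rw [PowerSeries.coeff_X_pow_mul']
  rcases m.even_or_odd' with ⟨n, rfl | rfl⟩
  · rw [coeff_evser_even]
    split_ifs with h
    · obtain ⟨k, rfl⟩ : ∃ k, n = k + 1 := ⟨n - 1, by omega⟩
      have h1 : 2 * (k + 1) - 2 = 2 * k := by omega
      rw [h1, coeff_evser_even, Nat.add_sub_cancel, Nat.factorial_succ]
      have h5 : (k.factorial : ℚ) ≠ 0 := by exact_mod_cast (Nat.factorial_pos k).ne'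
      have h6 : ((k : ℚ) + 1) ≠ 0 := by positivity
      push_cast
      field_simp
    · have : n = 0 := by omega
      subst this; simp
  · rw [coeff_evser_odd]
    split_ifs with h
    · obtain ⟨k, rfl⟩ : ∃ k, n = k + 1 := ⟨n - 1, by omega⟩
      have h1 : 2 * (k + 1) + 1 - 2 = 2 * k + 1 := by omega
      rw [h1, coeff_evser_odd]
    · rfl

theorem evser_add (s t : ℕ → ℚ) : evser (fun n => s n + t n) = evser s + evser t := by
  ext m
  rw [map_add]
  rcases m.even_or_odd' with ⟨n, rfl | rfl⟩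
  · rw [coeff_evser_even, coeff_evser_even, coeff_evser_even]; ring
  · rw [coeff_evser_odd, coeff_evser_odd, coeff_evser_odd]; ring

theorem C_mul_evser (c : ℚ) (s : ℕ → ℚ) :
    PowerSeries.C c * evser s = evser fun n => c * s n := by
  ext m
  rw [PowerSeries.coeff_C_mul]
  rcases m.even_or_odd' with ⟨n, rfl | rfl⟩
  · rw [coeff_evser_even, coeff_evser_even]; ring
  · rw [coeff_evser_odd, coeff_evser_odd]; ring

/-- `I_0(2 √q X)` -/
noncomputable def bI (q : ℚ) : PowerSeries ℚ := evser fun n => q ^ n * 1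

/-- `∑ H_n q^n X^{2n} / n!²` -/
noncomputable def bB (q : ℚ) : PowerSeries ℚ := evser fun n => q ^ n * harm 1 n

theorem isE_bI (q : ℚ) : IsE (bI q) := isE_evser (edata_one.scale q)

theorem isE_bB (q : ℚ) : IsE (bB q) := isE_evser ((edata_harm 1).scale q)

theorem IsE.ths {f : PowerSeries ℚ} (hf : IsE f) : IsE (ths f) := by
  obtain ⟨C, d, hC, hd, hd0, ha, hi⟩ := hf.exists_bound
  have hC' : (1 : ℚ) ≤ C := by exact_mod_cast hC
  refine ⟨⟨2 * C, d, by omega, fun n => ?_, hd0, fun n => ?_, fun n k hk => ?_⟩⟩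
  · exact (hd n).trans (Nat.pow_le_pow_left (by omega) _)
  · rw [coeff_ths]
    have h1 : (n.factorial : ℚ) * (n * PowerSeries.coeff n f) =
        n * (n.factorial * PowerSeries.coeff n f) := by ring
    rw [h1, abs_mul, abs_of_nonneg (by positivity : (0 : ℚ) ≤ (n : ℚ))]
    have h2 : (n : ℚ) ≤ 2 ^ (n + 1) := by
      have : n ≤ 2 ^ (n + 1) := by
        have := Nat.lt_two_pow_self (n := n + 1)
        omega
      exact_mod_cast this
    push_cast
    rw [mul_pow]
    exact mul_le_mul h2 (ha n) (abs_nonneg _) (by positivity)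
  · rw [coeff_ths]
    obtain ⟨m, hm⟩ := hi n k hk
    refine ⟨k * m, ?_⟩
    push_cast
    rw [← hm]; ring

/-- the equation of `I_0` -/
theorem ths_ths_bI (q : ℚ) : ths (ths (bI q)) = PowerSeries.C (4 * q) * PowerSeries.X ^ 2 * bI q := by
  rw [bI, ths_evser, ths_evser, mul_assoc, X_sq_mul_evser, C_mul_evser]
  congr 1
  funext n
  rcases n with _ | n
  · simp
  · rw [Nat.add_sub_cancel, pow_succ]; push_cast; ring

theorem recip_one_succ (n : ℕ) : recip 1 (n + 1) = 1 / ((n : ℚ) + 1) := by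
  rw [recip, if_neg (Nat.succ_ne_zero n)]
  push_cast; rw [pow_one]

/-- the inhomogeneous equation of `B` -/
theorem ths_ths_bB (q : ℚ) : ths (ths (bB q)) =
    PowerSeries.C (4 * q) * PowerSeries.X ^ 2 * bB q + PowerSeries.C 2 * ths (bI q) := by
  rw [bB, bI, ths_evser, ths_evser, mul_assoc, X_sq_mul_evser, C_mul_evser, ths_evser, C_mul_evser,
    ← evser_add]
  congr 1
  funext n
  rcases n with _ | n
  · simp
  · have h6 : ((n : ℚ) + 1) ≠ 0 := by positivity
    rw [Nat.add_sub_cancel, harm_succ, recip_one_succ, pow_succ]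
    push_cast
    field_simp
    ring

theorem eq_of_ths_eq {f g : PowerSeries ℚ} (h : ths f = ths g)
    (h0 : PowerSeries.coeff 0 f = PowerSeries.coeff 0 g) : f = g := by
  ext n
  rcases Nat.eq_zero_or_pos n with rfl | hn
  · exact h0
  · have h1 := congrArg (PowerSeries.coeff n) h
    rw [coeff_ths, coeff_ths] at h1
    exact mul_left_cancel₀ (by exact_mod_cast hn.ne') h1

theorem coeff_zero_mul (f g : PowerSeries ℚ) :
    PowerSeries.coeff 0 (f * g) = PowerSeries.coeff 0 f * PowerSeries.coeff 0 g := by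
  simp

theorem coeff_zero_one' : PowerSeries.coeff 0 (1 : PowerSeries ℚ) = 1 := by simp

theorem coeff_zero_ths (f : PowerSeries ℚ) : PowerSeries.coeff 0 (ths f) = 0 := by
  rw [coeff_ths]; simp

theorem coeff_zero_bI (q : ℚ) : PowerSeries.coeff 0 (bI q) = 1 := by
  have := coeff_evser_even (fun n => q ^ n * 1) 0
  rw [bI]
  simpa using this

theorem coeff_zero_bB (q : ℚ) : PowerSeries.coeff 0 (bB q) = 0 := by
  have := coeff_evser_even (fun n => q ^ n * harm 1 n) 0
  rw [bB]
  simpa [harm, recip] using this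

theorem ths_one : ths (1 : PowerSeries ℚ) = 0 := by
  have := ths_coe (1 : ℚ[X])
  rw [Polynomial.coe_one] at this
  rw [this, thp]; simp

/-- the Wronskian -/
theorem wronskian_bessel (q : ℚ) :
    ths (bB q) * bI q - bB q * ths (bI q) = bI q ^ 2 - 1 := by
  apply eq_of_ths_eq
  · rw [ths_sub', ths_mul, ths_mul, ths_ths_bI, ths_ths_bB, ths_sub', pow_two (bI q), ths_mul,
      ths_one]
    have : (PowerSeries.C (2 : ℚ) : PowerSeries ℚ) = 2 := map_ofNat _ 2
    rw [this]
    ring
  · rw [map_sub, map_sub, pow_two, coeff_zero_mul, coeff_zero_mul, coeff_zero_mul, coeff_zero_ths,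
      coeff_zero_ths, coeff_zero_bI, coeff_zero_bB, coeff_zero_one']
    norm_num

/-- `A₀`, with `θ A₀ = I² - 1` -/
noncomputable def bA (q : ℚ) : PowerSeries ℚ := prim (bI q ^ 2 - 1)

/-- `G₁`, with `θ G₁ = A₀ + I B` -/
noncomputable def bG (q : ℚ) : PowerSeries ℚ := prim (bA q + bI q * bB q)

/-- `G₂`, with `θ G₂ = 2 G₁ + B²` -/
noncomputable def bH (q : ℚ) : PowerSeries ℚ := prim (2 * bG q + bB q ^ 2)

theorem coeff_zero_prim (f : PowerSeries ℚ) : PowerSeries.coeff 0 (prim f) = 0 := by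
  rw [coeff_prim]; simp

theorem ths_bA (q : ℚ) : ths (bA q) = bI q ^ 2 - 1 := by
  apply ths_prim
  rw [map_sub, pow_two, coeff_zero_mul, coeff_zero_bI, coeff_zero_one']
  norm_num

theorem ths_bG (q : ℚ) : ths (bG q) = bA q + bI q * bB q := by
  apply ths_prim
  rw [map_add, coeff_zero_mul, coeff_zero_bI, coeff_zero_bB, bA, coeff_zero_prim]
  norm_num

theorem ths_bH (q : ℚ) : ths (bH q) = 2 * bG q + bB q ^ 2 := by
  apply ths_prim
  rw [map_add, pow_two, coeff_zero_mul, coeff_zero_mul, coeff_zero_bB, bG, coeff_zero_prim]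
  norm_num

theorem isE_two : IsE (2 : PowerSeries ℚ) := by
  have := isE_C 2
  rwa [map_ofNat] at this

theorem isE_bA (q : ℚ) : IsE (bA q) := (((isE_bI q).pow 2).sub isE_one).prim

theorem isE_bG (q : ℚ) : IsE (bG q) := ((isE_bA q).add ((isE_bI q).mul (isE_bB q))).prim

theorem isE_bH (q : ℚ) : IsE (bH q) := ((isE_two.mul (isE_bG q)).add ((isE_bB q).pow 2)).prim

/-- the seven functions -/
noncomputable def bz (q : ℚ) : Fin 7 → PowerSeries ℚ :=
  ![bI q, ths (bI q), bB q, bA q, bG q, bH q, ths (bB q)]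

/-- the weights -/
def bw : Fin 7 → ℕ := ![1, 1, 1, 2, 2, 2, 1]

theorem bz0 (q : ℚ) : bz q 0 = bI q := rfl
theorem bz1 (q : ℚ) : bz q 1 = ths (bI q) := rfl
theorem bz2 (q : ℚ) : bz q 2 = bB q := rfl
theorem bz3 (q : ℚ) : bz q 3 = bA q := rfl
theorem bz4 (q : ℚ) : bz q 4 = bG q := rfl
theorem bz5 (q : ℚ) : bz q 5 = bH q := rfl
theorem bz6 (q : ℚ) : bz q 6 = ths (bB q) := rfl
theorem bw0 : bw 0 = 1 := rfl
theorem bw1 : bw 1 = 1 := rfl
theorem bw2 : bw 2 = 1 := rfl
theorem bw3 : bw 3 = 2 := rfl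
theorem bw4 : bw 4 = 2 := rfl
theorem bw5 : bw 5 = 2 := rfl
theorem bw6 : bw 6 = 1 := rfl

theorem isE_bz (q : ℚ) (i : Fin 7) : IsE (bz q i) := by
  match i with
  | 0 => rw [bz0]; exact isE_bI q
  | 1 => rw [bz1]; exact (isE_bI q).ths
  | 2 => rw [bz2]; exact isE_bB q
  | 3 => rw [bz3]; exact isE_bA q
  | 4 => rw [bz4]; exact isE_bG q
  | 5 => rw [bz5]; exact isE_bH q
  | 6 => rw [bz6]; exact (isE_bB q).ths

theorem C_mul_eq_smul (c : ℚ) (f : PowerSeries ℚ) :
    PowerSeries.C c * f = (C c : ℚ[X]) • f := by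
  rw [smul_eq_coe_mul, Polynomial.coe_C]

theorem ths_bz_mem (q : ℚ) (i : Fin 7) : ths (bz q i) ∈ VV 0 (bz q) bw (bw i) := by
  have m0 := gen_mem_VV (z := bz q) (w := bw) 0 0
  have m1 := gen_mem_VV (z := bz q) (w := bw) 0 1
  have m2 := gen_mem_VV (z := bz q) (w := bw) 0 2
  have m3 := gen_mem_VV (z := bz q) (w := bw) 0 3
  have m4 := gen_mem_VV (z := bz q) (w := bw) 0 4
  have m6 := gen_mem_VV (z := bz q) (w := bw) 0 6
  rw [bz0, bw0] at m0
  rw [bz1, bw1] at m1
  rw [bz2, bw2] at m2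
  rw [bz3, bw3] at m3
  rw [bz4, bw4] at m4
  rw [bz6, bw6] at m6
  generalize hV1 : VV 0 (bz q) bw 1 = V1 at m0 m1 m2 m3 m4 m6
  generalize hV2 : VV 0 (bz q) bw 2 = V2 at m0 m1 m2 m3 m4 m6
  have hcX : ∀ f ∈ V1, PowerSeries.C (4 * q) * PowerSeries.X ^ 2 * f ∈ V1 := by
    intro f hf
    have : PowerSeries.C (4 * q) * PowerSeries.X ^ 2 * f = (C (4 * q) * X ^ 2 : ℚ[X]) • f := by
      rw [smul_eq_coe_mul, Polynomial.coe_mul, Polynomial.coe_C, Polynomial.coe_pow,
        Polynomial.coe_X]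
    rw [this]
    exact Submodule.smul_mem _ _ hf
  have hsq : ∀ f g, f ∈ V1 → g ∈ V1 → f * g ∈ V2 := by
    intro f g hf hg
    rw [← hV1] at hf hg
    have h3 := VV_mul hf hg
    have h4 : 1 + 1 = 2 := rfl
    rw [h4, hV2] at h3
    exact h3
  have h2 : ∀ f, f ∈ V2 → 2 * f ∈ V2 := by
    intro f hf
    have : (2 : PowerSeries ℚ) = PowerSeries.C 2 := (map_ofNat _ 2).symm
    rw [this, C_mul_eq_smul]
    exact Submodule.smul_mem _ _ hf
  have hone : (1 : PowerSeries ℚ) ∈ V2 := by
    rw [← hV2]; exact one_mem_VV 0 2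
  match i with
  | 0 => rw [bz0, bw0, hV1]; exact m1
  | 1 => rw [bz1, bw1, hV1, ths_ths_bI]; exact hcX _ m0
  | 2 => rw [bz2, bw2, hV1]; exact m6
  | 3 =>
    rw [bz3, bw3, hV2, ths_bA, pow_two]
    exact Submodule.sub_mem _ (hsq _ _ m0 m0) hone
  | 4 =>
    rw [bz4, bw4, hV2, ths_bG]
    exact Submodule.add_mem _ m3 (hsq _ _ m0 m2)
  | 5 =>
    rw [bz5, bw5, hV2, ths_bH, pow_two]
    exact Submodule.add_mem _ (h2 _ m4) (hsq _ _ m2 m2)
  | 6 =>
    rw [bz6, bw6, hV1, ths_ths_bB, C_mul_eq_smul 2]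
    exact Submodule.add_mem _ (hcX _ m2) (Submodule.smul_mem _ _ m1)

/-- independence of monomials with injective exponents -/
theorem algIndep_of_monomial {R A ι κ : Type*} [CommRing R] [CommRing A] [Algebra R A] [Fintype ι]
    [Fintype κ] {x : ι → A} (hx : AlgebraicIndependent R x) (y : κ → A) (g : (κ → ℕ) → (ι → ℕ))
    (hg : Function.Injective g) (hy : ∀ α : κ → ℕ, ∏ k, y k ^ α k = ∏ i, x i ^ g α i) :
    AlgebraicIndependent R y := by
  classical
  rw [algebraicIndependent_iff]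
  intro p hp
  let e : (κ →₀ ℕ) → (ι →₀ ℕ) := fun α => Finsupp.equivFunOnFinite.symm (g α)
  have he : Function.Injective e := by
    intro α β h
    have h1 : g α = g β := Finsupp.equivFunOnFinite.symm.injective h
    exact DFunLike.coe_injective (hg h1)
  let r : MvPolynomial ι R := ∑ α ∈ p.support, MvPolynomial.monomial (e α) (p.coeff α)
  have hr : MvPolynomial.aeval x r = 0 := by
    rw [← hp, MvPolynomial.aeval_def (f := y), MvPolynomial.eval₂_eq', map_sum]
    refine Finset.sum_congr rfl fun α _ => ?_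
    rw [MvPolynomial.aeval_monomial]
    congr 1
    rw [hy, Finsupp.prod_fintype _ _ (fun i => pow_zero _)]
    rfl
  have hr0 : r = 0 := (algebraicIndependent_iff.1 hx) r hr
  ext α
  rw [MvPolynomial.coeff_zero]
  by_cases hα : α ∈ p.support
  · have h1 := congrArg (MvPolynomial.coeff (e α)) hr0
    rw [MvPolynomial.coeff_zero, MvPolynomial.coeff_sum] at h1
    simp only [MvPolynomial.coeff_monomial] at h1
    rw [Finset.sum_eq_single α] at h1
    · simpa using h1
    · intro β _ hβ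
      rw [if_neg (fun h => hβ (he h))]
    · intro h; exact absurd hα h
  · exact MvPolynomial.notMem_support_iff.1 hα

theorem toL_mem_algebraicClosure (P : ℚ[X]) :
    toL (P : PowerSeries ℚ) ∈ algebraicClosure Fw (LaurentSeries ℚ) := by
  have hz : zz ∈ algebraicClosure Fw (LaurentSeries ℚ) := by
    rw [mem_algebraicClosure_iff]
    refine IsAlgebraic.of_pow (n := 2) (by norm_num) ?_
    exact isAlgebraic_algebraMap (⟨zz ^ 2, zz_sq_mem_Fw⟩ : Fw)
  have hK : ∀ c : ℚ, (c : LaurentSeries ℚ) ∈ algebraicClosure Fw (LaurentSeries ℚ) := fun c =>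
    (algebraicClosure Fw (LaurentSeries ℚ)).algebraMap_mem ⟨_, K_le_Fw (rat_mem_K c)⟩
  induction P using Polynomial.induction_on' with
  | add p q hp hq => rw [Polynomial.coe_add, map_add]; exact add_mem hp hq
  | monomial n a =>
    have h1 : ((Polynomial.monomial n a : ℚ[X]) : PowerSeries ℚ) =
        PowerSeries.C a * PowerSeries.X ^ n := by
      rw [← Polynomial.C_mul_X_pow_eq_monomial, Polynomial.coe_mul, Polynomial.coe_C,
        Polynomial.coe_pow, Polynomial.coe_X]
    rw [h1, map_mul, map_pow, toL_C, toL_X]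
    exact mul_mem (hK a) (pow_mem hz n)

/-- algebraic independence over `ℚ[X]` from algebraic independence in Laurent series -/
theorem algIndep_of_toL {κ : Type*} {y : κ → PowerSeries ℚ}
    (h : AlgebraicIndependent (algebraicClosure Fw (LaurentSeries ℚ)) (fun k => toL (y k))) :
    AlgebraicIndependent ℚ[X] y := by
  rw [algebraicIndependent_iff]
  intro p hp
  let φ : ℚ[X] →+* algebraicClosure Fw (LaurentSeries ℚ) :=
    RingHom.codRestrict ((toL : PowerSeries ℚ →+* LaurentSeries ℚ).comp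
      (Polynomial.coeToPowerSeries.ringHom : ℚ[X] →+* PowerSeries ℚ)) _
      (fun P => toL_mem_algebraicClosure P)
  have hφ : Function.Injective φ := by
    rw [injective_iff_map_eq_zero]
    intro P hP
    have h1 : toL (P : PowerSeries ℚ) = 0 := congrArg Subtype.val hP
    exact toL_poly_eq_zero h1
  have h1 : ∀ r : MvPolynomial κ ℚ[X], MvPolynomial.aeval (fun k => toL (y k))
      (MvPolynomial.map φ r) = toL (MvPolynomial.aeval y r) := by
    intro r
    induction r using MvPolynomial.induction_on with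
    | C a =>
      rw [MvPolynomial.map_C, MvPolynomial.aeval_C, MvPolynomial.aeval_C,
        PowerSeries.algebraMap_apply']
      simp only [Algebra.algebraMap_self, PowerSeries.map_id]
      rfl
    | add r s hr hs => rw [map_add, map_add, map_add, map_add, hr, hs]
    | mul_X r k hr =>
      rw [map_mul, map_mul, map_mul, map_mul, MvPolynomial.map_X, MvPolynomial.aeval_X,
        MvPolynomial.aeval_X, hr]
  have h1 := h1 p
  rw [hp, map_zero] at h1
  have h2 := (algebraicIndependent_iff.1 h) _ h1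
  exact (MvPolynomial.map_injective φ hφ) (h2.trans (map_zero _).symm)

theorem θ_div {f g : LaurentSeries ℚ} (hg : g ≠ 0) :
    LS.θ (f / g) = (LS.θ f * g - f * LS.θ g) / g ^ 2 := by
  have h1 : LS.θ (f / g * g) = LS.θ f := by rw [div_mul_cancel₀ _ hg]
  rw [LS.mul'] at h1
  rw [eq_div_iff (pow_ne_zero _ hg), ← h1]
  field_simp
  ring

theorem toL_C_mul_X_sq (c : ℚ) :
    toL (PowerSeries.C c * PowerSeries.X ^ 2) = (c : LaurentSeries ℚ) * zz ^ 2 := by
  rw [map_mul, map_pow, toL_C, toL_X]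

theorem toL_two : toL 2 = 2 := map_ofNat _ 2

theorem indep_bessel (q : ℚ) (hq : q ≠ 0) :
    AlgebraicIndependent ℚ[X] (fun k : Fin 6 => bz q k.castSucc) := by
  have hI0 : toL (bI q) ≠ 0 := by
    intro h
    have h1 : bI q = 0 := toL_injective (h.trans (map_zero _).symm)
    have h2 := coeff_zero_bI q
    rw [h1, map_zero] at h2
    exact zero_ne_one h2
  set I := toL (bI q) with hI
  set P := toL (ths (bI q)) with hP
  set B := toL (bB q) with hB
  set v := P / I with hv
  set u := B / I with hu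
  have hvI : v * I = P := by rw [hv, div_mul_cancel₀ _ hI0]
  have huI : u * I = B := by rw [hu, div_mul_cancel₀ _ hI0]
  have hθI : LS.θ I = P := by rw [hI, θ_toL]
  have hθB : LS.θ B = toL (ths (bB q)) := by rw [hB, θ_toL]
  have hθP : LS.θ P = ((4 * q : ℚ) : LaurentSeries ℚ) * zz ^ 2 * I := by
    rw [hP, θ_toL, ths_ths_bI, map_mul, toL_C_mul_X_sq]
  have hW : toL (ths (bB q)) * I - B * P = I ^ 2 - 1 := by
    have h1 := congrArg toL (wronskian_bessel q)
    rw [map_sub, map_mul, map_mul, map_sub, map_pow, map_one] at h1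
    exact h1
  have hx := bessel_tower (c := 4 * q) (mul_ne_zero (by norm_num) hq) v I u (toL (bA q))
    (toL (bG q)) (toL (bH q)) hI0 (by
      rw [hv, θ_div hI0, hθP, hθI]
      field_simp) (by rw [hvI, hθI]) (by
      rw [hu, θ_div hI0, hθB, hθI, hW]
      field_simp) (by rw [θ_toL, ths_bA, map_sub, map_pow, map_one]) (by
      rw [θ_toL, ths_bG, map_add, map_mul, ← hI, ← hB, ← huI]; ring) (by
      rw [θ_toL, ths_bH, map_add, map_mul, map_pow, toL_two, ← hB, ← huI]; ring)
  apply algIndep_of_toL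
  refine algIndep_of_monomial hx.algebraicClosure (fun k : Fin 6 => toL (bz q k.castSucc))
    (fun α => ![α 1, α 0 + α 1 + α 2, α 2, α 3, α 4, α 5]) ?_ ?_
  · intro α β h
    have h0 := congrFun h 0
    have h1 := congrFun h 1
    have h2 := congrFun h 2
    have h3 := congrFun h 3
    have h4 := congrFun h 4
    have h5 := congrFun h 5
    simp only [Matrix.cons_val] at h0 h1 h2 h3 h4 h5
    funext i
    match i with
    | 0 => omega
    | 1 => exact h0
    | 2 => exact h2
    | 3 => exact h3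
    | 4 => exact h4
    | 5 => exact h5
  · intro α
    simp only [Fin.prod_univ_six, bfam, Matrix.cons_val]
    change toL (bz q 0) ^ α 0 * toL (bz q 1) ^ α 1 * toL (bz q 2) ^ α 2 * toL (bz q 3) ^ α 3 *
      toL (bz q 4) ^ α 4 * toL (bz q 5) ^ α 5 = _
    rw [bz0, bz1, bz2, bz3, bz4, bz5, ← hI, ← hP, ← hB, ← hvI, ← huI]
    ring

/-- **Algebraic independence of the values** attached to `I_0(2 √q)`, `K_0(2 √q)`. -/
theorem values_bessel (q : ℚ) (hq : q ≠ 0) :
    AlgebraicIndependent ℚ (fun k : Fin 6 => ev (bz q k.castSucc)) := by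
  refine ss_indep (z := bz q) (w := bw) ?_ (isE_bz q) (ths_bz_mem q) (fun k : Fin 6 => k.castSucc)
    0 ?_ (indep_bessel q hq)
  · intro i
    match i with
    | 0 | 1 | 2 | 3 | 4 | 5 | 6 => decide
  · intro i
    have hall : ∀ j : Fin 6, ∃ g : MvPolynomial (Fin 6) ℚ[X],
        bz q (Fin.castSucc 0) * bz q j.castSucc =
          MvPolynomial.aeval (fun k : Fin 6 => bz q k.castSucc) g := fun j =>
      ⟨MvPolynomial.X 0 * MvPolynomial.X j, by
        rw [map_mul, MvPolynomial.aeval_X, MvPolynomial.aeval_X]⟩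
    match i with
    | 0 => exact hall 0
    | 1 => exact hall 1
    | 2 => exact hall 2
    | 3 => exact hall 3
    | 4 => exact hall 4
    | 5 => exact hall 5
    | 6 =>
      refine ⟨MvPolynomial.X 2 * MvPolynomial.X 1 + MvPolynomial.X 0 ^ 2 - 1, ?_⟩
      rw [map_sub, map_add, map_mul, map_pow, MvPolynomial.aeval_X, MvPolynomial.aeval_X,
        MvPolynomial.aeval_X, map_one]
      change bz q 0 * bz q 6 = bz q 2 * bz q 1 + bz q 0 ^ 2 - 1
      rw [bz0, bz1, bz2, bz6]
      have h1 := wronskian_bessel q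
      linear_combination h1

end Pool.Agent.SS
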