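import Pool.Agent.SS.BK1
import Pool.Agent.SS.BesselE

/-!
# `K_0(2 √q y) = B(y) - (γ + log (√q y)) I(y)` and the primitive of its square
-/

namespace Pool.Agent.SS

open MeasureTheory Set Filter Topology Real

theorem FF_X (y : ℝ) : FF PowerSeries.X y = y := by
  unfold FF
  rw [tsum_eq_single 1]
  · simp
  · intro n hn
    rw [PowerSeries.coeff_X, if_neg hn]; simp

theorem FF_C_X_sq_mul (c : ℚ) {f : PowerSeries ℚ} (hf : IsE f) (y : ℝ) :
    FF (PowerSeries.C c * PowerSeries.X ^ 2 * f) y = c * y ^ 2 * FF f y := by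
  rw [FF_mul ((isE_C c).mul (isE_X.pow 2)) hf, FF_mul (isE_C c) (isE_X.pow 2), FF_C, pow_two,
    FF_mul isE_X isE_X, FF_X, pow_two]

theorem FF_two_mul {f : PowerSeries ℚ} (hf : IsE f) (y : ℝ) : FF (2 * f) y = 2 * FF f y := by
  have h2 : (2 : PowerSeries ℚ) = PowerSeries.C 2 := (map_ofNat _ 2).symm
  rw [h2, FF_mul (isE_C 2) hf, FF_C]
  push_cast; rfl

theorem FF_sq {f : PowerSeries ℚ} (hf : IsE f) (y : ℝ) : FF (f ^ 2) y = FF f y ^ 2 := by
  rw [pow_two, FF_mul hf hf, pow_two]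

theorem FF_le_pos {f : PowerSeries ℚ} (hf : IsE f) (h0 : PowerSeries.coeff 0 f = 0) :
    ∃ C : ℝ, 0 ≤ C ∧ ∀ x, 0 < x → x < 1 → |FF f x| ≤ C * x := by
  refine ⟨∑' n, ‖((PowerSeries.coeff n f : ℚ) : ℝ) * 1 ^ n‖, tsum_nonneg fun _ => norm_nonneg _,
    fun x hx0 hx1 => ?_⟩
  have hs := hf.summable_norm x
  have h1 : |FF f x| ≤ ∑' n, ‖((PowerSeries.coeff n f : ℚ) : ℝ) * x ^ n‖ := by
    rw [← Real.norm_eq_abs]
    exact norm_tsum_le_tsum_norm hs
  refine h1.trans ?_
  rw [← tsum_mul_right]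
  apply hs.tsum_le_tsum _ ((hf.summable_norm 1).mul_right x)
  intro n
  rcases Nat.eq_zero_or_pos n with rfl | hn
  · rw [h0]; simp
  · rw [norm_mul, norm_mul, norm_pow, one_pow, norm_one, mul_one, Real.norm_of_nonneg hx0.le]
    apply mul_le_mul_of_nonneg_left _ (norm_nonneg _)
    calc x ^ n ≤ x ^ 1 := pow_le_pow_of_le_one hx0.le hx1.le hn
      _ = x := pow_one x

theorem FF_log_tendsto {f : PowerSeries ℚ} (hf : IsE f) (h0 : PowerSeries.coeff 0 f = 0) (k : ℕ) :
    Tendsto (fun x : ℝ => log x ^ k * FF f x) (𝓝[>] 0) (𝓝 0) := by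
  obtain ⟨C, _, hC⟩ := FF_le_pos hf h0
  exact tendsto_of_le_self hC k

theorem const_of_deriv_zero {f : ℝ → ℝ} (hf : ∀ x, 0 < x → HasDerivAt f 0 x) :
    ∀ x, 0 < x → f x = f 1 := by
  intro x hx
  have h := eq_of_deriv_eq_of_tendsto (f := f) (g := fun _ => f 1) (f' := fun _ => 0) (c := 0)
    (l := 𝓝[>] (1 : ℝ)) hf (fun _ _ => hasDerivAt_const _ _)
    (by filter_upwards [self_mem_nhdsWithin] with y hy
        exact one_pos.trans hy) (by
      have h1 := ((hf 1 one_pos).continuousAt.tendsto.mono_left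
        (nhdsWithin_le_nhds (s := Ioi 1))).sub_const (f 1)
      rwa [sub_self] at h1) x hx
  rw [h, add_zero]

theorem FF_bI_pos {q : ℚ} (hq : 0 < q) (y : ℝ) : 1 ≤ FF (bI q) y := by
  have hs := ((isE_bI q).summable_norm y).of_norm
  unfold FF at *
  have h0 : ∀ n, 0 ≤ ((PowerSeries.coeff n (bI q) : ℚ) : ℝ) * y ^ n := by
    intro n
    rcases n.even_or_odd' with ⟨m, rfl | rfl⟩
    · rw [bI, coeff_evser_even, pow_mul]
      have : (0 : ℝ) < q := by exact_mod_cast hq
      push_cast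
      positivity
    · rw [bI, coeff_evser_odd]; simp
  have h1 := hs.le_tsum 0 (fun n _ => h0 n)
  rw [coeff_zero_bI] at h1
  simpa using h1

section

variable {q : ℚ} (hq : 0 < q)

/-- the logarithm -/
noncomputable def lam (q : ℚ) (y : ℝ) : ℝ := eulerMascheroniConstant + log (2 * √q * y / 2)

include hq

theorem s_pos : (0 : ℝ) < 2 * √q := by
  have : (0 : ℝ) < q := by exact_mod_cast hq
  positivity

theorem s_sq : (2 * √(q : ℝ)) ^ 2 = 4 * q := by
  have : (0 : ℝ) ≤ q := by exact_mod_cast hq.le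
  rw [mul_pow, sq_sqrt this]; ring

theorem lam_eq {y : ℝ} (hy : 0 < y) : lam q y = (eulerMascheroniConstant + log √q) + log y := by
  have : (0 : ℝ) < q := by exact_mod_cast hq
  have h1 : 2 * √(q : ℝ) * y / 2 = √q * y := by ring
  rw [lam, h1, log_mul (by positivity) hy.ne']; ring

theorem hasDerivAt_lam {y : ℝ} (hy : 0 < y) : HasDerivAt (lam q) (1 / y) y := by
  have h1 : HasDerivAt (fun y => (eulerMascheroniConstant + log √q) + log y) (1 / y) y := by
    have := (hasDerivAt_log hy.ne').const_add (eulerMascheroniConstant + log √q)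
    rwa [← one_div] at this
  refine h1.congr_of_eventuallyEq ?_
  filter_upwards [Ioi_mem_nhds hy] with z hz
  exact lam_eq hq hz

theorem tendsto_lam_pow_mul {f : ℝ → ℝ} (h : ∀ k : ℕ, Tendsto (fun x : ℝ => log x ^ k * f x)
    (𝓝[>] 0) (𝓝 0)) : Tendsto (fun x => lam q x * f x) (𝓝[>] 0) (𝓝 0) ∧
      Tendsto (fun x => lam q x ^ 2 * f x) (𝓝[>] 0) (𝓝 0) := by
  set c := eulerMascheroniConstant + log √q with hc
  constructor
  · have h1 := ((h 0).const_mul c).add (h 1)
    rw [mul_zero, add_zero] at h1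
    refine h1.congr' ?_
    filter_upwards [self_mem_nhdsWithin] with x hx
    rw [lam_eq hq hx]; ring
  · have h1 := (((h 0).const_mul (c ^ 2)).add ((h 1).const_mul (2 * c))).add (h 2)
    rw [mul_zero, mul_zero, add_zero, add_zero] at h1
    refine h1.congr' ?_
    filter_upwards [self_mem_nhdsWithin] with x hx
    rw [lam_eq hq hx]; ring

theorem hasDerivAt_K0s {y : ℝ} (hy : 0 < y) :
    HasDerivAt (fun y => K0 (2 * √q * y)) (-(2 * √q * y) * kc 1 (2 * √q * y) / y) y := by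
  have hs := s_pos hq
  have h1 : HasDerivAt (fun y : ℝ => 2 * √(q : ℝ) * y) (2 * √q) y := by
    simpa using (hasDerivAt_id y).const_mul (2 * √(q : ℝ))
  have h2 := (hasDerivAt_K0 (x := 2 * √(q : ℝ) * y) (by positivity)).comp y h1
  refine h2.congr_deriv ?_
  field_simp

theorem hasDerivAt_kc1s {y : ℝ} (hy : 0 < y) :
    HasDerivAt (fun y => -(2 * √q * y) * kc 1 (2 * √q * y)) (4 * q * y ^ 2 * K0 (2 * √q * y) / y)
      y := by
  have hs := s_pos hq
  have h1 : HasDerivAt (fun y : ℝ => 2 * √(q : ℝ) * y) (2 * √q) y := by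
    simpa using (hasDerivAt_id y).const_mul (2 * √(q : ℝ))
  have h2 := (hasDerivAt_kc 1 (x := 2 * √(q : ℝ) * y) (by positivity)).comp y h1
  have h3 := (h1.fun_neg).fun_mul h2
  refine h3.congr_deriv ?_
  have h4 := kc_ode (x := 2 * √(q : ℝ) * y) (by positivity)
  rw [kc_zero] at h4
  have h5 : 4 * (q : ℝ) * y ^ 2 = (2 * √q * y) ^ 2 := by rw [mul_pow, s_sq hq]
  simp only [Function.comp_apply]
  rw [h5, ← h4]
  field_simp
  ring

theorem K0_eq_aux : ∀ y, 0 < y → K0 (2 * √q * y) = FF (bB q) y - lam q y * FF (bI q) y := by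
  have hs := s_pos hq
  have hI := isE_bI q
  have hB := isE_bB q
  have hP := hI.ths
  have hQ := hB.ths
  -- derivatives
  have dI : ∀ y, 0 < y → HasDerivAt (FF (bI q)) (FF (ths (bI q)) y / y) y := fun y hy =>
    hasDerivAt_FF' hI hy.ne'
  have dP : ∀ y, 0 < y → HasDerivAt (FF (ths (bI q))) (4 * q * y ^ 2 * FF (bI q) y / y) y := by
    intro y hy
    have h1 := hasDerivAt_FF' hP hy.ne'
    rw [ths_ths_bI, FF_C_X_sq_mul _ hI] at h1
    push_cast at h1
    exact h1
  have dB : ∀ y, 0 < y → HasDerivAt (FF (bB q)) (FF (ths (bB q)) y / y) y := fun y hy =>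
    hasDerivAt_FF' hB hy.ne'
  have dQ : ∀ y, 0 < y → HasDerivAt (FF (ths (bB q)))
      ((4 * q * y ^ 2 * FF (bB q) y + 2 * FF (ths (bI q)) y) / y) y := by
    intro y hy
    have h1 := hasDerivAt_FF' hQ hy.ne'
    rw [ths_ths_bB, FF_add (((isE_C _).mul (isE_X.pow 2)).mul hB) ((isE_C 2).mul hP),
      FF_C_X_sq_mul _ hB, FF_mul (isE_C 2) hP, FF_C] at h1
    push_cast at h1
    exact h1
  have hI1 : ∀ y, 1 ≤ FF (bI q) y := FF_bI_pos hq
  have hI0 : ∀ y, FF (bI q) y ≠ 0 := fun y => by have := hI1 y; linarith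
  set D : ℝ → ℝ := fun y => K0 (2 * √q * y) - FF (bB q) y + lam q y * FF (bI q) y with hD
  set D1 : ℝ → ℝ := fun y => -(2 * √q * y) * kc 1 (2 * √q * y) - FF (ths (bB q)) y + FF (bI q) y +
    lam q y * FF (ths (bI q)) y with hD1
  have dD : ∀ y, 0 < y → HasDerivAt D (D1 y / y) y := by
    intro y hy
    have h1 := ((hasDerivAt_K0s hq hy).fun_sub (dB y hy)).fun_add
      ((hasDerivAt_lam hq hy).fun_mul (dI y hy))
    refine h1.congr_deriv ?_
    rw [hD1]
    field_simp
    ring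
  have dD1 : ∀ y, 0 < y → HasDerivAt D1 (4 * q * y ^ 2 * D y / y) y := by
    intro y hy
    have h1 := (((hasDerivAt_kc1s hq hy).fun_sub (dQ y hy)).fun_add (dI y hy)).fun_add
      ((hasDerivAt_lam hq hy).fun_mul (dP y hy))
    refine h1.congr_deriv ?_
    rw [hD]
    field_simp
    ring
  -- the Wronskian
  set W : ℝ → ℝ := fun y => D1 y * FF (bI q) y - D y * FF (ths (bI q)) y with hW
  have dW : ∀ y, 0 < y → HasDerivAt W 0 y := by
    intro y hy
    have h1 := ((dD1 y hy).fun_mul (dI y hy)).fun_sub ((dD y hy).fun_mul (dP y hy))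
    refine h1.congr_deriv ?_
    field_simp
    ring
  have hWc := const_of_deriv_zero dW
  set w := W 1 with hw
  have hwron : ∀ y, FF (ths (bB q)) y * FF (bI q) y - FF (bB q) y * FF (ths (bI q)) y =
      FF (bI q) y ^ 2 - 1 := by
    intro y
    have h1 := congrArg (fun f => FF f y) (wronskian_bessel q)
    rw [FF_sub (hQ.mul hI) (hB.mul hP), FF_mul hQ hI, FF_mul hB hP, FF_sub (hI.pow 2) isE_one,
      FF_sq hI, FF_one] at h1
    exact h1
  set h : ℝ → ℝ := fun y => D y / FF (bI q) y - w * (log y - FF (bB q) y / FF (bI q) y) with hh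
  have dh : ∀ y, 0 < y → HasDerivAt h 0 y := by
    intro y hy
    have h1 := ((dD y hy).fun_div (dI y hy) (hI0 y)).fun_sub
      (((hasDerivAt_log hy.ne').fun_sub ((dB y hy).fun_div (dI y hy) (hI0 y))).const_mul w)
    refine h1.congr_deriv ?_
    have h2 := hWc y hy
    have h3 := hwron y
    have h4 := hI0 y
    have h5 : D1 y * FF (bI q) y - D y * FF (ths (bI q)) y = w := h2
    rw [← h5]
    field_simp
    linear_combination (D1 y * FF (bI q) y - D y * FF (ths (bI q)) y) * h3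
  have hhc := const_of_deriv_zero dh
  -- limits
  have lE : Tendsto (fun y => K0 (2 * √q * y) + lam q y) (𝓝[>] 0) (𝓝 0) := by
    have h1 : Tendsto (fun y : ℝ => K0 (2 * √q * y) - E1 (2 * √q * y / 2)) (𝓝[>] 0) (𝓝 0) := by
      rw [tendsto_zero_iff_abs_tendsto_zero]
      have h2 : Tendsto (fun y : ℝ => 2 * √q * y / 2) (𝓝[>] 0) (𝓝 0) := by
        have h3 : Tendsto (fun y : ℝ => 2 * √(q : ℝ) * y / 2) (𝓝 0) (𝓝 (2 * √q * 0 / 2)) :=
          (by fun_prop : Continuous fun y : ℝ => 2 * √(q : ℝ) * y / 2).tendsto 0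
        simp only [mul_zero, zero_div] at h3
        exact h3.mono_left nhdsWithin_le_nhds
      refine squeeze_zero' (Eventually.of_forall fun _ => abs_nonneg _) ?_ h2
      filter_upwards [self_mem_nhdsWithin] with y hy
      have hy0 : (0 : ℝ) < y := hy
      exact K0_sub_E1 (by positivity)
    have h2 : Tendsto (fun y : ℝ => Ein (2 * √q * y / 2)) (𝓝[>] 0) (𝓝 0) := by
      have h3 : Continuous fun y : ℝ => Ein (2 * √q * y / 2) := by
        unfold Ein
        exact ((continuous_FF (isE_Ek 1 1)).comp (by fun_prop)).neg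
      have h4 := (h3.tendsto 0).mono_left (nhdsWithin_le_nhds (s := Ioi 0))
      have h5 : Ein (2 * √q * 0 / 2) = 0 := by
        unfold Ein
        have : -(2 * √(q : ℝ) * 0 / 2) = 0 := by simp
        rw [this, FF_zero_arg, coeff_zero_Ek]; simp
      rw [h5] at h4
      exact h4
    have h3 := h1.add h2
    rw [add_zero] at h3
    refine h3.congr' ?_
    filter_upwards [self_mem_nhdsWithin] with y hy
    have hy0 : (0 : ℝ) < y := hy
    rw [E1_eq (by positivity : 0 < 2 * √(q : ℝ) * y / 2), lam]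
    ring
  have lB := FF_log_tendsto hB (coeff_zero_bB q) 0
  have lI1 : ∀ k : ℕ, Tendsto (fun y : ℝ => log y ^ k * FF (bI q - 1) y) (𝓝[>] 0) (𝓝 0) := fun k =>
    FF_log_tendsto (hI.sub isE_one) (by
      rw [map_sub, coeff_zero_bI, coeff_zero_one', sub_self]) k
  have lI2 := (tendsto_lam_pow_mul hq lI1).1
  have lD : Tendsto D (𝓝[>] 0) (𝓝 0) := by
    have h1 := (lE.sub lB).add lI2
    rw [sub_zero, add_zero] at h1
    refine h1.congr fun y => ?_
    rw [hD, FF_sub hI isE_one, FF_one]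
    ring
  have lI : Tendsto (FF (bI q)) (𝓝[>] 0) (𝓝 1) := by
    have h1 := ((continuous_FF hI).tendsto 0).mono_left (nhdsWithin_le_nhds (s := Ioi 0))
    rw [FF_zero_arg, coeff_zero_bI] at h1
    simpa using h1
  have lB' : Tendsto (FF (bB q)) (𝓝[>] 0) (𝓝 0) := by
    refine lB.congr fun y => ?_
    simp
  have lDI := lD.div lI one_ne_zero
  have lBI := lB'.div lI one_ne_zero
  rw [zero_div] at lDI lBI
  have hw0 : w = 0 := by
    by_contra hne
    have h1 : Tendsto (fun y : ℝ => (D y / FF (bI q) y + w * (FF (bB q) y / FF (bI q) y) - h 1) / w)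
        (𝓝[>] 0) (𝓝 ((0 + w * 0 - h 1) / w)) :=
      ((lDI.add (lBI.const_mul w)).sub_const _).div_const w
    have h2 : Tendsto log (𝓝[>] 0) (𝓝 ((0 + w * 0 - h 1) / w)) := by
      refine h1.congr' ?_
      filter_upwards [self_mem_nhdsWithin] with y hy
      have h3 := hhc y hy
      rw [← h3, hh]
      field_simp
      ring
    exact not_tendsto_nhds_of_tendsto_atBot tendsto_log_nhdsGT_zero _ h2
  have hh0 : h 1 = 0 := by
    have h1 : Tendsto h (𝓝[>] 0) (𝓝 0) := by
      refine lDI.congr fun y => ?_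
      rw [Pi.div_apply, hh, hw0]; ring
    have h2 : Tendsto h (𝓝[>] 0) (𝓝 (h 1)) :=
      tendsto_const_nhds.congr' (by
        filter_upwards [self_mem_nhdsWithin] with y hy
        exact (hhc y hy).symm)
    exact tendsto_nhds_unique h2 h1
  intro y hy
  have h1 := hhc y hy
  rw [hh0, hh, hw0] at h1
  have h2 : D y = 0 := by
    have h3 : D y / FF (bI q) y = 0 := by
      have : D y / FF (bI q) y - 0 * (log y - FF (bB q) y / FF (bI q) y) = 0 := h1
      linarith
    exact (div_eq_zero_iff.1 h3).resolve_right (hI0 y)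
  rw [hD] at h2
  have h3 : K0 (2 * √q * y) - FF (bB q) y + lam q y * FF (bI q) y = 0 := h2
  linarith

end

end Pool.Agent.SS
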