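import Pool.Agent.SS.Kappa

/-!
# The identity `∫_x^∞ E_1(t)^2 dt / t = 13/12 ζ(3) - (γ + log x)^3/3 + ...`
-/

namespace Pool.Agent.SS

open MeasureTheory Set Filter Topology Real

open Pool.Agent.Lib.GammaMoments (m m_one m_two m_three integrableOn_exp_log)

theorem tendsto_tail_atTop' {f : ℝ → ℝ} {a : ℝ} (hf : IntegrableOn f (Ioi a)) :
    Tendsto (fun x => ∫ t in Ioi x, f t) atTop (𝓝 0) := by
  have h1 : IntegrableOn ((Ioi a).indicator f) (Ioi 0) := by
    have h2 : Integrable ((Ioi a).indicator f) := (integrable_indicator_iff measurableSet_Ioi).2 hf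
    exact h2.integrableOn
  refine (tendsto_tail_atTop h1).congr' ?_
  filter_upwards [eventually_ge_atTop a] with x hx
  apply setIntegral_congr_fun measurableSet_Ioi
  intro t ht
  exact indicator_of_mem (lt_of_le_of_lt hx ht) f

theorem integrableOn_kap (y : ℝ) (hy : 0 < y) : IntegrableOn (fun t : ℝ => E1 t ^ 2 / t) (Ioi y) := by
  have h1 : IntegrableOn (fun t : ℝ => exp (-t) * (y⁻¹ ^ 3)) (Ioi y) :=
    (integrableOn_exp_neg' y).mul_const _
  refine Integrable.mono' h1 ?_ ?_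
  · apply ContinuousOn.aestronglyMeasurable _ measurableSet_Ioi
    apply ContinuousOn.div ((continuousOn_E1.mono (Ioi_subset_Ioi hy.le)).pow 2) (by fun_prop)
    intro t ht
    exact (hy.trans ht).ne'
  · rw [ae_restrict_iff' measurableSet_Ioi]
    refine Eventually.of_forall fun t ht => ?_
    have ht' : y < t := ht
    have ht0 : 0 < t := hy.trans ht'
    have h2 : E1 t ≤ exp (-t) * y⁻¹ := by
      refine (E1_le t ht0).trans ?_
      rw [div_eq_mul_inv]
      exact mul_le_mul_of_nonneg_left (inv_anti₀ hy ht'.le) (exp_pos _).le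
    have h3 : E1 t ^ 2 ≤ (exp (-t) * y⁻¹) ^ 2 := pow_le_pow_left₀ (E1_nonneg t ht0) h2 2
    have h4 : exp (-t) ≤ 1 := exp_le_one_iff.2 (by linarith)
    rw [Real.norm_of_nonneg (by have := E1_nonneg t ht0; positivity), div_eq_mul_inv]
    calc E1 t ^ 2 * t⁻¹ ≤ (exp (-t) * y⁻¹) ^ 2 * y⁻¹ :=
          mul_le_mul h3 (inv_anti₀ hy ht'.le) (by positivity) (by positivity)
      _ = exp (-t) * (exp (-t) * y⁻¹ ^ 3) := by ring
      _ ≤ 1 * (exp (-t) * y⁻¹ ^ 3) := mul_le_mul_of_nonneg_right h4 (by positivity)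
      _ = _ := one_mul _

theorem hasDerivAt_kap {x : ℝ} (hx : 0 < x) : HasDerivAt kap (-(E1 x ^ 2 / x)) x := by
  apply hasDerivAt_tail hx integrableOn_kap
  apply ContinuousOn.div (continuousOn_E1.pow 2) (by fun_prop)
  intro t ht
  exact (ne_of_gt ht)

theorem integrableOn_fB : IntegrableOn (fun t : ℝ => exp (-(2 * t)) * log t ^ 3) (Ioi 0) := by
  refine Integrable.mono' (integrableOn_exp_log 3).norm ?_ ?_
  · apply ContinuousOn.aestronglyMeasurable _ measurableSet_Ioi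
    exact (by fun_prop : ContinuousOn (fun t : ℝ => exp (-(2 * t))) (Ioi 0)).mul
      (continuousOn_log_pow 3)
  · rw [ae_restrict_iff' measurableSet_Ioi]
    refine Eventually.of_forall fun t ht => ?_
    have ht0 : (0 : ℝ) < t := ht
    rw [norm_mul, norm_mul]
    apply mul_le_mul_of_nonneg_right _ (norm_nonneg _)
    rw [Real.norm_of_nonneg (exp_pos _).le, Real.norm_of_nonneg (exp_pos _).le]
    exact exp_le_exp.2 (by linarith)

theorem hasDerivAt_fB {x : ℝ} (hx : 0 < x) :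
    HasDerivAt (fun y => ∫ t in Ioi y, exp (-(2 * t)) * log t ^ 3)
      (-(exp (-(2 * x)) * log x ^ 3)) x := by
  apply hasDerivAt_tail hx (fun y hy => integrableOn_fB.mono_set (Ioi_subset_Ioi hy.le))
  exact (by fun_prop : ContinuousOn (fun t : ℝ => exp (-(2 * t))) (Ioi 0)).mul
    (continuousOn_log_pow 3)

theorem hasDerivAt_fA {x : ℝ} (hx : 0 < x) :
    HasDerivAt (fun y => ∫ t in Ioi y, fA t) (-fA x) x :=
  hasDerivAt_tail hx (fun y hy => integrableOn_fA.mono_set (Ioi_subset_Ioi hy.le)) continuousOn_fA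

/-- integration by parts -/
theorem kap_parts {x : ℝ} (hx : 0 < x) : kap x =
    -(log x * E1 x ^ 2) - log x ^ 2 * E1 x * exp (-x) - 1 / 3 * (log x ^ 3 * exp (-x) ^ 2) +
      (∫ t in Ioi x, fA t) + 2 / 3 * ∫ t in Ioi x, exp (-(2 * t)) * log t ^ 3 := by
  have h := eq_of_deriv_eq_of_tendsto (f := kap)
    (g := fun x => -(log x * E1 x ^ 2) - log x ^ 2 * E1 x * exp (-x) -
      1 / 3 * (log x ^ 3 * exp (-x) ^ 2) +
      (∫ t in Ioi x, fA t) + 2 / 3 * ∫ t in Ioi x, exp (-(2 * t)) * log t ^ 3)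
    (f' := fun x => -(E1 x ^ 2 / x)) (c := 0) (l := atTop) (fun x hx => hasDerivAt_kap hx)
    (fun x hx => by
      have hL := hasDerivAt_log hx.ne'
      have hL2 := hL.fun_pow 2
      have hL3 := hL.fun_pow 3
      have hE := hasDerivAt_E1 hx
      have hE2 := hE.fun_pow 2
      have hx1 := hasDerivAt_exp_neg x
      have hx2 := hx1.fun_pow 2
      have h1 := (((((hL.fun_mul hE2).fun_neg).fun_sub ((hL2.fun_mul hE).fun_mul hx1)).fun_sub
        ((hL3.fun_mul hx2).const_mul (1 / 3))).fun_add (hasDerivAt_fA hx)).fun_add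
        ((hasDerivAt_fB hx).const_mul (2 / 3))
      refine h1.congr_deriv ?_
      have h2 : exp (-(2 * x)) = exp (-x) ^ 2 := by
        rw [← exp_nat_mul]; congr 1; push_cast; ring
      rw [fA, h2]
      field_simp
      ring)
    (eventually_gt_atTop 0) (by
      have hk := tendsto_tail_atTop' (integrableOn_kap 1 one_pos)
      have hE0 := tendsto_log_pow_E1 0
      have hE1 := tendsto_log_pow_E1 1
      have hE2 := tendsto_log_pow_E1 2
      have hx0 := tendsto_log_pow_exp 0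
      have hx3 := tendsto_log_pow_exp 3
      have hA := tendsto_tail_atTop integrableOn_fA
      have hB := tendsto_tail_atTop integrableOn_fB
      have h1 := hk.sub (((((hE1.mul hE0).neg).sub (hE2.mul hx0)).sub
        ((hx3.mul hx0).const_mul (1 / 3))).add hA |>.add (hB.const_mul (2 / 3)))
      simp only [mul_zero, neg_zero, sub_zero, add_zero] at h1
      refine h1.congr fun x => ?_
      change kap x - _ = kap x - _
      congr 1
      ring) x hx
  rw [h, add_zero]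

/-- the limit at `0` -/
theorem tendsto_kap : Tendsto (fun x => kap x + (eulerMascheroniConstant + log x) ^ 3 / 3) (𝓝[>] 0)
    (𝓝 (13 / 12 * ∑' n : ℕ, 1 / ((n : ℝ) + 1) ^ 3)) := by
  set γ := eulerMascheroniConstant with hγ
  set ζ := ∑' n : ℕ, 1 / ((n : ℝ) + 1) ^ 3 with hζ
  obtain ⟨C, hC0, hC⟩ := FF_le_of_coeff_zero (isE_Ek 1 1) (coeff_zero_Ek 1 1)
  have hb : ∀ k, Tendsto (fun x : ℝ => log x ^ k * Ein x) (𝓝[>] 0) (𝓝 0) := fun k =>
    tendsto_of_le_self (C := C) (fun x hx hx1 => by rw [Ein, abs_neg]; exact hC x hx hx1) k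
  have hq : ∀ k, Tendsto (fun x : ℝ => log x ^ k * (1 - exp (-x))) (𝓝[>] 0) (𝓝 0) := fun k =>
    tendsto_of_le_self (C := 1) (fun x hx _ => by rw [one_mul]; exact one_sub_exp_bound hx) k
  have hA := tendsto_tail_zero integrableOn_fA
  have hB := tendsto_tail_zero integrableOn_fB
  have hrem := (((((((((hb 2).const_mul 2).add ((hb 1).const_mul (2 * γ))).sub
    ((hb 1).mul (hb 0))).sub (hb 2)).sub (hq 3)).sub ((hq 2).const_mul γ)).add
    ((hb 2).mul (hq 0))).add ((hq 3).const_mul (2 / 3))).sub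
    (((hq 3).mul (hq 0)).const_mul (1 / 3))
  have hall := ((hrem.add hA).add (hB.const_mul (2 / 3))).add_const (γ ^ 3 / 3)
  have hval : 2 * 0 + 2 * γ * 0 - 0 * 0 - 0 - 0 - γ * 0 + 0 * 0 + 2 / 3 * 0 - 1 / 3 * (0 * 0) +
      (∫ t in Ioi (0 : ℝ), fA t) + 2 / 3 * (∫ t in Ioi (0 : ℝ), exp (-(2 * t)) * log t ^ 3) +
      γ ^ 3 / 3 = 13 / 12 * ζ := by
    rw [integral_fA, integral_exp_mul_log_cube two_pos, m_one, m_two, m_three, ← hγ, ← hζ]
    ring
  rw [hval] at hall
  refine hall.congr' ?_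
  filter_upwards [self_mem_nhdsWithin] with x hx
  have hx0 : (0 : ℝ) < x := hx
  rw [kap_parts hx0, E1_eq hx0, ← hγ]
  ring

/-- minus `E_2`, at `-x` -/
noncomputable def G1 (x : ℝ) : ℝ := -FF (Ek 2 1) (-x)

/-- the second auxiliary function -/
noncomputable def G2 (x : ℝ) : ℝ := FF (Wk 1) (-x)

theorem coeff_zero_Wk (r : ℚ) : PowerSeries.coeff 0 (Wk r) = 0 := by
  rw [Wk, map_sub, coeff_prim, PowerSeries.coeff_C_mul, coeff_zero_Ek]; simp

theorem hasDerivAt_G1 {x : ℝ} (hx : 0 < x) : HasDerivAt G1 (Ein x / x) x :=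
  hasDerivAt_FF_Ek_neg 1 hx

theorem hasDerivAt_G2 {x : ℝ} (hx : 0 < x) :
    HasDerivAt G2 ((Ein x ^ 2 + 2 * G1 x) / x) x := by
  have h1 := hasDerivAt_FF' (isE_Wk 1) (y := -x) (neg_ne_zero.2 hx.ne')
  have h2 := (h1.comp x (hasDerivAt_neg x))
  rw [ths_Wk, FF_sub ((isE_Ek 1 1).pow 2) ((isE_C 2).mul (isE_Ek 2 1)), pow_two,
    FF_mul (isE_Ek 1 1) (isE_Ek 1 1), FF_mul (isE_C 2) (isE_Ek 2 1), FF_C] at h2
  refine h2.congr_deriv ?_
  rw [Ein, G1]
  push_cast
  field_simp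
  ring

/-- **The identity for `∫_x^∞ E_1(t)^2 dt / t`** -/
theorem kap_eq {x : ℝ} (hx : 0 < x) : kap x = 13 / 12 * (∑' n : ℕ, 1 / ((n : ℝ) + 1) ^ 3) -
    (eulerMascheroniConstant + log x) ^ 3 / 3 + 2 * (eulerMascheroniConstant + log x) * G1 x -
      G2 x := by
  set γ := eulerMascheroniConstant with hγ
  set ζ := ∑' n : ℕ, 1 / ((n : ℝ) + 1) ^ 3 with hζ
  have h := eq_of_deriv_eq_of_tendsto (f := kap)
    (g := fun x => 13 / 12 * ζ - (γ + log x) ^ 3 / 3 + 2 * (γ + log x) * G1 x - G2 x)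
    (f' := fun x => -(E1 x ^ 2 / x)) (c := 0) (l := 𝓝[>] 0) (fun x hx => hasDerivAt_kap hx)
    (fun x hx => by
      have hL := (hasDerivAt_log hx.ne').const_add γ
      have h1 := (((hL.fun_pow 3).div_const 3).const_sub (13 / 12 * ζ)).fun_add
        ((hL.const_mul 2).fun_mul (hasDerivAt_G1 hx)) |>.fun_sub (hasDerivAt_G2 hx)
      refine h1.congr_deriv ?_
      rw [E1_eq hx, ← hγ]
      field_simp
      ring)
    (eventually_nhdsWithin_of_forall fun x hx => hx) (by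
      obtain ⟨C, hC0, hC⟩ := FF_le_of_coeff_zero (isE_Ek 2 1) (coeff_zero_Ek 2 1)
      obtain ⟨C', hC0', hC'⟩ := FF_le_of_coeff_zero (isE_Wk 1) (coeff_zero_Wk 1)
      have h1 : ∀ k, Tendsto (fun x : ℝ => log x ^ k * G1 x) (𝓝[>] 0) (𝓝 0) := fun k =>
        tendsto_of_le_self (C := C) (fun x hx hx1 => by rw [G1, abs_neg]; exact hC x hx hx1) k
      have h2 : Tendsto (fun x : ℝ => log x ^ 0 * G2 x) (𝓝[>] 0) (𝓝 0) :=
        tendsto_of_le_self (C := C') (fun x hx hx1 => hC' x hx hx1) 0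
      have h3 := ((tendsto_kap.sub ((h1 0).const_mul (2 * γ))).sub ((h1 1).const_mul 2)).add h2
      have h4 := h3.sub_const (13 / 12 * ζ)
      have h5 : 13 / 12 * ζ - 2 * γ * 0 - 2 * 0 + 0 - 13 / 12 * ζ = 0 := by ring
      rw [← hζ, h5] at h4
      refine h4.congr fun x => ?_
      rw [← hγ]
      ring) x hx
  rw [h, add_zero]

end Pool.Agent.SS
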