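import Pool.Agent.SS.BK2
import Pool.Agent.SS.Kappa2

/-!
# The primitive of `K_0²`
-/

namespace Pool.Agent.SS

open MeasureTheory Set Filter Topology Real

/-- `∫_x^∞ K_0(t)² dt / t` -/
noncomputable def kapB (x : ℝ) : ℝ := ∫ t in Ioi x, K0 t ^ 2 / t

theorem integrableOn_kapB (y : ℝ) (hy : 0 < y) : IntegrableOn (fun t : ℝ => K0 t ^ 2 / t) (Ioi y) := by
  have h1 : IntegrableOn (fun t : ℝ => exp (-t) * (K0 (y / 2) ^ 2 * y⁻¹)) (Ioi y) :=
    (integrableOn_exp_neg' y).mul_const _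
  refine Integrable.mono' h1 ?_ ?_
  · apply ContinuousOn.aestronglyMeasurable _ measurableSet_Ioi
    apply ContinuousOn.div ((continuousOn_K0.mono (Ioi_subset_Ioi hy.le)).pow 2) (by fun_prop)
    intro t ht
    exact (hy.trans ht).ne'
  · rw [ae_restrict_iff' measurableSet_Ioi]
    refine Eventually.of_forall fun t ht => ?_
    have ht' : y < t := ht
    have ht0 : 0 < t := hy.trans ht'
    have h2 := K0_le' hy ht'.le
    have h0 := K0_nonneg t
    have h3 : K0 t ^ 2 ≤ (exp (-(t / 2)) * K0 (y / 2)) ^ 2 := pow_le_pow_left₀ h0 h2 2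
    have h4 : exp (-(t / 2)) ^ 2 = exp (-t) := by
      rw [← exp_nat_mul]; congr 1; push_cast; ring
    rw [Real.norm_of_nonneg (by positivity), div_eq_mul_inv]
    calc K0 t ^ 2 * t⁻¹ ≤ (exp (-(t / 2)) * K0 (y / 2)) ^ 2 * y⁻¹ :=
          mul_le_mul h3 (inv_anti₀ hy ht'.le) (by positivity) (by positivity)
      _ = _ := by rw [mul_pow, h4]; ring

theorem hasDerivAt_kapB {x : ℝ} (hx : 0 < x) : HasDerivAt kapB (-(K0 x ^ 2 / x)) x := by
  apply hasDerivAt_tail hx integrableOn_kapB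
  apply ContinuousOn.div (continuousOn_K0.pow 2) (by fun_prop)
  intro t ht
  exact (ne_of_gt ht)

section

variable {q : ℚ} (hq : 0 < q)

/-- the polynomial in the logarithm -/
noncomputable def Fq (q : ℚ) (y : ℝ) : ℝ := lam q y ^ 3 / 3 + lam q y ^ 2 * FF (bA q) y -
  2 * lam q y * FF (bG q) y + FF (bH q) y

include hq

theorem hasDerivAt_Fq {y : ℝ} (hy : 0 < y) :
    HasDerivAt (Fq q) (K0 (2 * √q * y) ^ 2 / y) y := by
  have dA := hasDerivAt_FF' (isE_bA q) hy.ne'
  have dG := hasDerivAt_FF' (isE_bG q) hy.ne'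
  have dH := hasDerivAt_FF' (isE_bH q) hy.ne'
  rw [ths_bA, FF_sub ((isE_bI q).pow 2) isE_one, FF_sq (isE_bI q), FF_one] at dA
  rw [ths_bG, FF_add (isE_bA q) ((isE_bI q).mul (isE_bB q)), FF_mul (isE_bI q) (isE_bB q)] at dG
  rw [ths_bH, FF_add (isE_two.mul (isE_bG q)) ((isE_bB q).pow 2), FF_two_mul (isE_bG q),
    FF_sq (isE_bB q)] at dH
  have dl := hasDerivAt_lam hq hy
  have h1 := ((((dl.fun_pow 3).div_const 3).fun_add ((dl.fun_pow 2).fun_mul dA)).fun_sub
    ((dl.const_mul 2).fun_mul dG)).fun_add dH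
  refine h1.congr_deriv ?_
  rw [K0_eq_aux hq y hy]
  push_cast
  field_simp
  ring

theorem kapB_eq {C : ℝ} (hC : Tendsto (fun x => kapB x + (eulerMascheroniConstant +
    log (x / 2)) ^ 3 / 3) (𝓝[>] 0) (𝓝 C)) {y : ℝ} (hy : 0 < y) :
    kapB (2 * √q * y) = C - Fq q y := by
  have hs := s_pos hq
  have hlin : ∀ y : ℝ, HasDerivAt (fun y : ℝ => 2 * √(q : ℝ) * y) (2 * √q) y := fun y => by
    simpa using (hasDerivAt_id y).const_mul (2 * √(q : ℝ))
  have h := eq_of_deriv_eq_of_tendsto (f := fun y => kapB (2 * √q * y)) (g := fun y => -Fq q y)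
    (f' := fun y => -(K0 (2 * √q * y) ^ 2 / y)) (c := C) (l := 𝓝[>] 0)
    (fun y hy => by
      have h1 := (hasDerivAt_kapB (x := 2 * √(q : ℝ) * y) (by positivity)).comp y (hlin y)
      refine h1.congr_deriv ?_
      field_simp)
    (fun y hy => (hasDerivAt_Fq hq hy).neg)
    (eventually_nhdsWithin_of_forall fun x hx => hx) (by
      have h1 : Tendsto (fun y : ℝ => 2 * √(q : ℝ) * y) (𝓝[>] 0) (𝓝[>] 0) := by
        apply tendsto_nhdsWithin_of_tendsto_nhds_of_eventually_within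
        · have h3 : Tendsto (fun y : ℝ => 2 * √(q : ℝ) * y) (𝓝 0) (𝓝 (2 * √q * 0)) :=
            (by fun_prop : Continuous fun y : ℝ => 2 * √(q : ℝ) * y).tendsto 0
          rw [mul_zero] at h3
          exact h3.mono_left nhdsWithin_le_nhds
        · filter_upwards [self_mem_nhdsWithin] with y hy
          have hy0 : (0 : ℝ) < y := hy
          exact (by positivity : 0 < 2 * √(q : ℝ) * y)
      have h2 := hC.comp h1
      have lA := (tendsto_lam_pow_mul hq (FF_log_tendsto (isE_bA q) (coeff_zero_prim _))).2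
      have lG := (tendsto_lam_pow_mul hq (FF_log_tendsto (isE_bG q) (coeff_zero_prim _))).1
      have lH := FF_log_tendsto (isE_bH q) (coeff_zero_prim _) 0
      have h3 := ((h2.add lA).sub (lG.const_mul 2)).add lH
      have h4 : C + 0 - 2 * 0 + 0 = C := by ring
      rw [h4] at h3
      refine h3.congr fun y => ?_
      simp only [Function.comp_apply, Fq, lam]
      ring) y hy
  rw [h]; ring

theorem kapB_eq_one {C : ℝ} (hC : Tendsto (fun x => kapB x + (eulerMascheroniConstant +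
    log (x / 2)) ^ 3 / 3) (𝓝[>] 0) (𝓝 C)) :
    kapB (2 * √q) = C - ((eulerMascheroniConstant + log √q) ^ 3 / 3 +
      (eulerMascheroniConstant + log √q) ^ 2 * ev (bA q) -
      2 * (eulerMascheroniConstant + log √q) * ev (bG q) + ev (bH q)) := by
  have h1 := kapB_eq hq hC one_pos
  have h2 : lam q 1 = eulerMascheroniConstant + log √q := by
    rw [lam_eq hq one_pos, log_one, add_zero]
  rw [mul_one, Fq, h2, ← ev_eq_FF, ← ev_eq_FF, ← ev_eq_FF] at h1
  exact h1

theorem K0_eq_one : K0 (2 * √q) = ev (bB q) - (eulerMascheroniConstant + log √q) * ev (bI q) := by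
  have h1 := K0_eq_aux hq 1 one_pos
  have h2 : lam q 1 = eulerMascheroniConstant + log √q := by
    rw [lam_eq hq one_pos, log_one, add_zero]
  rw [mul_one, h2, ← ev_eq_FF, ← ev_eq_FF] at h1
  exact h1

end

end Pool.Agent.SS
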