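import Pool.Agent.SS.BK1

/-!
# The Mellin transform of `K_0²`
-/

namespace Pool.Agent.SS

open MeasureTheory Set Filter Topology Real ENNReal

theorem lint_gamma {a b : ℝ} (ha : 0 < a) (hb : 0 < b) :
    ∫⁻ t in Ioi (0 : ℝ), ENNReal.ofReal (t ^ (a - 1) * exp (-(b * t))) =
      ENNReal.ofReal (Gamma a * b ^ (-a)) := by
  have h1 := integral_rpow_mul_exp_neg_mul_rpow (p := 1) (q := a - 1) one_pos (by linarith) hb
  have h2 := integrableOn_rpow_mul_exp_neg_mul_rpow (p := 1) (s := a - 1) (by linarith) one_pos hb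
  have h3 : ∀ t : ℝ, t ^ (a - 1) * exp (-b * t ^ (1 : ℝ)) = t ^ (a - 1) * exp (-(b * t)) := by
    intro t
    rw [Real.rpow_one, neg_mul]
  simp only [h3] at h1 h2
  rw [← ofReal_integral_eq_lintegral_ofReal h2, h1]
  · congr 1
    have e1 : -(a - 1 + 1) / 1 = -a := by ring
    have e2 : (a - 1 + 1) / 1 = a := by ring
    rw [e1, e2]; ring
  · rw [EventuallyLE, ae_restrict_iff' measurableSet_Ioi]
    refine Eventually.of_forall fun t ht => ?_
    have : (0 : ℝ) < t := ht
    simp only [Pi.zero_apply]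
    positivity

theorem lint_gauss {s b : ℝ} (hs : 0 < s) (hb : 0 < b) :
    ∫⁻ t in Ioi (0 : ℝ), ENNReal.ofReal (t ^ (s - 1) * exp (-(b * t ^ 2))) =
      ENNReal.ofReal (b ^ (-(s / 2)) * (1 / 2) * Gamma (s / 2)) := by
  have h1 := integral_rpow_mul_exp_neg_mul_rpow (p := 2) (q := s - 1) two_pos (by linarith) hb
  have h2 := integrableOn_rpow_mul_exp_neg_mul_rpow (p := 2) (s := s - 1) (by linarith) two_pos hb
  have h3 : ∀ t : ℝ, t ^ (s - 1) * exp (-b * t ^ (2 : ℝ)) = t ^ (s - 1) * exp (-(b * t ^ 2)) := by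
    intro t
    rw [Real.rpow_two, neg_mul]
  simp only [h3] at h1 h2
  rw [← ofReal_integral_eq_lintegral_ofReal h2, h1]
  · congr 1
    have e1 : -(s - 1 + 1) / 2 = -(s / 2) := by ring
    have e2 : (s - 1 + 1) / 2 = s / 2 := by ring
    rw [e1, e2]
  · rw [EventuallyLE, ae_restrict_iff' measurableSet_Ioi]
    refine Eventually.of_forall fun t ht => ?_
    have : (0 : ℝ) < t := ht
    simp only [Pi.zero_apply]
    positivity

/-- the kernel of the second integral representation of `K_0` -/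
noncomputable def ker (u t : ℝ) : ℝ≥0∞ := ENNReal.ofReal (exp (-u) * exp (-(t ^ 2 / (4 * u))) / u)

theorem measurable_ker : Measurable fun z : ℝ × ℝ => ker z.1 z.2 := by
  unfold ker
  fun_prop

theorem integrable_exp_cosh {x : ℝ} (hx : 0 < x) : Integrable fun t : ℝ => exp (-(x * cosh t)) := by
  have h1 : Integrable fun t : ℝ => exp (-(x / 4) * t ^ 2) :=
    integrable_exp_neg_mul_sq (by positivity)
  refine h1.mono' (by fun_prop : Continuous fun t : ℝ => exp (-(x * cosh t))).aestronglyMeasurable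
    (Eventually.of_forall fun t => ?_)
  rw [norm_of_nonneg (exp_pos _).le]
  apply exp_le_exp.2
  have h2 : t ^ 2 / 4 ≤ cosh t := by
    have h3 := pow_div_factorial_le_exp |t| (abs_nonneg t) 2
    have h4 : exp |t| ≤ 2 * cosh t := by
      rw [← cosh_abs, cosh_eq]
      have := exp_pos (-|t|)
      linarith
    have h5 : ((Nat.factorial 2 : ℕ) : ℝ) = 2 := by norm_num [Nat.factorial]
    rw [sq_abs, h5] at h3
    linarith
  nlinarith

/-- the second integral representation of `K_0` -/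
theorem lint_ker {t : ℝ} (ht : 0 < t) :
    ∫⁻ u in Ioi (0 : ℝ), ker u t = ENNReal.ofReal (2 * K0 t) := by
  have himg : (fun v : ℝ => t / 2 * exp v) '' univ = Ioi (0 : ℝ) := by
    ext y
    simp only [image_univ, mem_range, mem_Ioi]
    constructor
    · rintro ⟨v, rfl⟩; have := exp_pos v; positivity
    · intro hy
      refine ⟨log (y / (t / 2)), ?_⟩
      rw [exp_log (by positivity)]
      field_simp
  have h1 := lintegral_image_eq_lintegral_abs_deriv_mul (s := univ)
    (f := fun v : ℝ => t / 2 * exp v) (f' := fun v : ℝ => t / 2 * exp v) MeasurableSet.univ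
    (fun v _ => ((hasDerivAt_exp v).const_mul (t / 2)).hasDerivWithinAt)
    (fun v _ w _ h => by
      have h2 : t / 2 ≠ 0 := by positivity
      exact exp_injective (mul_left_cancel₀ h2 h)) (fun u => ker u t)
  rw [himg, Measure.restrict_univ] at h1
  rw [h1]
  have h2 : ∀ v : ℝ, ENNReal.ofReal |t / 2 * exp v| * ker (t / 2 * exp v) t =
      ENNReal.ofReal (exp (-(t * cosh v))) := by
    intro v
    have hv := exp_pos v
    have hpos : 0 < t / 2 * exp v := by positivity
    rw [abs_of_pos hpos, ker, ← ENNReal.ofReal_mul hpos.le]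
    congr 1
    have h3 : t ^ 2 / (4 * (t / 2 * exp v)) = t / 2 * exp (-v) := by
      rw [exp_neg]; field_simp; ring
    have h4 : exp (-(t * cosh v)) = exp (-(t / 2 * exp v)) * exp (-(t / 2 * exp (-v))) := by
      rw [← exp_add, cosh_eq]; congr 1; ring
    rw [h3, h4]
    field_simp
  simp only [h2]
  rw [← ofReal_integral_eq_lintegral_ofReal (integrable_exp_cosh ht)
    (Eventually.of_forall fun v => (exp_pos _).le)]
  congr 1
  have h5 := integral_comp_abs (f := fun v : ℝ => exp (-(t * cosh v)))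
  simp only [cosh_abs] at h5
  exact h5

variable {s : ℝ}

/-- the Mellin integral over `t` -/
theorem lint_t (hs : 0 < s) {u v : ℝ} (hu : 0 < u) (hv : 0 < v) :
    ∫⁻ t in Ioi (0 : ℝ), ENNReal.ofReal (t ^ (s - 1)) * ker v t * ker u t =
      ENNReal.ofReal (2 ^ (s - 1)) * (ENNReal.ofReal (u ^ (s / 2 - 1) * exp (-u)) *
        (ENNReal.ofReal (v ^ (s / 2 - 1) * exp (-v)) *
          ENNReal.ofReal (Gamma (s / 2) * (u + v) ^ (-(s / 2))))) := by
  have hb : 0 < (u + v) / (4 * (u * v)) := by positivity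
  have h1 : ∫⁻ t in Ioi (0 : ℝ), ENNReal.ofReal (t ^ (s - 1)) * ker v t * ker u t =
      ∫⁻ t in Ioi (0 : ℝ), ENNReal.ofReal (exp (-u) * exp (-v) / (u * v)) *
        ENNReal.ofReal (t ^ (s - 1) * exp (-((u + v) / (4 * (u * v)) * t ^ 2))) := by
    apply setLIntegral_congr_fun measurableSet_Ioi
    intro t ht
    have ht0 : (0 : ℝ) < t := ht
    simp only [ker]
    rw [← ENNReal.ofReal_mul (by positivity), ← ENNReal.ofReal_mul (by positivity),
      ← ENNReal.ofReal_mul (by positivity)]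
    congr 1
    have h2 : exp (-((u + v) / (4 * (u * v)) * t ^ 2)) = exp (-(t ^ 2 / (4 * v))) *
        exp (-(t ^ 2 / (4 * u))) := by
      rw [← exp_add]; congr 1; field_simp; ring
    rw [h2]
    field_simp
  rw [h1, lintegral_const_mul' _ _ ENNReal.ofReal_ne_top, lint_gauss hs hb,
    ← ENNReal.ofReal_mul (by positivity)]
  have hG : 0 < Gamma (s / 2) := Gamma_pos_of_pos (by positivity)
  rw [← ENNReal.ofReal_mul (by positivity), ← ENNReal.ofReal_mul (by positivity),
    ← ENNReal.ofReal_mul (by positivity)]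
  congr 1
  have h3 : ((u + v) / (4 * (u * v))) ^ (-(s / 2)) = 2 ^ s * (u ^ (s / 2) * v ^ (s / 2)) *
      (u + v) ^ (-(s / 2)) := by
    rw [div_rpow (by positivity) (by positivity), mul_rpow (by norm_num) (by positivity),
      mul_rpow hu.le hv.le]
    have h4 : (4 : ℝ) ^ (-(s / 2)) = (2 ^ s)⁻¹ := by
      have : (4 : ℝ) = 2 ^ (2 : ℝ) := by norm_num
      rw [this, ← Real.rpow_mul (by norm_num), ← Real.rpow_neg (by norm_num)]
      congr 1; ring
    rw [h4, rpow_neg hu.le, rpow_neg hv.le]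
    field_simp
  have h5 : u ^ (s / 2 - 1) = u ^ (s / 2) / u := by rw [rpow_sub_one hu.ne']
  have h6 : v ^ (s / 2 - 1) = v ^ (s / 2) / v := by rw [rpow_sub_one hv.ne']
  have h7 : (2 : ℝ) ^ (s - 1) = 2 ^ s / 2 := by rw [rpow_sub_one two_ne_zero]
  rw [h3, h5, h6, h7]
  field_simp

theorem lint_beta (hs : 0 < s) :
    ENNReal.ofReal (Gamma s) * ∫⁻ w in Ioi (0 : ℝ),
      ENNReal.ofReal (w ^ (s / 2 - 1) * (1 + w) ^ (-s)) =
        ENNReal.ofReal (Gamma (s / 2) * Gamma (s / 2)) := by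
  have hs2 : 0 < s / 2 := by positivity
  have hG := Gamma_pos_of_pos hs
  have hG2 := Gamma_pos_of_pos hs2
  rw [← lintegral_const_mul' _ _ ENNReal.ofReal_ne_top]
  have h1 : ∫⁻ w in Ioi (0 : ℝ), ENNReal.ofReal (Gamma s) *
      ENNReal.ofReal (w ^ (s / 2 - 1) * (1 + w) ^ (-s)) =
      ∫⁻ w in Ioi (0 : ℝ), ∫⁻ y in Ioi (0 : ℝ), ENNReal.ofReal (y ^ (s - 1) * exp (-y)) *
        ENNReal.ofReal (w ^ (s / 2 - 1) * exp (-(y * w))) := by
    apply setLIntegral_congr_fun measurableSet_Ioi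
    intro w hw
    have hw0 : (0 : ℝ) < w := hw
    simp only
    have h2 := lint_gamma hs (show 0 < 1 + w by positivity)
    have h3 : ∫⁻ y in Ioi (0 : ℝ), ENNReal.ofReal (y ^ (s - 1) * exp (-y)) *
        ENNReal.ofReal (w ^ (s / 2 - 1) * exp (-(y * w))) =
        ∫⁻ y in Ioi (0 : ℝ), ENNReal.ofReal (w ^ (s / 2 - 1)) *
          ENNReal.ofReal (y ^ (s - 1) * exp (-((1 + w) * y))) := by
      apply setLIntegral_congr_fun measurableSet_Ioi
      intro y hy
      have hy0 : (0 : ℝ) < y := hy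
      simp only
      rw [← ENNReal.ofReal_mul (by positivity), ← ENNReal.ofReal_mul (by positivity)]
      congr 1
      have h4 : exp (-((1 + w) * y)) = exp (-y) * exp (-(y * w)) := by
        rw [← exp_add]; congr 1; ring
      rw [h4]; ring
    rw [h3, lintegral_const_mul' _ _ ENNReal.ofReal_ne_top, h2, ← ENNReal.ofReal_mul (by positivity),
      ← ENNReal.ofReal_mul (by positivity)]
    congr 1
    ring
  rw [h1, lintegral_lintegral_swap (by
    apply Measurable.aemeasurable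
    unfold Function.uncurry
    fun_prop)]
  have h5 : ∫⁻ y in Ioi (0 : ℝ), ∫⁻ w in Ioi (0 : ℝ), ENNReal.ofReal (y ^ (s - 1) * exp (-y)) *
      ENNReal.ofReal (w ^ (s / 2 - 1) * exp (-(y * w))) =
      ∫⁻ y in Ioi (0 : ℝ), ENNReal.ofReal (Gamma (s / 2)) *
        ENNReal.ofReal (y ^ (s / 2 - 1) * exp (-(1 * y))) := by
    apply setLIntegral_congr_fun measurableSet_Ioi
    intro y hy
    have hy0 : (0 : ℝ) < y := hy
    simp only
    rw [lintegral_const_mul' _ _ ENNReal.ofReal_ne_top, lint_gamma hs2 hy0,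
      ← ENNReal.ofReal_mul (by positivity), ← ENNReal.ofReal_mul (by positivity)]
    congr 1
    have h6 : y ^ (s - 1) = y ^ (s / 2 - 1) * y ^ (s / 2) := by
      rw [← rpow_add hy0]; congr 1; ring
    rw [h6, rpow_neg hy0.le, one_mul]
    field_simp
  rw [h5, lintegral_const_mul' _ _ ENNReal.ofReal_ne_top, lint_gamma hs2 one_pos, Real.one_rpow, mul_one,
    ← ENNReal.ofReal_mul (by positivity)]

/-- **The Mellin transform of `K_0²`** -/
theorem lint_mellin (hs : 0 < s) :
    ENNReal.ofReal (Gamma s) * ∫⁻ t in Ioi (0 : ℝ), ENNReal.ofReal (t ^ (s - 1) * (2 * K0 t) ^ 2) =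
      ENNReal.ofReal (2 ^ (s - 1) * Gamma (s / 2) ^ 4) := by
  have hs2 : 0 < s / 2 := by positivity
  have hG := Gamma_pos_of_pos hs
  have hG2 := Gamma_pos_of_pos hs2
  set μ := volume.restrict (Ioi (0 : ℝ)) with hμ
  have mker2 : Measurable fun t : ℝ => ∫⁻ u, ker u t ∂μ := measurable_ker.lintegral_prod_left'
  -- step 1
  have h1 : ∫⁻ t, ENNReal.ofReal (t ^ (s - 1) * (2 * K0 t) ^ 2) ∂μ =
      ∫⁻ t, ∫⁻ u, (ENNReal.ofReal (t ^ (s - 1)) * ∫⁻ v, ker v t ∂μ) * ker u t ∂μ ∂μ := by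
    apply setLIntegral_congr_fun measurableSet_Ioi
    intro t ht
    have ht0 : (0 : ℝ) < t := ht
    have hK := K0_nonneg t
    simp only
    have hne : ENNReal.ofReal (t ^ (s - 1)) * ∫⁻ v, ker v t ∂μ ≠ ∞ := by
      rw [hμ, lint_ker ht0]
      exact ENNReal.mul_ne_top ENNReal.ofReal_ne_top ENNReal.ofReal_ne_top
    rw [lintegral_const_mul' _ _ hne, hμ, lint_ker ht0, ← ENNReal.ofReal_mul (by positivity),
      ← ENNReal.ofReal_mul (by positivity)]
    congr 1
    ring
  have h2 : ∫⁻ t, ∫⁻ u, (ENNReal.ofReal (t ^ (s - 1)) * ∫⁻ v, ker v t ∂μ) * ker u t ∂μ ∂μ =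
      ∫⁻ u, ∫⁻ t, (ENNReal.ofReal (t ^ (s - 1)) * ∫⁻ v, ker v t ∂μ) * ker u t ∂μ ∂μ := by
    apply lintegral_lintegral_swap
    apply Measurable.aemeasurable
    unfold Function.uncurry
    have m1 : Measurable fun z : ℝ × ℝ => ∫⁻ v, ker v z.1 ∂μ := mker2.comp measurable_fst
    have m2 : Measurable fun z : ℝ × ℝ => ker z.2 z.1 := measurable_ker.comp measurable_swap
    have m3 : Measurable fun z : ℝ × ℝ => ENNReal.ofReal (z.1 ^ (s - 1)) := by fun_prop
    exact (m3.mul m1).mul m2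
  -- step 2
  have h3 : ∀ u ∈ Ioi (0 : ℝ), ∫⁻ t, (ENNReal.ofReal (t ^ (s - 1)) * ∫⁻ v, ker v t ∂μ) *
      ker u t ∂μ = ∫⁻ v, ∫⁻ t, ENNReal.ofReal (t ^ (s - 1)) * ker v t * ker u t ∂μ ∂μ := by
    intro u hu
    have e1 : ∫⁻ t, (ENNReal.ofReal (t ^ (s - 1)) * ∫⁻ v, ker v t ∂μ) * ker u t ∂μ =
        ∫⁻ t, ∫⁻ v, ENNReal.ofReal (t ^ (s - 1)) * ker v t * ker u t ∂μ ∂μ := by
      apply lintegral_congr
      intro t
      have e2 : ∀ v, ENNReal.ofReal (t ^ (s - 1)) * ker v t * ker u t =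
          (ENNReal.ofReal (t ^ (s - 1)) * ker u t) * ker v t := fun v => by ring
      simp only [e2]
      have hne : ENNReal.ofReal (t ^ (s - 1)) * ker u t ≠ ∞ :=
        ENNReal.mul_ne_top ENNReal.ofReal_ne_top ENNReal.ofReal_ne_top
      rw [lintegral_const_mul' _ _ hne]
      ring
    rw [e1]
    apply lintegral_lintegral_swap
    apply Measurable.aemeasurable
    unfold Function.uncurry
    have m2 : Measurable fun z : ℝ × ℝ => ker z.2 z.1 := measurable_ker.comp measurable_swap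
    have m3 : Measurable fun z : ℝ × ℝ => ENNReal.ofReal (z.1 ^ (s - 1)) := by fun_prop
    have m4 : Measurable fun z : ℝ × ℝ => ker u z.1 :=
      measurable_ker.comp (measurable_const.prodMk measurable_fst)
    exact (m3.mul m2).mul m4
  -- step 3
  let G : ℝ → ℝ → ℝ≥0∞ := fun u w => ENNReal.ofReal (u ^ (s / 2 - 1) * exp (-((1 + w) * u)))
  let W : ℝ → ℝ≥0∞ := fun w => ENNReal.ofReal (w ^ (s / 2 - 1))
  have mG : Measurable fun z : ℝ × ℝ => G z.1 z.2 := by
    simp only [G]; fun_prop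
  have mW : Measurable W := by
    simp only [W]; fun_prop
  have hZ : ∀ w ∈ Ioi (0 : ℝ), ∫⁻ u, G u w ∂μ = ENNReal.ofReal (Gamma (s / 2) *
      (1 + w) ^ (-(s / 2))) := fun w hw => by
    have hw0 : (0 : ℝ) < w := hw
    exact lint_gamma hs2 (by positivity)
  have h4 : ∀ u ∈ Ioi (0 : ℝ), ∫⁻ v, ∫⁻ t, ENNReal.ofReal (t ^ (s - 1)) * ker v t * ker u t ∂μ ∂μ =
      ENNReal.ofReal (2 ^ (s - 1)) * ∫⁻ w, (∫⁻ v, G v w ∂μ) * W w * G u w ∂μ := by
    intro u hu
    have hu0 : (0 : ℝ) < u := hu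
    have e1 : ∫⁻ v, ∫⁻ t, ENNReal.ofReal (t ^ (s - 1)) * ker v t * ker u t ∂μ ∂μ =
        ∫⁻ v, ENNReal.ofReal (2 ^ (s - 1)) * ∫⁻ w, G v w * W w * G u w ∂μ ∂μ := by
      apply setLIntegral_congr_fun measurableSet_Ioi
      intro v hv
      have hv0 : (0 : ℝ) < v := hv
      simp only
      rw [hμ, lint_t hs hu0 hv0, ← hμ]
      congr 1
      have e2 : ∫⁻ w, G v w * W w * G u w ∂μ = ∫⁻ w, (ENNReal.ofReal (u ^ (s / 2 - 1) * exp (-u)) *
          ENNReal.ofReal (v ^ (s / 2 - 1) * exp (-v))) *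
          ENNReal.ofReal (w ^ (s / 2 - 1) * exp (-((u + v) * w))) ∂μ := by
        apply setLIntegral_congr_fun measurableSet_Ioi
        intro w hw
        have hw0 : (0 : ℝ) < w := hw
        simp only [G, W]
        rw [← ENNReal.ofReal_mul (by positivity), ← ENNReal.ofReal_mul (by positivity),
          ← ENNReal.ofReal_mul (by positivity), ← ENNReal.ofReal_mul (by positivity)]
        congr 1
        have e3 : exp (-((1 + w) * v)) = exp (-v) * exp (-(w * v)) := by
          rw [← exp_add]; congr 1; ring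
        have e4 : exp (-((1 + w) * u)) = exp (-u) * exp (-(w * u)) := by
          rw [← exp_add]; congr 1; ring
        have e5 : exp (-((u + v) * w)) = exp (-(w * u)) * exp (-(w * v)) := by
          rw [← exp_add]; congr 1; ring
        rw [e3, e4, e5]; ring
      rw [e2, lintegral_const_mul' _ _ (ENNReal.mul_ne_top ENNReal.ofReal_ne_top
        ENNReal.ofReal_ne_top), hμ, lint_gamma hs2 (by positivity : 0 < u + v), mul_assoc]
    rw [e1, lintegral_const_mul' _ _ ENNReal.ofReal_ne_top]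
    congr 1
    rw [lintegral_lintegral_swap]
    · apply setLIntegral_congr_fun measurableSet_Ioi
      intro w hw
      simp only
      have e6 : ∀ v, G v w * W w * G u w = (W w * G u w) * G v w := fun v => by ring
      simp only [e6]
      have hne : W w * G u w ≠ ∞ :=
        ENNReal.mul_ne_top ENNReal.ofReal_ne_top ENNReal.ofReal_ne_top
      rw [lintegral_const_mul' _ _ hne]
      ring
    · apply Measurable.aemeasurable
      unfold Function.uncurry
      have m4 : Measurable fun z : ℝ × ℝ => G u z.2 :=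
        mG.comp (measurable_const.prodMk measurable_snd)
      exact (mG.mul (mW.comp measurable_snd)).mul m4
  have mZ : Measurable fun w : ℝ => ∫⁻ v, G v w ∂μ := mG.lintegral_prod_left'
  -- step 4
  have h5 : ∫⁻ u, ∫⁻ w, (∫⁻ v, G v w ∂μ) * W w * G u w ∂μ ∂μ =
      ENNReal.ofReal (Gamma (s / 2) ^ 2) * ∫⁻ w, ENNReal.ofReal (w ^ (s / 2 - 1) *
        (1 + w) ^ (-s)) ∂μ := by
    rw [lintegral_lintegral_swap]
    · rw [← lintegral_const_mul' _ _ ENNReal.ofReal_ne_top]
      apply setLIntegral_congr_fun measurableSet_Ioi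
      intro w hw
      have hw0 : (0 : ℝ) < w := hw
      simp only
      have hne : (∫⁻ v, G v w ∂μ) * W w ≠ ∞ := by
        rw [hZ w hw]
        exact ENNReal.mul_ne_top ENNReal.ofReal_ne_top ENNReal.ofReal_ne_top
      rw [lintegral_const_mul' _ _ hne, hZ w hw]
      simp only [W]
      rw [← ENNReal.ofReal_mul (by positivity), ← ENNReal.ofReal_mul (by positivity),
        ← ENNReal.ofReal_mul (by positivity)]
      congr 1
      have e7 : (1 + w) ^ (-s) = (1 + w) ^ (-(s / 2)) * (1 + w) ^ (-(s / 2)) := by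
        rw [← rpow_add (by positivity)]; congr 1; ring
      rw [e7]; ring
    · apply Measurable.aemeasurable
      unfold Function.uncurry
      exact ((mZ.comp measurable_snd).mul (mW.comp measurable_snd)).mul mG
  rw [h1, h2]
  have h6 : ∫⁻ u, ∫⁻ t, (ENNReal.ofReal (t ^ (s - 1)) * ∫⁻ v, ker v t ∂μ) * ker u t ∂μ ∂μ =
      ∫⁻ u, ENNReal.ofReal (2 ^ (s - 1)) * ∫⁻ w, (∫⁻ v, G v w ∂μ) * W w * G u w ∂μ ∂μ := by
    apply setLIntegral_congr_fun measurableSet_Ioi
    intro u hu
    simp only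
    rw [h3 u hu, h4 u hu]
  rw [h6, lintegral_const_mul' _ _ ENNReal.ofReal_ne_top, h5]
  have h7 := lint_beta hs
  rw [← hμ] at h7
  calc ENNReal.ofReal (Gamma s) * (ENNReal.ofReal (2 ^ (s - 1)) *
      (ENNReal.ofReal (Gamma (s / 2) ^ 2) *
        ∫⁻ w, ENNReal.ofReal (w ^ (s / 2 - 1) * (1 + w) ^ (-s)) ∂μ))
      = ENNReal.ofReal (2 ^ (s - 1)) * ENNReal.ofReal (Gamma (s / 2) ^ 2) *
        (ENNReal.ofReal (Gamma s) *
          ∫⁻ w, ENNReal.ofReal (w ^ (s / 2 - 1) * (1 + w) ^ (-s)) ∂μ) := by ring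
    _ = ENNReal.ofReal (2 ^ (s - 1)) * ENNReal.ofReal (Gamma (s / 2) ^ 2) *
        ENNReal.ofReal (Gamma (s / 2) * Gamma (s / 2)) := by rw [h7]
    _ = _ := by
        rw [← ENNReal.ofReal_mul (by positivity), ← ENNReal.ofReal_mul (by positivity)]
        congr 1
        ring

end Pool.Agent.SS
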