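import Mathlib
import Pool.Agent.Lib.GammaDerivs

/-!
# A limit of Gamma factors
-/

namespace Pool.Agent.SS

open Filter Topology Real Set

open Pool.Agent.Lib.GammaDerivs (T psi hasDerivAt_log_Gamma hasDerivAt_psi hasDerivAt_T psi_nat part)

/-- the logarithm of the normalised Gamma factor -/
noncomputable def gg (s : ℝ) : ℝ := 4 * log (Gamma (1 + s / 2)) - log (Gamma (1 + s)) +
  eulerMascheroniConstant * s

noncomputable def gg1 (s : ℝ) : ℝ := 2 * psi (1 + s / 2) - psi (1 + s) + eulerMascheroniConstant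

noncomputable def gg2 (s : ℝ) : ℝ := T 2 (1 + s / 2) - T 2 (1 + s)

noncomputable def gg3 (s : ℝ) : ℝ := -T 3 (1 + s / 2) + 2 * T 3 (1 + s)

theorem lin1 (s : ℝ) : HasDerivAt (fun s : ℝ => 1 + s / 2) (1 / 2) s := by
  simpa using ((hasDerivAt_id s).div_const 2).const_add 1

theorem lin2 (s : ℝ) : HasDerivAt (fun s : ℝ => 1 + s) 1 s := by
  simpa using (hasDerivAt_id s).const_add 1

theorem hasDerivAt_gg {s : ℝ} (hs : -1 < s) : HasDerivAt gg (gg1 s) s := by
  have h1 := (hasDerivAt_log_Gamma (x := 1 + s / 2) (by linarith)).comp s (lin1 s)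
  have h2 := (hasDerivAt_log_Gamma (x := 1 + s) (by linarith)).comp s (lin2 s)
  have h3 := ((h1.const_mul 4).sub h2).add ((hasDerivAt_id s).const_mul eulerMascheroniConstant)
  refine h3.congr_deriv ?_
  unfold gg1
  ring

theorem hasDerivAt_gg1 {s : ℝ} (hs : -1 < s) : HasDerivAt gg1 (gg2 s) s := by
  have h1 := (hasDerivAt_psi (x := 1 + s / 2) (by linarith)).comp s (lin1 s)
  have h2 := (hasDerivAt_psi (x := 1 + s) (by linarith)).comp s (lin2 s)
  have h3 := ((h1.const_mul 2).sub h2).add_const eulerMascheroniConstant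
  refine h3.congr_deriv ?_
  unfold gg2
  ring

theorem hasDerivAt_gg2 {s : ℝ} (hs : -1 < s) : HasDerivAt gg2 (gg3 s) s := by
  have h1 := (hasDerivAt_T 2 le_rfl (x := 1 + s / 2) (by linarith)).comp s (lin1 s)
  have h2 := (hasDerivAt_T 2 le_rfl (x := 1 + s) (by linarith)).comp s (lin2 s)
  have h3 := h1.sub h2
  refine h3.congr_deriv ?_
  unfold gg3
  norm_num
  ring

theorem psi_one : psi 1 = -eulerMascheroniConstant := by
  have := psi_nat 0
  simpa [part] using this

theorem gg_zero : gg 0 = 0 := by simp [gg]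

theorem gg1_zero : gg1 0 = 0 := by
  simp [gg1, psi_one]; ring

theorem gg2_zero : gg2 0 = 0 := by simp [gg2]

theorem gg3_zero : gg3 0 = T 3 1 := by simp [gg3]; ring

theorem continuousAt_gg3 : ContinuousAt gg3 0 := by
  have h1 : ContinuousAt (fun s : ℝ => T 3 (1 + s / 2)) 0 :=
    ContinuousAt.comp (f := fun s : ℝ => 1 + s / 2) (g := T 3)
      (by
        simp only [zero_div, add_zero]
        exact (hasDerivAt_T 3 (by norm_num) one_pos).continuousAt) (lin1 0).continuousAt
  have h2 : ContinuousAt (fun s : ℝ => T 3 (1 + s)) 0 :=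
    ContinuousAt.comp (f := fun s : ℝ => 1 + s) (g := T 3)
      (by
        simp only [add_zero]
        exact (hasDerivAt_T 3 (by norm_num) one_pos).continuousAt) (lin2 0).continuousAt
  exact h1.neg.add (h2.const_mul 2)

theorem tendsto_gg : Tendsto (fun s => gg s / s ^ 3) (𝓝[>] 0) (𝓝 (T 3 1 / 6)) := by
  have hev : ∀ᶠ s : ℝ in 𝓝[>] 0, 0 < s := self_mem_nhdsWithin
  have t0 : Tendsto gg (𝓝[>] 0) (𝓝 0) := by
    have := (hasDerivAt_gg (s := 0) (by norm_num)).continuousAt.tendsto
    rw [gg_zero] at this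
    exact this.mono_left nhdsWithin_le_nhds
  have t1 : Tendsto gg1 (𝓝[>] 0) (𝓝 0) := by
    have := (hasDerivAt_gg1 (s := 0) (by norm_num)).continuousAt.tendsto
    rw [gg1_zero] at this
    exact this.mono_left nhdsWithin_le_nhds
  have t2 : Tendsto gg2 (𝓝[>] 0) (𝓝 0) := by
    have := (hasDerivAt_gg2 (s := 0) (by norm_num)).continuousAt.tendsto
    rw [gg2_zero] at this
    exact this.mono_left nhdsWithin_le_nhds
  have t3 : Tendsto gg3 (𝓝[>] 0) (𝓝 (T 3 1)) := by
    have := continuousAt_gg3.tendsto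
    rw [gg3_zero] at this
    exact this.mono_left nhdsWithin_le_nhds
  have p : ∀ (c : ℝ) (n : ℕ), 1 ≤ n → Tendsto (fun s : ℝ => c * s ^ n) (𝓝[>] 0) (𝓝 0) := by
    intro c n hn
    have : Tendsto (fun s : ℝ => c * s ^ n) (𝓝 0) (𝓝 (c * 0 ^ n)) :=
      (by fun_prop : Continuous fun s : ℝ => c * s ^ n).tendsto 0
    rw [zero_pow (by omega), mul_zero] at this
    exact this.mono_left nhdsWithin_le_nhds
  have s2 : Tendsto (fun s => gg2 s / (6 * s ^ 1)) (𝓝[>] 0) (𝓝 (T 3 1 / 6)) := by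
    refine HasDerivAt.lhopital_zero_nhdsGT (f' := gg3) (g' := fun _ => 6)
      (hev.mono fun s hs => hasDerivAt_gg2 (by linarith)) (hev.mono fun s hs => ?_)
      (hev.mono fun s hs => by norm_num) t2 (p 6 1 le_rfl) (t3.div_const 6)
    simpa using (hasDerivAt_id s).const_mul 6
  have s1 : Tendsto (fun s => gg1 s / (3 * s ^ 2)) (𝓝[>] 0) (𝓝 (T 3 1 / 6)) := by
    refine HasDerivAt.lhopital_zero_nhdsGT (f' := gg2) (g' := fun s => 6 * s ^ 1)
      (hev.mono fun s hs => hasDerivAt_gg1 (by linarith)) (hev.mono fun s hs => ?_)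
      (hev.mono fun s hs => by positivity) t1 (p 3 2 (by norm_num)) s2
    have := ((hasDerivAt_id s).fun_pow 2).const_mul 3
    refine this.congr_deriv ?_
    simp; ring
  refine HasDerivAt.lhopital_zero_nhdsGT (f' := gg1) (g' := fun s => 3 * s ^ 2)
    (hev.mono fun s hs => hasDerivAt_gg (by linarith)) (hev.mono fun s hs => ?_)
    (hev.mono fun s hs => by positivity) t0 (by simpa using p 1 3 (by norm_num)) s1
  have := ((hasDerivAt_id s).fun_pow 3)
  refine this.congr_deriv ?_
  simp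

theorem tendsto_exp_gg : Tendsto (fun s => (exp (gg s) - 1) / s ^ 3) (𝓝[>] 0) (𝓝 (T 3 1 / 6)) := by
  have hev : ∀ᶠ s : ℝ in 𝓝[>] 0, 0 < s := self_mem_nhdsWithin
  have t0 : Tendsto gg (𝓝[>] 0) (𝓝 0) := by
    have := (hasDerivAt_gg (s := 0) (by norm_num)).continuousAt.tendsto
    rw [gg_zero] at this
    exact this.mono_left nhdsWithin_le_nhds
  -- squeeze: g ≤ e^g - 1 ≤ g e^g
  have h1 : Tendsto (fun s => gg s / s ^ 3 * exp (gg s)) (𝓝[>] 0) (𝓝 (T 3 1 / 6)) := by
    have := tendsto_gg.mul ((continuous_exp.tendsto 0).comp t0)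
    rw [exp_zero, mul_one] at this
    exact this
  refine tendsto_of_tendsto_of_tendsto_of_le_of_le' tendsto_gg h1 (hev.mono fun s hs => ?_)
    (hev.mono fun s hs => ?_)
  · apply div_le_div_of_nonneg_right _ (by positivity)
    have := add_one_le_exp (gg s)
    linarith
  · rw [div_mul_eq_mul_div]
    apply div_le_div_of_nonneg_right _ (by positivity)
    have h2 := add_one_le_exp (-gg s)
    have h3 : exp (gg s) * exp (-gg s) = 1 := by rw [← exp_add]; simp
    have h4 := exp_pos (gg s)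
    nlinarith

/-- the Mellin transform `M(s)` against the model -/
theorem tendsto_mellin_sub : Tendsto (fun s => 2 ^ (s - 3) * Gamma (s / 2) ^ 4 / Gamma s -
    2 * (2 * exp (-eulerMascheroniConstant)) ^ s / s ^ 3) (𝓝[>] 0) (𝓝 (T 3 1 / 3)) := by
  have hc : Tendsto (fun s : ℝ => 2 * (2 * exp (-eulerMascheroniConstant)) ^ s) (𝓝[>] 0) (𝓝 2) := by
    have : Tendsto (fun s : ℝ => 2 * (2 * exp (-eulerMascheroniConstant)) ^ s) (𝓝 0)
        (𝓝 (2 * (2 * exp (-eulerMascheroniConstant)) ^ (0 : ℝ))) :=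
      ((continuous_const_rpow (by positivity)).tendsto 0).const_mul 2
    rw [Real.rpow_zero, mul_one] at this
    exact this.mono_left nhdsWithin_le_nhds
  have h1 := hc.mul tendsto_exp_gg
  have h2 : 2 * (T 3 1 / 6) = T 3 1 / 3 := by ring
  rw [h2] at h1
  refine h1.congr' ?_
  filter_upwards [self_mem_nhdsWithin] with s hs
  have hs0 : (0 : ℝ) < s := hs
  have hG := Gamma_pos_of_pos (show 0 < 1 + s by linarith)
  have hG2 := Gamma_pos_of_pos (show 0 < 1 + s / 2 by linarith)
  have e1 : Gamma (1 + s) = s * Gamma s := by rw [add_comm]; exact Gamma_add_one hs0.ne'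
  have e2 : Gamma (1 + s / 2) = s / 2 * Gamma (s / 2) := by
    rw [add_comm]; exact Gamma_add_one (by positivity)
  have hGs := Gamma_pos_of_pos hs0
  have hGs2 := Gamma_pos_of_pos (show 0 < s / 2 by linarith)
  have e3 : exp (gg s) = Gamma (1 + s / 2) ^ 4 / Gamma (1 + s) * exp (eulerMascheroniConstant * s) := by
    have e4 : gg s = (4 : ℕ) * log (Gamma (1 + s / 2)) - log (Gamma (1 + s)) +
        eulerMascheroniConstant * s := by unfold gg; norm_num
    rw [e4, exp_add, exp_sub, exp_nat_mul, exp_log hG2, exp_log hG]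
  have e5 : (2 * exp (-eulerMascheroniConstant)) ^ s = 2 ^ s * exp (-(eulerMascheroniConstant * s)) := by
    rw [mul_rpow (by norm_num) (exp_pos _).le, ← exp_mul, neg_mul]
  have e6 : exp (eulerMascheroniConstant * s) * exp (-(eulerMascheroniConstant * s)) = 1 := by
    rw [← exp_add]; simp
  have e7 : (2 : ℝ) ^ (s - 3) = 2 ^ s / 8 := by
    rw [rpow_sub two_pos]; norm_num
  rw [e3, e5, e7, e1, e2]
  have e8 : 2 * (2 ^ s * exp (-(eulerMascheroniConstant * s))) * (((s / 2 * Gamma (s / 2)) ^ 4 /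
      (s * Gamma s) * exp (eulerMascheroniConstant * s) - 1) / s ^ 3) =
      2 * 2 ^ s * ((s / 2 * Gamma (s / 2)) ^ 4 / (s * Gamma s) *
      (exp (eulerMascheroniConstant * s) * exp (-(eulerMascheroniConstant * s))) -
      exp (-(eulerMascheroniConstant * s))) / s ^ 3 := by ring
  rw [e8, e6]
  field_simp
  ring

end Pool.Agent.SS
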