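import Pool.Agent.SS.BK3
import Pool.Agent.SS.BK4
import Pool.Agent.SS.BK5

/-!
# The constant `ζ(3)/3`
-/

namespace Pool.Agent.SS

open MeasureTheory Set Filter Topology Real

open Pool.Agent.Lib.GammaDerivs (T)
open Pool.Agent.Lib.GammaMoments (integrableOn_pow_mul_log)

/-- `γ + log(t/2)` -/
noncomputable def lm (t : ℝ) : ℝ := eulerMascheroniConstant + log (t / 2)

/-- the zero of `lm` -/
noncomputable def t0 : ℝ := 2 * exp (-eulerMascheroniConstant)

theorem lm_t0 : lm t0 = 0 := by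
  unfold lm t0
  rw [mul_div_cancel_left₀ _ (two_ne_zero), log_exp]
  ring

theorem one_lt_t0 : 1 < t0 := by
  have h1 := Real.eulerMascheroniConstant_lt_two_thirds
  have h2 := Real.log_two_gt_d9
  have h3 : t0 = exp (log 2 - eulerMascheroniConstant) := by
    rw [t0, sub_eq_add_neg, exp_add, exp_log two_pos]
  rw [h3, one_lt_exp_iff]
  linarith

theorem lm_eq {t : ℝ} (ht : 0 < t) : lm t = (eulerMascheroniConstant - log 2) + log t := by
  unfold lm
  rw [log_div ht.ne' two_ne_zero]; ring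

theorem hasDerivAt_lm {t : ℝ} (ht : 0 < t) : HasDerivAt lm (1 / t) t := by
  have h1 : HasDerivAt (fun t : ℝ => t / 2) (1 / 2) t := (hasDerivAt_id t).div_const 2
  have h2 := (h1.log (by positivity)).const_add eulerMascheroniConstant
  refine h2.congr_deriv ?_
  field_simp

theorem measurable_lm : Measurable lm := by
  unfold lm
  fun_prop

theorem K0_add_lm : ∃ C : ℝ, 0 ≤ C ∧ ∀ t, 0 < t → t ≤ 1 → |K0 t + lm t| ≤ C * t := by
  obtain ⟨C, hC0, hC⟩ := FF_le_of_coeff_zero (isE_Ek 1 1) (coeff_zero_Ek 1 1)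
  refine ⟨1 / 2 + C / 2, by positivity, fun t ht ht1 => ?_⟩
  have h1 := K0_sub_E1 ht
  have h2 := E1_eq (x := t / 2) (by positivity)
  have h3 := hC (t / 2) (by positivity) (by linarith)
  have h4 : K0 t + lm t = (K0 t - E1 (t / 2)) + Ein (t / 2) := by
    rw [h2, lm]; ring
  rw [h4]
  have h5 : |Ein (t / 2)| ≤ C * (t / 2) := by
    rw [Ein, abs_neg]; exact h3
  refine (abs_add_le _ _).trans ?_
  linarith

/-- the difference of `K_0(t)²/t` and the model -/
noncomputable def rho (t : ℝ) : ℝ := K0 t ^ 2 / t - (Iic t0).indicator (fun t => lm t ^ 2 / t) t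

theorem continuousOn_K0_div : ContinuousOn (fun t : ℝ => K0 t ^ 2 / t) (Ioi 0) := by
  apply ContinuousOn.div (continuousOn_K0.pow 2) (by fun_prop)
  intro t ht
  exact (ne_of_gt ht)

theorem continuousOn_lm : ContinuousOn lm (Ioi 0) := fun _ ht =>
  (hasDerivAt_lm ht).continuousAt.continuousWithinAt

theorem aesm_rho : AEStronglyMeasurable rho (volume.restrict (Ioi 0)) := by
  unfold rho
  apply AEStronglyMeasurable.sub
  · exact continuousOn_K0_div.aestronglyMeasurable measurableSet_Ioi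
  · apply Measurable.aestronglyMeasurable
    apply Measurable.indicator _ measurableSet_Iic
    exact (measurable_lm.pow_const 2).div measurable_id

theorem integrableOn_rho_Ioc : IntegrableOn (fun t => rho t * (1 + t)) (Ioc 0 1) := by
  obtain ⟨C, hC0, hC⟩ := K0_add_lm
  set A := |eulerMascheroniConstant - log 2| with hA
  have h1 : IntegrableOn (fun t : ℝ => C * (C + 2 * (A + |t ^ 0 * log t ^ 1|)) * 2) (Ioc 0 1) := by
    have h2 : IntegrableOn (fun t : ℝ => |t ^ 0 * log t ^ 1|) (Ioc 0 1) :=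
      (integrableOn_pow_mul_log 1 0).abs
    have h3 : ∀ c : ℝ, IntegrableOn (fun _ : ℝ => c) (Ioc 0 1) := fun c =>
      integrableOn_const (by simp)
    exact (((h3 C).add (((h3 A).add h2).const_mul 2)).const_mul C).mul_const 2
  refine Integrable.mono' h1 ?_ ?_
  · exact (aesm_rho.mono_measure (Measure.restrict_mono_set _ Ioc_subset_Ioi_self)).mul
      (by fun_prop : Continuous fun t : ℝ => 1 + t).aestronglyMeasurable
  · rw [ae_restrict_iff' measurableSet_Ioc]
    refine Eventually.of_forall fun t ht => ?_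
    have ht0 : 0 < t := ht.1
    have ht1 : t ≤ 1 := ht.2
    have hmem : t ∈ Iic t0 := ht1.trans one_lt_t0.le
    have e1 : rho t = ((K0 t + lm t) * ((K0 t + lm t) - 2 * lm t)) / t := by
      rw [rho, indicator_of_mem hmem]
      ring
    have h2 := hC t ht0 ht1
    have h3 : |lm t| ≤ A + |log t| := by
      rw [lm_eq ht0]; exact abs_add_le _ _
    rw [e1, norm_mul, norm_div, norm_mul, Real.norm_eq_abs, Real.norm_eq_abs, Real.norm_eq_abs,
      Real.norm_eq_abs, abs_of_pos ht0, abs_of_pos (by linarith : 0 < 1 + t), pow_zero, one_mul, pow_one]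
    have h4 : |K0 t + lm t - 2 * lm t| ≤ C + 2 * (A + |log t|) := by
      refine (abs_sub _ _).trans ?_
      rw [abs_mul, abs_two]
      have : C * t ≤ C := by nlinarith
      linarith
    apply mul_le_mul _ (by linarith) (by linarith) (by positivity)
    rw [div_le_iff₀ ht0]
    calc |K0 t + lm t| * |K0 t + lm t - 2 * lm t| ≤ (C * t) * (C + 2 * (A + |log t|)) :=
          mul_le_mul h2 h4 (abs_nonneg _) (by positivity)
      _ = _ := by ring

theorem integrableOn_K0_sq_Ioi : IntegrableOn (fun t : ℝ => K0 t ^ 2 / t * (1 + t)) (Ioi 1) := by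
  have h1 : IntegrableOn (fun t : ℝ => exp (-t) * (K0 (1 / 2) ^ 2 * 2)) (Ioi 1) :=
    (integrableOn_exp_neg' 1).mul_const _
  refine Integrable.mono' h1 ?_ ?_
  · apply ContinuousOn.aestronglyMeasurable _ measurableSet_Ioi
    exact (continuousOn_K0_div.mono (Ioi_subset_Ioi zero_le_one)).mul (by fun_prop)
  · rw [ae_restrict_iff' measurableSet_Ioi]
    refine Eventually.of_forall fun t ht => ?_
    have ht' : 1 < t := ht
    have ht0 : 0 < t := by linarith
    have h2 := K0_le' one_pos ht'.le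
    have h0 := K0_nonneg t
    have h3 : K0 t ^ 2 ≤ (exp (-(t / 2)) * K0 (1 / 2)) ^ 2 := pow_le_pow_left₀ h0 h2 2
    have h4 : exp (-(t / 2)) ^ 2 = exp (-t) := by
      rw [← exp_nat_mul]; congr 1; push_cast; ring
    have h5 : (1 + t) / t ≤ 2 := by
      rw [div_le_iff₀ ht0]; linarith
    rw [Real.norm_of_nonneg (by positivity)]
    calc K0 t ^ 2 / t * (1 + t) = K0 t ^ 2 * ((1 + t) / t) := by ring
      _ ≤ (exp (-(t / 2)) * K0 (1 / 2)) ^ 2 * 2 :=
          mul_le_mul h3 h5 (by positivity) (by positivity)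
      _ = _ := by rw [mul_pow, h4]; ring

theorem integrableOn_ind (g : ℝ → ℝ) (hg : ContinuousOn g (Ioi 0)) {x : ℝ} (hx : 0 < x) :
    IntegrableOn (fun t => (Iic t0).indicator (fun t => lm t ^ 2 / t) t * g t) (Ioi x) := by
  have h1 : IntegrableOn (fun t => lm t ^ 2 / t * g t) (Icc x t0) := by
    apply ContinuousOn.integrableOn_Icc
    have hs : Icc x t0 ⊆ Ioi 0 := fun t ht => hx.trans_le ht.1
    apply ContinuousOn.mul _ (hg.mono hs)
    apply ContinuousOn.div ((continuousOn_lm.mono hs).pow 2) (by fun_prop)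
    intro t ht
    exact (hs ht).ne'
  have h2 : IntegrableOn ((Iic t0).indicator (fun t => lm t ^ 2 / t * g t)) (Ioi x) := by
    rw [IntegrableOn, integrable_indicator_iff measurableSet_Iic, IntegrableOn,
      Measure.restrict_restrict measurableSet_Iic]
    apply h1.mono_set
    intro t ht
    exact ⟨le_of_lt ht.2, ht.1⟩
  refine h2.congr_fun ?_ measurableSet_Ioi
  intro t _
  by_cases ht : t ∈ Iic t0
  · simp only [indicator_of_mem ht]
  · simp only [indicator_of_notMem ht, zero_mul]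

theorem integrableOn_rho' : IntegrableOn (fun t => rho t * (1 + t)) (Ioi 0) := by
  rw [← Ioc_union_Ioi_eq_Ioi zero_le_one]
  refine integrableOn_rho_Ioc.union ?_
  have h1 := integrableOn_K0_sq_Ioi.sub (integrableOn_ind (fun t => 1 + t) (by fun_prop) one_pos)
  refine IntegrableOn.congr_fun h1 ?_ measurableSet_Ioi
  intro t _
  simp only [rho, Pi.sub_apply]
  ring

theorem integrableOn_rho : IntegrableOn rho (Ioi 0) := by
  refine Integrable.mono integrableOn_rho' aesm_rho ?_
  rw [ae_restrict_iff' measurableSet_Ioi]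
  refine Eventually.of_forall fun t ht => ?_
  have ht0 : (0 : ℝ) < t := ht
  rw [norm_mul, Real.norm_of_nonneg (by positivity : 0 ≤ 1 + t)]
  have := norm_nonneg (rho t)
  nlinarith

theorem tail_rho {x : ℝ} (hx : 0 < x) (hx0 : x < t0) :
    ∫ t in Ioi x, rho t = kapB x + lm x ^ 3 / 3 := by
  have hi := integrableOn_ind (fun _ => 1) (by fun_prop) hx
  simp only [mul_one] at hi
  have h1 : ∫ t in Ioi x, rho t = kapB x -
      ∫ t in Ioi x, (Iic t0).indicator (fun t => lm t ^ 2 / t) t := by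
    unfold rho kapB
    rw [integral_sub (integrableOn_kapB x hx) hi]
  have h2 : ∫ t in Ioi x, (Iic t0).indicator (fun t => lm t ^ 2 / t) t =
      ∫ t in x..t0, lm t ^ 2 / t := by
    rw [setIntegral_indicator measurableSet_Iic, Ioi_inter_Iic,
      intervalIntegral.integral_of_le hx0.le]
  have h3 : ∫ t in x..t0, lm t ^ 2 / t = lm t0 ^ 3 / 3 - lm x ^ 3 / 3 := by
    have hs : ∀ t ∈ uIcc x t0, 0 < t := fun t ht => by
      rw [uIcc_of_le hx0.le] at ht
      exact hx.trans_le ht.1
    apply intervalIntegral.integral_eq_sub_of_hasDerivAt (f := fun t => lm t ^ 3 / 3)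
    · intro t ht
      have h4 := ((hasDerivAt_lm (hs t ht)).fun_pow 3).div_const 3
      refine h4.congr_deriv ?_
      norm_num
      ring
    · apply ContinuousOn.intervalIntegrable
      apply ContinuousOn.div ((continuousOn_lm.mono fun t ht => hs t ht).pow 2) (by fun_prop)
      intro t ht
      exact (hs t ht).ne'
  rw [h1, h2, h3, lm_t0]
  ring

theorem tendsto_kapB_aux : Tendsto (fun x => kapB x + (eulerMascheroniConstant +
    log (x / 2)) ^ 3 / 3) (𝓝[>] 0) (𝓝 (∫ t in Ioi 0, rho t)) := by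
  refine (tendsto_tail_zero integrableOn_rho).congr' ?_
  filter_upwards [Ioo_mem_nhdsGT (one_pos.trans one_lt_t0)] with x hx
  exact tail_rho hx.1 hx.2

section

variable {s : ℝ}

theorem mel_lint (hs : 0 < s) :
    ∫⁻ t in Ioi (0 : ℝ), ENNReal.ofReal (t ^ (s - 1) * (2 * K0 t) ^ 2) =
      ENNReal.ofReal (2 ^ (s - 1) * Gamma (s / 2) ^ 4 / Gamma s) := by
  have hG := Gamma_pos_of_pos hs
  have h1 := lint_mellin hs
  have h2 : ENNReal.ofReal (2 ^ (s - 1) * Gamma (s / 2) ^ 4) =
      ENNReal.ofReal (Gamma s) * ENNReal.ofReal (2 ^ (s - 1) * Gamma (s / 2) ^ 4 / Gamma s) := by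
    rw [← ENNReal.ofReal_mul hG.le]
    congr 1
    field_simp
  rw [h2] at h1
  exact (ENNReal.mul_right_inj (by simpa using hG) ENNReal.ofReal_ne_top).1 h1

theorem mel_aesm : AEStronglyMeasurable (fun t : ℝ => t ^ (s - 1) * (2 * K0 t) ^ 2)
    (volume.restrict (Ioi 0)) := by
  apply ContinuousOn.aestronglyMeasurable _ measurableSet_Ioi
  apply ContinuousOn.mul
  · intro t ht
    exact (continuousAt_rpow_const t _ (Or.inl (ne_of_gt ht))).continuousWithinAt
  · exact (continuousOn_K0.const_mul 2).pow 2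

theorem mel_nonneg : 0 ≤ᵐ[volume.restrict (Ioi 0)] fun t : ℝ => t ^ (s - 1) * (2 * K0 t) ^ 2 := by
  rw [EventuallyLE, ae_restrict_iff' measurableSet_Ioi]
  refine Eventually.of_forall fun t ht => ?_
  have : (0 : ℝ) < t := ht
  simp only [Pi.zero_apply]
  positivity

theorem mel_int (hs : 0 < s) : IntegrableOn (fun t : ℝ => t ^ (s - 1) * (2 * K0 t) ^ 2) (Ioi 0) := by
  refine ⟨mel_aesm, ?_⟩
  rw [hasFiniteIntegral_iff_ofReal mel_nonneg, mel_lint hs]
  exact ENNReal.ofReal_lt_top

theorem mel_val (hs : 0 < s) : ∫ t in Ioi (0 : ℝ), t ^ (s - 1) * (2 * K0 t) ^ 2 =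
    2 ^ (s - 1) * Gamma (s / 2) ^ 4 / Gamma s := by
  have hG := Gamma_pos_of_pos hs
  have hG2 := Gamma_pos_of_pos (show 0 < s / 2 by positivity)
  rw [integral_eq_lintegral_of_nonneg_ae mel_nonneg mel_aesm, mel_lint hs,
    ENNReal.toReal_ofReal (by positivity)]

/-- the antiderivative of `λ² t^{s-1}` -/
noncomputable def gM (s t : ℝ) : ℝ := t ^ s * (lm t ^ 2 / s - 2 * lm t / s ^ 2 + 2 / s ^ 3)

theorem hasDerivAt_gM (hs : 0 < s) {t : ℝ} (ht : 0 < t) :
    HasDerivAt (gM s) (lm t ^ 2 * t ^ (s - 1)) t := by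
  have h1 := Real.hasDerivAt_rpow_const (x := t) (p := s) (Or.inl ht.ne')
  have h2 := hasDerivAt_lm ht
  have h3 := (((h2.fun_pow 2).div_const s).fun_sub ((h2.const_mul 2).div_const (s ^ 2))).add_const
    (2 / s ^ 3)
  have h4 := h1.fun_mul h3
  refine h4.congr_deriv ?_
  have h5 : t ^ s = t * t ^ (s - 1) := by
    rw [rpow_sub_one ht.ne']; field_simp
  rw [h5]
  norm_num
  field_simp
  ring

theorem tendsto_gM (hs : 0 < s) : Tendsto (gM s) (𝓝[>] 0) (𝓝 0) := by
  have h0 : Tendsto (fun t : ℝ => t ^ s) (𝓝[>] 0) (𝓝 0) := by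
    have h3 : Tendsto (fun x : ℝ => x ^ s) (𝓝 0) (𝓝 (0 ^ s)) :=
      (continuousAt_rpow_const 0 _ (Or.inr hs.le)).tendsto
    rw [zero_rpow hs.ne'] at h3
    exact h3.mono_left nhdsWithin_le_nhds
  have h1 : Tendsto (fun t : ℝ => log t * t ^ s) (𝓝[>] 0) (𝓝 0) :=
    tendsto_log_mul_rpow_nhdsGT_zero hs
  have h2 : Tendsto (fun t : ℝ => (log t * t ^ (s / 2)) ^ 2) (𝓝[>] 0) (𝓝 0) := by
    have := (tendsto_log_mul_rpow_nhdsGT_zero (r := s / 2) (by positivity)).pow 2
    simpa using this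
  set c := eulerMascheroniConstant - log 2 with hc
  have h3 := ((h0.mul_const (c ^ 2 / s - 2 * c / s ^ 2 + 2 / s ^ 3)).add
    (h1.mul_const (2 * c / s - 2 / s ^ 2))).add (h2.mul_const (1 / s))
  simp only [zero_mul, add_zero] at h3
  refine h3.congr' ?_
  filter_upwards [self_mem_nhdsWithin] with t ht
  have ht0 : (0 : ℝ) < t := ht
  have h4 : (log t * t ^ (s / 2)) ^ 2 = log t ^ 2 * t ^ s := by
    rw [mul_pow, ← rpow_natCast (t ^ (s / 2)) 2, ← rpow_mul ht0.le]
    congr 2
    push_cast; ring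
  rw [h4, gM, lm_eq ht0, ← hc]
  ring

theorem continuousOn_gM (hs : 0 < s) : ContinuousOn (gM s) (Icc 0 t0) := by
  intro t ht
  rcases eq_or_lt_of_le ht.1 with h | h
  · rw [← h]
    apply ContinuousWithinAt.mono _ (Icc_subset_Ici_self)
    rw [← continuousWithinAt_Ioi_iff_Ici]
    have h1 : gM s 0 = 0 := by
      rw [gM, zero_rpow hs.ne', zero_mul]
    rw [ContinuousWithinAt, h1]
    exact tendsto_gM hs
  · exact (hasDerivAt_gM hs h).continuousAt.continuousWithinAt

theorem lam_int (hs : 0 < s) : IntegrableOn (fun t => lm t ^ 2 * t ^ (s - 1)) (Ioc 0 t0) :=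
  intervalIntegral.integrableOn_deriv_of_nonneg (continuousOn_gM hs)
    (fun t ht => hasDerivAt_gM hs ht.1) (fun t ht => by
      have : 0 < t := ht.1
      positivity)

theorem lam_val (hs : 0 < s) : ∫ t in Ioc 0 t0, lm t ^ 2 * t ^ (s - 1) = 2 * t0 ^ s / s ^ 3 := by
  have ht0 : 0 < t0 := one_pos.trans one_lt_t0
  rw [← intervalIntegral.integral_of_le ht0.le,
    intervalIntegral.integral_eq_sub_of_hasDerivAt_of_le ht0.le (continuousOn_gM hs)
      (fun t ht => hasDerivAt_gM hs ht.1)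
      ((intervalIntegrable_iff_integrableOn_Ioc_of_le ht0.le).2 (lam_int hs))]
  rw [gM, gM, zero_rpow hs.ne', lm_t0]
  ring

theorem rho_mellin (hs : 0 < s) : ∫ t in Ioi (0 : ℝ), rho t * t ^ s =
    2 ^ (s - 3) * Gamma (s / 2) ^ 4 / Gamma s - 2 * t0 ^ s / s ^ 3 := by
  have h1 : IntegrableOn (fun t : ℝ => 1 / 4 * (t ^ (s - 1) * (2 * K0 t) ^ 2)) (Ioi 0) :=
    (mel_int hs).const_mul _
  have h2 : IntegrableOn ((Iic t0).indicator fun t : ℝ => lm t ^ 2 * t ^ (s - 1)) (Ioi 0) := by
    rw [IntegrableOn, integrable_indicator_iff measurableSet_Iic, IntegrableOn,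
      Measure.restrict_restrict measurableSet_Iic]
    apply (lam_int hs).mono_set
    intro t ht
    exact ⟨ht.2, ht.1⟩
  have h3 : ∫ t in Ioi (0 : ℝ), rho t * t ^ s = ∫ t in Ioi (0 : ℝ),
      (1 / 4 * (t ^ (s - 1) * (2 * K0 t) ^ 2) -
        (Iic t0).indicator (fun t : ℝ => lm t ^ 2 * t ^ (s - 1)) t) := by
    apply setIntegral_congr_fun measurableSet_Ioi
    intro t ht
    have ht0 : (0 : ℝ) < t := ht
    have h5 : t ^ s = t * t ^ (s - 1) := by
      rw [rpow_sub_one ht0.ne']; field_simp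
    simp only [rho]
    by_cases hm : t ∈ Iic t0
    · rw [indicator_of_mem hm, indicator_of_mem hm, h5]
      field_simp
      ring
    · rw [indicator_of_notMem hm, indicator_of_notMem hm, h5]
      field_simp
      ring
  rw [h3, integral_sub h1 h2, integral_const_mul, mel_val hs, setIntegral_indicator measurableSet_Iic,
    Ioi_inter_Iic, lam_val hs]
  congr 1
  have e7 : (2 : ℝ) ^ (s - 3) = 2 ^ s / 8 := by
    rw [rpow_sub two_pos]; norm_num
  have e8 : (2 : ℝ) ^ (s - 1) = 2 ^ s / 2 := by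
    rw [rpow_sub two_pos]; norm_num
  rw [e7, e8]
  ring

end

theorem integral_rho : ∫ t in Ioi (0 : ℝ), rho t = T 3 1 / 3 := by
  have h1 : Tendsto (fun s : ℝ => ∫ t in Ioi (0 : ℝ), rho t * t ^ s) (𝓝[>] 0)
      (𝓝 (∫ t in Ioi (0 : ℝ), rho t)) := by
    apply tendsto_integral_filter_of_dominated_convergence (fun t => ‖rho t * (1 + t)‖)
    · refine Eventually.of_forall fun s => ?_
      apply aesm_rho.mul
      apply ContinuousOn.aestronglyMeasurable _ measurableSet_Ioi
      intro t ht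
      exact (continuousAt_rpow_const t _ (Or.inl (ne_of_gt ht))).continuousWithinAt
    · filter_upwards [Ioo_mem_nhdsGT one_pos] with s hs
      rw [ae_restrict_iff' measurableSet_Ioi]
      refine Eventually.of_forall fun t ht => ?_
      have ht0 : (0 : ℝ) < t := ht
      rw [norm_mul, norm_mul]
      apply mul_le_mul_of_nonneg_left _ (norm_nonneg _)
      rw [Real.norm_of_nonneg (by positivity), Real.norm_of_nonneg (by positivity)]
      rcases le_total t 1 with h | h
      · have := rpow_le_one ht0.le h hs.1.le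
        linarith
      · have := rpow_le_rpow_of_exponent_le h hs.2.le
        rw [rpow_one] at this
        linarith
    · exact integrableOn_rho'.norm
    · rw [ae_restrict_iff' measurableSet_Ioi]
      refine Eventually.of_forall fun t ht => ?_
      have ht0 : (0 : ℝ) < t := ht
      have h2 : Tendsto (fun s : ℝ => rho t * t ^ s) (𝓝 0) (𝓝 (rho t * t ^ (0 : ℝ))) :=
        ((continuous_const_rpow ht0.ne').tendsto 0).const_mul _
      rw [rpow_zero, mul_one] at h2
      exact h2.mono_left nhdsWithin_le_nhds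
  have h2 : Tendsto (fun s : ℝ => ∫ t in Ioi (0 : ℝ), rho t * t ^ s) (𝓝[>] 0) (𝓝 (T 3 1 / 3)) := by
    refine tendsto_mellin_sub.congr' ?_
    filter_upwards [self_mem_nhdsWithin] with s hs
    rw [rho_mellin hs, t0]
  exact tendsto_nhds_unique h1 h2

/-- `kapB x + (γ + log(x/2))³/3 → ζ(3)/3` as `x → 0` -/
theorem tendsto_kapB : Tendsto (fun x => kapB x + (eulerMascheroniConstant +
    log (x / 2)) ^ 3 / 3) (𝓝[>] 0) (𝓝 ((∑' n : ℕ, 1 / ((n : ℝ) + 1) ^ 3) / 3)) := by
  have h := tendsto_kapB_aux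
  rw [integral_rho] at h
  exact h

end Pool.Agent.SS
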