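import Pool.Agent.SS.DeltaVal

/-!
# Transcendence degrees: exchange with finitely many extra generators
-/

namespace Pool.Agent.SS

open Cardinal Set

/-- an algebraically independent family which is algebraic over `ℚ[x]` has at most as many members
as `x` -/
theorem card_le_of_algebraic {κ : Type} {X : Set ℝ} {y : κ → ℝ} (hy : AlgebraicIndependent ℚ y)
    (h : ∀ i, IsAlgebraic (Algebra.adjoin ℚ X) (y i)) : #κ ≤ #X := by
  let R1 := Algebra.adjoin ℚ X
  let A := Subalgebra.algebraicClosure R1 ℝ
  have hxA : ∀ x : X, (x : ℝ) ∈ A := fun x => isAlgebraic_algebraMap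
    (⟨x, Algebra.subset_adjoin x.2⟩ : R1)
  let x' : X → A := fun x => ⟨x, hxA x⟩
  let y' : κ → A := fun i => ⟨y i, h i⟩
  have hy' : AlgebraicIndependent ℚ y' := by
    have h1 : y = (IsScalarTower.toAlgHom ℚ A ℝ) ∘ y' := rfl
    rw [h1] at hy
    exact hy.of_comp
  have hcard : #κ ≤ Algebra.trdeg ℚ A := hy'.cardinalMk_le_trdeg
  have halg : Algebra.IsAlgebraic (Algebra.adjoin ℚ (range x')) A := by
    constructor
    intro a
    have h1 : IsAlgebraic R1 (a : ℝ) := a.2
    obtain ⟨p, hp0, hp⟩ := h1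
    have hmap : ∀ r : R1, ∃ s : Algebra.adjoin ℚ (range x'), ((s : A) : ℝ) = (r : ℝ) := by
      intro r
      have h2 : (Algebra.adjoin ℚ (range x')).map (IsScalarTower.toAlgHom ℚ A ℝ) = R1 := by
        rw [AlgHom.map_adjoin, ← range_comp]
        have h3 : range (⇑(IsScalarTower.toAlgHom ℚ A ℝ) ∘ x') = X := by
          ext z
          constructor
          · rintro ⟨x, rfl⟩; exact x.2
          · intro hz; exact ⟨⟨z, hz⟩, rfl⟩
        rw [h3]
      have h3 : (r : ℝ) ∈ (Algebra.adjoin ℚ (range x')).map (IsScalarTower.toAlgHom ℚ A ℝ) := by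
        rw [h2]; exact r.2
      obtain ⟨s, hs, hsr⟩ := h3
      exact ⟨⟨s, hs⟩, hsr⟩
    choose φ hφ using hmap
    let q : Polynomial (Algebra.adjoin ℚ (range x')) :=
      ∑ i ∈ Finset.range (p.natDegree + 1), Polynomial.C (φ (p.coeff i)) * Polynomial.X ^ i
    have hqc : ∀ i, (((q.coeff i : Algebra.adjoin ℚ (range x')) : A) : ℝ) = (p.coeff i : ℝ) := by
      intro i
      simp only [q, Polynomial.finsetSum_coeff, Polynomial.coeff_C_mul_X_pow]
      rw [Finset.sum_ite_eq]
      split_ifs with hi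
      · exact hφ _
      · rw [Polynomial.coeff_eq_zero_of_natDegree_lt (by simpa [Nat.lt_succ_iff] using hi)]
        simp
    refine ⟨q, ?_, ?_⟩
    · intro hq
      apply hp0
      ext i
      have h4 := hqc i
      rw [hq] at h4
      simp only [Polynomial.coeff_zero, ZeroMemClass.coe_zero] at h4
      simpa using h4.symm
    · apply Subtype.ext
      have hqd : q.natDegree ≤ p.natDegree := by
        refine Polynomial.natDegree_sum_le_of_forall_le _ _ fun i hi => ?_
        refine le_trans (Polynomial.natDegree_C_mul_X_pow_le _ _) ?_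
        exact Nat.lt_succ_iff.1 (Finset.mem_range.1 hi)
      rw [Polynomial.aeval_eq_sum_range' (Nat.lt_succ_of_le hqd)]
      rw [Polynomial.aeval_eq_sum_range' (Nat.lt_succ_of_le le_rfl)] at hp
      have h5 : (((∑ i ∈ Finset.range (p.natDegree + 1), q.coeff i • a ^ i : A)) : ℝ) =
          ∑ i ∈ Finset.range (p.natDegree + 1), p.coeff i • (a : ℝ) ^ i := by
        push_cast
        refine Finset.sum_congr rfl fun i _ => ?_
        rw [Algebra.smul_def, Algebra.smul_def]
        push_cast
        congr 1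
        exact hqc i
      rw [h5, hp]; rfl
  have h6 := Algebra.IsAlgebraic.trdeg_le_cardinalMk ℚ (range x') (A := A)
  exact hcard.trans (h6.trans mk_range_le)

/-- lower bounds for transcendence degrees of finitely generated fields -/
theorem card_le_trdeg_add {κ : Type} {S G : Set ℝ} (hS : S.Finite) {y : κ → ℝ}
    (hy : AlgebraicIndependent ℚ y)
    (h : ∀ R : Subalgebra ℚ ℝ, (∀ s ∈ S, IsAlgebraic R s) → (∀ g ∈ G, IsAlgebraic R g) →
      ∀ i, IsAlgebraic R (y i)) :
    #κ ≤ Algebra.trdeg ℚ (IntermediateField.adjoin ℚ S) + #G := by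
  classical
  -- a maximal algebraically independent subset
  obtain ⟨T, hTS, hT, hmax⟩ : ∃ T ⊆ S, AlgebraicIndepOn ℚ id T ∧
      ∀ s ∈ S, s ∉ T → ¬ AlgebraicIndepOn ℚ id (insert s T) := by
    have hfin : {T : Set ℝ | T ⊆ S ∧ AlgebraicIndepOn ℚ id T}.Finite :=
      hS.finite_subsets.subset fun T hT => hT.1
    have hne : {T : Set ℝ | T ⊆ S ∧ AlgebraicIndepOn ℚ id T}.Nonempty :=
      ⟨∅, empty_subset _, algebraicIndependent_empty_type⟩
    obtain ⟨T, hT⟩ := hfin.exists_maximal hne
    refine ⟨T, hT.prop.1, hT.prop.2, fun s hs hsT hind => ?_⟩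
    have h1 := hT.le_of_ge (y := insert s T) ⟨insert_subset hs hT.prop.1, hind⟩ (subset_insert _ _)
    exact hsT (h1 (mem_insert _ _))
  have hTalg : ∀ s ∈ S, IsAlgebraic (Algebra.adjoin ℚ T) s := by
    intro s hs
    by_cases hsT : s ∈ T
    · exact isAlgebraic_algebraMap (⟨s, Algebra.subset_adjoin hsT⟩ : Algebra.adjoin ℚ T)
    · by_contra hcon
      apply hmax s hs hsT
      have h1 : Transcendental (Algebra.adjoin ℚ (id '' T)) (id s) := by
        rw [image_id]; exact hcon
      exact hT.insert h1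
  have h1 : ∀ i, IsAlgebraic (Algebra.adjoin ℚ (T ∪ G)) (y i) := by
    apply h
    · intro s hs
      have hle : Algebra.adjoin ℚ T ≤ Algebra.adjoin ℚ (T ∪ G) :=
        Algebra.adjoin_mono subset_union_left
      obtain ⟨p, hp0, hp⟩ := hTalg s hs
      refine ⟨p.map (Subalgebra.inclusion hle).toRingHom, ?_, ?_⟩
      · intro h0
        apply hp0
        have hinj : Function.Injective (Subalgebra.inclusion hle).toRingHom :=
          Subalgebra.inclusion_injective hle
        exact (Polynomial.map_eq_zero_iff hinj).1 h0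
      · rw [Polynomial.aeval_def, Polynomial.eval₂_map]
        exact hp
    · intro g hg
      exact isAlgebraic_algebraMap (⟨g, Algebra.subset_adjoin (Or.inr hg)⟩ :
        Algebra.adjoin ℚ (T ∪ G))
  have h2 := card_le_of_algebraic hy h1
  have h3 : #(T ∪ G : Set ℝ) ≤ #T + #G := mk_union_le T G
  have h4 : #T ≤ Algebra.trdeg ℚ (IntermediateField.adjoin ℚ S) := by
    let t' : T → IntermediateField.adjoin ℚ S := fun t =>
      ⟨t, IntermediateField.subset_adjoin ℚ S (hTS t.2)⟩
    have h5 : AlgebraicIndependent ℚ t' := by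
      have h6 : (fun t : T => (id (t : ℝ))) = (IntermediateField.adjoin ℚ S).val ∘ t' := rfl
      have h7 : AlgebraicIndependent ℚ (fun t : T => (id (t : ℝ))) := hT
      rw [h6] at h7
      exact h7.of_comp
    exact h5.cardinalMk_le_trdeg
  exact h2.trans (h3.trans (add_le_add h4 le_rfl))

theorem nat_le_of_add_le {c : Cardinal} {a b : ℕ} (h : ((a + b : ℕ) : Cardinal) ≤ c + b) :
    (a : Cardinal) ≤ c := by
  by_contra hc
  have hc' : c < a := not_le.1 hc
  obtain ⟨n, rfl⟩ := Cardinal.lt_aleph0.1 (hc'.trans (Cardinal.natCast_lt_aleph0))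
  have h1 : n < a := by exact_mod_cast hc'
  have h2 : a + b ≤ n + b := by exact_mod_cast h
  omega

end Pool.Agent.SS
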