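import Pool.Agent.SS.BK6
import Pool.Agent.SS.Trdeg

/-!
# `ζ(3)` and the modified Bessel functions
-/

namespace Pool.Agent.SS

open MeasureTheory Set Filter Topology Real

open Cardinal (mk_union_le)
open scoped Cardinal

theorem ev_evser {s : ℕ → ℚ} (hs : IsE (evser s)) :
    ev (evser s) = ∑' n : ℕ, (s n : ℝ) / (n.factorial : ℝ) ^ 2 := by
  have h0 : Summable fun n => ((PowerSeries.coeff n (evser s) : ℚ) : ℝ) := by
    have h1 := hs.summable_norm 1
    have h2 : Summable fun n => ‖((PowerSeries.coeff n (evser s) : ℚ) : ℝ)‖ := by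
      simpa using h1
    exact h2.of_norm
  have he : Summable fun k => ((PowerSeries.coeff (2 * k) (evser s) : ℚ) : ℝ) :=
    h0.comp_injective (i := fun k : ℕ => 2 * k) fun a b h => by simpa using h
  have ho : Summable fun k => ((PowerSeries.coeff (2 * k + 1) (evser s) : ℚ) : ℝ) :=
    h0.comp_injective (i := fun k : ℕ => 2 * k + 1) fun a b h => by simpa using h
  have h3 := tsum_even_add_odd (f := fun n => ((PowerSeries.coeff n (evser s) : ℚ) : ℝ)) he ho
  unfold ev
  rw [← h3]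
  have h4 : ∀ k, ((PowerSeries.coeff (2 * k + 1) (evser s) : ℚ) : ℝ) = 0 := fun k => by
    rw [coeff_evser_odd]; simp
  simp only [h4, tsum_zero, add_zero]
  apply tsum_congr
  intro k
  rw [coeff_evser_even]
  push_cast
  rfl

/-- the series of `I_0` -/
theorem ev_bI_eq {x : ℝ} {q : ℚ} (hq : (q : ℝ) = (x / 2) ^ 2) :
    ev (bI q) = ∑' n : ℕ, (x / 2) ^ (2 * n) / (n.factorial : ℝ) ^ 2 := by
  rw [bI, ev_evser (isE_bI q)]
  apply tsum_congr
  intro n
  rw [pow_mul, ← hq]
  push_cast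
  ring

/-- the series of `x I_1` -/
theorem ev_ths_bI_eq {x : ℝ} {q : ℚ} (hq : (q : ℝ) = (x / 2) ^ 2) :
    ev (ths (bI q)) = x * ∑' n : ℕ, (x / 2) ^ (2 * n + 1) / ((n.factorial : ℝ) * (n + 1).factorial) := by
  have hE := (isE_bI q).ths
  rw [bI, ths_evser] at hE ⊢
  rw [ev_evser hE]
  have hs : Summable fun n : ℕ => ((2 * (n : ℚ) * (q ^ n * 1) : ℚ) : ℝ) / (n.factorial : ℝ) ^ 2 := by
    have h1 := hE.summable_norm 1
    have h2 : Summable fun n => ‖((PowerSeries.coeff n (evser fun n => 2 * (n : ℚ) * (q ^ n * 1)) : ℚ) : ℝ)‖ := by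
      simpa using h1
    have h3 := h2.of_norm.comp_injective (i := fun k : ℕ => 2 * k) fun a b h => by simpa using h
    refine h3.congr fun n => ?_
    simp only [Function.comp_apply]
    rw [coeff_evser_even]
    push_cast
    ring
  rw [hs.tsum_eq_zero_add]
  simp only [Nat.cast_zero, mul_zero, zero_mul, Rat.cast_zero, zero_div, zero_add]
  rw [← tsum_mul_left]
  apply tsum_congr
  intro n
  have h1 : (q : ℝ) ^ (n + 1) = (x / 2) ^ (2 * n + 1) * (x / 2) := by
    rw [hq, ← pow_mul, ← pow_succ]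
    congr 1
  have h2 : (n.factorial : ℝ) ≠ 0 := by positivity
  have h3 : ((n : ℝ) + 1) ≠ 0 := by positivity
  push_cast
  rw [mul_one, h1, Nat.factorial_succ]
  push_cast
  field_simp

/-- the six values are algebraic over every ring over which the basic numbers are -/
theorem vals_bessel_algebraic {q : ℚ} (hq : 0 < q) {R : Subalgebra ℚ ℝ}
    (hI0 : IsAlgebraic R (ev (bI q))) (hI1 : IsAlgebraic R (ev (ths (bI q))))
    (hK : IsAlgebraic R (K0 (2 * √q)))
    (hL : IsAlgebraic R (eulerMascheroniConstant + log √q))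
    (hz : IsAlgebraic R (∑' n : ℕ, (1 : ℝ) / ((n : ℝ) + 1) ^ 3))
    (hk : IsAlgebraic R (kapB (2 * √q)))
    (hA : IsAlgebraic R (ev (bA q))) (hG : IsAlgebraic R (ev (bG q))) :
    ∀ k : Fin 6, IsAlgebraic R (ev (bz q k.castSucc)) := by
  have hrat : ∀ q : ℚ, IsAlgebraic R (q : ℝ) := fun q => by
    have := isAlgebraic_algebraMap (R := R) (A := ℝ) (algebraMap ℚ R q)
    simpa using this
  have hB : IsAlgebraic R (ev (bB q)) := by
    have h1 : ev (bB q) = K0 (2 * √q) + (eulerMascheroniConstant + log √q) * ev (bI q) := by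
      rw [K0_eq_one hq]; ring
    rw [h1]
    exact hK.add (hL.mul hI0)
  have hH : IsAlgebraic R (ev (bH q)) := by
    have h1 : ev (bH q) = ((1 / 3 : ℚ) : ℝ) * (∑' n : ℕ, (1 : ℝ) / ((n : ℝ) + 1) ^ 3) -
        kapB (2 * √q) - (((1 / 3 : ℚ) : ℝ) * (eulerMascheroniConstant + log √q) ^ 3 +
        (eulerMascheroniConstant + log √q) ^ 2 * ev (bA q) -
        ((2 : ℚ) : ℝ) * (eulerMascheroniConstant + log √q) * ev (bG q)) := by
      rw [kapB_eq_one hq tendsto_kapB]
      push_cast
      ring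
    rw [h1]
    exact (((hrat _).mul hz).sub hk).sub ((((hrat _).mul (hL.pow 3)).add ((hL.pow 2).mul hA)).sub
      (((hrat _).mul hL).mul hG))
  intro k
  match k with
  | 0 => exact hI0
  | 1 => exact hI1
  | 2 => exact hB
  | 3 => exact hA
  | 4 => exact hG
  | 5 => exact hH

section

variable {x : ℝ} {r : ℚ}

theorem sqrt_eq_half (hx : 0 < x) (hr : x ^ 2 = r) : √((r / 4 : ℚ) : ℝ) = x / 2 := by
  have h1 : ((r / 4 : ℚ) : ℝ) = (x / 2) ^ 2 := by
    push_cast
    rw [← hr]; ring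
  rw [h1, sqrt_sq (by positivity)]

/-- **Main theorem** -/
theorem trdeg_bessel (hx : 0 < x) (hr : x ^ 2 = r) :
    ((4 : ℕ) : Cardinal) ≤ Algebra.trdeg ℚ (IntermediateField.adjoin ℚ
      ({∑' n : ℕ, (x / 2) ^ (2 * n) / (n.factorial : ℝ) ^ 2,
        ∑' n : ℕ, (x / 2) ^ (2 * n + 1) / ((n.factorial : ℝ) * (n + 1).factorial),
        ∑' n : ℕ, (1 : ℝ) / ((n : ℝ) + 1) ^ 3, eulerMascheroniConstant + log (x / 2), K0 x,
        kapB x} : Set ℝ)) := by
  set S : Set ℝ := {∑' n : ℕ, (x / 2) ^ (2 * n) / (n.factorial : ℝ) ^ 2,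
        ∑' n : ℕ, (x / 2) ^ (2 * n + 1) / ((n.factorial : ℝ) * (n + 1).factorial),
        ∑' n : ℕ, (1 : ℝ) / ((n : ℝ) + 1) ^ 3, eulerMascheroniConstant + log (x / 2), K0 x,
        kapB x} with hS
  have hr0 : 0 < r / 4 := by
    have h1 : (0 : ℝ) < r := by rw [← hr]; positivity
    have : 0 < r := by exact_mod_cast h1
    positivity
  have hq : ((r / 4 : ℚ) : ℝ) = (x / 2) ^ 2 := by
    push_cast
    rw [← hr]; ring
  have hsq := sqrt_eq_half hx hr
  have hSfin : S.Finite := Set.toFinite _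
  let G : Finset ℝ := {ev (bA (r / 4)), ev (bG (r / 4))}
  have key := card_le_trdeg_add (S := S) (G := (G : Set ℝ)) hSfin (values_bessel (r / 4) hr0.ne')
    (fun R hRS hRG => by
      have hxalg : IsAlgebraic R x := by
        have h1 : IsAlgebraic R (x ^ 2) := by
          rw [hr]
          have := isAlgebraic_algebraMap (R := R) (A := ℝ) (algebraMap ℚ R r)
          simpa using this
        exact IsAlgebraic.of_pow two_pos h1
      apply vals_bessel_algebraic hr0
      · rw [ev_bI_eq hq]; exact hRS _ (by simp [hS])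
      · rw [ev_ths_bI_eq hq]; exact hxalg.mul (hRS _ (by simp [hS]))
      · rw [hsq, mul_div_cancel₀ _ two_ne_zero]; exact hRS _ (by simp [hS])
      · rw [hsq]; exact hRS _ (by simp [hS])
      · exact hRS _ (by simp [hS])
      · rw [hsq, mul_div_cancel₀ _ two_ne_zero]; exact hRS _ (by simp [hS])
      · exact hRG _ (by simp [G])
      · exact hRG _ (by simp [G]))
  have h1 : #(Fin 6) = ((4 + 2 : ℕ) : Cardinal) := by simp
  have h2 : #((G : Set ℝ)) ≤ ((2 : ℕ) : Cardinal) := by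
    have h0 : #((G : Set ℝ)) = G.card := Cardinal.mk_coe_finset
    rw [h0]
    exact_mod_cast Finset.card_le_two
  rw [h1] at key
  exact nat_le_of_add_le (key.trans (add_le_add le_rfl h2))

theorem trdeg_bessel_four (hx : 0 < x) (hr : x ^ 2 = r) :
    ((2 : ℕ) : Cardinal) ≤ Algebra.trdeg ℚ (IntermediateField.adjoin ℚ
      ({∑' n : ℕ, (1 : ℝ) / ((n : ℝ) + 1) ^ 3, eulerMascheroniConstant + log (x / 2), K0 x,
        kapB x} : Set ℝ)) := by
  set S : Set ℝ := {∑' n : ℕ, (1 : ℝ) / ((n : ℝ) + 1) ^ 3, eulerMascheroniConstant + log (x / 2),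
    K0 x, kapB x} with hS
  have hr0 : 0 < r / 4 := by
    have h1 : (0 : ℝ) < r := by rw [← hr]; positivity
    have : 0 < r := by exact_mod_cast h1
    positivity
  have hsq := sqrt_eq_half hx hr
  have hSfin : S.Finite := Set.toFinite _
  let G : Finset ℝ := {ev (bA (r / 4)), ev (bG (r / 4)), ev (bI (r / 4)), ev (ths (bI (r / 4)))}
  have key := card_le_trdeg_add (S := S) (G := (G : Set ℝ)) hSfin (values_bessel (r / 4) hr0.ne')
    (fun R hRS hRG => by
      apply vals_bessel_algebraic hr0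
      · exact hRG _ (by simp [G])
      · exact hRG _ (by simp [G])
      · rw [hsq, mul_div_cancel₀ _ two_ne_zero]; exact hRS _ (by simp [hS])
      · rw [hsq]; exact hRS _ (by simp [hS])
      · exact hRS _ (by simp [hS])
      · rw [hsq, mul_div_cancel₀ _ two_ne_zero]; exact hRS _ (by simp [hS])
      · exact hRG _ (by simp [G])
      · exact hRG _ (by simp [G]))
  have h1 : #(Fin 6) = ((2 + 4 : ℕ) : Cardinal) := by simp
  have h2 : #((G : Set ℝ)) ≤ ((4 : ℕ) : Cardinal) := by
    have h0 : #((G : Set ℝ)) = G.card := Cardinal.mk_coe_finset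
    rw [h0]
    exact_mod_cast Finset.card_le_four
  rw [h1] at key
  exact nat_le_of_add_le (key.trans (add_le_add le_rfl h2))

/-- the five numbers left when three of the eight are algebraic do not suffice -/
theorem no_three (hx : 0 < x) (hr : x ^ 2 = r) {X : Finset ℝ} (hX : X.card ≤ 5)
    (hI : ev (bI (r / 4)) ∈ X) (hI1 : ev (ths (bI (r / 4))) ∈ X) (hA : ev (bA (r / 4)) ∈ X)
    (hG : ev (bG (r / 4)) ∈ X)
    (hz : IsAlgebraic (Algebra.adjoin ℚ (X : Set ℝ)) (∑' n : ℕ, (1 : ℝ) / ((n : ℝ) + 1) ^ 3))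
    (hL : IsAlgebraic (Algebra.adjoin ℚ (X : Set ℝ)) (eulerMascheroniConstant + log (x / 2)))
    (hK : IsAlgebraic (Algebra.adjoin ℚ (X : Set ℝ)) (K0 x))
    (hk : IsAlgebraic (Algebra.adjoin ℚ (X : Set ℝ)) (kapB x)) : False := by
  have hr0 : 0 < r / 4 := by
    have h1 : (0 : ℝ) < r := by rw [← hr]; positivity
    have : 0 < r := by exact_mod_cast h1
    positivity
  have hsq := sqrt_eq_half hx hr
  have hmem : ∀ y ∈ X, IsAlgebraic (Algebra.adjoin ℚ (X : Set ℝ)) y := fun y hy =>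
    isAlgebraic_algebraMap (⟨y, Algebra.subset_adjoin hy⟩ : Algebra.adjoin ℚ (X : Set ℝ))
  have key := card_le_of_algebraic (values_bessel (r / 4) hr0.ne') (X := (X : Set ℝ))
    (vals_bessel_algebraic hr0 (hmem _ hI) (hmem _ hI1)
      (by rw [hsq, mul_div_cancel₀ _ two_ne_zero]; exact hK) (by rw [hsq]; exact hL) hz
      (by rw [hsq, mul_div_cancel₀ _ two_ne_zero]; exact hk) (hmem _ hA) (hmem _ hG))
  have h0 : #((X : Set ℝ)) = X.card := Cardinal.mk_coe_finset
  rw [h0] at key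
  have h1 : #(Fin 6) = ((6 : ℕ) : Cardinal) := by simp
  rw [h1] at key
  have : 6 ≤ X.card := by exact_mod_cast key
  omega

theorem three_a (hx : 0 < x) (hr : x ^ 2 = r) :
    Transcendental ℚ (∑' n : ℕ, (1 : ℝ) / ((n : ℝ) + 1) ^ 3) ∨ Transcendental ℚ (K0 x) ∨
      Transcendental ℚ (kapB x) := by
  classical
  by_contra hcon
  push Not at hcon
  obtain ⟨hz, hK, hk⟩ := hcon
  rw [Transcendental, not_not] at hz hK hk
  let X : Finset ℝ := {eulerMascheroniConstant + log (x / 2), ev (bI (r / 4)),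
    ev (ths (bI (r / 4))), ev (bA (r / 4)), ev (bG (r / 4))}
  exact no_three hx hr (X := X) Finset.card_le_five (by simp [X]) (by simp [X]) (by simp [X])
    (by simp [X]) (hz.extendScalars (algebraMap ℚ _).injective)
    (isAlgebraic_algebraMap (⟨eulerMascheroniConstant + log (x / 2),
      Algebra.subset_adjoin (by simp [X])⟩ : Algebra.adjoin ℚ (X : Set ℝ)))
    (hK.extendScalars (algebraMap ℚ _).injective) (hk.extendScalars (algebraMap ℚ _).injective)

theorem three_b (hx : 0 < x) (hr : x ^ 2 = r) :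
    Transcendental ℚ (∑' n : ℕ, (1 : ℝ) / ((n : ℝ) + 1) ^ 3) ∨
      Transcendental ℚ (eulerMascheroniConstant + log (x / 2)) ∨ Transcendental ℚ (kapB x) := by
  classical
  by_contra hcon
  push Not at hcon
  obtain ⟨hz, hL, hk⟩ := hcon
  rw [Transcendental, not_not] at hz hL hk
  let X : Finset ℝ := {K0 x, ev (bI (r / 4)), ev (ths (bI (r / 4))), ev (bA (r / 4)),
    ev (bG (r / 4))}
  exact no_three hx hr (X := X) Finset.card_le_five (by simp [X]) (by simp [X]) (by simp [X])
    (by simp [X]) (hz.extendScalars (algebraMap ℚ _).injective)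
    (hL.extendScalars (algebraMap ℚ _).injective)
    (isAlgebraic_algebraMap (⟨K0 x, Algebra.subset_adjoin (by simp [X])⟩ :
      Algebra.adjoin ℚ (X : Set ℝ)))
    (hk.extendScalars (algebraMap ℚ _).injective)

end

end Pool.Agent.SS
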