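import Mathlib

/-!
# Uniform degree bounds for ratios of elements of a finite dimensional space of functions
-/

namespace Pool.Agent.SS

open Polynomial

/-- Let `W` be a finitely generated `ℚ`-subspace of a field `𝕂` containing `ℚ[X]`. There is a
bound `c` such that for each nonzero `w₂ ∈ W` there is a coordinate `φ : W → ℚ[X]`
of degree at most `c`, nonzero at `w₂`, compatible with `ℚ[X]`-linear relations. -/
theorem exists_coord {𝕂 : Type*} [Field 𝕂] [CharZero 𝕂] [Algebra ℚ[X] 𝕂]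
    (hinj : Function.Injective (algebraMap ℚ[X] 𝕂)) (W : Submodule ℚ 𝕂) (hW : W.FG) :
    ∃ c : ℕ, ∀ w₂ ∈ W, w₂ ≠ 0 → ∃ φ : 𝕂 → ℚ[X], (∀ w ∈ W, (φ w).natDegree ≤ c) ∧ φ w₂ ≠ 0 ∧
      (∀ w ∈ W, ∀ w' ∈ W, ∀ a b : ℚ[X], algebraMap ℚ[X] 𝕂 a * w = algebraMap ℚ[X] 𝕂 b * w' →
        a * φ w = b * φ w') := by
  classical
  obtain ⟨S, hS⟩ := hW
  let N : Submodule ℚ[X] 𝕂 := Submodule.span ℚ[X] (S : Set 𝕂)
  have hNfg : Module.Finite ℚ[X] N := Module.Finite.iff_fg.2 ⟨S, rfl⟩
  have htf : Module.IsTorsionFree ℚ[X] 𝕂 := by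
    rw [Module.isTorsionFree_iff_algebraMap_injective]
    exact hinj
  have hfree : Module.Free ℚ[X] N := inferInstance
  let b := Module.Free.chooseBasis ℚ[X] N
  have hq : ∀ (q : ℚ) (x : 𝕂), (q • x : 𝕂) = (C q : ℚ[X]) • x := by
    intro q x
    rw [Algebra.smul_def, Algebra.smul_def]
    congr 1
    have h1 : algebraMap ℚ 𝕂 q = (q : 𝕂) := eq_ratCast _ q
    have h2 : algebraMap ℚ[X] 𝕂 (C q) = (q : 𝕂) := by
      have := map_ratCast ((algebraMap ℚ[X] 𝕂).comp (C : ℚ →+* ℚ[X])) q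
      rwa [RingHom.comp_apply, Rat.cast_id] at this
    rw [h1, h2]
  have hWN : ∀ w ∈ W, w ∈ N := by
    intro w hw
    rw [← hS] at hw
    induction hw using Submodule.span_induction with
    | mem x hx => exact Submodule.subset_span hx
    | zero => exact N.zero_mem
    | add x y _ _ hx hy => exact N.add_mem hx hy
    | smul q x _ hx => rw [hq]; exact N.smul_mem _ hx
  let φ : Module.Free.ChooseBasisIndex ℚ[X] N → 𝕂 → ℚ[X] := fun κ w =>
    if h : w ∈ N then b.coord κ ⟨w, h⟩ else 0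
  have hφ : ∀ κ w (h : w ∈ N), φ κ w = b.coord κ ⟨w, h⟩ := fun κ w h => by simp [φ, h]
  let c : ℕ := Finset.univ.sup fun κ => S.sup fun s => (φ κ s).natDegree
  refine ⟨c, fun w₂ hw₂ hne => ?_⟩
  have hκ : ∃ κ, φ κ w₂ ≠ 0 := by
    by_contra hcon
    push Not at hcon
    apply hne
    have : (⟨w₂, hWN w₂ hw₂⟩ : N) = 0 := by
      apply b.ext_elem
      intro κ
      have := hcon κ
      rw [hφ κ w₂ (hWN w₂ hw₂)] at this
      simpa using this
    exact congrArg Subtype.val this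
  obtain ⟨κ, hκ⟩ := hκ
  refine ⟨φ κ, ?_, hκ, ?_⟩
  · intro w hw
    have key : ∀ w ∈ Submodule.span ℚ (S : Set 𝕂), w ∈ N ∧ (φ κ w).natDegree ≤ c := by
      intro w hw
      induction hw using Submodule.span_induction with
      | mem x hx =>
        refine ⟨Submodule.subset_span hx, ?_⟩
        exact le_trans (Finset.le_sup (f := fun s => (φ κ s).natDegree) hx)
          (Finset.le_sup (f := fun κ => S.sup fun s => (φ κ s).natDegree) (Finset.mem_univ κ))
      | zero =>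
        refine ⟨N.zero_mem, ?_⟩
        rw [hφ κ 0 N.zero_mem]
        have : (⟨0, N.zero_mem⟩ : N) = 0 := rfl
        rw [this, map_zero]; simp
      | add x y _ _ hx hy =>
        refine ⟨N.add_mem hx.1 hy.1, ?_⟩
        rw [hφ κ _ (N.add_mem hx.1 hy.1)]
        have : (⟨x + y, N.add_mem hx.1 hy.1⟩ : N) = ⟨x, hx.1⟩ + ⟨y, hy.1⟩ := rfl
        rw [this, map_add, ← hφ κ x hx.1, ← hφ κ y hy.1]
        exact natDegree_add_le_of_degree_le hx.2 hy.2
      | smul q x _ hx =>
        have hm : q • x ∈ N := by rw [hq]; exact N.smul_mem _ hx.1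
        refine ⟨hm, ?_⟩
        rw [hφ κ _ hm]
        have : (⟨q • x, hm⟩ : N) = (C q : ℚ[X]) • ⟨x, hx.1⟩ := by
          apply Subtype.ext; exact hq q x
        rw [this, map_smul, ← hφ κ x hx.1, smul_eq_mul]
        exact le_trans (natDegree_C_mul_le _ _) hx.2
    exact (key w (by rwa [hS])).2
  · intro w hw w' hw' a a' h
    rw [hφ κ w (hWN w hw), hφ κ w' (hWN w' hw'), ← smul_eq_mul, ← smul_eq_mul, ← map_smul,
      ← map_smul]
    congr 1
    apply Subtype.ext
    simpa [Algebra.smul_def] using h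

end Pool.Agent.SS
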