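import Mathlib

/-!
# Basic operators for the Siegel–Shidlovskii method
-/

namespace Pool.Agent.SS

open Polynomial

variable {w : ℕ}

/-- `θ = X d/dX` on polynomials -/
noncomputable def thp (p : ℚ[X]) : ℚ[X] := X * derivative p

/-- `θ = X d/dX` on power series -/
noncomputable def ths (g : PowerSeries ℚ) : PowerSeries ℚ :=
  PowerSeries.X * PowerSeries.derivative ℚ g

/-- the operator on row vectors of polynomials which corresponds to `θ` on linear forms -/
noncomputable def DD (M : Matrix (Fin w) (Fin w) ℚ[X]) (P : Fin w → ℚ[X]) : Fin w → ℚ[X] :=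
  fun j => thp (P j) + ∑ i, P i * M i j

/-- The linear form with coefficients `P` in the power series `f`. -/
noncomputable def lin (f : Fin w → PowerSeries ℚ) (P : Fin w → ℚ[X]) : PowerSeries ℚ :=
  ∑ i, (P i : PowerSeries ℚ) * f i

theorem ths_coe (p : ℚ[X]) : ths (p : PowerSeries ℚ) = ((thp p : ℚ[X]) : PowerSeries ℚ) := by
  simp [ths, thp, PowerSeries.derivative_coe]

theorem ths_add (f g : PowerSeries ℚ) : ths (f + g) = ths f + ths g := by
  simp [ths, mul_add]

theorem ths_zero : ths 0 = 0 := by simp [ths]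

theorem ths_sum {α : Type*} (s : Finset α) (f : α → PowerSeries ℚ) :
    ths (∑ i ∈ s, f i) = ∑ i ∈ s, ths (f i) := by
  simp [ths, Finset.mul_sum]

theorem ths_mul (f g : PowerSeries ℚ) : ths (f * g) = ths f * g + f * ths g := by
  simp only [ths, Derivation.leibniz, smul_eq_mul]
  ring

theorem coeff_ths (f : PowerSeries ℚ) (n : ℕ) :
    PowerSeries.coeff n (ths f) = n * PowerSeries.coeff n f := by
  cases n with
  | zero => simp [ths]
  | succ n =>
    rw [ths, PowerSeries.coeff_succ_X_mul, PowerSeries.coeff_derivative]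
    push_cast; ring

theorem lin_DD (M : Matrix (Fin w) (Fin w) ℚ[X]) (f : Fin w → PowerSeries ℚ)
    (hf : ∀ i, ths (f i) = ∑ j, (M i j : PowerSeries ℚ) * f j) (P : Fin w → ℚ[X]) :
    lin f (DD M P) = ths (lin f P) := by
  simp only [lin, ths_sum, ths_mul, DD, Polynomial.coe_add, ths_coe, hf, add_mul,
    Finset.sum_add_distrib]
  congr 1
  have h1 : ∀ j, (((∑ i, P i * M i j : ℚ[X]) : ℚ[X]) : PowerSeries ℚ) =
      ∑ i, (P i : PowerSeries ℚ) * (M i j : PowerSeries ℚ) := by
    intro j
    have := map_sum (Polynomial.coeToPowerSeries.ringHom : ℚ[X] →+* PowerSeries ℚ)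
      (fun i => P i * M i j) Finset.univ
    simp only [Polynomial.coeToPowerSeries.ringHom_apply, Polynomial.coe_mul] at this
    exact this
  simp only [h1, Finset.sum_mul, Finset.mul_sum]
  rw [Finset.sum_comm]
  refine Finset.sum_congr rfl fun i _ => Finset.sum_congr rfl fun j _ => ?_
  ring

theorem lin_iterate (M : Matrix (Fin w) (Fin w) ℚ[X]) (f : Fin w → PowerSeries ℚ)
    (hf : ∀ i, ths (f i) = ∑ j, (M i j : PowerSeries ℚ) * f j) (P : Fin w → ℚ[X]) (k : ℕ) :
    lin f ((DD M)^[k] P) = ths^[k] (lin f P) := by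
  induction k generalizing P with
  | zero => rfl
  | succ k ih => rw [Function.iterate_succ_apply, Function.iterate_succ_apply, ih, lin_DD M f hf]

theorem X_pow_dvd_ths {f : PowerSeries ℚ} {m : ℕ} (h : PowerSeries.X ^ m ∣ f) :
    PowerSeries.X ^ m ∣ ths f := by
  rw [PowerSeries.X_pow_dvd_iff] at h ⊢
  intro n hn
  rw [coeff_ths, h n hn, mul_zero]

theorem X_pow_dvd_ths_iterate {f : PowerSeries ℚ} {m : ℕ} (h : PowerSeries.X ^ m ∣ f) (k : ℕ) :
    PowerSeries.X ^ m ∣ ths^[k] f := by
  induction k with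
  | zero => exact h
  | succ k ih => rw [Function.iterate_succ_apply']; exact X_pow_dvd_ths ih

theorem coeff_ths_iterate (f : PowerSeries ℚ) (k n : ℕ) :
    PowerSeries.coeff n (ths^[k] f) = (n : ℚ) ^ k * PowerSeries.coeff n f := by
  induction k with
  | zero => simp
  | succ k ih => rw [Function.iterate_succ_apply', coeff_ths, ih]; ring

/-- degree growth under `DD` -/
theorem natDegree_DD_le (M : Matrix (Fin w) (Fin w) ℚ[X]) {t : ℕ}
    (ht : ∀ i j, (M i j).natDegree ≤ t) (P : Fin w → ℚ[X]) {n : ℕ}
    (hn : ∀ i, (P i).natDegree ≤ n) (j : Fin w) : (DD M P j).natDegree ≤ n + t := by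
  refine natDegree_add_le_of_degree_le ?_ ?_
  · unfold thp
    by_cases h : derivative (P j) = 0
    · simp [h]
    · rw [natDegree_X_mul h]
      have h1 : (derivative (P j)).natDegree < (P j).natDegree := by
        apply natDegree_derivative_lt
        intro h0
        apply h
        exact derivative_of_natDegree_zero h0
      have := hn j
      omega
  · refine natDegree_sum_le_of_forall_le _ _ fun i _ => ?_
    exact le_trans natDegree_mul_le (add_le_add (hn i) (ht i j))

theorem natDegree_DD_iterate_le (M : Matrix (Fin w) (Fin w) ℚ[X]) {t : ℕ}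
    (ht : ∀ i j, (M i j).natDegree ≤ t) (P : Fin w → ℚ[X]) {n : ℕ}
    (hn : ∀ i, (P i).natDegree ≤ n) (k : ℕ) (j : Fin w) :
    ((DD M)^[k] P j).natDegree ≤ n + k * t := by
  induction k generalizing j with
  | zero => simpa using hn j
  | succ k ih =>
    rw [Function.iterate_succ_apply']
    have := natDegree_DD_le M ht _ ih j
    calc _ ≤ n + k * t + t := this
      _ = n + (k + 1) * t := by ring

end Pool.Agent.SS
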