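import Pool.Agent.SS.JInt
import Pool.Agent.Lib.GammaMoments

/-!
# Moments of Gompertz type
-/

namespace Pool.Agent.SS

open Set

open Pool.Agent.Lib.GammaMoments (m delta m_split m_one m_two m_three)

/-- exchange: a family over which an algebraically independent family of the same size is algebraic
is algebraically independent -/
theorem exchange {κ : Type} [Finite κ] {x y : κ → ℝ} (hy : AlgebraicIndependent ℚ y)
    (h : ∀ i, IsAlgebraic (Algebra.adjoin ℚ (range x)) (y i)) : AlgebraicIndependent ℚ x := by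
  let R1 := Algebra.adjoin ℚ (range x)
  let A := Subalgebra.algebraicClosure R1 ℝ
  have hxA : ∀ i, x i ∈ A := fun i => isAlgebraic_algebraMap
    (⟨x i, Algebra.subset_adjoin ⟨i, rfl⟩⟩ : R1)
  let x' : κ → A := fun i => ⟨x i, hxA i⟩
  let y' : κ → A := fun i => ⟨y i, h i⟩
  have hy' : AlgebraicIndependent ℚ y' := by
    have h1 : y = (IsScalarTower.toAlgHom ℚ A ℝ) ∘ y' := rfl
    rw [h1] at hy
    exact hy.of_comp
  have hcard : Cardinal.mk κ ≤ Algebra.trdeg ℚ A := hy'.cardinalMk_le_trdeg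
  have halg : Algebra.IsAlgebraic (Algebra.adjoin ℚ (range x')) A := by
    constructor
    intro a
    have h1 : IsAlgebraic R1 (a : ℝ) := a.2
    -- transfer from `R1` to `adjoin ℚ (range x')`
    obtain ⟨p, hp0, hp⟩ := h1
    have hmap : ∀ r : R1, ∃ s : Algebra.adjoin ℚ (range x'), ((s : A) : ℝ) = (r : ℝ) := by
      intro r
      have h2 : (Algebra.adjoin ℚ (range x')).map (IsScalarTower.toAlgHom ℚ A ℝ) = R1 := by
        rw [AlgHom.map_adjoin, ← range_comp]
        rfl
      have h3 : (r : ℝ) ∈ (Algebra.adjoin ℚ (range x')).map (IsScalarTower.toAlgHom ℚ A ℝ) := by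
        rw [h2]; exact r.2
      obtain ⟨s, hs, hsr⟩ := h3
      exact ⟨⟨s, hs⟩, hsr⟩
    choose φ hφ using hmap
    let q : Polynomial (Algebra.adjoin ℚ (range x')) :=
      ∑ i ∈ Finset.range (p.natDegree + 1), Polynomial.C (φ (p.coeff i)) * Polynomial.X ^ i
    have hqc : ∀ i, (((q.coeff i : Algebra.adjoin ℚ (range x')) : A) : ℝ) = (p.coeff i : ℝ) := by
      intro i
      simp only [q, Polynomial.finsetSum_coeff, Polynomial.coeff_C_mul_X_pow]
      rw [Finset.sum_ite_eq]
      split_ifs with hi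
      · exact hφ _
      · rw [Polynomial.coeff_eq_zero_of_natDegree_lt (by simpa [Nat.lt_succ_iff] using hi)]
        simp
    refine ⟨q, ?_, ?_⟩
    · intro hq
      apply hp0
      ext i
      have h4 := hqc i
      rw [hq] at h4
      simp only [Polynomial.coeff_zero, ZeroMemClass.coe_zero] at h4
      simpa using h4.symm
    · apply Subtype.ext
      have hqd : q.natDegree ≤ p.natDegree := by
        refine Polynomial.natDegree_sum_le_of_forall_le _ _ fun i hi => ?_
        refine le_trans (Polynomial.natDegree_C_mul_X_pow_le _ _) ?_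
        exact Nat.lt_succ_iff.1 (Finset.mem_range.1 hi)
      rw [Polynomial.aeval_eq_sum_range' (Nat.lt_succ_of_le hqd)]
      rw [Polynomial.aeval_eq_sum_range' (Nat.lt_succ_of_le le_rfl)] at hp
      have h5 : (((∑ i ∈ Finset.range (p.natDegree + 1), q.coeff i • a ^ i : A)) : ℝ) =
          ∑ i ∈ Finset.range (p.natDegree + 1), p.coeff i • (a : ℝ) ^ i := by
        push_cast
        refine Finset.sum_congr rfl fun i _ => ?_
        rw [Algebra.smul_def, Algebra.smul_def]
        push_cast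
        congr 1
        exact hqc i
      rw [h5, hp]; rfl
  have hbasis := Algebra.IsAlgebraic.isTranscendenceBasis_of_le_trdeg_of_finite (R := ℚ) x' hcard
  exact hbasis.1.map' (f := IsScalarTower.toAlgHom ℚ A ℝ) Subtype.val_injective

/-- the values `e`, `E_1(-1)`, `E_2(-1)`, `E_3(-1)` are algebraically independent -/
theorem values_neg_one : AlgebraicIndependent ℚ
    ![Real.exp 1, ev (Ek 1 (-1)), ev (Ek 2 (-1)), ev (Ek 3 (-1))] := by
  have hv := values_level3 (ι := Unit) (fun _ => (-1 : ℚ)) (fun _ => by norm_num)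
    (fun _ _ _ => rfl) (D := 1) one_pos (fun _ => -1) (fun _ => by norm_num)
    (fun _ => Ek 3 (-1)) (fun _ => 0) (fun _ => isE_Ek 3 _) (fun _ => by
      rw [ths_Ek_succ]; simp [ex_zero])
  have h1 := hv.comp (![none, some (Sum.inl ()), some (Sum.inr (Sum.inl ())),
    some (Sum.inr (Sum.inr ()))] : Fin 4 → Option (Unit ⊕ Unit ⊕ Unit)) (by
      intro a b hab
      fin_cases a <;> fin_cases b <;> simp at hab ⊢)
  convert h1 using 1
  funext i
  fin_cases i
  · simp
  · rfl
  · rfl
  · rfl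

theorem ev_Ek_neg_one (k : ℕ) : ev (Ek k (-1)) =
    -∑' n : ℕ, (-1 : ℝ) ^ n / ((n.factorial : ℝ) * ((n : ℝ) + 1) ^ (k + 1)) := by
  unfold ev
  have hs : Summable fun n => ((PowerSeries.coeff n (Ek k (-1)) : ℚ) : ℝ) := (isE_Ek k (-1)).asum.summable
  rw [← hs.sum_add_tsum_nat_add 1, ← tsum_neg]
  have h0 : ∑ i ∈ Finset.range 1, ((PowerSeries.coeff i (Ek k (-1)) : ℚ) : ℝ) = 0 := by
    simp [Ek, coeff_eser, recip]
  rw [h0, zero_add]
  refine tsum_congr fun n => ?_
  rw [Ek, coeff_eser, recip, if_neg (by omega), Nat.factorial_succ]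
  push_cast
  have h1 : ((n : ℝ) + 1) ≠ 0 := by positivity
  have h2 : (n.factorial : ℝ) ≠ 0 := by positivity
  field_simp
  ring

/-- the moments in terms of the values of `E`-functions -/
theorem m_eq (k : ℕ) : m k = (-1) ^ (k + 1) * k.factorial * ev (Ek k (-1)) +
    (Real.exp 1)⁻¹ * delta k := by
  rw [m_split, ev_Ek_neg_one, Real.exp_neg]
  ring

theorem Ek_eq (k : ℕ) : ev (Ek k (-1)) = (-1) ^ (k + 1) * ((k.factorial : ℝ))⁻¹ *
    (m k - (Real.exp 1)⁻¹ * delta k) := by
  have h1 : (k.factorial : ℝ) ≠ 0 := by positivity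
  have h2 : ((-1 : ℝ) ^ (k + 1)) * (-1) ^ (k + 1) = 1 := by
    rw [← mul_pow]; norm_num
  have h3 : m k - (Real.exp 1)⁻¹ * delta k = (-1) ^ (k + 1) * k.factorial * ev (Ek k (-1)) := by
    rw [m_eq]; ring
  rw [h3]
  have h4 : (-1 : ℝ) ^ (k + 1) * ((k.factorial : ℝ))⁻¹ *
      ((-1) ^ (k + 1) * k.factorial * ev (Ek k (-1))) =
      ((-1) ^ (k + 1) * (-1) ^ (k + 1)) * (((k.factorial : ℝ))⁻¹ * k.factorial) *
        ev (Ek k (-1)) := by ring
  rw [h4, h2, inv_mul_cancel₀ h1]; ring

end Pool.Agent.SS
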