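import Pool.Agent.SS.Prim
import Pool.Agent.SS.JFun

/-!
# `E`-functions as functions of a real variable
-/

namespace Pool.Agent.SS

open Polynomial

/-- value at `y` of a power series with rational coefficients -/
noncomputable def FF (f : PowerSeries ℚ) (y : ℝ) : ℝ :=
  ∑' n, ((PowerSeries.coeff n f : ℚ) : ℝ) * y ^ n

theorem IsE.bound {f : PowerSeries ℚ} (hf : IsE f) : ∃ C : ℝ, 1 ≤ C ∧ ∀ n,
    |((PowerSeries.coeff n f : ℚ) : ℝ)| ≤ C ^ (n + 1) / n.factorial := by
  obtain ⟨C, d, hC, _, _, ha, _⟩ := hf.exists_bound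
  refine ⟨C, by exact_mod_cast hC, fun n => ?_⟩
  have h1 := ha n
  have h0 : (0 : ℝ) < n.factorial := by positivity
  rw [le_div_iff₀ h0]
  have h2 : ((|(n.factorial : ℚ) * PowerSeries.coeff n f| : ℚ) : ℝ) ≤ (((C : ℚ) ^ (n + 1) : ℚ) : ℝ) := by
    exact_mod_cast h1
  push_cast at h2
  rw [abs_mul, abs_of_pos h0, mul_comm] at h2
  exact h2

theorem IsE.summable_norm {f : PowerSeries ℚ} (hf : IsE f) (y : ℝ) :
    Summable fun n => ‖((PowerSeries.coeff n f : ℚ) : ℝ) * y ^ n‖ := by
  obtain ⟨C, hC, h⟩ := hf.bound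
  have h1 : Summable fun n : ℕ => C * ((C * |y|) ^ n / n.factorial) :=
    (Real.summable_pow_div_factorial (C * |y|)).mul_left _
  refine Summable.of_nonneg_of_le (fun _ => norm_nonneg _) (fun n => ?_) h1
  rw [norm_mul, norm_pow, Real.norm_eq_abs, Real.norm_eq_abs]
  calc |((PowerSeries.coeff n f : ℚ) : ℝ)| * |y| ^ n ≤ (C ^ (n + 1) / n.factorial) * |y| ^ n :=
        mul_le_mul_of_nonneg_right (h n) (by positivity)
    _ = _ := by rw [mul_pow, pow_succ]; ring

theorem FF_mul {f g : PowerSeries ℚ} (hf : IsE f) (hg : IsE g) (y : ℝ) :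
    FF (f * g) y = FF f y * FF g y := by
  unfold FF
  rw [tsum_mul_tsum_eq_tsum_sum_antidiagonal_of_summable_norm (hf.summable_norm y)
    (hg.summable_norm y)]
  refine tsum_congr fun n => ?_
  rw [coeff_mul_cast, Finset.sum_mul]
  refine Finset.sum_congr rfl fun p hp => ?_
  rw [← Finset.HasAntidiagonal.mem_antidiagonal.1 hp, pow_add]; ring

theorem FF_add {f g : PowerSeries ℚ} (hf : IsE f) (hg : IsE g) (y : ℝ) :
    FF (f + g) y = FF f y + FF g y := by
  unfold FF
  rw [← (hf.summable_norm y).of_norm.tsum_add (hg.summable_norm y).of_norm]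
  refine tsum_congr fun n => ?_
  rw [map_add]; push_cast; ring

theorem FF_sub {f g : PowerSeries ℚ} (hf : IsE f) (hg : IsE g) (y : ℝ) :
    FF (f - g) y = FF f y - FF g y := by
  unfold FF
  rw [← (hf.summable_norm y).of_norm.tsum_sub (hg.summable_norm y).of_norm]
  refine tsum_congr fun n => ?_
  rw [map_sub]; push_cast; ring

theorem FF_C (c : ℚ) (y : ℝ) : FF (PowerSeries.C c) y = c := by
  unfold FF
  rw [tsum_eq_single 0]
  · simp
  · intro n hn
    rw [PowerSeries.coeff_C, if_neg hn]; simp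

theorem FF_one (y : ℝ) : FF 1 y = 1 := by
  have := FF_C 1 y
  simpa using this

theorem FF_zero_arg (f : PowerSeries ℚ) : FF f 0 = ((PowerSeries.coeff 0 f : ℚ) : ℝ) := by
  unfold FF
  rw [tsum_eq_single 0]
  · simp
  · intro n hn
    rw [zero_pow hn, mul_zero]

theorem hasDerivAt_FF {f : PowerSeries ℚ} (hf : IsE f) (y : ℝ) :
    HasDerivAt (FF f) (∑' n : ℕ, ((PowerSeries.coeff n f : ℚ) : ℝ) * (n * y ^ (n - 1))) y := by
  obtain ⟨C, hC, h⟩ := hf.bound
  set R : ℝ := |y| + 1 with hR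
  have hR0 : 0 < R := by positivity
  have hu : Summable fun n : ℕ => C * ((2 * (C * R)) ^ n / n.factorial) / R :=
    ((Real.summable_pow_div_factorial (2 * (C * R))).mul_left _).div_const _
  have hy : y ∈ Metric.ball (0 : ℝ) R := by
    rw [Metric.mem_ball, dist_zero_right, Real.norm_eq_abs, hR]; linarith
  apply hasDerivAt_tsum_of_isPreconnected (u := fun n : ℕ => C * ((2 * (C * R)) ^ n / n.factorial) / R)
    (t := Metric.ball (0 : ℝ) R) hu Metric.isOpen_ball (convex_ball _ _).isPreconnected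
    (y₀ := y) _ _ hy ((hf.summable_norm y).of_norm) hy
  · intro n z _
    exact (hasDerivAt_pow n z).const_mul _
  · intro n z hz
    rw [Metric.mem_ball, dist_zero_right, Real.norm_eq_abs] at hz
    rw [norm_mul, norm_mul, norm_pow, Real.norm_eq_abs, Real.norm_eq_abs, Real.norm_eq_abs]
    rcases Nat.eq_zero_or_pos n with rfl | hn
    · simp; positivity
    · have h1 : |z| ^ (n - 1) ≤ R ^ (n - 1) := pow_le_pow_left₀ (abs_nonneg _) hz.le _
      have h2 : R ^ (n - 1) = R ^ n / R := by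
        rw [eq_div_iff hR0.ne', ← pow_succ]; congr 1; omega
      have h3 : |(n : ℝ)| ≤ 2 ^ n := by
        rw [abs_of_nonneg (by positivity)]
        exact_mod_cast Nat.lt_two_pow_self.le
      calc _ ≤ (C ^ (n + 1) / n.factorial) * (2 ^ n * (R ^ n / R)) := by
            rw [← h2]
            apply mul_le_mul (h n) _ (by positivity) (by positivity)
            exact mul_le_mul h3 h1 (by positivity) (by positivity)
        _ = _ := by rw [mul_pow, mul_pow, pow_succ]; ring

theorem mul_deriv_FF (f : PowerSeries ℚ) (y : ℝ) :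
    y * (∑' n : ℕ, ((PowerSeries.coeff n f : ℚ) : ℝ) * (n * y ^ (n - 1))) = FF (ths f) y := by
  unfold FF
  rw [← tsum_mul_left]
  refine tsum_congr fun n => ?_
  rw [coeff_ths]
  rcases Nat.eq_zero_or_pos n with rfl | hn
  · simp
  · have : y ^ n = y ^ (n - 1) * y := by rw [← pow_succ]; congr 1; omega
    rw [this]; push_cast; ring

theorem hasDerivAt_FF' {f : PowerSeries ℚ} (hf : IsE f) {y : ℝ} (hy : y ≠ 0) :
    HasDerivAt (FF f) (FF (ths f) y / y) y := by
  have h1 := hasDerivAt_FF hf y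
  have h2 := mul_deriv_FF f y
  rw [← h2, mul_div_cancel_left₀ _ hy]
  exact h1

theorem continuous_FF {f : PowerSeries ℚ} (hf : IsE f) : Continuous (FF f) :=
  continuous_iff_continuousAt.2 fun y => (hasDerivAt_FF hf y).continuousAt

theorem ev_eq_FF (f : PowerSeries ℚ) : ev f = FF f 1 := by
  unfold ev FF
  simp

theorem coeff_Ek (k : ℕ) (r : ℚ) (n : ℕ) :
    PowerSeries.coeff n (Ek k r) = r ^ n * PowerSeries.coeff n (Ek k 1) := by
  rw [Ek, Ek, coeff_eser, coeff_eser, one_pow, one_mul, mul_div_assoc]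

theorem FF_Ek (k : ℕ) (r : ℚ) (y : ℝ) : FF (Ek k r) y = FF (Ek k 1) (r * y) := by
  unfold FF
  refine tsum_congr fun n => ?_
  rw [coeff_Ek, mul_pow]; push_cast; ring

theorem FF_Ek_zero (y : ℝ) : FF (Ek 0 1) y = Real.exp y - 1 := by
  have h1 : FF (ex 1) y = Real.exp y := by
    unfold FF ex
    rw [Real.exp_eq_exp_ℝ, NormedSpace.exp_eq_tsum_div]
    refine tsum_congr fun n => ?_
    rw [coeff_eser]; push_cast; ring
  rw [Ek_zero, FF_sub (isE_ex 1) isE_one, h1, FF_one]

end Pool.Agent.SS
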