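import Pool.Agent.SS.TailInt
import Pool.Agent.SS.RealFun
import Pool.Agent.SS.E1Fun
import Pool.Agent.Lib.GammaMoments

/-!
# The exponential integral
-/

namespace Pool.Agent.SS

open MeasureTheory Set Filter Topology Real

open Pool.Agent.Lib.GammaMoments (m m_one m_two m_three integrableOn_exp_log integrableOn_pow_mul_log
  integral_pow_mul_log)

/-- the exponential integral `∫_x^∞ e^{-t} dt / t` -/
noncomputable def E1 (x : ℝ) : ℝ := ∫ t in Ioi x, exp (-t) / t

theorem integrableOn_exp_neg' (y : ℝ) : IntegrableOn (fun t : ℝ => exp (-t)) (Ioi y) := by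
  have := exp_neg_integrableOn_Ioi y one_pos
  simpa using this

theorem integral_exp_neg' (y : ℝ) : ∫ t in Ioi y, exp (-t) = exp (-y) := by
  exact integral_exp_neg_Ioi y

theorem integrableOn_E1 (y : ℝ) (hy : 0 < y) : IntegrableOn (fun t : ℝ => exp (-t) / t) (Ioi y) := by
  have h1 : IntegrableOn (fun t : ℝ => exp (-t) * y⁻¹) (Ioi y) := (integrableOn_exp_neg' y).mul_const _
  refine Integrable.mono' h1 ?_ ?_
  · apply ContinuousOn.aestronglyMeasurable _ measurableSet_Ioi
    apply ContinuousOn.div (by fun_prop) (by fun_prop)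
    intro t ht
    exact (hy.trans ht).ne'
  · rw [ae_restrict_iff' measurableSet_Ioi]
    refine Eventually.of_forall fun t ht => ?_
    have ht' : y < t := ht
    have ht0 : 0 < t := hy.trans ht'
    rw [Real.norm_eq_abs, abs_of_nonneg (by positivity), div_eq_mul_inv]
    apply mul_le_mul_of_nonneg_left _ (exp_pos _).le
    exact inv_anti₀ hy ht'.le

theorem E1_nonneg (x : ℝ) (hx : 0 < x) : 0 ≤ E1 x := by
  apply setIntegral_nonneg measurableSet_Ioi
  intro t ht
  have : 0 < t := hx.trans ht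
  positivity

theorem E1_le (x : ℝ) (hx : 0 < x) : E1 x ≤ exp (-x) / x := by
  have h1 : IntegrableOn (fun t : ℝ => exp (-t) * x⁻¹) (Ioi x) := (integrableOn_exp_neg' x).mul_const _
  have h2 : E1 x ≤ ∫ t in Ioi x, exp (-t) * x⁻¹ := by
    apply setIntegral_mono_on (integrableOn_E1 x hx) h1 measurableSet_Ioi
    intro t ht
    have ht' : x < t := ht
    rw [div_eq_mul_inv]
    apply mul_le_mul_of_nonneg_left _ (exp_pos _).le
    exact inv_anti₀ hx ht'.le
  rw [integral_mul_const, integral_exp_neg'] at h2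
  rwa [div_eq_mul_inv]

theorem hasDerivAt_E1 {x : ℝ} (hx : 0 < x) : HasDerivAt E1 (-(exp (-x) / x)) x := by
  apply hasDerivAt_tail hx integrableOn_E1
  apply ContinuousOn.div (by fun_prop) (by fun_prop)
  intro t ht
  exact (ne_of_gt ht)

theorem continuousOn_E1 : ContinuousOn E1 (Ioi 0) := fun _ hx =>
  (hasDerivAt_E1 hx).continuousAt.continuousWithinAt

theorem log_le_self' {x : ℝ} (hx : 1 ≤ x) : |log x| ≤ x := by
  rw [abs_of_nonneg (log_nonneg hx)]
  exact (log_le_self (by linarith))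

theorem tendsto_log_pow_exp (k : ℕ) : Tendsto (fun x : ℝ => log x ^ k * exp (-x)) atTop (𝓝 0) := by
  have h1 : Tendsto (fun x : ℝ => x ^ k * exp (-x)) atTop (𝓝 0) :=
    tendsto_pow_mul_exp_neg_atTop_nhds_zero k
  rw [tendsto_zero_iff_abs_tendsto_zero]
  refine squeeze_zero' (Eventually.of_forall fun x => abs_nonneg _) ?_ h1
  filter_upwards [eventually_ge_atTop 1] with x hx
  simp only [Function.comp_apply]
  rw [abs_mul, abs_pow, abs_of_pos (exp_pos _)]
  exact mul_le_mul_of_nonneg_right (pow_le_pow_left₀ (abs_nonneg _) (log_le_self' hx) k)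
    (exp_pos _).le

/-- `E1` is small compared with powers of the logarithm -/
theorem tendsto_log_pow_E1 (k : ℕ) : Tendsto (fun x : ℝ => log x ^ k * E1 x) atTop (𝓝 0) := by
  have h1 := (tendsto_log_pow_exp k).abs
  rw [abs_zero] at h1
  rw [tendsto_zero_iff_abs_tendsto_zero]
  refine squeeze_zero' (Eventually.of_forall fun x => abs_nonneg _) ?_ h1
  filter_upwards [eventually_ge_atTop 1] with x hx
  have hx0 : 0 < x := by linarith
  simp only [Function.comp_apply]
  rw [abs_mul, abs_mul, abs_of_nonneg (E1_nonneg x hx0), abs_of_pos (exp_pos _)]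
  apply mul_le_mul_of_nonneg_left _ (abs_nonneg _)
  refine (E1_le x hx0).trans ?_
  exact div_le_self (exp_pos _).le hx

/-- the power of the logarithm -/
theorem hasDerivAt_log_pow {x : ℝ} (hx : 0 < x) (k : ℕ) :
    HasDerivAt (fun x => log x ^ (k + 1)) ((k + 1) * log x ^ k / x) x := by
  have h1 := (hasDerivAt_log hx.ne').fun_pow (k + 1)
  refine h1.congr_deriv ?_
  rw [Nat.add_sub_cancel]
  push_cast
  ring

theorem hasDerivAt_exp_neg (x : ℝ) : HasDerivAt (fun x : ℝ => exp (-x)) (-exp (-x)) x := by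
  have h1 := (hasDerivAt_neg x).exp
  convert h1 using 1
  ring

theorem integrableOn_log_pow (k : ℕ) (y : ℝ) (hy : 0 ≤ y) :
    IntegrableOn (fun t : ℝ => exp (-t) * log t ^ k) (Ioi y) :=
  (integrableOn_exp_log k).mono_set (Ioi_subset_Ioi hy)

theorem hasDerivAt_tail_log (k : ℕ) {x : ℝ} (hx : 0 < x) :
    HasDerivAt (fun y => ∫ t in Ioi y, exp (-t) * log t ^ k) (-(exp (-x) * log x ^ k)) x := by
  apply hasDerivAt_tail hx (fun y hy => integrableOn_log_pow k y hy.le)
  apply ContinuousOn.mul (by fun_prop)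
  apply ContinuousOn.pow
  intro t ht
  exact (continuousAt_log (ne_of_gt ht)).continuousWithinAt

theorem E1_eq_log {x : ℝ} (hx : 0 < x) :
    E1 x = -(log x * exp (-x)) + ∫ t in Ioi x, exp (-t) * log t ^ 1 := by
  have h := eq_of_deriv_eq_of_tendsto (f := E1)
    (g := fun x => -(log x * exp (-x)) + ∫ t in Ioi x, exp (-t) * log t ^ 1)
    (f' := fun x => -(exp (-x) / x)) (c := 0) (l := atTop) (fun x hx => hasDerivAt_E1 hx)
    (fun x hx => by
      have h1 := (((hasDerivAt_log hx.ne').mul (hasDerivAt_exp_neg x)).neg).add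
        (hasDerivAt_tail_log 1 hx)
      refine h1.congr_deriv ?_
      field_simp
      ring)
    (eventually_gt_atTop 0) (by
      have h1 := tendsto_log_pow_E1 0
      have h2 := tendsto_log_pow_exp 1
      have h3 := tendsto_tail_atTop (integrableOn_exp_log 1)
      have h4 := (h1.sub ((h2.neg).add h3))
      simpa using h4) x hx
  rw [h, add_zero]

theorem tendsto_log_pow_mul (k : ℕ) : Tendsto (fun x : ℝ => log x ^ k * x) (𝓝[>] 0) (𝓝 0) := by
  have h1 : Tendsto (fun x : ℝ => (log x * x ^ ((1 : ℝ) / (k + 1))) ^ k * x ^ ((1 : ℝ) / (k + 1)))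
      (𝓝[>] 0) (𝓝 (0 ^ k * 0)) := by
    have h2 := tendsto_log_mul_rpow_nhdsGT_zero (r := (1 : ℝ) / (k + 1)) (by positivity)
    apply (h2.pow k).mul
    have h3 : Tendsto (fun x : ℝ => x ^ ((1 : ℝ) / (k + 1))) (𝓝 0) (𝓝 (0 ^ ((1 : ℝ) / (k + 1)))) :=
      (continuousAt_rpow_const 0 _ (Or.inr (by positivity))).tendsto
    rw [zero_rpow (by positivity)] at h3
    exact h3.mono_left nhdsWithin_le_nhds
  rw [mul_zero] at h1
  refine h1.congr' ?_
  filter_upwards [self_mem_nhdsWithin] with x hx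
  have hx0 : (0 : ℝ) < x := hx
  rw [mul_pow, mul_assoc, ← rpow_natCast (x ^ ((1 : ℝ) / (k + 1))) k, ← rpow_mul hx0.le,
    ← rpow_add hx0]
  congr 1
  have : (1 : ℝ) / (k + 1) * k + 1 / (k + 1) = 1 := by field_simp
  rw [this, rpow_one]

theorem one_sub_exp_bound {x : ℝ} (hx : 0 < x) : |1 - exp (-x)| ≤ x := by
  rw [abs_of_nonneg (by
    have : exp (-x) ≤ 1 := exp_le_one_iff.2 (by linarith)
    linarith)]
  have := add_one_le_exp (-x)
  linarith

theorem tendsto_of_le_self {q : ℝ → ℝ} {C : ℝ} (hq : ∀ x, 0 < x → x < 1 → |q x| ≤ C * x) (k : ℕ) :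
    Tendsto (fun x : ℝ => log x ^ k * q x) (𝓝[>] 0) (𝓝 0) := by
  have h1 := ((tendsto_log_pow_mul k).abs).const_mul C
  rw [abs_zero, mul_zero] at h1
  rw [tendsto_zero_iff_abs_tendsto_zero]
  refine squeeze_zero' (Eventually.of_forall fun x => abs_nonneg _) ?_ h1
  filter_upwards [Ioo_mem_nhdsGT one_pos] with x hx
  simp only [Function.comp_apply]
  rw [abs_mul, abs_mul]
  calc |log x ^ k| * |q x| ≤ |log x ^ k| * (C * x) :=
        mul_le_mul_of_nonneg_left (hq x hx.1 hx.2) (abs_nonneg _)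
    _ = C * (|log x ^ k| * |x|) := by rw [abs_of_pos hx.1]; ring

/-- Euler's entire function `Ein x = ∑ (-1)^{n-1} x^n / (n n!)` -/
noncomputable def Ein (x : ℝ) : ℝ := -FF (Ek 1 1) (-x)

theorem hasDerivAt_FF_Ek_neg (k : ℕ) {x : ℝ} (hx : 0 < x) :
    HasDerivAt (fun x => -FF (Ek (k + 1) 1) (-x)) (-FF (Ek k 1) (-x) / x) x := by
  have h1 := hasDerivAt_FF' (isE_Ek (k + 1) 1) (y := -x) (neg_ne_zero.2 hx.ne')
  have h2 := (h1.comp x (hasDerivAt_neg x)).neg
  rw [ths_Ek_succ] at h2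
  refine h2.congr_deriv ?_
  field_simp

theorem hasDerivAt_Ein {x : ℝ} (hx : 0 < x) : HasDerivAt Ein ((1 - exp (-x)) / x) x := by
  have h1 := hasDerivAt_FF_Ek_neg 0 hx
  rw [FF_Ek_zero] at h1
  refine h1.congr_deriv ?_
  ring

theorem FF_le_of_coeff_zero {f : PowerSeries ℚ} (hf : IsE f) (h0 : PowerSeries.coeff 0 f = 0) :
    ∃ C : ℝ, 0 ≤ C ∧ ∀ x, 0 < x → x < 1 → |FF f (-x)| ≤ C * x := by
  refine ⟨∑' n, ‖((PowerSeries.coeff n f : ℚ) : ℝ) * 1 ^ n‖, tsum_nonneg fun _ => norm_nonneg _,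
    fun x hx0 hx1 => ?_⟩
  have hs := hf.summable_norm (-x)
  have h1 : |FF f (-x)| ≤ ∑' n, ‖((PowerSeries.coeff n f : ℚ) : ℝ) * (-x) ^ n‖ := by
    rw [← Real.norm_eq_abs]
    exact norm_tsum_le_tsum_norm hs
  refine h1.trans ?_
  rw [← tsum_mul_right]
  apply hs.tsum_le_tsum _ ((hf.summable_norm 1).mul_right x)
  intro n
  rcases Nat.eq_zero_or_pos n with rfl | hn
  · rw [h0]; simp
  · rw [norm_mul, norm_mul, norm_pow, norm_neg, one_pow, norm_one, mul_one, Real.norm_of_nonneg hx0.le]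
    apply mul_le_mul_of_nonneg_left _ (norm_nonneg _)
    calc x ^ n ≤ x ^ 1 := pow_le_pow_of_le_one hx0.le hx1.le hn
      _ = x := pow_one x

theorem E1_eq {x : ℝ} (hx : 0 < x) : E1 x = -(eulerMascheroniConstant + log x) + Ein x := by
  have h := eq_of_deriv_eq_of_tendsto (f := E1)
    (g := fun x => -(eulerMascheroniConstant + log x) + Ein x)
    (f' := fun x => -(exp (-x) / x)) (c := 0) (l := 𝓝[>] 0) (fun x hx => hasDerivAt_E1 hx)
    (fun x hx => by
      have h1 := (((hasDerivAt_log hx.ne').const_add eulerMascheroniConstant).neg).add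
        (hasDerivAt_Ein hx)
      refine h1.congr_deriv ?_
      field_simp
      ring)
    (eventually_nhdsWithin_of_forall fun x hx => hx) (by
      have h1 : Tendsto (fun x : ℝ => log x ^ 1 * (1 - exp (-x))) (𝓝[>] 0) (𝓝 0) :=
        tendsto_of_le_self (C := 1) (fun x hx _ => by rw [one_mul]; exact one_sub_exp_bound hx) 1
      have h2 := tendsto_tail_zero (integrableOn_exp_log 1)
      obtain ⟨C, _, hC⟩ := FF_le_of_coeff_zero (isE_Ek 1 1) (coeff_zero_Ek 1 1)
      have h3 : Tendsto (fun x : ℝ => log x ^ 0 * Ein x) (𝓝[>] 0) (𝓝 0) :=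
        tendsto_of_le_self (C := C) (fun x hx hx1 => by
          rw [Ein, abs_neg]; exact hC x hx hx1) 0
      have h4 := ((h1.add h2).sub h3).add_const eulerMascheroniConstant
      have h5 : (0 : ℝ) + (∫ t in Ioi (0 : ℝ), exp (-t) * log t ^ 1) - 0 + eulerMascheroniConstant = 0 := by
        have h6 := m_one
        unfold m at h6
        rw [h6]; ring
      rw [h5] at h4
      refine h4.congr' ?_
      filter_upwards [self_mem_nhdsWithin] with x hx
      rw [E1_eq_log hx]
      ring) x hx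
  rw [h, add_zero]

end Pool.Agent.SS
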