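import Pool.Agent.SS.LinearMain

/-!
# `E`-functions with rational coefficients: examples and closure properties
-/

namespace Pool.Agent.SS

open Polynomial Nat Chebyshev

/-- `E`-function -/
def IsE (f : PowerSeries ℚ) : Prop := EData fun n => (n.factorial : ℚ) * PowerSeries.coeff n f

theorem eser_coeff (f : PowerSeries ℚ) :
    eser (fun n => (n.factorial : ℚ) * PowerSeries.coeff n f) = f := by
  ext n
  rw [eser, PowerSeries.coeff_mk, mul_div_cancel_left₀]
  exact_mod_cast (Nat.factorial_pos n).ne'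

theorem coeff_eser (a : ℕ → ℚ) (n : ℕ) :
    PowerSeries.coeff n (eser a) = a n / (n.factorial : ℚ) := by
  rw [eser, PowerSeries.coeff_mk]

theorem factorial_mul_coeff_eser (a : ℕ → ℚ) :
    (fun n => (n.factorial : ℚ) * PowerSeries.coeff n (eser a)) = a := by
  ext n
  rw [coeff_eser, mul_div_cancel₀]
  exact_mod_cast (Nat.factorial_pos n).ne'

theorem isE_eser {a : ℕ → ℚ} (h : EData a) : IsE (eser a) := by
  unfold IsE
  rw [factorial_mul_coeff_eser]; exact h

theorem IsE.asum {f : PowerSeries ℚ} (h : IsE f) : ASum f := by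
  obtain ⟨C, d, _, _, _, ha, _⟩ := h.exists_bound
  have := ASum.of_bound ha
  rwa [← eser, eser_coeff] at this

theorem IsE.mul {f g : PowerSeries ℚ} (hf : IsE f) (hg : IsE g) : IsE (f * g) := by
  obtain ⟨C₁, d₁, hC₁, hd₁, hd₁0, ha₁, hi₁⟩ := hf.exists_bound
  obtain ⟨C₂, d₂, hC₂, hd₂, hd₂0, ha₂, hi₂⟩ := hg.exists_bound
  set a : ℕ → ℚ := fun n => (n.factorial : ℚ) * PowerSeries.coeff n f with ha
  set b : ℕ → ℚ := fun n => (n.factorial : ℚ) * PowerSeries.coeff n g with hb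
  have hc : ∀ n, (n.factorial : ℚ) * PowerSeries.coeff n (f * g) =
      ∑ j ∈ Finset.range (n + 1), (n.choose j : ℚ) * a j * b (n - j) := by
    intro n
    rw [PowerSeries.coeff_mul, Finset.Nat.sum_antidiagonal_eq_sum_range_succ_mk, Finset.mul_sum]
    refine Finset.sum_congr rfl fun j hj => ?_
    have hjn : j ≤ n := Nat.lt_succ_iff.1 (Finset.mem_range.1 hj)
    have h3 : ((n.choose j : ℕ) : ℚ) * ((j.factorial : ℚ) * ((n - j).factorial : ℚ)) = n.factorial := by
      rw [← mul_assoc]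
      exact_mod_cast Nat.choose_mul_factorial_mul_factorial hjn
    simp only [ha, hb]
    rw [← h3]; ring
  have hC12 : 1 ≤ C₁ + C₂ := by omega
  refine ⟨⟨(C₁ + C₂) ^ 2, fun n => d₁ n * d₂ n, Nat.one_le_pow _ _ (by omega), fun n => ?_,
    fun n => Nat.mul_pos (hd₁0 n) (hd₂0 n), fun n => ?_, fun n k hk => ?_⟩⟩
  · calc d₁ n * d₂ n ≤ C₁ ^ (n + 1) * C₂ ^ (n + 1) := Nat.mul_le_mul (hd₁ n) (hd₂ n)
      _ ≤ (C₁ + C₂) ^ (n + 1) * (C₁ + C₂) ^ (n + 1) := by
        apply Nat.mul_le_mul <;> exact Nat.pow_le_pow_left (by omega) _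
      _ = _ := by rw [← mul_pow]; congr 1; ring
  · rw [hc]
    refine (Finset.abs_sum_le_sum_abs _ _).trans ?_
    have h1 : ∀ j ∈ Finset.range (n + 1), |(n.choose j : ℚ) * a j * b (n - j)| ≤
        (C₁ * C₂) * ((C₁ : ℚ) ^ j * (C₂ : ℚ) ^ (n - j) * (n.choose j : ℚ)) := by
      intro j hj
      rw [abs_mul, abs_mul, abs_of_nonneg (by positivity : (0 : ℚ) ≤ (n.choose j : ℚ))]
      calc (n.choose j : ℚ) * |a j| * |b (n - j)| ≤
          (n.choose j : ℚ) * (C₁ : ℚ) ^ (j + 1) * (C₂ : ℚ) ^ (n - j + 1) := by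
            apply mul_le_mul _ (ha₂ _) (abs_nonneg _) (by positivity)
            exact mul_le_mul_of_nonneg_left (ha₁ _) (by positivity)
        _ = _ := by ring
    refine (Finset.sum_le_sum h1).trans ?_
    rw [← Finset.mul_sum, ← add_pow]
    push_cast
    have hp1 : (1 : ℚ) ≤ C₁ + C₂ := by exact_mod_cast hC12
    have hc1 : (C₁ : ℚ) ≤ C₁ + C₂ := by
      have : (0 : ℚ) ≤ C₂ := by positivity
      linarith
    have hc2 : (C₂ : ℚ) ≤ C₁ + C₂ := by
      have : (0 : ℚ) ≤ C₁ := by positivity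
      linarith
    calc (C₁ * C₂ : ℚ) * (C₁ + C₂) ^ n ≤ ((C₁ + C₂) * (C₁ + C₂)) * (C₁ + C₂) ^ n := by
          gcongr
      _ = ((C₁ : ℚ) + C₂) ^ (n + 2) := by ring
      _ ≤ ((C₁ : ℚ) + C₂) ^ (2 * (n + 1)) := pow_le_pow_right₀ hp1 (by omega)
      _ = _ := by rw [pow_mul]
  · rw [hc]
    have h1 : ∀ j ∈ Finset.range (k + 1), ∃ z : ℤ,
        ((d₁ n * d₂ n : ℕ) : ℚ) * ((k.choose j : ℚ) * a j * b (k - j)) = z := by
      intro j hj
      have hjk : j ≤ k := Nat.lt_succ_iff.1 (Finset.mem_range.1 hj)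
      obtain ⟨m₁, hm₁⟩ := hi₁ n j (by omega)
      obtain ⟨m₂, hm₂⟩ := hi₂ n (k - j) (by omega)
      refine ⟨k.choose j * (m₁ * m₂), ?_⟩
      push_cast
      rw [← hm₁, ← hm₂]; ring
    choose! z hz using h1
    refine ⟨∑ j ∈ Finset.range (k + 1), z j, ?_⟩
    rw [Finset.mul_sum]
    push_cast
    exact Finset.sum_congr rfl fun j hj => by
      have := hz j hj
      push_cast at this
      exact this

theorem isE_one : IsE 1 := by
  refine ⟨⟨1, fun _ => 1, le_rfl, fun n => by simp, fun _ => one_pos, fun n => ?_, fun n k _ => ?_⟩⟩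
  · rcases Nat.eq_zero_or_pos n with rfl | hn
    · simp
    · rw [PowerSeries.coeff_one, if_neg hn.ne']; simp
  · rcases Nat.eq_zero_or_pos k with rfl | hn
    · exact ⟨1, by simp⟩
    · exact ⟨0, by rw [PowerSeries.coeff_one, if_neg hn.ne']; simp⟩

theorem IsE.pow {f : PowerSeries ℚ} (hf : IsE f) (n : ℕ) : IsE (f ^ n) := by
  induction n with
  | zero => rw [pow_zero]; exact isE_one
  | succ n ih => rw [pow_succ]; exact ih.mul hf

theorem IsE.prod {α : Type*} (s : Finset α) (f : α → PowerSeries ℚ) (h : ∀ i ∈ s, IsE (f i)) :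
    IsE (∏ i ∈ s, f i) := by
  classical
  induction s using Finset.induction_on with
  | empty => rw [Finset.prod_empty]; exact isE_one
  | insert a s ha ih =>
    rw [Finset.prod_insert ha]
    exact (h a (Finset.mem_insert_self _ _)).mul (ih fun i hi => h i (Finset.mem_insert_of_mem hi))

theorem EData.scale {a : ℕ → ℚ} (h : EData a) (r : ℚ) : EData fun n => r ^ n * a n := by
  obtain ⟨C, d, hC, hd, hd0, ha, hi⟩ := h.exists_bound
  have hden : (1 : ℚ) ≤ r.den := by exact_mod_cast r.den_pos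
  have hrabs : |r| ≤ (r.num.natAbs : ℚ) := by
    have h1 : r = r.num / r.den := (Rat.num_div_den r).symm
    rw [h1, abs_div, abs_of_nonneg (by positivity : (0 : ℚ) ≤ (r.den : ℚ))]
    have h2 : |(r.num : ℚ)| = ((r.num.natAbs : ℕ) : ℚ) := by
      rw [Nat.cast_natAbs, Int.cast_abs]
    rw [Rat.num_div_den, h2]
    exact div_le_self (by positivity) hden
  refine ⟨⟨C * (r.num.natAbs + r.den), fun n => d n * r.den ^ n, ?_, fun n => ?_, fun n => ?_,
    fun n => ?_, fun n k hk => ?_⟩⟩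
  · exact Nat.mul_pos hC (by have := r.den_pos; omega)
  · rw [mul_pow]
    apply Nat.mul_le_mul (hd n)
    calc r.den ^ n ≤ (r.num.natAbs + r.den) ^ n := Nat.pow_le_pow_left (by omega) _
      _ ≤ (r.num.natAbs + r.den) ^ (n + 1) :=
        Nat.pow_le_pow_right (by have := r.den_pos; omega) (by omega)
  · exact Nat.mul_pos (hd0 n) (pow_pos r.den_pos n)
  · rw [abs_mul, abs_pow]
    push_cast
    rw [mul_pow, mul_comm]
    have h3 : |r| ≤ (r.num.natAbs : ℚ) + r.den := by linarith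
    have h4 : (1 : ℚ) ≤ (r.num.natAbs : ℚ) + r.den := by
      have : (0 : ℚ) ≤ (r.num.natAbs : ℚ) := by positivity
      linarith
    apply mul_le_mul (ha n) _ (by positivity) (by positivity)
    exact (pow_le_pow_left₀ (abs_nonneg _) h3 n).trans (pow_le_pow_right₀ h4 (by omega))
  · obtain ⟨m, hm⟩ := hi n k hk
    refine ⟨m * (r.num ^ k * r.den ^ (n - k)), ?_⟩
    have h5 : ((r.den : ℚ)) ^ n * r ^ k = (r.num : ℚ) ^ k * (r.den : ℚ) ^ (n - k) := by
      have h6 : (r.den : ℚ) * r = r.num := by rw [mul_comm]; exact Rat.mul_den_eq_num r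
      have h7 : (r.den : ℚ) ^ n = (r.den : ℚ) ^ k * (r.den : ℚ) ^ (n - k) := by
        rw [← pow_add]; congr 1; omega
      rw [h7, ← h6, mul_pow]; ring
    push_cast
    rw [← hm]
    calc (d n : ℚ) * (r.den : ℚ) ^ n * (r ^ k * a k) = (d n * a k) * ((r.den : ℚ) ^ n * r ^ k) := by ring
      _ = _ := by rw [h5]

theorem edata_one : EData fun _ => 1 :=
  ⟨⟨1, fun _ => 1, le_rfl, fun n => by simp, fun _ => one_pos, fun n => by simp,
    fun n k _ => ⟨1, by simp⟩⟩⟩

theorem lcmUpto_le_pow (n : ℕ) : lcmUpto n ≤ 219 ^ n := by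
  have h1 := Chebyshev.psi_le_const_mul_self (x := n) (by positivity)
  rw [Chebyshev.psi_eq_log_lcmUpto] at h1
  have hpos : (0 : ℝ) < lcmUpto n := by exact_mod_cast lcmUpto_pos n
  have h2 : (lcmUpto n : ℝ) ≤ Real.exp ((Real.log 4 + 4) * n) := by
    rw [← Real.exp_log hpos]
    exact Real.exp_le_exp.2 h1
  have h3 : Real.exp ((Real.log 4 + 4) * n) = (4 * Real.exp 4) ^ n := by
    rw [mul_comm, Real.exp_nat_mul, Real.exp_add, Real.exp_log (by norm_num)]
  have h4 : (4 : ℝ) * Real.exp 4 ≤ 219 := by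
    have h5 : Real.exp 4 = Real.exp 1 ^ 4 := by rw [← Real.exp_nat_mul]; norm_num
    have h6 := Real.exp_one_lt_d9
    have h7 : Real.exp 1 ^ 4 ≤ 2.7182818286 ^ 4 :=
      pow_le_pow_left₀ (Real.exp_pos _).le h6.le 4
    rw [h5]
    norm_num at h7 ⊢
    linarith
  have h5 : (lcmUpto n : ℝ) ≤ 219 ^ n := by
    rw [h3] at h2
    exact h2.trans (pow_le_pow_left₀ (by positivity) h4 n)
  exact_mod_cast h5

theorem dvd_lcmUpto' {m n : ℕ} (hm : 1 ≤ m) (hn : m ≤ n) : m ∣ lcmUpto n :=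
  Finset.dvd_lcm (f := id) (Finset.mem_Icc.2 ⟨hm, hn⟩)

theorem edata_of_lcm {a : ℕ → ℚ} {C : ℕ} (hC : 1 ≤ C) (ha : ∀ n, |a n| ≤ (C : ℚ) ^ (n + 1)) (k : ℕ)
    (hint : ∀ n j, j ≤ n → ∃ m : ℤ, ((lcmUpto n : ℕ) : ℚ) ^ k * a j = m) : EData a := by
  refine ⟨⟨C * 219 ^ k, fun n => (lcmUpto n) ^ k, ?_, fun n => ?_, fun n => ?_,
    fun n => ?_, fun n j hj => ?_⟩⟩
  · exact Nat.mul_pos hC (by positivity)
  · calc (lcmUpto n) ^ k ≤ (219 ^ n) ^ k := Nat.pow_le_pow_left (lcmUpto_le_pow n) k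
      _ = (219 ^ k) ^ n := by rw [← pow_mul, ← pow_mul, mul_comm]
      _ ≤ (219 ^ k) ^ (n + 1) := Nat.pow_le_pow_right (by positivity) (by omega)
      _ ≤ (C * 219 ^ k) ^ (n + 1) := Nat.pow_le_pow_left (Nat.le_mul_of_pos_left _ hC) _
  · exact pow_pos (lcmUpto_pos n) k
  · refine (ha n).trans ?_
    apply pow_le_pow_left₀ (by positivity)
    have : C ≤ C * 219 ^ k := Nat.le_mul_of_pos_right _ (by positivity)
    exact_mod_cast this
  · obtain ⟨m, hm⟩ := hint n j hj
    exact ⟨m, by push_cast; exact hm⟩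

/-- coefficients `1 / n ^ k`, with `0` for `n = 0` -/
def recip (k n : ℕ) : ℚ := if n = 0 then 0 else 1 / (n : ℚ) ^ k

/-- generalized harmonic numbers -/
def harm (k n : ℕ) : ℚ := ∑ m ∈ Finset.range (n + 1), recip k m

theorem abs_recip_le (k n : ℕ) : |recip k n| ≤ 1 := by
  unfold recip
  split_ifs with h
  · simp
  · have h1 : (1 : ℚ) ≤ n := by exact_mod_cast Nat.one_le_iff_ne_zero.2 h
    rw [abs_of_nonneg (by positivity), div_le_one (by positivity)]
    exact one_le_pow₀ h1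

theorem recip_int (k n j : ℕ) (hj : j ≤ n) :
    ∃ m : ℤ, ((lcmUpto n : ℕ) : ℚ) ^ k * recip k j = m := by
  unfold recip
  split_ifs with h
  · exact ⟨0, by simp⟩
  · obtain ⟨e, he⟩ := dvd_lcmUpto' (Nat.one_le_iff_ne_zero.2 h) hj
    refine ⟨(e : ℤ) ^ k, ?_⟩
    have hj0 : (j : ℚ) ≠ 0 := by exact_mod_cast h
    rw [he]
    push_cast
    rw [mul_pow]
    field_simp

theorem edata_recip (k : ℕ) : EData (recip k) :=
  edata_of_lcm (C := 1) le_rfl (fun n => by simpa using abs_recip_le k n) k (recip_int k)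

theorem edata_harm (k : ℕ) : EData (harm k) := by
  refine edata_of_lcm (C := 2) (by norm_num) (fun n => ?_) k (fun n j hj => ?_)
  · unfold harm
    refine (Finset.abs_sum_le_sum_abs _ _).trans ?_
    refine (Finset.sum_le_card_nsmul _ _ 1 fun m _ => abs_recip_le k m).trans ?_
    rw [Finset.card_range, nsmul_eq_mul, mul_one]
    have : n + 1 ≤ 2 ^ (n + 1) := Nat.lt_two_pow_self.le
    exact_mod_cast this
  · choose! z hz using fun m (hm : m ≤ n) => recip_int k n m hm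
    refine ⟨∑ m ∈ Finset.range (j + 1), z m, ?_⟩
    unfold harm
    rw [Finset.mul_sum]
    push_cast
    exact Finset.sum_congr rfl fun m hm => hz m (by
      have := Finset.mem_range.1 hm
      omega)

end Pool.Agent.SS
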