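import Pool.Agent.SS.KO

/-!
# Exponential extensions
-/

namespace Pool.Agent.SS

open Polynomial

variable {𝕂 : Type*} [Field 𝕂] {ι : Type*}

namespace DField

variable (δ : DField 𝕂)

/-- no element of `F` is an exponential with exponent a multiple of the one of `t` -/
def NoExp (F : Subfield 𝕂) (a : 𝕂) : Prop :=
  ∀ n : ℕ, n ≠ 0 → ∀ b ∈ F, δ.θ b = n * a * b → b = 0

theorem lower_coeff_eq_zero {F : Subfield 𝕂} {a : 𝕂} (hN : δ.NoExp F a) {m : 𝕂[X]} (hm : CF F m)
    {n : ℕ} (h : δ.D (C a * X) m - C (n * a) * m = 0) {j : ℕ} (hj : j < n) : m.coeff j = 0 := by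
  have h1 := congrArg (fun r => coeff r j) h
  simp only [coeff_sub, coeff_D_CX, coeff_C_mul, coeff_zero] at h1
  refine hN (n - j) (by omega) _ (hm j) ?_
  rw [Nat.cast_sub hj.le]
  linear_combination h1

theorem natDegree_lower {a : 𝕂} {m : 𝕂[X]} {n : ℕ} (hn : n ≠ 0) (hmd : m.natDegree ≤ n)
    (hmn : m.coeff n = 1) : (δ.D (C a * X) m - C (n * a) * m).natDegree < n := by
  apply natDegree_lt_of_coeff hn
  intro i hi
  rw [coeff_sub, coeff_D_CX, coeff_C_mul]
  rcases hi.eq_or_lt with rfl | hi'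
  · rw [hmn, δ.one']; ring
  · rw [coeff_eq_zero_of_natDegree_lt (lt_of_le_of_lt hmd hi'), map_zero]; ring

theorem eq_X_pow_of {m : 𝕂[X]} {n : ℕ} (hmd : m.natDegree ≤ n)
    (hmn : m.coeff n = 1) (h : ∀ j < n, m.coeff j = 0) : m = X ^ n := by
  ext j
  rw [coeff_X_pow]
  rcases lt_trichotomy j n with hj | hj | hj
  · rw [h j hj, if_neg (by omega)]
  · rw [hj, hmn, if_pos rfl]
  · rw [coeff_eq_zero_of_natDegree_lt (by omega), if_neg (by omega)]

/-- an exponential is transcendental -/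
theorem transc_exp {F : Subfield 𝕂} (hF : δ.Stab F) {t a : 𝕂} (ht0 : t ≠ 0) (ha : a ∈ F)
    (hθ : δ.θ t = a * t) (hN : δ.NoExp F a) (p : 𝕂[X]) (hp : CF F p) (h0 : p.eval t = 0) :
    p = 0 := by
  classical
  by_contra hne
  have hex : ∃ n, ∃ p : 𝕂[X], CF F p ∧ p.eval t = 0 ∧ p ≠ 0 ∧ p.natDegree = n :=
    ⟨_, p, hp, h0, hne, rfl⟩
  obtain ⟨p, hp, h0, hne, hn⟩ := Nat.find_spec hex
  set n := Nat.find hex with hn'
  have hmin : ∀ q : 𝕂[X], CF F q → q.eval t = 0 → q.natDegree < n → q = 0 := by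
    intro q hq hq0 hqn
    by_contra hq1
    exact Nat.find_min hex hqn ⟨q, hq, hq0, hq1, rfl⟩
  have hlc : p.coeff n ≠ 0 := by
    rw [← hn]; exact leadingCoeff_ne_zero.2 hne
  set m : 𝕂[X] := C (p.coeff n)⁻¹ * p with hm
  have hmF : CF F m := (CF.C (F.inv_mem (hp n))).mul hp
  have hm0 : m.eval t = 0 := by rw [hm, eval_mul, h0, mul_zero]
  have hmn : m.coeff n = 1 := by rw [hm, coeff_C_mul, inv_mul_cancel₀ hlc]
  have hmd : m.natDegree ≤ n := by
    rw [hm]; refine (natDegree_C_mul_le _ _).trans hn.le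
  have hn0 : n ≠ 0 := by
    intro h
    have h1 : p = C (p.coeff 0) := eq_C_of_natDegree_eq_zero (by rw [hn, h])
    rw [h1, eval_C] at h0
    apply hne
    rw [h1, h0, C_0]
  have hq := hmin (δ.D (C a * X) m - C (n * a) * m)
    ((δ.CF_D hF ((CF.C ha).mul CF.X) hmF).sub ((CF.C (F.mul_mem (natCast_mem F n) ha)).mul hmF))
    (by rw [eval_sub, δ.eval_D (by simp [hθ]), eval_mul (p := C (n * a)), hm0, map_zero]; ring)
    (δ.natDegree_lower hn0 hmd hmn)
  have h1 := eq_X_pow_of hmd hmn fun j hj => δ.lower_coeff_eq_zero hN hmF hq hj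
  rw [h1, eval_pow, eval_X] at hm0
  exact pow_ne_zero _ ht0 hm0

/-- denominators: `x ∈ F(t)`, `θ x ∈ F[t, 1/t]` imply `x ∈ F[t, 1/t]` -/
theorem laurent_of_deriv_laurent {F : Subfield 𝕂} (hF : δ.Stab F) {t a : 𝕂}
    (ha : a ∈ F) (hθ : δ.θ t = a * t) (hN : δ.NoExp F a) {x : 𝕂} (hx : x ∈ adjF F t)
    {G : 𝕂[X]} (hG : CF F G) {k : ℕ} (hxG : δ.θ x * t ^ k = G.eval t) :
    ∃ (j : ℕ) (A : 𝕂[X]), CF F A ∧ x * t ^ j = A.eval t := by
  classical
  obtain ⟨A, B, hA, hB, hB0, hAB⟩ := hx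
  have hex : ∃ n, ∃ (e : ℕ) (A B : 𝕂[X]), CF F A ∧ CF F B ∧ B ≠ 0 ∧
      x * B.eval t * t ^ e = A.eval t ∧ B.natDegree = n := by
    refine ⟨_, 0, A, B, hA, hB, ?_, by rw [pow_zero, mul_one]; exact hAB, rfl⟩
    rintro rfl; simp at hB0
  obtain ⟨e, A, B, hA, hB, hne, hAB, hn⟩ := Nat.find_spec hex
  set n := Nat.find hex with hn'
  have hmin : ∀ (e : ℕ) (A B : 𝕂[X]), CF F A → CF F B → x * B.eval t * t ^ e = A.eval t →
      B.natDegree < n → B = 0 := by
    intro e A B hA hB hAB hBn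
    by_contra h1
    exact Nat.find_min hex hBn ⟨e, A, B, hA, hB, h1, hAB, rfl⟩
  have hlc : B.coeff n ≠ 0 := by rw [← hn]; exact leadingCoeff_ne_zero.2 hne
  set u := (B.coeff n)⁻¹ with hu
  have huF : u ∈ F := F.inv_mem (hB n)
  set m : 𝕂[X] := C u * B with hm
  have hmF : CF F m := (CF.C huF).mul hB
  have hmn : m.coeff n = 1 := by rw [hm, coeff_C_mul, hu, inv_mul_cancel₀ hlc]
  have hmd : m.natDegree ≤ n := by
    rw [hm]; refine (natDegree_C_mul_le _ _).trans hn.le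
  set A' : 𝕂[X] := C u * A with hA'
  have hA'F : CF F A' := (CF.C huF).mul hA
  have hmA : x * m.eval t * t ^ e = A'.eval t := by
    rw [hm, hA', eval_mul, eval_mul, eval_C, ← hAB]; ring
  have hfin : m = X ^ n := by
    by_cases hn0 : n = 0
    · have h1 : m = C (m.coeff 0) := eq_C_of_natDegree_le_zero (by omega)
      rw [hn0] at hmn ⊢
      rw [hmn] at h1
      rw [h1]; simp
    · have hpow : δ.θ (t ^ e) = e * a * t ^ e := by
        rw [δ.pow', hθ]
        rcases Nat.eq_zero_or_pos e with rfl | he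
        · simp
        · have : t ^ e = t ^ (e - 1) * t := by rw [← pow_succ]; congr 1; omega
          rw [this]; ring
      have h1 := congrArg δ.θ hmA
      rw [δ.mul', δ.mul', hpow, ← δ.eval_D (W := C a * X) (by simp [hθ]) A',
        ← δ.eval_D (W := C a * X) (by simp [hθ]) m] at h1
      have hq := hmin (e + k) ((δ.D (C a * X) A') * X ^ k - G * m * X ^ e -
          C (e * a) * A' * X ^ k - C (n * a) * A' * X ^ k)
        (δ.D (C a * X) m - C (n * a) * m)
        (by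
          have hea : (e : 𝕂) * a ∈ F := F.mul_mem (natCast_mem F e) ha
          have hna : (n : 𝕂) * a ∈ F := F.mul_mem (natCast_mem F n) ha
          exact ((((δ.CF_D hF ((CF.C ha).mul CF.X) hA'F).mul (CF.X.pow k)).sub
            ((hG.mul hmF).mul (CF.X.pow e))).sub (((CF.C hea).mul hA'F).mul (CF.X.pow k))).sub
            (((CF.C hna).mul hA'F).mul (CF.X.pow k)))
        ((δ.CF_D hF ((CF.C ha).mul CF.X) hmF).sub
          ((CF.C (F.mul_mem (natCast_mem F n) ha)).mul hmF))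
        (by
          simp only [eval_sub, eval_mul, eval_pow, eval_X, eval_C, ← hxG, ← h1, ← hmA, pow_add]
          ring)
        (δ.natDegree_lower hn0 hmd hmn)
      exact eq_X_pow_of hmd hmn fun j hj => δ.lower_coeff_eq_zero hN hmF hq hj
  refine ⟨n + e, A', hA'F, ?_⟩
  rw [← hmA, hfin, eval_pow, eval_X, pow_add]; ring

/-- comparison of coefficients in a Laurent polynomial identity -/
theorem laurent_coeff {F : Subfield 𝕂} (hF : δ.Stab F) {t a : 𝕂} (ht0 : t ≠ 0)
    (ha : a ∈ F) (hθ : δ.θ t = a * t) (hN : δ.NoExp F a) {x : 𝕂} (hx : x ∈ adjF F t)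
    {G : 𝕂[X]} (hG : CF F G) {k : ℕ} (hxG : δ.θ x * t ^ k = G.eval t) (n : ℕ) :
    ∃ b ∈ F, G.coeff n = δ.θ b + ((n : 𝕂) - k) * a * b := by
  obtain ⟨j, A, hA, hxA⟩ := δ.laurent_of_deriv_laurent hF ha hθ hN hx hG hxG
  have hpow : δ.θ (t ^ j) = j * a * t ^ j := by
    rw [δ.pow', hθ]
    rcases Nat.eq_zero_or_pos j with rfl | he
    · simp
    · have : t ^ j = t ^ (j - 1) * t := by rw [← pow_succ]; congr 1; omega
      rw [this]; ring
  have h1 := congrArg δ.θ hxA
  rw [δ.mul', hpow, ← δ.eval_D (W := C a * X) (by simp [hθ]) A] at h1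
  have hja : (j : 𝕂) * a ∈ F := F.mul_mem (natCast_mem F j) ha
  have h2 : (δ.D (C a * X) A - C (j * a) * A) * X ^ k - G * X ^ j = 0 := by
    apply δ.transc_exp hF ht0 ha hθ hN
    · exact (((δ.CF_D hF ((CF.C ha).mul CF.X) hA).sub ((CF.C hja).mul hA)).mul (CF.X.pow k)).sub
        (hG.mul (CF.X.pow j))
    · simp only [eval_sub, eval_mul, eval_pow, eval_X, eval_C, ← hxG, ← h1, ← hxA]
      ring
  have h3 := congrArg (fun r => coeff r (n + j)) h2
  simp only [coeff_sub, coeff_mul_X_pow, coeff_zero] at h3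
  rw [coeff_mul_X_pow'] at h3
  split_ifs at h3 with hkn
  · refine ⟨A.coeff (n + j - k), hA _, ?_⟩
    rw [coeff_sub, coeff_D_CX, coeff_C_mul, Nat.cast_sub hkn] at h3
    push_cast at h3
    linear_combination -h3
  · refine ⟨0, F.zero_mem, ?_⟩
    rw [map_zero]
    linear_combination -h3

/-- constants are not obtained from the twisted derivations -/
def NoConst (F : Subfield 𝕂) (a : 𝕂) : Prop :=
  ∀ n : ℤ, ∀ b ∈ F, ∀ c ∈ δ.K, δ.θ b + n * a * b = c → c = 0

/-- first level: primitives of `t ^ n - 1` -/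
theorem linFree_exp {F : Subfield 𝕂} (hF : δ.Stab F) (hK : δ.K ≤ F) {t a : 𝕂} (ht0 : t ≠ 0)
    (ha : a ∈ F) (hθ : δ.θ t = a * t) (hN : δ.NoExp F a) (hNC : δ.NoConst F a)
    (y : ι → 𝕂) (s : Finset ι) (n : ι → ℤ) (hn0 : ∀ i ∈ s, n i ≠ 0)
    (hninj : ∀ i ∈ s, ∀ j ∈ s, n i = n j → i = j)
    (hy : ∀ i ∈ s, δ.θ (y i) = t ^ (n i) - 1) : δ.LinFree (adjF F t) y s := by
  classical
  intro c hc hx i hi
  obtain ⟨k, hk⟩ : ∃ k : ℕ, ∀ j ∈ s, 0 ≤ n j + k := by
    refine ⟨∑ j ∈ s, (n j).natAbs, fun j hj => ?_⟩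
    have := Finset.single_le_sum (f := fun j => (n j).natAbs) (fun _ _ => Nat.zero_le _) hj
    omega
  let G : 𝕂[X] := ∑ j ∈ s, C (c j) * (X ^ (n j + k).toNat - X ^ k)
  have hG : CF F G := by
    intro m
    rw [finsetSum_coeff]
    exact F.sum_mem fun j _ => ((CF.C (hK (hc j))).mul ((CF.X.pow _).sub (CF.X.pow _))) m
  have hxG : δ.θ (∑ j ∈ s, c j * y j) * t ^ k = G.eval t := by
    rw [map_sum, Finset.sum_mul, eval_finsetSum]
    refine Finset.sum_congr rfl fun j hj => ?_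
    rw [δ.const_mul (hc j), hy j hj]
    simp only [eval_mul, eval_C, eval_sub, eval_pow, eval_X]
    have h1 : t ^ (n j) * t ^ k = t ^ (n j + k).toNat := by
      rw [← zpow_natCast t k, ← zpow_add₀ ht0, ← zpow_natCast t (n j + k).toNat,
        Int.toNat_of_nonneg (hk j hj)]
    rw [← h1]; ring
  obtain ⟨b, hb, hGb⟩ := δ.laurent_coeff hF ht0 ha hθ hN hx hG hxG (n i + k).toNat
  have h2 : G.coeff (n i + k).toNat = c i := by
    rw [finsetSum_coeff, Finset.sum_eq_single i]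
    · rw [coeff_C_mul, coeff_sub, coeff_X_pow, coeff_X_pow, if_pos rfl, if_neg]
      · ring
      · intro h
        have := hk i hi
        have := hn0 i hi
        omega
    · intro j hj hji
      rw [coeff_C_mul, coeff_sub, coeff_X_pow, coeff_X_pow, if_neg, if_neg]
      · ring
      · intro h
        have := hk i hi
        have := hn0 i hi
        omega
      · intro h
        apply hji
        apply hninj j hj i hi
        have := hk i hi
        have := hk j hj
        omega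
    · intro h; exact absurd hi h
  rw [h2] at hGb
  refine hNC (n i) b hb (c i) (hc i) ?_
  rw [hGb]
  have h3 : (((n i + k).toNat : ℕ) : 𝕂) = (n i : 𝕂) + k := by
    have h4 : (((n i + k).toNat : ℕ) : ℤ) = n i + k := Int.toNat_of_nonneg (hk i hi)
    have h5 := congrArg (Int.cast (R := 𝕂)) h4
    push_cast at h5
    exact h5
  rw [h3]; ring

/-- the base field `K(z)`, `θ z = z`, contains no exponential of a multiple of `z` -/
theorem noExp_base [CharZero 𝕂] {z : 𝕂} (hz0 : z ≠ 0) (hz : δ.θ z = z) {r : 𝕂} (hr : r ∈ δ.K)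
    (hr0 : r ≠ 0) : δ.NoExp (adjF δ.K z) (r * z) := by
  have hKs : δ.Stab δ.K := fun x hx => by rw [(δ.mem_K x).2 hx]; exact δ.K.zero_mem
  have hNK : δ.NoExp δ.K 1 := by
    intro n hn b hb h
    rw [(δ.mem_K b).2 hb, mul_one] at h
    exact (mul_eq_zero.1 h.symm).resolve_left (by exact_mod_cast hn)
  have hz' : δ.θ z = 1 * z := by rw [one_mul]; exact hz
  intro n hn b hb h
  obtain ⟨A, B, hA, hB, hB0, hAB⟩ := hb
  have hmcA : δ.mc A = 0 := by ext i; rw [coeff_mc, (δ.mem_K _).2 (hA i), coeff_zero]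
  have hmcB : δ.mc B = 0 := by ext i; rw [coeff_mc, (δ.mem_K _).2 (hB i), coeff_zero]
  have h1 := congrArg δ.θ hAB
  rw [δ.mul', h, ← δ.eval_D (W := X) (by simp [hz]) A, ← δ.eval_D (W := X) (by simp [hz]) B] at h1
  have h2 : C (n * r) * X * (A * B) + A * δ.D X B - δ.D X A * B = 0 := by
    apply δ.transc_exp hKs hz0 δ.K.one_mem hz' hNK
    · exact (((CF.C (δ.K.mul_mem (natCast_mem δ.K n) hr)).mul CF.X).mul (hA.mul hB)).add
        (hA.mul (δ.CF_D hKs CF.X hB)) |>.sub ((δ.CF_D hKs CF.X hA).mul hB)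
    · simp only [eval_sub, eval_add, eval_mul, eval_C, eval_X, ← h1, ← hAB]
      ring
  have hBne : B ≠ 0 := by rintro rfl; simp at hB0
  by_cases hA0 : A = 0
  · rw [hA0, eval_zero] at hAB
    exact (mul_eq_zero.1 hAB).resolve_right hB0
  exfalso
  have hdeg : ∀ p q : 𝕂[X], δ.mc q = 0 → (p * δ.D X q).natDegree ≤ p.natDegree + q.natDegree := by
    intro p q hq
    refine natDegree_mul_le.trans (add_le_add le_rfl ?_)
    rw [D, hq, zero_add]
    rcases eq_or_ne (derivative q) 0 with h0 | h0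
    · rw [h0]; simp
    · rw [natDegree_X_mul h0]
      have := natDegree_derivative_lt (p := q) (fun h => h0 (derivative_of_natDegree_zero h))
      omega
  have h3 := congrArg (fun p => coeff p (A.natDegree + B.natDegree + 1)) h2
  have h4 : (A * δ.D X B).coeff (A.natDegree + B.natDegree + 1) = 0 :=
    coeff_eq_zero_of_natDegree_lt (by have := hdeg A B hmcB; omega)
  have h5 : (δ.D X A * B).coeff (A.natDegree + B.natDegree + 1) = 0 :=
    coeff_eq_zero_of_natDegree_lt (by have := hdeg B A hmcA; rw [mul_comm]; omega)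
  have h6 : (C (n * r) * X * (A * B)).coeff (A.natDegree + B.natDegree + 1) =
      (n * r) * (A.leadingCoeff * B.leadingCoeff) := by
    rw [mul_assoc, coeff_C_mul, coeff_X_mul, coeff_mul_degree_add_degree]
  simp only [coeff_sub, coeff_add, coeff_zero] at h3
  rw [h4, h5, h6, add_zero, sub_zero] at h3
  have hn' : (n : 𝕂) ≠ 0 := by exact_mod_cast hn
  exact mul_ne_zero (mul_ne_zero hn' hr0) (mul_ne_zero (leadingCoeff_ne_zero.2 hA0)
    (leadingCoeff_ne_zero.2 hBne)) h3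

end DField

end Pool.Agent.SS
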