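import Pool.Agent.SS.Laurent

/-!
# Fundamental solution of `(1+u) Y' = M(1+u) Y` in `ℚ⟦u⟧`
-/

namespace Pool.Agent.SS

open PowerSeries Matrix

variable {ι : Type} [Fintype ι] [DecidableEq ι]

/-- coefficients of the solution of `Y' = N Y`, `Y(0) = 1`. -/
noncomputable def solSeq (N : ℕ → Matrix ι ι ℚ) : ℕ → Matrix ι ι ℚ
  | 0 => 1
  | (n + 1) => ((n : ℚ) + 1)⁻¹ • ∑ k : Fin (n + 1), N (n - k) * solSeq N k
  decreasing_by exact k.2

theorem exists_fundamental (N : Matrix ι ι ℚ⟦X⟧) :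
    ∃ Y : Matrix ι ι ℚ⟦X⟧, (Y.map (fun f => PowerSeries.derivative ℚ f)) = N * Y ∧
      Y.map (PowerSeries.constantCoeff) = 1 := by
  let Nc : ℕ → Matrix ι ι ℚ := fun n => N.map (fun f => PowerSeries.coeff n f)
  let Y : Matrix ι ι ℚ⟦X⟧ := Matrix.of fun i j => PowerSeries.mk fun n => solSeq Nc n i j
  refine ⟨Y, ?_, ?_⟩
  · ext i j n
    simp only [Matrix.map_apply, Matrix.mul_apply, Y, Matrix.of_apply]
    rw [PowerSeries.coeff_derivative, PowerSeries.coeff_mk, solSeq, map_sum]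
    simp only [Matrix.smul_apply, Matrix.sum_apply, Matrix.mul_apply, smul_eq_mul]
    have hn : ((n : ℚ) + 1) ≠ 0 := by positivity
    rw [mul_comm, ← mul_assoc, mul_inv_cancel₀ hn, one_mul]
    rw [Finset.sum_comm]
    refine Finset.sum_congr rfl fun l _ => ?_
    rw [PowerSeries.coeff_mul, Finset.Nat.sum_antidiagonal_eq_sum_range_succ_mk]
    rw [← Finset.sum_range_reflect, Finset.sum_range]
    refine Finset.sum_congr rfl fun k _ => ?_
    have hk : (k : ℕ) ≤ n := Nat.lt_succ_iff.1 k.2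
    simp only [Nc, Matrix.map_apply, PowerSeries.coeff_mk]
    congr 3 <;> omega
  · ext i j
    simp [Y, Matrix.map_apply, solSeq, ← PowerSeries.coeff_zero_eq_constantCoeff_apply]

end Pool.Agent.SS
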