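import Pool.Agent.SS.GenModule
import Pool.Agent.SS.AlgValues

/-!
# Algebraic independence of values of `E`-functions, when the ring of functions is not a
polynomial ring
-/

namespace Pool.Agent.SS

open Polynomial

theorem isE_X : IsE (PowerSeries.X : PowerSeries ℚ) := by
  refine ⟨⟨1, fun _ => 1, le_rfl, fun n => by simp, fun _ => one_pos, fun n => ?_, fun n k _ => ?_⟩⟩
  · rw [PowerSeries.coeff_X]
    split_ifs with h
    · subst h; simp
    · simp
  · rw [PowerSeries.coeff_X]
    split_ifs with h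
    · exact ⟨1, by subst h; simp⟩
    · exact ⟨0, by simp⟩

theorem isE_coe (p : ℚ[X]) : IsE (p : PowerSeries ℚ) := by
  induction p using Polynomial.induction_on' with
  | add p q hp hq => rw [Polynomial.coe_add]; exact hp.add hq
  | monomial n a =>
    rw [← Polynomial.C_mul_X_pow_eq_monomial, Polynomial.coe_mul, Polynomial.coe_C,
      Polynomial.coe_pow, Polynomial.coe_X]
    exact (isE_C a).mul (isE_X.pow n)

section

variable {ι : Type*} [Fintype ι] {z : ι → PowerSeries ℚ} {w : ι → ℕ}

theorem VV_fg (r : ℚ) (hw : ∀ i, 1 ≤ w i) (T : ℕ) : (VV r z w T).FG := by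
  classical
  rw [Submodule.fg_def]
  refine ⟨mono r z '' {p | wgt w p ≤ T}, Set.Finite.image _ ?_, rfl⟩
  exact (JJ w T).finite_toSet.subset fun p hp => Finset.mem_coe.2 ((mem_JJ hw).2 hp)

theorem isE_of_mem_VV (r : ℚ) (hE : ∀ i, IsE (z i)) {T : ℕ} {f : PowerSeries ℚ}
    (hf : f ∈ VV r z w T) : IsE f := by
  unfold VV at hf
  induction hf using Submodule.span_induction with
  | mem f hf =>
    obtain ⟨p, _, rfl⟩ := hf
    exact isE_mono hE p
  | zero =>
    have := isE_C 0
    rwa [map_zero] at this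
  | add f g _ _ hf hg => exact hf.add hg
  | smul p f _ hf => rw [smul_eq_coe_mul]; exact (isE_coe p).mul hf

theorem ths_mem_VV (r : ℚ) (hθ : ∀ i, ths (z i) ∈ VV r z w (w i)) {T : ℕ} {f : PowerSeries ℚ}
    (hf : f ∈ VV r z w T) : ths f ∈ VV r z w T := by
  unfold VV at hf
  induction hf using Submodule.span_induction with
  | mem f hf =>
    obtain ⟨p, hp, rfl⟩ := hf
    exact VV_mono hp (ths_mono_mem hθ p)
  | zero => rw [ths_zero]; exact Submodule.zero_mem _
  | add f g _ _ hf hg => rw [ths_add]; exact Submodule.add_mem _ hf hg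
  | smul p f hf' hf =>
    rw [smul_eq_coe_mul, ths_mul, ths_coe, ← smul_eq_coe_mul, ← smul_eq_coe_mul]
    exact Submodule.add_mem _ (Submodule.smul_mem _ _ hf') (Submodule.smul_mem _ _ hf)

theorem one_mem_VV (r : ℚ) (T : ℕ) : (1 : PowerSeries ℚ) ∈ VV r z w T := by
  have h1 : (1 : PowerSeries ℚ) = mono r z 0 := by simp [mono, ex_zero]
  rw [h1]
  exact mono_mem (by simp [wgt])

theorem gen_mem_VV (r : ℚ) (i : ι) : z i ∈ VV r z w (w i) := by
  classical
  have h1 : z i = mono r z (0, Pi.single i 1) := by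
    simp only [mono, Int.cast_zero, zero_mul, ex_zero, one_mul]
    rw [Finset.prod_eq_single i]
    · simp
    · intro j _ hj; simp [Pi.single_eq_of_ne hj]
    · intro h; exact absurd (Finset.mem_univ _) h
  have h2 : mono r z (0, Pi.single i 1) ∈ VV r z w (w i) := by
    apply mono_mem
    simp only [wgt, Int.natAbs_zero, zero_add]
    rw [Finset.sum_eq_single i]
    · simp
    · intro j _ hj; simp [Pi.single_eq_of_ne hj]
    · intro h; exact absurd (Finset.mem_univ _) h
  rw [← h1] at h2
  exact h2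

theorem exists_mem_VV {κ : Type*} (e : κ → ι) (p : MvPolynomial κ ℚ[X]) :
    ∃ T, MvPolynomial.aeval (fun k => z (e k)) p ∈ VV 0 z w T := by
  induction p using MvPolynomial.induction_on with
  | C a =>
    refine ⟨0, ?_⟩
    rw [MvPolynomial.aeval_C, Algebra.algebraMap_eq_smul_one]
    exact Submodule.smul_mem _ _ (one_mem_VV _ _)
  | add p q hp hq =>
    obtain ⟨S, hS⟩ := hp
    obtain ⟨T, hT⟩ := hq
    refine ⟨max S T, ?_⟩
    rw [map_add]
    exact Submodule.add_mem _ (VV_mono (le_max_left _ _) hS) (VV_mono (le_max_right _ _) hT)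
  | mul_X p k hp =>
    obtain ⟨S, hS⟩ := hp
    refine ⟨S + w (e k), ?_⟩
    rw [map_mul, MvPolynomial.aeval_X]
    exact VV_mul hS (gen_mem_VV 0 (e k))

/-- **Siegel–Shidlovskii, algebraic independence of values.** The `E`-functions `z i` are such that
`θ` preserves the ring they generate over `ℚ[X]` (with weights), the `z (e k)` are algebraically
independent, and all products `z (e k0) * z i` are polynomials in them. -/
theorem ss_indep (hw : ∀ i, 1 ≤ w i) (hE : ∀ i, IsE (z i)) (hθ : ∀ i, ths (z i) ∈ VV 0 z w (w i))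
    {κ : Type*} (e : κ → ι) (k0 : κ)
    (hfrac : ∀ i, ∃ g : MvPolynomial κ ℚ[X],
      z (e k0) * z i = MvPolynomial.aeval (fun k => z (e k)) g)
    (hind : AlgebraicIndependent ℚ[X] (fun k => z (e k))) :
    AlgebraicIndependent ℚ (fun k => ev (z (e k))) := by
  classical
  rw [algebraicIndependent_iff]
  intro p hp
  set y : κ → PowerSeries ℚ := fun k => z (e k) with hy
  let p' : MvPolynomial κ ℚ[X] := MvPolynomial.map (C : ℚ →+* ℚ[X]) p
  -- the value of the function
  have hval : ev (MvPolynomial.aeval y p') = MvPolynomial.aeval (fun k => ev (z (e k))) p := by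
    have hgen : ∀ q : MvPolynomial κ ℚ,
        IsE (MvPolynomial.aeval y (MvPolynomial.map (C : ℚ →+* ℚ[X]) q)) ∧
        ev (MvPolynomial.aeval y (MvPolynomial.map (C : ℚ →+* ℚ[X]) q)) =
          MvPolynomial.aeval (fun k => ev (z (e k))) q := by
      intro q
      induction q using MvPolynomial.induction_on with
      | C a =>
        rw [MvPolynomial.map_C, MvPolynomial.aeval_C, MvPolynomial.aeval_C,
          PowerSeries.algebraMap_apply']
        have h1 : (PowerSeries.map (algebraMap ℚ ℚ) ((C a : ℚ[X]) : PowerSeries ℚ)) =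
            ((C a : ℚ[X]) : PowerSeries ℚ) := by simp
        refine ⟨?_, ?_⟩
        · rw [h1]; exact isE_coe _
        · rw [h1, ev_coe]; simp
      | add q q' hq hq' =>
        rw [map_add, map_add, map_add]
        exact ⟨hq.1.add hq'.1, by rw [ev_add hq.1.asum hq'.1.asum, hq.2, hq'.2]⟩
      | mul_X q k hq =>
        rw [map_mul, map_mul, map_mul, MvPolynomial.map_X, MvPolynomial.aeval_X,
          MvPolynomial.aeval_X]
        exact ⟨hq.1.mul (hE _), by rw [ev_mul hq.1.asum (hE _).asum, hq.2]⟩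
    exact (hgen p).2
  obtain ⟨T, hT⟩ := exists_mem_VV (z := z) (w := w) e p'
  obtain ⟨G, hG, hFG⟩ := ss_module (VV 0 z w T) (VV_fg 0 hw T)
    (fun f hf => isE_of_mem_VV 0 hE hf) (fun f hf => ths_mem_VV 0 hθ hf) (one_mem_VV 0 T) hT
    (by rw [hval, hp])
  -- denominators
  have hden : ∃ (n : ℕ) (g : MvPolynomial κ ℚ[X]), y k0 ^ n * G = MvPolynomial.aeval y g := by
    let R : Subalgebra ℚ[X] (PowerSeries ℚ) := (MvPolynomial.aeval y).range
    have hR : ∀ f : PowerSeries ℚ, f ∈ R ↔ ∃ g, MvPolynomial.aeval y g = f := fun f => Iff.rfl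
    have hy0 : y k0 ∈ R := ⟨MvPolynomial.X k0, MvPolynomial.aeval_X _ _⟩
    have hmono : ∀ α : ι → ℕ, ∀ s : Finset ι, ∃ n : ℕ, y k0 ^ n * ∏ i ∈ s, z i ^ α i ∈ R := by
      intro α s
      induction s using Finset.induction_on with
      | empty => exact ⟨0, by simpa using R.one_mem⟩
      | insert i s hi ih =>
        obtain ⟨n, hn⟩ := ih
        refine ⟨n + α i, ?_⟩
        rw [Finset.prod_insert hi, pow_add]
        have h1 : y k0 ^ n * y k0 ^ α i * (z i ^ α i * ∏ j ∈ s, z j ^ α j) =
            (y k0 * z i) ^ α i * (y k0 ^ n * ∏ j ∈ s, z j ^ α j) := by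
          rw [mul_pow]; ring
        rw [h1]
        obtain ⟨g, hg⟩ := hfrac i
        exact R.mul_mem (R.pow_mem ⟨g, hg.symm⟩ _) hn
    have hall : ∀ f ∈ VV 0 z w T, ∃ n : ℕ, y k0 ^ n * f ∈ R := by
      intro f hf
      unfold VV at hf
      induction hf using Submodule.span_induction with
      | mem f hf =>
        obtain ⟨q, _, rfl⟩ := hf
        obtain ⟨n, hn⟩ := hmono q.2 Finset.univ
        refine ⟨n, ?_⟩
        simpa [mono, ex_zero] using hn
      | zero => exact ⟨0, by simp⟩
      | add f g _ _ hf hg =>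
        obtain ⟨n, hn⟩ := hf
        obtain ⟨m, hm⟩ := hg
        refine ⟨n + m, ?_⟩
        have h1 : y k0 ^ (n + m) * (f + g) = y k0 ^ m * (y k0 ^ n * f) +
            y k0 ^ n * (y k0 ^ m * g) := by rw [pow_add]; ring
        rw [h1]
        exact R.add_mem (R.mul_mem (R.pow_mem hy0 _) hn) (R.mul_mem (R.pow_mem hy0 _) hm)
      | smul q f _ hf =>
        obtain ⟨n, hn⟩ := hf
        refine ⟨n, ?_⟩
        rw [mul_smul_comm]
        exact R.smul_mem hn q
    obtain ⟨n, hn⟩ := hall G hG
    obtain ⟨g, hg⟩ := hn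
    exact ⟨n, g, hg.symm⟩
  obtain ⟨n, g, hg⟩ := hden
  have hzero : MvPolynomial.X k0 ^ n * p' - MvPolynomial.C (X - 1 : ℚ[X]) * g = 0 := by
    apply (algebraicIndependent_iff.1 hind)
    rw [map_sub, map_mul, map_mul, map_pow, MvPolynomial.aeval_X, MvPolynomial.aeval_C]
    change y k0 ^ n * MvPolynomial.aeval y p' - _ * MvPolynomial.aeval y g = 0
    rw [hFG, ← hg, ← Algebra.smul_def, mul_smul_comm, sub_self]
  have h1 := congrArg (MvPolynomial.map (Polynomial.evalRingHom (1 : ℚ))) hzero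
  rw [map_sub, map_mul, map_mul, map_pow, MvPolynomial.map_X, MvPolynomial.map_C,
    MvPolynomial.map_map] at h1
  have h2 : (Polynomial.evalRingHom (1 : ℚ)).comp (C : ℚ →+* ℚ[X]) = RingHom.id ℚ := by
    ext a; simp
  have h3 : Polynomial.evalRingHom (1 : ℚ) (X - 1 : ℚ[X]) = 0 := by simp
  rw [h2, MvPolynomial.map_id, h3, map_zero, map_zero, zero_mul, sub_zero] at h1
  exact (mul_eq_zero.1 h1).resolve_left (pow_ne_zero _ (MvPolynomial.X_ne_zero _))

end

end Pool.Agent.SS
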