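import Pool.Agent.SS.LinearMain

/-!
# Siegel–Shidlovskii: linear independence of values at `1`, general form
-/

namespace Pool.Agent.SS

open Polynomial Matrix

variable {w : ℕ}

/-- multiplicity of `1` as a zero of the determinant -/
theorem mult_at_one_gen (M : Matrix (Fin w) (Fin w) ℚ[X]) (f : Fin w → PowerSeries ℚ)
    (hf : ∀ i, ths (f i) = ∑ j, (M i j : PowerSeries ℚ) * f j) (p : Fin w → ℚ[X]) (hp : lin f p = 1)
    (P : Fin w → ℚ[X]) {t n N : ℕ} (ht : ∀ i j, (M i j).natDegree ≤ t)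
    (hn : ∀ i, (P i).natDegree ≤ n) (hord : PowerSeries.X ^ N ∣ lin f P)
    (hdet : (Matrix.of fun (k j : Fin w) => (DD M)^[k] P j).det ≠ 0) (s : ℕ)
    (hs : w * (n + w * t) ≤ N + s) :
    ¬ (X - 1) ^ (s + 1) ∣ (Matrix.of fun (k j : Fin w) => (DD M)^[k] P j).det := by
  set A : Matrix (Fin w) (Fin w) ℚ[X] := Matrix.of fun (k j : Fin w) => (DD M)^[k] P j with hA
  have hR : ∀ k : ℕ, PowerSeries.X ^ N ∣ lin f ((DD M)^[k] P) := by
    intro k
    rw [lin_iterate M f hf]
    exact X_pow_dvd_ths_iterate hord k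
  have h1 : ∀ i0 : Fin w, ((A.det : ℚ[X]) : PowerSeries ℚ) * f i0 = ∑ k : Fin w,
      ((A.adjugate i0 k : ℚ[X]) : PowerSeries ℚ) * lin f ((DD M)^[k] P) := by
    intro i0
    have h2 : ∀ j, ∑ k, A.adjugate i0 k * A k j = if i0 = j then A.det else 0 := by
      intro j
      have := congrFun (congrFun (Matrix.adjugate_mul A) i0) j
      rw [Matrix.mul_apply] at this
      rw [this]
      simp [Matrix.one_apply]
    have h3 : ∀ j, ∑ k, ((A.adjugate i0 k : ℚ[X]) : PowerSeries ℚ) * ((A k j : ℚ[X]) : PowerSeries ℚ)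
        = if i0 = j then ((A.det : ℚ[X]) : PowerSeries ℚ) else 0 := by
      intro j
      have h4 := congrArg (Polynomial.coeToPowerSeries.ringHom : ℚ[X] →+* PowerSeries ℚ) (h2 j)
      rw [map_sum] at h4
      simp only [map_mul, Polynomial.coeToPowerSeries.ringHom_apply] at h4
      rw [h4]
      split_ifs <;> simp
    simp only [lin, Finset.mul_sum]
    rw [Finset.sum_comm]
    have h4 : ∀ j, ∑ k : Fin w, ((A.adjugate i0 k : ℚ[X]) : PowerSeries ℚ) *
        (((DD M)^[k] P j : ℚ[X]) * f j) =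
        (if i0 = j then ((A.det : ℚ[X]) : PowerSeries ℚ) else 0) * f j := by
      intro j
      rw [← h3 j, Finset.sum_mul]
      refine Finset.sum_congr rfl fun k _ => ?_
      simp only [A, Matrix.of_apply]
      ring
    simp only [h4]
    simp
  have h2 : (PowerSeries.X : PowerSeries ℚ) ^ N ∣ ((A.det : ℚ[X]) : PowerSeries ℚ) := by
    have h5 : ((A.det : ℚ[X]) : PowerSeries ℚ) = ∑ i, (p i : PowerSeries ℚ) *
        (((A.det : ℚ[X]) : PowerSeries ℚ) * f i) := by
      calc ((A.det : ℚ[X]) : PowerSeries ℚ) = ((A.det : ℚ[X]) : PowerSeries ℚ) * lin f p := by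
            rw [hp, mul_one]
        _ = _ := by
            rw [lin, Finset.mul_sum]
            exact Finset.sum_congr rfl fun i _ => by ring
    rw [h5]
    apply Finset.dvd_sum
    intro i _
    apply Dvd.dvd.mul_left
    rw [h1]
    apply Finset.dvd_sum
    intro k _
    exact Dvd.dvd.mul_left (hR k) _
  obtain ⟨q, hq⟩ := coe_dvd_of_powerSeries_dvd h2
  intro hcon
  have hcop : IsCoprime ((X - 1 : ℚ[X]) ^ (s + 1)) (X ^ N) := by
    apply IsCoprime.pow
    refine ⟨-1, 1, by ring⟩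
  have h3 : (X - 1 : ℚ[X]) ^ (s + 1) ∣ q := by
    apply hcop.dvd_of_dvd_mul_left
    rw [← hq]; exact hcon
  have hq0 : q ≠ 0 := by
    rintro rfl
    exact hdet (by rw [hq, mul_zero])
  have h4 : s + 1 ≤ q.natDegree := by
    have h5 := Polynomial.natDegree_le_of_dvd h3 hq0
    have h6 : ((X - 1 : ℚ[X]) ^ (s + 1)).natDegree = s + 1 := by
      have : (X - 1 : ℚ[X]) = X - C 1 := by simp
      rw [natDegree_pow, this, natDegree_X_sub_C, mul_one]
    omega
  have h5 : A.det.natDegree = N + q.natDegree := by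
    rw [hq, natDegree_mul (pow_ne_zero _ X_ne_zero) hq0, natDegree_X_pow]
  have h6 : A.det.natDegree ≤ w * (n + w * t) := by
    apply natDegree_det_le'
    intro k j
    refine le_trans (natDegree_DD_iterate_le M ht P hn k j) ?_
    have hk : (k : ℕ) ≤ w := k.2.le
    have := Nat.mul_le_mul_right t hk
    omega
  omega

/-- **The fundamental inequality**: given a linear relation between the values at `1`, for every
large `k` an inequality between explicit quantities. -/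
theorem fundamental_inequality_gen (M : Matrix (Fin w) (Fin w) ℚ[X]) (a : Fin w → ℕ → ℚ)
    (hE : ∀ i, EData (a i))
    (hf : ∀ i, ths (eser (a i)) = ∑ j, (M i j : PowerSeries ℚ) * eser (a j))
    (hli : ∀ P : Fin w → ℚ[X], lin (fun i => eser (a i)) P = 0 → P = 0)
    (p : Fin w → ℚ[X]) (hp : lin (fun i => eser (a i)) p = 1)
    (i0 : Fin w) (hi0 : ev (eser (a i0)) ≠ 0)
    (lam : Fin w → ℤ) (hlam : lam ≠ 0) (hrel : ∑ i, (lam i : ℝ) * ev (eser (a i)) = 0) :
    ∃ (c₃ k₁ : ℕ) (D Λ A : ℝ), 1 ≤ D ∧ 1 ≤ Λ ∧ 1 ≤ A ∧ ∀ k, k₁ ≤ k →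
      ∃ (𝓑 ε : ℝ), 0 < 𝓑 ∧ 0 ≤ ε ∧
        1 ≤ (w.factorial : ℝ) * ((Λ * 𝓑 ^ (w - 1)) * (ε / 𝓑)) ∧
        𝓑 ≤ (D * (4 * w * k : ℕ)) ^ (k + c₃ + 4 * w * k) ∧
        ε ≤ A * D ^ (k + c₃ + 4 * w * k) * ((4 * w * k : ℕ) : ℝ) ^ (k + c₃ + 4 * w * k) *
          (D ^ (w * (4 * w * k) - k) / ((w * (4 * w * k) - k).factorial : ℝ)) := by
  classical
  have hw : 1 ≤ w := by have := i0.2; omega
  obtain ⟨C, d, hC, hd, hd0, ha, hint⟩ := EData.common hE
  obtain ⟨G, hG, hsieg⟩ := siegel_step w hw a C hC d hd hd0 ha hint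
  obtain ⟨c, M', hc, hM', hM'd⟩ := exists_int_matrix M
  obtain ⟨cS, hcS⟩ := shidlovskii M (fun i => eser (a i)) hf hli
  let t : ℕ := Finset.univ.sup fun i => Finset.univ.sup fun j => (M i j).natDegree
  have ht : ∀ i j, (M i j).natDegree ≤ t := fun i j =>
    le_trans (Finset.le_sup (f := fun j => (M i j).natDegree) (Finset.mem_univ j))
      (Finset.le_sup (f := fun i => Finset.univ.sup fun j => (M i j).natDegree) (Finset.mem_univ i))
  have ht' : ∀ i j, (M' i j).natDegree ≤ t := fun i j => (hM'd i j).trans (ht i j)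
  let μ : ℝ := ∑ j, ∑ i, l1 (M' i j)
  have hμ : ∀ j, ∑ i, l1 (M' i j) ≤ μ := fun j =>
    Finset.single_le_sum (f := fun j => ∑ i, l1 (M' i j))
      (fun j _ => Finset.sum_nonneg fun i _ => l1_nonneg _) (Finset.mem_univ j)
  have hμ0 : 0 ≤ μ := Finset.sum_nonneg fun j _ => Finset.sum_nonneg fun i _ => l1_nonneg _
  -- constants
  let c₃ : ℕ := w + w * (w * t)
  let D : ℝ := c * (1 + t) + μ + 2 * G + 6 * C + c + 1
  have hDc : (c : ℝ) * (1 + t) + μ ≤ D := by
    have : (0 : ℝ) ≤ 2 * G + 6 * C + c + 1 := by positivity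
    simp only [D]; linarith
  have hDG : (2 : ℝ) * G ≤ D := by
    have : (0 : ℝ) ≤ c * (1 + t) + μ + 6 * C + c + 1 := by positivity
    simp only [D]; linarith
  have hDC : (6 : ℝ) * C ≤ D := by
    have : (0 : ℝ) ≤ c * (1 + t) + μ + 2 * G + c + 1 := by positivity
    simp only [D]; linarith
  have hDcc : (c : ℝ) ≤ D := by
    have : (0 : ℝ) ≤ c * (1 + t) + μ + 2 * G + 6 * C + 1 := by positivity
    simp only [D]; linarith
  have hD1 : (1 : ℝ) ≤ D := by
    have : (0 : ℝ) ≤ c * (1 + t) + μ + 2 * G + 6 * C + c := by positivity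
    simp only [D]; linarith
  have hD0 : (0 : ℝ) ≤ D := by linarith
  let Λ : ℝ := 1 + ∑ i, |(lam i : ℝ)|
  have hΛ : ∀ i, |(lam i : ℝ)| ≤ Λ := fun i => by
    have := Finset.single_le_sum (f := fun i => |(lam i : ℝ)|) (fun i _ => abs_nonneg _)
      (Finset.mem_univ i)
    simp only [Λ]
    linarith
  have hΛ1 : 1 ≤ Λ := by
    have : 0 ≤ ∑ i, |(lam i : ℝ)| := Finset.sum_nonneg fun i _ => abs_nonneg _
    simp only [Λ]; linarith
  let A₀ : ℝ := w * C * Real.exp (6 * C)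
  set δ : ℝ := |ev (eser (a i0))| with hδ
  have hδ0 : 0 < δ := abs_pos.2 hi0
  refine ⟨c₃, c₃ + cS + 1, D, Λ * (1 + δ⁻¹), A₀ + 1, hD1, ?_, ?_, fun k hk => ?_⟩
  · have : 0 < δ⁻¹ := inv_pos.2 hδ0
    nlinarith
  · have : 0 ≤ A₀ := by positivity
    linarith
  have hk1 : 1 ≤ k := by omega
  set n := 4 * w * k with hn
  set N := w * n - k with hN
  have hkn : 4 * k ≤ n := by
    rw [hn]
    have : 4 * 1 * k ≤ 4 * w * k := by gcongr
    omega
  have hnwn : n ≤ w * n := Nat.le_mul_of_pos_left n hw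
  have hNk : N + k = w * n := by omega
  have hNpos : 0 < N := by omega
  have hn1 : 1 ≤ n := by omega
  obtain ⟨tt, ⟨i1, j1, hj1, htne⟩, htz, htb, hts⟩ := hsieg k hk1
  let Pz : Fin w → ℤ[X] := fun i => auxP n (tt i)
  let P : Fin w → ℚ[X] := fun i => toQ (Pz i)
  let f : Fin w → PowerSeries ℚ := fun i => eser (a i)
  let L : PowerSeries ℚ := lin f P
  have hP0 : P ≠ 0 := by
    intro h
    have h1 : toQ (Pz i1) = 0 := congrFun h i1
    have h2 : Function.Injective toQ := Polynomial.map_injective _ (Int.cast_injective)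
    have h3 : Pz i1 = 0 := h2 (h1.trans (map_zero _).symm)
    exact auxP_ne_zero n (tt i1) (htz i1) htne h3
  have hPd : ∀ i, (P i).natDegree ≤ n := by
    intro i
    refine le_trans ?_ (natDegree_auxP n (tt i))
    exact natDegree_map_le
  have hord : PowerSeries.X ^ N ∣ L := by
    rw [PowerSeries.X_pow_dvd_iff]
    intro m hm
    have := coeff_lin_aux a n tt htz m
    rw [hts m hm, mul_zero] at this
    exact this
  have hdet : (Matrix.of fun (k j : Fin w) => (DD M)^[k] P j).det ≠ 0 := by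
    intro h
    have h1 := hcS P hP0 n hPd h N hord
    have h2 : (w - 1) * n + n = w * n := by
      have : w = (w - 1) + 1 := by omega
      conv_rhs => rw [this]
      ring
    omega
  -- multiplicity
  let s : ℕ := k + w * (w * t)
  have hmult := mult_at_one_gen M f hf p hp P ht hPd hord hdet s (by
    rw [mul_add]; simp only [s]; omega)
  have hker : ∀ lam : Fin w → ℚ, (∀ k : Fin (w + s), ∑ j, ((DD M)^[k] P j).eval 1 * lam j = 0) →
      lam = 0 := by
    intro lam h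
    exact rank_at_one M P s hmult lam fun k hk => h ⟨k, hk⟩
  let u : Fin w → ℚ := fun i => (lam i : ℚ)
  have hu : u ≠ 0 := by
    intro h
    apply hlam
    ext i
    have := congrFun h i
    simpa [u] using this
  obtain ⟨r0, κ, hκ⟩ := exists_complete (fun (k : Fin (w + s)) j => ((DD M)^[k] P j).eval 1) hker u hu
  let K : ℕ := w + s
  have hKeq : K = k + c₃ := by simp only [K, s, c₃]; omega
  have hKn : K ≤ n := by omega
  have hκK : ∀ r, (κ r : ℕ) ≤ K := fun r => (κ r).2.le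
  -- integer matrix
  let Bz : Matrix (Fin w) (Fin w) ℤ := Matrix.of fun r j =>
    if r = r0 then lam j else ((DZ c M')^[κ r] Pz j).eval 1
  have hevZ : ∀ (k : ℕ) j, ((((DZ c M')^[k] Pz j).eval 1 : ℤ) : ℚ) = (c : ℚ) ^ k * ((DD M)^[k] P j).eval 1 := by
    intro k j
    rw [← eval_toQ, toQ_DZ_iterate c M M' hM' Pz k j, eval_mul, eval_C]
  have hBz : Bz.det ≠ 0 := by
    intro h
    apply hκ
    have h1 : (Int.castRingHom ℚ) Bz.det = (∏ r, (if r = r0 then (1 : ℚ) else (c : ℚ) ^ (κ r : ℕ))) *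
        (Matrix.of fun (r : Fin w) (j : Fin w) =>
          if r = r0 then u j else ((DD M)^[κ r] P j).eval 1).det := by
      rw [← Matrix.det_mul_column]
      rw [RingHom.map_det]
      congr 1
      ext r j
      simp only [RingHom.mapMatrix_apply, Matrix.map_apply, Bz, Matrix.of_apply, Int.coe_castRingHom]
      split_ifs with hr
      · simp [u]
      · exact hevZ _ _
    rw [h, map_zero] at h1
    refine (mul_eq_zero.1 h1.symm).resolve_left (Finset.prod_ne_zero_iff.2 fun r _ => ?_)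
    split_ifs
    · exact one_ne_zero
    · positivity
  -- real matrix
  let B : Matrix (Fin w) (Fin w) ℝ := Bz.map (fun z : ℤ => (z : ℝ))
  have hBdet : B.det = ((Bz.det : ℤ) : ℝ) := (RingHom.map_det (Int.castRingHom ℝ) Bz).symm
  have hBabs : 1 ≤ |B.det| := by
    rw [hBdet]
    have : 1 ≤ |Bz.det| := Int.one_le_abs hBz
    exact_mod_cast this
  let F : Fin w → ℝ := fun i => ev (f i)
  have hasum : ∀ i, ASum (f i) := fun i => ASum.of_bound (ha i)
  have hBF0 : (B *ᵥ F) r0 = 0 := by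
    simp only [Matrix.mulVec, dotProduct, B, Bz, Matrix.map_apply, Matrix.of_apply, if_pos, F, f]
    exact hrel
  have hBFr : ∀ r, r ≠ r0 → (B *ᵥ F) r = (c : ℝ) ^ (κ r : ℕ) * ev (ths^[κ r] L) := by
    intro r hr
    simp only [Matrix.mulVec, dotProduct, B, Bz, Matrix.map_apply, Matrix.of_apply, if_neg hr, F]
    have h1 : ths^[κ r] L = lin f ((DD M)^[κ r] P) := (lin_iterate M f hf P _).symm
    rw [h1, ev_lin hasum, Finset.mul_sum]
    refine Finset.sum_congr rfl fun j _ => ?_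
    have h2 := hevZ (κ r) j
    have h3 : ((((DZ c M')^[κ r] Pz j).eval 1 : ℤ) : ℝ) =
        (c : ℝ) ^ (κ r : ℕ) * ((((DD M)^[κ r] P j).eval 1 : ℚ) : ℝ) := by exact_mod_cast h2
    rw [h3]; ring
  have hcramer : (B.updateCol i0 (B *ᵥ F)).det = B.det * F i0 := by
    rw [← Matrix.cramer_apply, Matrix.cramer_eq_adjugate_mulVec, Matrix.mulVec_mulVec,
      Matrix.adjugate_mul, Matrix.smul_mulVec, Matrix.one_mulVec]
    simp
  -- bounds
  have hT0 : (0 : ℝ) ≤ (G : ℝ) ^ n := by positivity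
  have hbase1 : (1 : ℝ) ≤ c * (n + K * t) + μ := by
    have h1 : (1 : ℝ) ≤ c := by exact_mod_cast hc
    have h2 : (1 : ℝ) ≤ n := by exact_mod_cast hn1
    have h3 : (0 : ℝ) ≤ K * t := by positivity
    nlinarith
  let 𝓑 : ℝ := (c * (n + K * t) + μ) ^ K * ((n + 1) * ((G : ℝ) ^ n * n.factorial))
  have hG1 : (1 : ℝ) ≤ (G : ℝ) ^ n := one_le_pow₀ (by exact_mod_cast hG)
  have h𝓑0 : 0 < 𝓑 := by
    have h1 : (0 : ℝ) < (c * (n + K * t) + μ) ^ K := by
      apply pow_pos; linarith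
    have h2 : (0 : ℝ) < (n.factorial : ℝ) := by positivity
    have h3 : (0 : ℝ) < (G : ℝ) ^ n := by linarith
    positivity
  have hrow : ∀ r, r ≠ r0 → ∀ j, |B r j| ≤ 𝓑 := by
    intro r hr j
    simp only [B, Bz, Matrix.map_apply, Matrix.of_apply, if_neg hr]
    refine (abs_eval_one_le _).trans ?_
    have h1 := (DZ_bounds c M' ht' hμ Pz (n := n) (B := (n + 1) * ((G : ℝ) ^ n * n.factorial))
      (fun i => natDegree_auxP n (tt i)) (fun i => l1_auxP n (tt i) (htz i) (htb i)) (κ r) K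
      (hκK r) j).2
    refine h1.trans ?_
    apply mul_le_mul_of_nonneg_right _ (by positivity)
    exact pow_le_pow_right₀ hbase1 (hκK r)
  let AL : ℝ := (n.factorial : ℝ) * (w * ((G : ℝ) ^ n * C))
  let ε₀ : ℝ := (K.factorial * AL) * ((3 * (2 * C)) ^ N / N.factorial * Real.exp (3 * (2 * C)))
  let ε : ℝ := (c : ℝ) ^ K * ε₀
  have hε₀ : 0 ≤ ε₀ := by positivity
  have hε : 0 ≤ ε := by positivity
  have hc1 : (1 : ℝ) ≤ c := by exact_mod_cast hc
  have hBFε : ∀ r, r ≠ r0 → |(B *ᵥ F) r| ≤ ε := by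
    intro r hr
    rw [hBFr r hr, abs_mul, abs_of_nonneg (by positivity : (0 : ℝ) ≤ (c : ℝ) ^ (κ r : ℕ))]
    apply mul_le_mul (pow_le_pow_right₀ hc1 (hκK r)) _ (abs_nonneg _) (by positivity)
    exact abs_ev_iterate_le hord (by positivity) (by positivity)
      (fun m => abs_coeff_lin_aux_le a hC ha n tt htz htb hT0 m) _ _ (hκK r)
  -- the determinant bound
  let ρ : Fin w → ℝ := fun r => if r = r0 then Λ else 𝓑
  let κ' : Fin w → ℝ := fun j => if j = i0 then ε / 𝓑 else 1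
  have hentry : ∀ r j, |(B.updateCol i0 (B *ᵥ F)) r j| ≤ ρ r * κ' j := by
    intro r j
    rw [Matrix.updateCol_apply]
    simp only [ρ, κ']
    by_cases hj : j = i0
    · rw [if_pos hj, if_pos hj]
      by_cases hr : r = r0
      · rw [if_pos hr, hr, hBF0, abs_zero]
        positivity
      · rw [if_neg hr]
        have : 𝓑 * (ε / 𝓑) = ε := by field_simp
        rw [this]
        exact hBFε r hr
    · rw [if_neg hj, if_neg hj, mul_one]
      by_cases hr : r = r0
      · rw [if_pos hr]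
        simp only [B, Bz, Matrix.map_apply, Matrix.of_apply, if_pos hr]
        exact hΛ j
      · rw [if_neg hr]
        exact hrow r hr j
  have hdetle := abs_det_le_of_le _ ρ κ' hentry
  rw [hcramer] at hdetle
  have hprodρ : ∏ r, ρ r = Λ * 𝓑 ^ (w - 1) := by
    rw [← Finset.mul_prod_erase Finset.univ ρ (Finset.mem_univ r0)]
    congr 1
    · simp [ρ]
    · have h1 : ∀ r ∈ Finset.univ.erase r0, ρ r = 𝓑 := by
        intro r hr
        simp only [ρ, if_neg (Finset.ne_of_mem_erase hr)]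
      rw [Finset.prod_congr rfl h1, Finset.prod_const, Finset.card_erase_of_mem (Finset.mem_univ _),
        Finset.card_univ, Fintype.card_fin]
  have hprodκ : ∏ j, κ' j = ε / 𝓑 := by
    simp only [κ', Finset.prod_ite_eq', Finset.mem_univ, if_true]
  rw [hprodρ, hprodκ, Fintype.card_fin] at hdetle
  have hnr1 : (1 : ℝ) ≤ n := by exact_mod_cast hn1
  have hKnr : (K : ℝ) ≤ n := by exact_mod_cast hKn
  have hfact : (n.factorial : ℝ) ≤ (n : ℝ) ^ n := by exact_mod_cast Nat.factorial_le_pow n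
  have hfin : 1 ≤ (w.factorial : ℝ) * ((Λ * (1 + δ⁻¹) * 𝓑 ^ (w - 1)) * (ε / 𝓑)) := by
    have h1 : |B.det| * δ ≤ (w.factorial : ℝ) * (Λ * 𝓑 ^ (w - 1) * (ε / 𝓑)) := by
      rw [hδ, ← abs_mul]; exact hdetle
    have h2 : δ ≤ (w.factorial : ℝ) * (Λ * 𝓑 ^ (w - 1) * (ε / 𝓑)) :=
      le_trans (le_mul_of_one_le_left hδ0.le hBabs) h1
    set Q : ℝ := (w.factorial : ℝ) * (Λ * 𝓑 ^ (w - 1) * (ε / 𝓑)) with hQ
    have h3 : (w.factorial : ℝ) * ((Λ * (1 + δ⁻¹) * 𝓑 ^ (w - 1)) * (ε / 𝓑)) = Q + Q * δ⁻¹ := by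
      rw [hQ]; ring
    rw [h3]
    have h4 : 1 ≤ Q * δ⁻¹ := by
      rw [← div_eq_mul_inv, le_div_iff₀ hδ0, one_mul]; exact h2
    have h5 : 0 ≤ Q := hδ0.le.trans h2
    linarith
  refine ⟨𝓑, ε, h𝓑0, hε, hfin, ?_, ?_⟩
  · -- bound for 𝓑
    rw [← hKeq]
    have h1 : (c : ℝ) * (n + K * t) + μ ≤ D * n := by
      have h2 : (c : ℝ) * (n + K * t) + μ ≤ (c * (1 + t) + μ) * n := by
        have h3 : (K : ℝ) * t ≤ n * t := mul_le_mul_of_nonneg_right hKnr (by positivity)
        have h4 : (c : ℝ) * (K * t) ≤ c * (n * t) := mul_le_mul_of_nonneg_left h3 (by positivity)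
        have h5 : μ ≤ μ * n := le_mul_of_one_le_right hμ0 hnr1
        nlinarith
      exact h2.trans (mul_le_mul_of_nonneg_right hDc (by positivity))
    have h2 : ((n : ℝ) + 1) * ((G : ℝ) ^ n * n.factorial) ≤ (D * n) ^ n := by
      have h3 : ((n : ℝ) + 1) ≤ 2 ^ n := by
        have : n + 1 ≤ 2 ^ n := Nat.lt_two_pow_self
        exact_mod_cast this
      calc ((n : ℝ) + 1) * ((G : ℝ) ^ n * n.factorial) ≤ 2 ^ n * ((G : ℝ) ^ n * (n : ℝ) ^ n) := by
            gcongr
        _ = (2 * G * n) ^ n := by rw [mul_pow, mul_pow]; ring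
        _ ≤ (D * n) ^ n := by gcongr
    calc 𝓑 ≤ (D * n) ^ K * (D * n) ^ n := by
          apply mul_le_mul _ h2 (by positivity) (by positivity)
          exact pow_le_pow_left₀ (by linarith) h1 _
      _ = _ := by rw [← pow_add]
  · -- bound for ε
    rw [← hKeq]
    have hKf : (K.factorial : ℝ) ≤ (n : ℝ) ^ K := by
      have h1 : (K.factorial : ℝ) ≤ (K : ℝ) ^ K := by exact_mod_cast Nat.factorial_le_pow K
      exact h1.trans (pow_le_pow_left₀ (by positivity) hKnr _)
    have hGn : (G : ℝ) ^ n ≤ D ^ n := by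
      apply pow_le_pow_left₀ (by positivity)
      have : (0 : ℝ) ≤ G := by positivity
      linarith
    have h6C : (3 * (2 * (C : ℝ))) ^ N ≤ D ^ N := by
      apply pow_le_pow_left₀ (by positivity)
      linarith
    have hexp : Real.exp (3 * (2 * (C : ℝ))) = Real.exp (6 * C) := by congr 1; ring
    calc ε = (c : ℝ) ^ K * ((K.factorial * ((n.factorial : ℝ) * (w * ((G : ℝ) ^ n * C)))) *
          ((3 * (2 * C)) ^ N / N.factorial * Real.exp (6 * C))) := by
          simp only [ε, ε₀, AL, hexp]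
      _ ≤ D ^ K * (((n : ℝ) ^ K * ((n : ℝ) ^ n * (w * (D ^ n * C)))) *
          (D ^ N / N.factorial * Real.exp (6 * C))) := by
          gcongr
      _ = A₀ * (D ^ (K + n) * (n : ℝ) ^ (K + n) * (D ^ N / N.factorial)) := by
          simp only [A₀, pow_add]; ring
      _ ≤ (A₀ + 1) * (D ^ (K + n) * (n : ℝ) ^ (K + n) * (D ^ N / N.factorial)) := by
          apply mul_le_mul_of_nonneg_right _ (by positivity)
          linarith
      _ = _ := by ring

/-- **Siegel–Shidlovskii, linear form.**  Let `f i = ∑ a i n / n! X^n` be `E`-functions with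
rational coefficients, spanning a `θ`-stable `ℚ[X]`-module, linearly independent over `ℚ[X]`, such that
the constant `1` is in the module.  Then their values at `1` are linearly independent over `ℤ`. -/
theorem ss_linear_gen (M : Matrix (Fin w) (Fin w) ℚ[X]) (a : Fin w → ℕ → ℚ)
    (hE : ∀ i, EData (a i))
    (hf : ∀ i, ths (eser (a i)) = ∑ j, (M i j : PowerSeries ℚ) * eser (a j))
    (hli : ∀ P : Fin w → ℚ[X], lin (fun i => eser (a i)) P = 0 → P = 0)
    (p : Fin w → ℚ[X]) (hp : lin (fun i => eser (a i)) p = 1)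
    (lam : Fin w → ℤ) (hlam : lam ≠ 0) : ∑ i, (lam i : ℝ) * ev (eser (a i)) ≠ 0 := by
  intro hrel
  have hev : ∃ i0, ev (eser (a i0)) ≠ 0 := by
    by_contra hcon
    push Not at hcon
    have hasum : ∀ i, ASum (eser (a i)) := fun i => by
      obtain ⟨C, d, _, _, _, ha, _⟩ := (hE i).exists_bound
      exact ASum.of_bound ha
    have h1 : ev (lin (fun i => eser (a i)) p) = 0 := by
      rw [ev_lin hasum]
      exact Finset.sum_eq_zero fun i _ => by rw [hcon i, mul_zero]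
    have h2 := ev_coe (1 : ℚ[X])
    rw [Polynomial.coe_one] at h2
    rw [hp, h2] at h1
    simp at h1
  obtain ⟨i0, hi0⟩ := hev
  have hw : 1 ≤ w := by have := i0.2; omega
  rcases Nat.lt_or_ge w 2 with hw2 | hw2
  · obtain rfl : w = 1 := by omega
    apply hlam
    ext i
    have h1 : i = i0 := Subsingleton.elim _ _
    rw [Fintype.sum_eq_single i0 (fun j hj => absurd (Subsingleton.elim j i0) hj)]
      at hrel
    rw [h1]
    simpa using (mul_eq_zero.1 hrel).resolve_right hi0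
  obtain ⟨v, rfl⟩ : ∃ v, w = v + 2 := ⟨w - 2, by omega⟩
  obtain ⟨c₃, k₁, D, Λ, A, hD, hΛ, hA, hineq⟩ :=
    fundamental_inequality_gen M a hE hf hli p hp i0 hi0 lam hlam hrel
  have hfac : (1 : ℝ) ≤ ((v + 2).factorial : ℝ) := by
    exact_mod_cast Nat.succ_le_of_lt (Nat.factorial_pos _)
  have hc₅ : 1 ≤ ((v + 2).factorial : ℝ) * Λ * A :=
    one_le_mul_of_one_le_of_one_le (one_le_mul_of_one_le_of_one_le hfac hΛ) hA
  obtain ⟨k0, hk0⟩ := growth v c₃ (3 * D) (((v + 2).factorial : ℝ) * Λ * A) (by linarith) hc₅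
  set k := max (max k₁ k0) 1 with hk
  have hkk1 : k₁ ≤ k := (le_max_left _ _).trans (le_max_left _ _)
  have hkk0 : k0 ≤ k := (le_max_right _ _).trans (le_max_left _ _)
  have hk1 : 1 ≤ k := le_max_right _ _
  obtain ⟨𝓑, ε, h𝓑0, hε0, hone, h𝓑, hε⟩ := hineq k hkk1
  have hgr := hk0 k hkk0
  have hcast : ((4 * (v + 2) * k : ℝ)) = ((4 * (v + 2) * k : ℕ) : ℝ) := by push_cast; ring
  rw [hcast] at hgr
  set n := 4 * (v + 2) * k with hn
  set N := (v + 2) * n - k with hN
  set E := k + c₃ + n with hE'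
  have hkn : 4 * k ≤ n := by
    rw [hn]
    have : 4 * 1 * k ≤ 4 * (v + 2) * k := by gcongr
    omega
  have hnN : n ≤ N := by
    have : 2 * n ≤ (v + 2) * n := Nat.mul_le_mul_right _ (by omega)
    omega
  have hNf : (0 : ℝ) < (N.factorial : ℝ) := by positivity
  have hD0 : 0 < D := by linarith
  have h1 : Λ * 𝓑 ^ (v + 2 - 1) * (ε / 𝓑) = Λ * (𝓑 ^ v * ε) := by
    have : v + 2 - 1 = v + 1 := by omega
    rw [this, pow_succ]
    field_simp
  rw [h1] at hone
  have h2 : 𝓑 ^ v * ε ≤ ((D * n) ^ E) ^ v * (A * D ^ E * (n : ℝ) ^ E * (D ^ N / N.factorial)) := by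
    apply mul_le_mul _ hε hε0 (by positivity)
    exact pow_le_pow_left₀ h𝓑0.le h𝓑 v
  have h3 : 1 ≤ ((v + 2).factorial : ℝ) * (Λ *
      (((D * n) ^ E) ^ v * (A * D ^ E * (n : ℝ) ^ E * (D ^ N / N.factorial)))) := by
    refine hone.trans ?_
    apply mul_le_mul_of_nonneg_left _ (by positivity)
    exact mul_le_mul_of_nonneg_left h2 (by linarith)
  have h4 : (N.factorial : ℝ) ≤ ((v + 2).factorial : ℝ) * Λ * A * D ^ ((v + 1) * E + N) *
      (n : ℝ) ^ ((v + 1) * E) := by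
    have h5 : ((v + 2).factorial : ℝ) * (Λ *
      (((D * n) ^ E) ^ v * (A * D ^ E * (n : ℝ) ^ E * (D ^ N / N.factorial)))) =
      (((v + 2).factorial : ℝ) * Λ * A * D ^ ((v + 1) * E + N) * (n : ℝ) ^ ((v + 1) * E)) /
        N.factorial := by
      have e1 : D ^ ((v + 1) * E + N) = (D ^ E) ^ v * D ^ E * D ^ N := by
        rw [← pow_mul, ← pow_add, ← pow_add]; congr 1; ring
      have e2 : (n : ℝ) ^ ((v + 1) * E) = ((n : ℝ) ^ E) ^ v * (n : ℝ) ^ E := by
        rw [← pow_mul, ← pow_add]; congr 1; ring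
      rw [e1, e2, mul_pow, mul_pow]
      ring
    rw [h5, le_div_iff₀ hNf, one_mul] at h3
    exact h3
  have h5 : (n : ℝ) ^ N ≤ (N : ℝ) ^ N :=
    pow_le_pow_left₀ (by positivity) (by exact_mod_cast hnN) _
  have h6 := pow_le_three_pow_mul_factorial N
  have h7 : (n : ℝ) ^ N ≤ 3 ^ N * (((v + 2).factorial : ℝ) * Λ * A * D ^ ((v + 1) * E + N) *
      (n : ℝ) ^ ((v + 1) * E)) :=
    (h5.trans h6).trans (mul_le_mul_of_nonneg_left h4 (by positivity))
  have h8 : (3 : ℝ) ^ N * (((v + 2).factorial : ℝ) * Λ * A * D ^ ((v + 1) * E + N) *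
      (n : ℝ) ^ ((v + 1) * E)) ≤ ((v + 2).factorial : ℝ) * Λ * A * (3 * D) ^ ((v + 1) * E + N) *
      (n : ℝ) ^ ((v + 1) * E) := by
    rw [mul_pow]
    have h9 : (3 : ℝ) ^ N ≤ 3 ^ ((v + 1) * E + N) := pow_le_pow_right₀ (by norm_num) (by omega)
    calc (3 : ℝ) ^ N * (((v + 2).factorial : ℝ) * Λ * A * D ^ ((v + 1) * E + N) *
        (n : ℝ) ^ ((v + 1) * E)) = 3 ^ N * ((((v + 2).factorial : ℝ) * Λ * A) *
          (D ^ ((v + 1) * E + N) * (n : ℝ) ^ ((v + 1) * E))) := by ring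
      _ ≤ 3 ^ ((v + 1) * E + N) * ((((v + 2).factorial : ℝ) * Λ * A) *
          (D ^ ((v + 1) * E + N) * (n : ℝ) ^ ((v + 1) * E))) := by
        apply mul_le_mul_of_nonneg_right h9 (by positivity)
      _ = _ := by ring
  exact absurd hgr (not_lt.2 (h7.trans h8))

end Pool.Agent.SS
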