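import Pool.Agent.SS.GenLinear
import Pool.Agent.SS.Values
import Pool.Agent.SS.Prim

/-!
# Values of `E`-functions: the module form of the Siegel–Shidlovskii theorem
-/

namespace Pool.Agent.SS

open Polynomial

/-- Siegel–Shidlovskii for families indexed by a finite type, general form -/
theorem ss_fintype_gen {J : Type*} [Fintype J] (f : J → PowerSeries ℚ) (hE : ∀ j, IsE (f j))
    (hst : ∀ j, ths (f j) ∈ Submodule.span ℚ[X] (Set.range f))
    (hli : ∀ P : J → ℚ[X], ∑ j, (P j : PowerSeries ℚ) * f j = 0 → P = 0)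
    (h1 : (1 : PowerSeries ℚ) ∈ Submodule.span ℚ[X] (Set.range f))
    (c : J → ℚ) (hc : ∑ j, (c j : ℝ) * ev (f j) = 0) : c = 0 := by
  classical
  let e : Fin (Fintype.card J) ≃ J := (Fintype.equivFin J).symm
  let a : Fin (Fintype.card J) → ℕ → ℚ := fun i n =>
    (n.factorial : ℚ) * PowerSeries.coeff n (f (e i))
  have ha : ∀ i, eser (a i) = f (e i) := fun i => eser_coeff _
  have hspan : ∀ g ∈ Submodule.span ℚ[X] (Set.range f), ∃ m : Fin (Fintype.card J) → ℚ[X],
      g = ∑ j, (m j : PowerSeries ℚ) * eser (a j) := by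
    intro g hg
    obtain ⟨m, hm⟩ := (Submodule.mem_span_range_iff_exists_fun _).1 hg
    refine ⟨fun j => m (e j), ?_⟩
    rw [← hm, ← Equiv.sum_comp e]
    refine Finset.sum_congr rfl fun j _ => ?_
    rw [ha, Algebra.smul_def, PowerSeries.algebraMap_apply']
    simp
  have hM : ∀ i, ∃ m : Fin (Fintype.card J) → ℚ[X],
      ths (eser (a i)) = ∑ j, (m j : PowerSeries ℚ) * eser (a j) := by
    intro i
    rw [ha]
    exact hspan _ (hst (e i))
  choose M hM using hM
  obtain ⟨p, hp⟩ := hspan 1 h1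
  obtain ⟨D, z, hD, hz⟩ := exists_int_multiple c
  by_contra hne
  have hlam : (fun i => z (e i)) ≠ 0 := by
    intro h
    apply hne
    ext j
    have h1 := congrFun h (e.symm j)
    simp only [Equiv.apply_symm_apply, Pi.zero_apply] at h1
    have h2 := hz j
    rw [h1, Int.cast_zero] at h2
    exact (mul_eq_zero.1 h2).resolve_left (by positivity)
  refine ss_linear_gen (Matrix.of M) a (fun i => hE (e i)) (fun i => hM i) ?_ p hp.symm
    (fun i => z (e i)) hlam ?_
  · intro P hP
    have h1 := hli (fun j => P (e.symm j)) (by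
      rw [← hP, lin, ← Equiv.sum_comp e]
      refine Finset.sum_congr rfl fun i _ => ?_
      rw [Equiv.symm_apply_apply, ha])
    ext1 i
    have h2 := congrFun h1 (e i)
    simpa using h2
  · have h1 : ∑ i, ((z (e i) : ℤ) : ℝ) * ev (eser (a i)) = (D : ℝ) * ∑ j, (c j : ℝ) * ev (f j) := by
      rw [Finset.mul_sum, ← Equiv.sum_comp e]
      refine Finset.sum_congr rfl fun i _ => ?_
      rw [ha]
      have h2 : ((z (e i) : ℤ) : ℝ) = (D : ℝ) * (c (e i) : ℝ) := by
        have := hz (e i)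
        have h3 : (((D : ℚ) * c (e i) : ℚ) : ℝ) = (((z (e i) : ℤ) : ℚ) : ℝ) := by rw [this]
        push_cast at h3
        exact h3.symm
      rw [h2]; ring
    rw [h1, hc, mul_zero]

theorem isTorsionFree_sub (V : Submodule ℚ[X] (PowerSeries ℚ)) : Module.IsTorsionFree ℚ[X] V := by
  have h : Module.IsTorsionFree ℚ[X] (PowerSeries ℚ) := by
    rw [Module.isTorsionFree_iff_smul_eq_zero]
    intro p f hpf
    rw [smul_eq_coe_mul] at hpf
    rcases mul_eq_zero.1 hpf with h | h
    · exact Or.inl (Polynomial.coe_eq_zero_iff.1 h)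
    · exact Or.inr h
  exact inferInstance

/-- **Siegel–Shidlovskii, module form.** Let `V` be a finitely generated `θ`-stable
`ℚ[X]`-module of `E`-functions containing the constants. An element of `V` vanishes at `1` only if
it is divisible by `X - 1` in `V`. -/
theorem ss_module (V : Submodule ℚ[X] (PowerSeries ℚ)) (hV : V.FG)
    (hE : ∀ f ∈ V, IsE f) (hθ : ∀ f ∈ V, ths f ∈ V) (h1 : (1 : PowerSeries ℚ) ∈ V)
    {F : PowerSeries ℚ} (hF : F ∈ V) (hev : ev F = 0) : ∃ G ∈ V, F = (X - 1 : ℚ[X]) • G := by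
  classical
  have i1 : Module.Finite ℚ[X] V := Module.Finite.iff_fg.2 hV
  have i2 : Module.IsTorsionFree ℚ[X] V := isTorsionFree_sub V
  let b := Module.Free.chooseBasis ℚ[X] V
  let J := Module.Free.ChooseBasisIndex ℚ[X] V
  let f : J → PowerSeries ℚ := fun j => (b j : PowerSeries ℚ)
  have hfV : ∀ j, f j ∈ V := fun j => (b j).2
  have hrep : ∀ g (hg : g ∈ V), g = ∑ j, (b.repr ⟨g, hg⟩ j : PowerSeries ℚ) * f j := by
    intro g hg
    have h2 := congrArg (Subtype.val : V → PowerSeries ℚ) (b.sum_repr ⟨g, hg⟩)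
    rw [← V.subtype_apply, map_sum] at h2
    simp only [map_smul, Submodule.subtype_apply] at h2
    refine h2.symm.trans ?_
    exact Finset.sum_congr rfl fun j _ => smul_eq_coe_mul _ _
  have hspan : ∀ g ∈ V, g ∈ Submodule.span ℚ[X] (Set.range f) := by
    intro g hg
    rw [hrep g hg]
    refine Submodule.sum_mem _ fun j _ => ?_
    rw [← smul_eq_coe_mul]
    exact Submodule.smul_mem _ _ (Submodule.subset_span ⟨j, rfl⟩)
  have hli : ∀ P : J → ℚ[X], ∑ j, (P j : PowerSeries ℚ) * f j = 0 → P = 0 := by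
    intro P hP
    have h2 : ∑ j, P j • b j = 0 := by
      apply Subtype.ext
      rw [← V.subtype_apply, map_sum]
      simp only [map_smul, Submodule.subtype_apply]
      rw [ZeroMemClass.coe_zero, ← hP]
      exact Finset.sum_congr rfl fun j _ => smul_eq_coe_mul _ _
    have h3 := Fintype.linearIndependent_iff.1 b.linearIndependent P h2
    exact funext h3
  have hc : (fun j => (b.repr ⟨F, hF⟩ j).eval 1) = 0 := by
    apply ss_fintype_gen f (fun j => hE _ (hfV j)) (fun j => hspan _ (hθ _ (hfV j))) hli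
      (hspan _ h1)
    have h2 := congrArg ev (hrep F hF)
    rw [hev, ev_sum _ _ fun j _ => (ASum.coe _).mul (hE _ (hfV j)).asum] at h2
    rw [h2]
    refine Finset.sum_congr rfl fun j _ => ?_
    rw [ev_mul (ASum.coe _) (hE _ (hfV j)).asum, ev_coe]
  have hdvd : ∀ j, ∃ q : ℚ[X], b.repr ⟨F, hF⟩ j = (X - 1) * q := by
    intro j
    have h2 : (b.repr ⟨F, hF⟩ j).eval 1 = 0 := congrFun hc j
    have h3 := Polynomial.dvd_iff_isRoot.2 h2
    obtain ⟨q, hq⟩ := h3
    exact ⟨q, by rw [hq]; simp⟩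
  choose q hq using hdvd
  refine ⟨∑ j, q j • f j, Submodule.sum_mem _ fun j _ => Submodule.smul_mem _ _ (hfV j), ?_⟩
  rw [Finset.smul_sum]
  conv_lhs => rw [hrep F hF]
  refine Finset.sum_congr rfl fun j _ => ?_
  rw [hq, smul_smul, smul_eq_coe_mul]

end Pool.Agent.SS
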