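import Pool.Agent.SS.AlgPart

/-!
# The integral representation
-/

namespace Pool.Agent.SS

open MeasureTheory Set

/-- the triple integral -/
noncomputable def Jint (r : ℝ) : ℝ :=
  ∫ x in (0 : ℝ)..1, ∫ y in (0 : ℝ)..1, ∫ z in (0 : ℝ)..1,
    Real.exp (r * (x * y * z)) / (1 - x * y * z)

theorem integral_Ioo (f : ℝ → ℝ) : ∫ x in (0 : ℝ)..1, f x = ∫ x in Ioo (0 : ℝ) 1, f x := by
  rw [intervalIntegral.integral_of_le zero_le_one, integral_Ioc_eq_integral_Ioo]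

theorem integral_pow_Ioo (m : ℕ) : ∫ x in Ioo (0 : ℝ) 1, x ^ m = 1 / ((m : ℝ) + 1) := by
  rw [← integral_Ioo, integral_pow]; simp

theorem step_integral {ι : Type*} [Countable ι] (b : ι → ℝ) (m : ι → ℕ)
    (hs : Summable fun i => |b i| / ((m i : ℝ) + 1)) :
    ∑' i, b i / ((m i : ℝ) + 1) = ∫ z in Ioo (0 : ℝ) 1, ∑' i, b i * z ^ m i := by
  have hint : ∀ i, Integrable (fun z : ℝ => b i * z ^ m i) (volume.restrict (Ioo (0 : ℝ) 1)) := by
    intro i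
    have : IntegrableOn (fun z : ℝ => b i * z ^ m i) (Icc (0 : ℝ) 1) :=
      (by fun_prop : Continuous fun z : ℝ => b i * z ^ m i).continuousOn.integrableOn_compact
        isCompact_Icc
    exact this.mono_set Ioo_subset_Icc_self
  have hnorm : ∀ i, ∫ z in Ioo (0 : ℝ) 1, ‖b i * z ^ m i‖ = |b i| / ((m i : ℝ) + 1) := by
    intro i
    have h1 : ∫ z in Ioo (0 : ℝ) 1, ‖b i * z ^ m i‖ = ∫ z in Ioo (0 : ℝ) 1, |b i| * z ^ m i := by
      apply setIntegral_congr_fun measurableSet_Ioo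
      intro z hz
      simp only
      rw [Real.norm_eq_abs, abs_mul, abs_of_nonneg (pow_nonneg hz.1.le _)]
    rw [h1, integral_const_mul, integral_pow_Ioo]; ring
  rw [← integral_tsum_of_summable_integral_norm hint (by simpa only [hnorm] using hs)]
  refine tsum_congr fun i => ?_
  rw [integral_const_mul, integral_pow_Ioo]; ring

/-- coefficients `r ^ n / n!` -/
noncomputable def cc (r : ℝ) (p : ℕ × ℕ) : ℝ := r ^ p.1 / p.1.factorial

theorem summable_cc (r : ℝ) : Summable fun n : ℕ => |r ^ n / (n.factorial : ℝ)| := by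
  have := Real.summable_pow_div_factorial |r|
  refine this.congr fun n => ?_
  rw [abs_div, abs_pow, abs_of_nonneg (by positivity : (0 : ℝ) ≤ (n.factorial : ℝ))]

theorem summable_inv_cube : Summable fun k : ℕ => 1 / ((k : ℝ) + 1) ^ 3 := by
  have h1 : Summable fun k : ℕ => 1 / ((k : ℝ)) ^ 3 := Real.summable_one_div_nat_pow.2 (by norm_num)
  have h2 := (summable_nat_add_iff (f := fun k : ℕ => 1 / ((k : ℝ)) ^ 3) 1).2 h1
  refine h2.congr fun k => ?_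
  push_cast; rfl

theorem summable_cc_pow (r : ℝ) {s : ℝ} (hs0 : 0 ≤ s) (hs1 : s < 1) :
    Summable fun p : ℕ × ℕ => |cc r p| * s ^ p.2 :=
  (summable_cc r).mul_of_nonneg (summable_geometric_of_lt_one hs0 hs1) (fun _ => abs_nonneg _)
    (fun _ => by positivity)

theorem summable_cc_cube (r : ℝ) :
    Summable fun p : ℕ × ℕ => |cc r p| / (((p.1 + p.2 : ℕ) : ℝ) + 1) ^ 3 := by
  have h1 : Summable fun p : ℕ × ℕ => |cc r p| * (1 / ((p.2 : ℝ) + 1) ^ 3) :=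
    (summable_cc r).mul_of_nonneg summable_inv_cube (fun _ => abs_nonneg _)
      (fun _ => by positivity)
  refine Summable.of_nonneg_of_le (fun _ => by positivity) (fun p => ?_) h1
  rw [div_eq_mul_one_div]
  apply mul_le_mul_of_nonneg_left _ (abs_nonneg _)
  apply one_div_le_one_div_of_le (by positivity)
  apply pow_le_pow_left₀ (by positivity)
  push_cast
  have : (0 : ℝ) ≤ p.1 := by positivity
  linarith

theorem summable_cc_pow_div (r : ℝ) {s : ℝ} (hs0 : 0 ≤ s) (hs1 : s < 1) (e : ℕ) :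
    Summable fun p : ℕ × ℕ => |cc r p * s ^ (p.1 + p.2) / (((p.1 + p.2 : ℕ) : ℝ) + 1) ^ e| := by
  refine Summable.of_nonneg_of_le (fun _ => abs_nonneg _) (fun p => ?_) (summable_cc_pow r hs0 hs1)
  rw [abs_div, abs_mul, abs_of_nonneg (by positivity : (0 : ℝ) ≤ s ^ (p.1 + p.2)),
    abs_of_nonneg (by positivity : (0 : ℝ) ≤ (((p.1 + p.2 : ℕ) : ℝ) + 1) ^ e)]
  have h1 : (1 : ℝ) ≤ (((p.1 + p.2 : ℕ) : ℝ) + 1) ^ e := one_le_pow₀ (by
    have : (0 : ℝ) ≤ ((p.1 + p.2 : ℕ) : ℝ) := by positivity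
    linarith)
  refine (div_le_self (by positivity) h1).trans ?_
  apply mul_le_mul_of_nonneg_left _ (abs_nonneg _)
  exact pow_le_pow_of_le_one hs0 hs1.le (by omega)

theorem tsum_cc_pow (r : ℝ) {t : ℝ} (ht0 : 0 ≤ t) (ht1 : t < 1) :
    ∑' p : ℕ × ℕ, cc r p * t ^ (p.1 + p.2) = Real.exp (r * t) / (1 - t) := by
  have h1 : Summable fun n : ℕ => ‖(r * t) ^ n / (n.factorial : ℝ)‖ := summable_cc (r * t)
  have h2 : Summable fun k : ℕ => ‖t ^ k‖ := by
    refine (summable_geometric_of_lt_one ht0 ht1).congr fun k => ?_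
    rw [Real.norm_of_nonneg (by positivity)]
  have h3 := tsum_mul_tsum_of_summable_norm h1 h2
  rw [tsum_geometric_of_lt_one ht0 ht1] at h3
  have h4 : ∑' n : ℕ, (r * t) ^ n / (n.factorial : ℝ) = Real.exp (r * t) := by
    rw [Real.exp_eq_exp_ℝ, NormedSpace.exp_eq_tsum_div]
  rw [h4] at h3
  rw [div_eq_mul_inv, h3]
  refine tsum_congr fun p => ?_
  rw [cc, mul_pow, pow_add]; ring

theorem Jint_eq_tsum (r : ℝ) :
    Jint r = ∑' p : ℕ × ℕ, cc r p / (((p.1 + p.2 : ℕ) : ℝ) + 1) ^ 3 := by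
  unfold Jint
  rw [integral_Ioo]
  have hz : ∀ s : ℝ, 0 < s → s < 1 → ∫ z in (0 : ℝ)..1, Real.exp (r * (s * z)) / (1 - s * z) =
      ∑' p : ℕ × ℕ, cc r p * s ^ (p.1 + p.2) / (((p.1 + p.2 : ℕ) : ℝ) + 1) := by
    intro s hs0 hs1
    rw [integral_Ioo, step_integral (fun p : ℕ × ℕ => cc r p * s ^ (p.1 + p.2))
      (fun p => p.1 + p.2)]
    · apply setIntegral_congr_fun measurableSet_Ioo
      intro z hz
      simp only
      have h1 : s * z < 1 := by nlinarith [hz.1, hz.2]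
      rw [← tsum_cc_pow r (by nlinarith [hz.1]) h1]
      refine tsum_congr fun p => ?_
      rw [mul_pow]; ring
    · refine (summable_cc_pow_div r hs0.le hs1 1).congr fun p => ?_
      rw [pow_one, abs_div, abs_of_nonneg (by positivity : (0 : ℝ) ≤ (((p.1 + p.2 : ℕ) : ℝ) + 1))]
  have hy : ∀ x : ℝ, 0 < x → x < 1 → ∫ y in (0 : ℝ)..1, ∫ z in (0 : ℝ)..1,
      Real.exp (r * (x * y * z)) / (1 - x * y * z) =
      ∑' p : ℕ × ℕ, cc r p * x ^ (p.1 + p.2) / (((p.1 + p.2 : ℕ) : ℝ) + 1) ^ 2 := by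
    intro x hx0 hx1
    have h1 : ∑' p : ℕ × ℕ, cc r p * x ^ (p.1 + p.2) / (((p.1 + p.2 : ℕ) : ℝ) + 1) ^ 2 =
        ∑' p : ℕ × ℕ, (cc r p * x ^ (p.1 + p.2) / (((p.1 + p.2 : ℕ) : ℝ) + 1)) /
          (((p.1 + p.2 : ℕ) : ℝ) + 1) := by
      refine tsum_congr fun p => ?_
      rw [div_div, pow_two]
    rw [integral_Ioo, h1, step_integral (fun p : ℕ × ℕ => cc r p * x ^ (p.1 + p.2) /
      (((p.1 + p.2 : ℕ) : ℝ) + 1)) (fun p => p.1 + p.2)]
    · apply setIntegral_congr_fun measurableSet_Ioo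
      intro y hy
      simp only
      rw [hz (x * y) (mul_pos hx0 hy.1) (by nlinarith [hy.1, hy.2])]
      refine tsum_congr fun p => ?_
      rw [mul_pow]; ring
    · refine (summable_cc_pow_div r hx0.le hx1 2).congr fun p => ?_
      rw [abs_div, abs_div, abs_of_nonneg (by positivity : (0 : ℝ) ≤ (((p.1 + p.2 : ℕ) : ℝ) + 1)),
        abs_of_nonneg (by positivity : (0 : ℝ) ≤ (((p.1 + p.2 : ℕ) : ℝ) + 1) ^ 2), div_div, pow_two]
  have h1 : ∑' p : ℕ × ℕ, cc r p / (((p.1 + p.2 : ℕ) : ℝ) + 1) ^ 3 =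
      ∑' p : ℕ × ℕ, (cc r p / (((p.1 + p.2 : ℕ) : ℝ) + 1) ^ 2) /
        (((p.1 + p.2 : ℕ) : ℝ) + 1) := by
    refine tsum_congr fun p => ?_
    rw [div_div, ← pow_succ]
  rw [h1, step_integral (fun p : ℕ × ℕ => cc r p / (((p.1 + p.2 : ℕ) : ℝ) + 1) ^ 2)
    (fun p => p.1 + p.2)]
  · apply setIntegral_congr_fun measurableSet_Ioo
    intro x hx
    simp only
    rw [hy x hx.1 hx.2]
    refine tsum_congr fun p => ?_
    ring
  · refine (summable_cc_cube r).congr fun p => ?_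
    rw [abs_div, abs_of_nonneg (by positivity : (0 : ℝ) ≤ (((p.1 + p.2 : ℕ) : ℝ) + 1) ^ 2),
      div_div, ← pow_succ]

theorem harm3_cast (n : ℕ) : ((harm 3 n : ℚ) : ℝ) =
    ∑ m ∈ Finset.range n, 1 / ((m : ℝ) + 1) ^ 3 := by
  induction n with
  | zero => simp [harm_zero]
  | succ n ih =>
    rw [harm_succ, Finset.sum_range_succ, ← ih, recip, if_neg (by omega)]
    push_cast; rfl

theorem tsum_tail (n : ℕ) : ∑' k : ℕ, 1 / (((n + k : ℕ) : ℝ) + 1) ^ 3 =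
    (∑' k : ℕ, 1 / ((k : ℝ) + 1) ^ 3) - ((harm 3 n : ℚ) : ℝ) := by
  have h1 := summable_inv_cube.sum_add_tsum_nat_add n
  rw [harm3_cast, ← h1, add_sub_cancel_left]
  refine tsum_congr fun k => ?_
  rw [add_comm n k]

theorem ev_Hk_eq (r : ℚ) : ev (Hk 3 r) = ∑' n : ℕ, (r : ℝ) ^ n / (n.factorial : ℝ) * ((harm 3 n : ℚ) : ℝ) := by
  unfold ev
  refine tsum_congr fun n => ?_
  rw [Hk, coeff_eser]
  push_cast; ring

theorem Jint_eq (r : ℚ) : Jint r = Jz (∑' k : ℕ, 1 / ((k : ℝ) + 1) ^ 3) r := by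
  set ζ : ℝ := ∑' k : ℕ, 1 / ((k : ℝ) + 1) ^ 3 with hζ
  have hsum : Summable fun p : ℕ × ℕ => cc r p / (((p.1 + p.2 : ℕ) : ℝ) + 1) ^ 3 := by
    apply Summable.of_abs
    refine (summable_cc_cube r).congr fun p => ?_
    rw [abs_div, abs_of_nonneg (by positivity : (0 : ℝ) ≤ (((p.1 + p.2 : ℕ) : ℝ) + 1) ^ 3)]
  rw [Jint_eq_tsum, hsum.tsum_prod, Jz, ev_Hk_eq]
  have h1 : ∀ n : ℕ, ∑' k : ℕ, cc r (n, k) / ((((n, k) : ℕ × ℕ).1 + ((n, k) : ℕ × ℕ).2 : ℕ) + 1 : ℝ) ^ 3 =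
      (r : ℝ) ^ n / (n.factorial : ℝ) * ζ - (r : ℝ) ^ n / (n.factorial : ℝ) * ((harm 3 n : ℚ) : ℝ) := by
    intro n
    rw [← mul_sub, ← tsum_tail n, ← tsum_mul_left]
    refine tsum_congr fun k => ?_
    rw [cc]; ring
  have h2 : Summable fun n : ℕ => (r : ℝ) ^ n / (n.factorial : ℝ) * ζ :=
    ((summable_cc r).of_abs).mul_right _
  have h3 : Summable fun n : ℕ => (r : ℝ) ^ n / (n.factorial : ℝ) * ((harm 3 n : ℚ) : ℝ) := by
    have := (isE_Hk 3 r).asum.summable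
    refine this.congr fun n => ?_
    rw [Hk, coeff_eser]
    push_cast; ring
  rw [tsum_congr h1, h2.tsum_sub h3, tsum_mul_right]
  congr 2
  rw [Real.exp_eq_exp_ℝ, NormedSpace.exp_eq_tsum_div]

end Pool.Agent.SS
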