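import Pool.Agent.SS.Tower

/-!
# Kolchin–Ostrowski type lemmas for primitives
-/

namespace Pool.Agent.SS

open Polynomial

variable {𝕂 : Type*} [Field 𝕂] {ι : Type*}

/-- the field generated by `F` and the `y i`, `i ∈ s` -/
def fld (F : Subfield 𝕂) (y : ι → 𝕂) (s : Finset ι) : Subfield 𝕂 :=
  Subfield.closure ((F : Set 𝕂) ∪ y '' (s : Set ι))

theorem le_fld (F : Subfield 𝕂) (y : ι → 𝕂) (s : Finset ι) : F ≤ fld F y s := fun _ hx =>
  Subfield.subset_closure (Or.inl hx)

theorem mem_fld {F : Subfield 𝕂} {y : ι → 𝕂} {s : Finset ι} {i : ι} (hi : i ∈ s) :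
    y i ∈ fld F y s := Subfield.subset_closure (Or.inr ⟨i, hi, rfl⟩)

theorem fld_le {F G : Subfield 𝕂} {y : ι → 𝕂} {s : Finset ι} (h : F ≤ G) (hy : ∀ i ∈ s, y i ∈ G) :
    fld F y s ≤ G := by
  apply Subfield.closure_le.2
  rintro x (hx | ⟨i, hi, rfl⟩)
  · exact h hx
  · exact hy i hi

theorem fld_empty (F : Subfield 𝕂) (y : ι → 𝕂) : fld F y ∅ = F :=
  le_antisymm (fld_le le_rfl (by simp)) (le_fld _ _ _)

theorem fld_mono {F G : Subfield 𝕂} (h : F ≤ G) {y : ι → 𝕂} {s t : Finset ι} (hst : s ⊆ t) :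
    fld F y s ≤ fld G y t := fld_le (h.trans (le_fld _ _ _)) fun _ hi => mem_fld (hst hi)

theorem fld_insert [DecidableEq ι] (F : Subfield 𝕂) (y : ι → 𝕂) (s : Finset ι) (i : ι) :
    fld F y (insert i s) = adjF (fld F y s) (y i) := by
  apply le_antisymm
  · apply fld_le ((le_fld _ _ _).trans (le_adjF _ _))
    intro j hj
    rcases Finset.mem_insert.1 hj with rfl | hj
    · exact self_mem_adjF _ _
    · exact le_adjF _ _ (mem_fld hj)
  · exact adjF_le (fld_mono le_rfl (Finset.subset_insert _ _)) (mem_fld (Finset.mem_insert_self _ _))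

theorem fld_union [DecidableEq ι] (F : Subfield 𝕂) (y : ι → 𝕂) (s t : Finset ι) :
    fld F y (s ∪ t) = fld (fld F y s) y t := by
  apply le_antisymm
  · apply fld_le ((le_fld _ _ _).trans (le_fld _ _ _))
    intro j hj
    rcases Finset.mem_union.1 hj with hj | hj
    · exact le_fld _ _ _ (mem_fld hj)
    · exact mem_fld hj
  · apply fld_le (fld_mono le_rfl Finset.subset_union_left)
    intro j hj
    exact mem_fld (Finset.mem_union_right _ hj)

namespace DField

variable (δ : DField 𝕂) [CharZero 𝕂]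

theorem degree_analysis {L : Subfield 𝕂} (hL : δ.Stab L) (hK : δ.K ≤ L) {t : 𝕂} (ht : t ∉ L)
    (hθt : δ.θ t ∈ L) {A : 𝕂[X]} (hA : CF L A) {g₁ g₀ : 𝕂} (h₁ : g₁ ∈ L) (h₀ : g₀ ∈ L)
    (h : δ.θ (A.eval t) = g₁ * t + g₀) :
    A.natDegree ≤ 2 ∧ A.coeff 2 ∈ δ.K ∧ δ.θ (A.coeff 1) + 2 * A.coeff 2 * δ.θ t = g₁ ∧
      δ.θ (A.coeff 0) + A.coeff 1 * δ.θ t = g₀ := by
  have hDA : δ.D (C (δ.θ t)) A = C g₁ * X + C g₀ := by
    have h1 : δ.D (C (δ.θ t)) A - (C g₁ * X + C g₀) = 0 := by
      apply δ.transc_prim hL hK ht hθt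
      · exact (δ.CF_D hL (CF.C hθt) hA).sub (((CF.C h₁).mul CF.X).add (CF.C h₀))
      · rw [eval_sub, δ.eval_D (by simp), h]
        simp
    exact sub_eq_zero.1 h1
  have hcoef : ∀ i, δ.θ (A.coeff i) + δ.θ t * (A.coeff (i + 1) * (i + 1)) =
      (C g₁ * X + C g₀ : 𝕂[X]).coeff i := by
    intro i
    rw [← coeff_D_C, hDA]
  have hge2 : ∀ i, 2 ≤ i → (C g₁ * X + C g₀ : 𝕂[X]).coeff i = 0 := by
    intro i hi
    rw [coeff_add, coeff_C_mul, coeff_X, coeff_C, if_neg (by omega), if_neg (by omega)]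
    ring
  have hdeg : A.natDegree ≤ 2 := by
    by_contra hcon
    push Not at hcon
    set d := A.natDegree with hd
    have hA0 : A ≠ 0 := by
      rintro rfl
      simp at hd
      omega
    have hAd : A.coeff d ≠ 0 := leadingCoeff_ne_zero.2 hA0
    have h1 := hcoef d
    rw [hge2 d (by omega), coeff_eq_zero_of_natDegree_lt (by omega : A.natDegree < d + 1)] at h1
    have h2 : δ.θ (A.coeff d) = 0 := by
      rw [← h1]; ring
    have h3 : A.coeff d ∈ δ.K := (δ.mem_K _).1 h2
    have h4 := hcoef (d - 1)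
    have h5 : d - 1 + 1 = d := by omega
    rw [hge2 (d - 1) (by omega), h5] at h4
    have h6 : ((d - 1 : ℕ) : 𝕂) + 1 = d := by exact_mod_cast congrArg (Nat.cast (R := 𝕂)) h5
    rw [h6] at h4
    have hdK : (d : 𝕂) * A.coeff d ∈ δ.K := δ.K.mul_mem (natCast_mem δ.K d) h3
    have h7 : δ.θ (A.coeff (d - 1) + (d * A.coeff d) * t) = 0 := by
      rw [map_add, δ.const_mul hdK, ← h4]
      ring
    have h8 := hK ((δ.mem_K _).1 h7)
    have h9 : (d * A.coeff d) * t ∈ L := by
      have := L.sub_mem h8 (hA (d - 1))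
      rwa [add_sub_cancel_left] at this
    have h10 : (d : 𝕂) * A.coeff d ≠ 0 := mul_ne_zero (by
      have : d ≠ 0 := by omega
      exact_mod_cast this) hAd
    apply ht
    have h11 := L.mul_mem (L.inv_mem (hK hdK)) h9
    rwa [← mul_assoc, inv_mul_cancel₀ h10, one_mul] at h11
  refine ⟨hdeg, ?_, ?_, ?_⟩
  · have h1 := hcoef 2
    rw [hge2 2 le_rfl, coeff_eq_zero_of_natDegree_lt (by omega : A.natDegree < 2 + 1)] at h1
    apply (δ.mem_K _).1
    rw [← h1]; ring
  · have h1 := hcoef 1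
    simp only [coeff_add, coeff_C_mul, coeff_X_one, coeff_C] at h1
    norm_num at h1
    rw [← h1]; ring
  · have h1 := hcoef 0
    simp only [coeff_add, coeff_C_mul, coeff_X_zero, coeff_C_zero] at h1
    norm_num at h1
    rw [← h1]; ring

theorem eval_of_natDegree_le_two {A : 𝕂[X]} (h : A.natDegree ≤ 2) (t : 𝕂) :
    A.eval t = A.coeff 2 * t ^ 2 + A.coeff 1 * t + A.coeff 0 := by
  rw [eval_eq_sum_range' (Nat.lt_succ_of_le h)]
  simp only [Finset.sum_range_succ, Finset.sum_range_zero]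
  ring

theorem KO {F : Subfield 𝕂} (hF : δ.Stab F) (hK : δ.K ≤ F) (y : ι → 𝕂) (s : Finset ι)
    (hy : ∀ i ∈ s, δ.θ (y i) ∈ F) : δ.Stab (fld F y s) ∧
      ∀ x ∈ fld F y s, δ.θ x ∈ F → ∃ c : ι → 𝕂, (∀ i, c i ∈ δ.K) ∧
        x - ∑ i ∈ s, c i * y i ∈ F := by
  classical
  induction s using Finset.induction_on with
  | empty =>
    rw [fld_empty]
    exact ⟨hF, fun x hx _ => ⟨fun _ => 0, fun _ => δ.K.zero_mem, by simpa using hx⟩⟩
  | insert i s hi ih =>
    obtain ⟨hst, hko⟩ := ih fun j hj => hy j (Finset.mem_insert_of_mem hj)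
    have hθi : δ.θ (y i) ∈ F := hy i (Finset.mem_insert_self _ _)
    rw [fld_insert]
    refine ⟨δ.stab_adjF hst (le_adjF _ _ (le_fld _ _ _ hθi)), fun x hx hθx => ?_⟩
    by_cases hyi : y i ∈ fld F y s
    · rw [adjF_eq_of_mem hyi] at hx
      obtain ⟨c, hc, hcx⟩ := hko x hx hθx
      refine ⟨Function.update c i 0, fun j => ?_, ?_⟩
      · by_cases hj : j = i
        · subst hj; simp [δ.K.zero_mem]
        · rw [Function.update_of_ne hj]; exact hc j
      · rw [Finset.sum_insert hi, Function.update_self, zero_mul, zero_add,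
          Finset.sum_congr rfl fun j hj => by
            rw [Function.update_of_ne (fun h : j = i => hi (h ▸ hj))]]
        exact hcx
    · have hKL : δ.K ≤ fld F y s := hK.trans (le_fld _ _ _)
      have hFL := le_fld F y s
      obtain ⟨A, hA, rfl⟩ := δ.poly_of_deriv_poly hst hKL hyi (hFL hθi) hx
        (CF.C (hFL hθx)) (by simp)
      obtain ⟨hdeg, h2, h1, h0⟩ := δ.degree_analysis hst hKL hyi (hFL hθi) hA
        (g₁ := 0) (fld F y s).zero_mem (hFL hθx) (by ring)
      -- the coefficient of degree two vanishes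
      have hA2 : A.coeff 2 = 0 := by
        by_contra hne
        have h3 : δ.θ (A.coeff 1 + (2 * A.coeff 2) * y i) = 0 := by
          have h2K : 2 * A.coeff 2 ∈ δ.K := δ.K.mul_mem (by
            have := natCast_mem δ.K 2; simpa using this) h2
          rw [map_add, δ.const_mul h2K, ← h1]
        have h4 := hKL ((δ.mem_K _).1 h3)
        have h5 : (2 * A.coeff 2) * y i ∈ fld F y s := by
          have := (fld F y s).sub_mem h4 (hA 1)
          rwa [add_sub_cancel_left] at this
        have h6 : (2 : 𝕂) * A.coeff 2 ≠ 0 := mul_ne_zero two_ne_zero hne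
        have h2L : 2 * A.coeff 2 ∈ fld F y s := (fld F y s).mul_mem (by
            have := natCast_mem (fld F y s) 2; simpa using this) (hA 2)
        apply hyi
        have h7 := (fld F y s).mul_mem ((fld F y s).inv_mem h2L) h5
        rwa [← mul_assoc, inv_mul_cancel₀ h6, one_mul] at h7
      rw [hA2, mul_zero, zero_mul, add_zero] at h1
      have h1K : A.coeff 1 ∈ δ.K := (δ.mem_K _).1 h1
      have h0F : δ.θ (A.coeff 0) ∈ F := by
        have : δ.θ (A.coeff 0) = δ.θ (A.eval (y i)) - A.coeff 1 * δ.θ (y i) := by rw [← h0]; ring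
        rw [this]
        exact F.sub_mem hθx (F.mul_mem (hK h1K) hθi)
      obtain ⟨c, hc, hcx⟩ := hko (A.coeff 0) (hA 0) h0F
      refine ⟨Function.update c i (A.coeff 1), fun j => ?_, ?_⟩
      · by_cases hj : j = i
        · subst hj; simpa using h1K
        · rw [Function.update_of_ne hj]; exact hc j
      · rw [Finset.sum_insert hi, Function.update_self,
          Finset.sum_congr rfl fun j hj => by
            rw [Function.update_of_ne (fun h : j = i => hi (h ▸ hj))],
          eval_of_natDegree_le_two hdeg, hA2]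
        have : (0 : 𝕂) * y i ^ 2 + A.coeff 1 * y i + A.coeff 0 -
            (A.coeff 1 * y i + ∑ j ∈ s, c j * y j) = A.coeff 0 - ∑ j ∈ s, c j * y j := by ring
        rw [this]
        exact hcx

/-- `y` is linearly independent over the constants modulo `F` -/
def LinFree (F : Subfield 𝕂) (y : ι → 𝕂) (s : Finset ι) : Prop :=
  ∀ c : ι → 𝕂, (∀ i, c i ∈ δ.K) → ∑ i ∈ s, c i * y i ∈ F → ∀ i ∈ s, c i = 0

variable {δ}

theorem LinFree.mono {F : Subfield 𝕂} {y : ι → 𝕂} {s t : Finset ι} (h : δ.LinFree F y t)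
    (hst : s ⊆ t) : δ.LinFree F y s := by
  classical
  intro c hc hcs i hi
  have h1 := h (fun j => if j ∈ s then c j else 0) (fun j => by
    split_ifs
    · exact hc j
    · exact δ.K.zero_mem) (by
    have h2 : ∑ j ∈ t, (if j ∈ s then c j else 0) * y j = ∑ j ∈ s, c j * y j := by
      rw [← Finset.sum_subset hst]
      · exact Finset.sum_congr rfl fun j hj => by rw [if_pos hj]
      · intro j _ hj; rw [if_neg hj, zero_mul]
    rw [h2]; exact hcs) i (hst hi)
  simpa [hi] using h1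

theorem LinFree.not_mem {F : Subfield 𝕂} (hF : δ.Stab F) (hK : δ.K ≤ F) {y : ι → 𝕂}
    {s : Finset ι} [DecidableEq ι] {i : ι} (hi : i ∉ s) (h : δ.LinFree F y (insert i s))
    (hy : ∀ j ∈ insert i s, δ.θ (y j) ∈ F) : y i ∉ fld F y s := by
  intro hmem
  obtain ⟨c, hc, hcx⟩ := (δ.KO hF hK y s fun j hj => hy j (Finset.mem_insert_of_mem hj)).2 (y i)
    hmem (hy i (Finset.mem_insert_self _ _))
  have h1 := h (Function.update (fun j => -c j) i 1) (fun j => by
    by_cases hj : j = i
    · subst hj; simpa using δ.K.one_mem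
    · rw [Function.update_of_ne hj]; exact δ.K.neg_mem (hc j)) (by
    rw [Finset.sum_insert hi, Function.update_self,
          Finset.sum_congr rfl fun j hj => by
            rw [Function.update_of_ne (fun h : j = i => hi (h ▸ hj))]]
    have : (1 : 𝕂) * y i + ∑ j ∈ s, -c j * y j = y i - ∑ j ∈ s, c j * y j := by
      simp only [neg_mul, Finset.sum_neg_distrib]; ring
    rw [this]; exact hcx) i (Finset.mem_insert_self _ _)
  simp at h1

variable (δ)

/-- if the derivative of an element of the tower is linear in the primitives then the coefficients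
are derivatives -/
theorem chain {F : Subfield 𝕂} (hF : δ.Stab F) (hK : δ.K ≤ F) (y : ι → 𝕂) (s : Finset ι)
    (hy : ∀ i ∈ s, δ.θ (y i) ∈ F) (hlin : δ.LinFree F y s) :
    ∀ x ∈ fld F y s, ∀ (g : ι → 𝕂), (∀ i ∈ s, g i ∈ F) → ∀ g₀ ∈ F,
      δ.θ x = ∑ i ∈ s, g i * y i + g₀ → ∀ i ∈ s, ∃ e ∈ fld F y s, g i = δ.θ e := by
  classical
  induction s using Finset.induction_on with
  | empty => intro x _ g _ g₀ _ _ i hi; simp at hi
  | insert i s hi ih =>
    intro x hx g hg g₀ hg₀ hxg
    have hy' : ∀ j ∈ s, δ.θ (y j) ∈ F := fun j hj => hy j (Finset.mem_insert_of_mem hj)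
    have hlin' : δ.LinFree F y s := hlin.mono (Finset.subset_insert _ _)
    have ih' := ih hy' hlin'
    obtain ⟨hst, hko⟩ := δ.KO hF hK y s hy'
    have hKL : δ.K ≤ fld F y s := hK.trans (le_fld _ _ _)
    have hFL := le_fld F y s
    have hθi : δ.θ (y i) ∈ F := hy i (Finset.mem_insert_self _ _)
    have hyi : y i ∉ fld F y s := hlin.not_mem hF hK hi hy
    have hgi : g i ∈ F := hg i (Finset.mem_insert_self _ _)
    set rest := ∑ j ∈ s, g j * y j + g₀ with hrest
    have hrestL : rest ∈ fld F y s := (fld F y s).add_mem ((fld F y s).sum_mem fun j hj =>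
      (fld F y s).mul_mem (hFL (hg j (Finset.mem_insert_of_mem hj))) (mem_fld hj)) (hFL hg₀)
    have hxg' : δ.θ x = g i * y i + rest := by
      rw [hxg, Finset.sum_insert hi, hrest]; ring
    rw [fld_insert] at hx ⊢
    obtain ⟨A, hA, rfl⟩ := δ.poly_of_deriv_poly hst hKL hyi (hFL hθi) hx
      (G := C (g i) * X + C rest) (((CF.C (hFL hgi)).mul CF.X).add (CF.C hrestL)) (by
        rw [hxg']; simp)
    obtain ⟨hdeg, h2, h1, h0⟩ := δ.degree_analysis hst hKL hyi (hFL hθi) hA
      (hFL hgi) hrestL hxg'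
    have h2K : 2 * A.coeff 2 ∈ δ.K := δ.K.mul_mem (by
      have := natCast_mem δ.K 2; simpa using this) h2
    have hA1F : δ.θ (A.coeff 1) ∈ F := by
      have : δ.θ (A.coeff 1) = g i - 2 * A.coeff 2 * δ.θ (y i) := by rw [← h1]; ring
      rw [this]
      exact F.sub_mem hgi (F.mul_mem (hK h2K) hθi)
    obtain ⟨c, hc, hcx⟩ := hko (A.coeff 1) (hA 1) hA1F
    set f := A.coeff 1 - ∑ j ∈ s, c j * y j with hf
    have h3 : δ.θ (A.coeff 0) = ∑ j ∈ s, (g j - c j * δ.θ (y i)) * y j +
        (g₀ - f * δ.θ (y i)) := by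
      have : δ.θ (A.coeff 0) = rest - A.coeff 1 * δ.θ (y i) := by rw [← h0]; ring
      rw [this, hrest, hf]
      simp only [sub_mul, Finset.sum_sub_distrib, Finset.sum_mul]
      have : ∑ j ∈ s, c j * δ.θ (y i) * y j = ∑ j ∈ s, c j * y j * δ.θ (y i) :=
        Finset.sum_congr rfl fun j _ => by ring
      rw [this]; ring
    have h4 := ih' (A.coeff 0) (hA 0) (fun j => g j - c j * δ.θ (y i))
      (fun j hj => F.sub_mem (hg j (Finset.mem_insert_of_mem hj)) (F.mul_mem (hK (hc j)) hθi))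
      (g₀ - f * δ.θ (y i)) (F.sub_mem hg₀ (F.mul_mem hcx hθi)) h3
    intro j hj
    rcases Finset.mem_insert.1 hj with rfl | hj
    · refine ⟨A.coeff 1 + (2 * A.coeff 2) * y j, ?_, ?_⟩
      · exact (adjF _ _).add_mem (le_adjF _ _ (hA 1)) ((adjF _ _).mul_mem
          (le_adjF _ _ (hKL h2K)) (self_mem_adjF _ _))
      · rw [map_add, δ.const_mul h2K, ← h1]
    · obtain ⟨e, he, hge⟩ := h4 j hj
      refine ⟨e + c j * y i, ?_, ?_⟩
      · exact (adjF _ _).add_mem (le_adjF _ _ he) ((adjF _ _).mul_mem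
          (le_adjF _ _ (hKL (hc j))) (self_mem_adjF _ _))
      · rw [map_add, δ.const_mul (hc j), ← hge]; ring

end DField

/-- from elementwise transcendence to Mathlib's notion -/
theorem transcendental_adjoin_of {F₀ : Subfield 𝕂} {x : ι → 𝕂} {T : Finset ι} {t : 𝕂}
    (h : ∀ p : 𝕂[X], CF (fld F₀ x T) p → p.eval t = 0 → p = 0) :
    Transcendental (Algebra.adjoin F₀ (x '' (T : Set ι))) t := by
  rw [transcendental_iff]
  intro p hp
  have hle : ∀ a ∈ Algebra.adjoin F₀ (x '' (T : Set ι)), a ∈ fld F₀ x T := by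
    intro a ha
    induction ha using Algebra.adjoin_induction with
    | mem a ha =>
      obtain ⟨i, hi, rfl⟩ := ha
      exact mem_fld hi
    | algebraMap r => exact le_fld _ _ _ r.2
    | add a b _ _ ha hb => exact (fld F₀ x T).add_mem ha hb
    | mul a b _ _ ha hb => exact (fld F₀ x T).mul_mem ha hb
  set q : 𝕂[X] := p.map (algebraMap (Algebra.adjoin F₀ (x '' (T : Set ι))) 𝕂) with hq
  have hq0 : q = 0 := by
    apply h
    · intro i
      rw [hq, coeff_map]
      exact hle _ (p.coeff i).2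
    · rw [hq, eval_map_algebraMap]; exact hp
  exact (Polynomial.map_eq_zero_iff (f := algebraMap (Algebra.adjoin F₀ (x '' (T : Set ι))) 𝕂)
    (Subtype.val_injective)).1 hq0

namespace DField

variable (δ : DField 𝕂) [CharZero 𝕂]

theorem algIndep_level {F₀ : Subfield 𝕂} (hK : δ.K ≤ F₀) (x : ι → 𝕂) [DecidableEq ι]
    (T s : Finset ι) (hT : AlgebraicIndepOn F₀ x (T : Set ι)) (hst : δ.Stab (fld F₀ x T))
    (hθ : ∀ i ∈ s, δ.θ (x i) ∈ fld F₀ x T) (hlin : δ.LinFree (fld F₀ x T) x s) :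
    AlgebraicIndepOn F₀ x ((T ∪ s : Finset ι) : Set ι) ∧ δ.Stab (fld F₀ x (T ∪ s)) := by
  constructor
  · induction s using Finset.induction_on with
    | empty => simpa using hT
    | insert i s hi ih =>
      have ih' := ih (fun j hj => hθ j (Finset.mem_insert_of_mem hj))
        (hlin.mono (Finset.subset_insert _ _))
      have h1 : T ∪ insert i s = insert i (T ∪ s) := by
        rw [Finset.union_insert]
      rw [h1, Finset.coe_insert]
      apply ih'.insert
      apply transcendental_adjoin_of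
      rw [fld_union]
      intro p hp hp0
      have hKT : δ.K ≤ fld F₀ x T := hK.trans (le_fld _ _ _)
      exact δ.transc_prim (δ.KO hst hKT x s fun j hj => hθ j (Finset.mem_insert_of_mem hj)).1
        (hKT.trans (le_fld _ _ _)) (hlin.not_mem hst hKT hi hθ)
        (le_fld _ _ _ (hθ i (Finset.mem_insert_self _ _))) p hp hp0
  · rw [fld_union]
    exact (δ.KO hst (hK.trans (le_fld _ _ _)) x s hθ).1

end DField

end Pool.Agent.SS
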