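import Pool.Agent.Lib.GammaMoments

/-!
# Some logarithmic integrals with values in terms of `π^2`, `ζ(3)`, `log 2`
-/

namespace Pool.Agent.SS

open MeasureTheory Set Filter Topology Real

open Pool.Agent.Lib.GammaMoments (integrableOn_pow_mul_log integral_pow_mul_log
  integral_norm_pow_mul_log)

/-- `∫_0^1 log^k v / (1 - v) dv` -/
noncomputable def ZZ (k : ℕ) : ℝ := ∫ v in Ioo (0 : ℝ) 1, log v ^ k / (1 - v)

theorem ZZ_eq (k : ℕ) (hk : 1 ≤ k) :
    ZZ k = (-1) ^ k * k.factorial * ∑' n : ℕ, 1 / ((n : ℝ) + 1) ^ (k + 1) := by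
  have hs : Summable fun n : ℕ => 1 / ((n : ℝ) + 1) ^ (k + 1) := by
    have h1 : Summable fun n : ℕ => 1 / ((n : ℝ)) ^ (k + 1) :=
      Real.summable_one_div_nat_pow.2 (by omega)
    have h2 := (summable_nat_add_iff (f := fun n : ℕ => 1 / ((n : ℝ)) ^ (k + 1)) 1).2 h1
    refine h2.congr fun n => ?_
    push_cast; rfl
  have h1 : ∀ n : ℕ, Integrable (fun t : ℝ => t ^ n * (log t) ^ k)
      (volume.restrict (Ioc (0 : ℝ) 1)) := fun n => integrableOn_pow_mul_log k n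
  have h2 : Summable fun n : ℕ => ∫ t in Ioc (0 : ℝ) 1, ‖t ^ n * (log t) ^ k‖ := by
    simp only [integral_norm_pow_mul_log]
    refine (hs.mul_left (k.factorial : ℝ)).congr fun n => ?_
    ring
  have h3 := hasSum_integral_of_summable_integral_norm h1 h2
  have h4 : ∫ t in Ioc (0 : ℝ) 1, (∑' n : ℕ, t ^ n * (log t) ^ k) = ZZ k := by
    unfold ZZ
    rw [integral_Ioc_eq_integral_Ioo]
    apply setIntegral_congr_fun measurableSet_Ioo
    intro t ht
    simp only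
    rw [tsum_mul_right, tsum_geometric_of_lt_one ht.1.le ht.2, div_eq_mul_inv, mul_comm]
  rw [← h4, ← h3.tsum_eq, ← tsum_mul_left]
  refine tsum_congr fun n => ?_
  rw [integral_pow_mul_log]; ring

theorem integrableOn_of_integral_ne_zero {f : ℝ → ℝ} {s : Set ℝ} (h : ∫ x in s, f x ≠ 0) :
    IntegrableOn f s := by
  by_contra h1
  exact h (integral_undef h1)

theorem ZZ_ne_zero (k : ℕ) (hk : 1 ≤ k) : ZZ k ≠ 0 := by
  rw [ZZ_eq k hk]
  have hs : Summable fun n : ℕ => 1 / ((n : ℝ) + 1) ^ (k + 1) := by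
    have h1 : Summable fun n : ℕ => 1 / ((n : ℝ)) ^ (k + 1) :=
      Real.summable_one_div_nat_pow.2 (by omega)
    have h2 := (summable_nat_add_iff (f := fun n : ℕ => 1 / ((n : ℝ)) ^ (k + 1)) 1).2 h1
    refine h2.congr fun n => ?_
    push_cast; rfl
  have h1 : 0 < ∑' n : ℕ, 1 / ((n : ℝ) + 1) ^ (k + 1) :=
    hs.tsum_pos (fun n => by positivity) 0 (by positivity)
  have h2 : (k.factorial : ℝ) ≠ 0 := by positivity
  exact mul_ne_zero (mul_ne_zero (pow_ne_zero _ (by norm_num)) h2) h1.ne'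

/-- `∫_0^1 log^k (1 - u) / u du` -/
theorem I1_eq (k : ℕ) : ∫ u in Ioo (0 : ℝ) 1, log (1 - u) ^ k / u = ZZ k := by
  have h1 := intervalIntegral.integral_comp_sub_left (a := 0) (b := 1)
    (fun v : ℝ => log v ^ k / (1 - v)) 1
  simp only [sub_sub_cancel, sub_self, sub_zero] at h1
  rw [intervalIntegral.integral_of_le zero_le_one, intervalIntegral.integral_of_le zero_le_one,
    integral_Ioc_eq_integral_Ioo, integral_Ioc_eq_integral_Ioo] at h1
  exact h1

theorem image_sq : (fun u : ℝ => u ^ 2) '' Ioo 0 1 = Ioo 0 1 := by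
  ext w
  constructor
  · rintro ⟨u, hu, rfl⟩
    exact ⟨pow_pos hu.1 2, pow_lt_one₀ hu.1.le hu.2 (by norm_num)⟩
  · intro hw
    refine ⟨√w, ⟨Real.sqrt_pos.2 hw.1, ?_⟩, Real.sq_sqrt hw.1.le⟩
    rw [Real.sqrt_lt' one_pos]; simpa using hw.2

theorem integral_sq (g : ℝ → ℝ) :
    ∫ w in Ioo (0 : ℝ) 1, g w = ∫ u in Ioo (0 : ℝ) 1, (2 * u) * g (u ^ 2) := by
  have h := integral_image_eq_integral_abs_deriv_smul (s := Ioo (0 : ℝ) 1)
    (f := fun u : ℝ => u ^ 2) (f' := fun u => 2 * u) measurableSet_Ioo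
    (fun u _ => by
      have := (hasDerivAt_pow 2 u).hasDerivWithinAt (s := Ioo (0 : ℝ) 1)
      simpa using this)
    (fun u hu v hv huv => by
      simp only at huv
      exact (pow_left_inj₀ hu.1.le hv.1.le (by norm_num)).1 huv) g
  rw [image_sq] at h
  rw [h]
  apply setIntegral_congr_fun measurableSet_Ioo
  intro u hu
  simp only [smul_eq_mul]
  rw [abs_of_pos (by linarith [hu.1])]

/-- `∫_0^1 log^k (1 - u^2) / u du` -/
theorem I2_eq (k : ℕ) : ∫ u in Ioo (0 : ℝ) 1, log (1 - u ^ 2) ^ k / u = ZZ k / 2 := by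
  have h := integral_sq (fun w => log (1 - w) ^ k / w)
  rw [← I1_eq, h, eq_div_iff two_ne_zero, ← integral_mul_const]
  apply setIntegral_congr_fun measurableSet_Ioo
  intro u hu
  have := hu.1.ne'
  simp only
  field_simp

/-- `∫_0^1 2 w log^2 w / (1 - w^2) dw` -/
theorem I5_eq : ∫ w in Ioo (0 : ℝ) 1, 2 * w * log w ^ 2 / (1 - w ^ 2) = ZZ 2 / 4 := by
  have h := integral_sq (fun v => log v ^ 2 / (1 - v))
  rw [ZZ, h, eq_div_iff four_ne_zero, ← integral_mul_const]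
  apply setIntegral_congr_fun measurableSet_Ioo
  intro u hu
  simp only
  rw [log_pow]
  push_cast
  ring

theorem image_moebius : (fun w : ℝ => (1 - w) / (1 + w)) '' Ioo 0 1 = Ioo 0 1 := by
  have hmem : ∀ w ∈ Ioo (0 : ℝ) 1, (1 - w) / (1 + w) ∈ Ioo (0 : ℝ) 1 := by
    intro w hw
    have h1 : 0 < 1 + w := by linarith [hw.1]
    refine ⟨div_pos (by linarith [hw.2]) h1, ?_⟩
    rw [div_lt_one h1]; linarith [hw.1]
  ext w
  constructor
  · rintro ⟨u, hu, rfl⟩; exact hmem u hu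
  · intro hw
    refine ⟨(1 - w) / (1 + w), hmem w hw, ?_⟩
    have h1 : 1 + w ≠ 0 := by linarith [hw.1]
    simp only
    field_simp
    ring

theorem integral_moebius (g : ℝ → ℝ) :
    ∫ w in Ioo (0 : ℝ) 1, g w = ∫ w in Ioo (0 : ℝ) 1, (2 / (1 + w) ^ 2) * g ((1 - w) / (1 + w)) := by
  have h := integral_image_eq_integral_abs_deriv_smul (s := Ioo (0 : ℝ) 1)
    (f := fun w : ℝ => (1 - w) / (1 + w)) (f' := fun w => -(2 / (1 + w) ^ 2)) measurableSet_Ioo
    (fun w hw => by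
      have h1 : 1 + w ≠ 0 := by linarith [hw.1]
      have h2 := (((hasDerivAt_id w).const_sub 1).div ((hasDerivAt_id w).const_add 1) h1)
      refine (h2.congr_deriv ?_).hasDerivWithinAt
      simp only [id]
      field_simp
      ring)
    (fun u hu v hv huv => by
      simp only at huv
      have h1 : 1 + u ≠ 0 := by linarith [hu.1]
      have h2 : 1 + v ≠ 0 := by linarith [hv.1]
      rw [div_eq_div_iff h1 h2] at huv
      linarith) g
  rw [image_moebius] at h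
  rw [h]
  apply setIntegral_congr_fun measurableSet_Ioo
  intro u hu
  simp only [smul_eq_mul]
  rw [abs_neg, abs_of_nonneg (by positivity)]

/-- `∫_0^1 log^2 ((1 - u) / (1 + u)) / u du` -/
theorem I3_eq : ∫ u in Ioo (0 : ℝ) 1, log ((1 - u) / (1 + u)) ^ 2 / u = 7 / 4 * ZZ 2 := by
  have hZ : IntegrableOn (fun v : ℝ => log v ^ 2 / (1 - v)) (Ioo 0 1) :=
    integrableOn_of_integral_ne_zero (ZZ_ne_zero 2 (by norm_num))
  have h5 : IntegrableOn (fun w : ℝ => 2 * w * log w ^ 2 / (1 - w ^ 2)) (Ioo 0 1) :=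
    integrableOn_of_integral_ne_zero (by
      rw [I5_eq]
      exact div_ne_zero (ZZ_ne_zero 2 (by norm_num)) (by norm_num))
  rw [integral_moebius]
  have h1 : ∀ w ∈ Ioo (0 : ℝ) 1, (2 / (1 + w) ^ 2) *
      (log ((1 - (1 - w) / (1 + w)) / (1 + (1 - w) / (1 + w))) ^ 2 / ((1 - w) / (1 + w))) =
      2 * (log w ^ 2 / (1 - w)) - 2 * w * log w ^ 2 / (1 - w ^ 2) := by
    intro w hw
    have h1 : 1 + w ≠ 0 := by linarith [hw.1]
    have h2 : 1 - w ≠ 0 := by linarith [hw.2]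
    have h3 : (1 - (1 - w) / (1 + w)) / (1 + (1 - w) / (1 + w)) = w := by
      field_simp
      ring
    have h4 : 1 - w ^ 2 = (1 - w) * (1 + w) := by ring
    rw [h3, h4]
    field_simp
    ring
  rw [setIntegral_congr_fun measurableSet_Ioo h1, integral_sub (hZ.const_mul 2) h5,
    integral_const_mul, I5_eq]
  change 2 * ZZ 2 - _ = _
  ring

/-- `∫_0^1 log^2 (1 + u) / u du = ζ(3) / 4` -/
theorem Lam2 : IntegrableOn (fun u : ℝ => log (1 + u) ^ 2 / u) (Ioo 0 1) ∧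
    ∫ u in Ioo (0 : ℝ) 1, log (1 + u) ^ 2 / u = ZZ 2 / 8 := by
  have hZ0 := ZZ_ne_zero 2 (by norm_num)
  have h1 : IntegrableOn (fun u : ℝ => log (1 - u) ^ 2 / u) (Ioo 0 1) :=
    integrableOn_of_integral_ne_zero (by rw [I1_eq]; exact hZ0)
  have h2 : IntegrableOn (fun u : ℝ => log (1 - u ^ 2) ^ 2 / u) (Ioo 0 1) :=
    integrableOn_of_integral_ne_zero (by rw [I2_eq]; exact div_ne_zero hZ0 (by norm_num))
  have h3 : IntegrableOn (fun u : ℝ => log ((1 - u) / (1 + u)) ^ 2 / u) (Ioo 0 1) :=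
    integrableOn_of_integral_ne_zero (by rw [I3_eq]; exact mul_ne_zero (by norm_num) hZ0)
  have h4 : ∀ u ∈ Ioo (0 : ℝ) 1, log (1 + u) ^ 2 / u =
      1 / 2 * (log (1 - u ^ 2) ^ 2 / u + log ((1 - u) / (1 + u)) ^ 2 / u) -
        log (1 - u) ^ 2 / u := by
    intro u hu
    have h5 : 0 < 1 + u := by linarith [hu.1]
    have h6 : 0 < 1 - u := by linarith [hu.2]
    have h7 : 1 - u ^ 2 = (1 - u) * (1 + u) := by ring
    rw [h7, log_mul h6.ne' h5.ne', log_div h6.ne' h5.ne']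
    ring
  have h23 : IntegrableOn (fun u : ℝ => 1 / 2 * (log (1 - u ^ 2) ^ 2 / u +
      log ((1 - u) / (1 + u)) ^ 2 / u)) (Ioo 0 1) := (h2.add h3).const_mul (1 / 2)
  constructor
  · exact (integrableOn_congr_fun h4 measurableSet_Ioo).2 (h23.sub h1)
  · rw [setIntegral_congr_fun measurableSet_Ioo h4, integral_sub h23 h1,
      integral_const_mul, integral_add h2 h3, I1_eq, I2_eq, I3_eq]
    ring

/-- `∫_0^1 log (1 + u) / u du = π^2 / 12` -/
theorem Lam1 : IntegrableOn (fun u : ℝ => log (1 + u) ^ 1 / u) (Ioo 0 1) ∧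
    ∫ u in Ioo (0 : ℝ) 1, log (1 + u) ^ 1 / u = -ZZ 1 / 2 := by
  have hZ0 := ZZ_ne_zero 1 (by norm_num)
  have h1 : IntegrableOn (fun u : ℝ => log (1 - u) ^ 1 / u) (Ioo 0 1) :=
    integrableOn_of_integral_ne_zero (by rw [I1_eq]; exact hZ0)
  have h2 : IntegrableOn (fun u : ℝ => log (1 - u ^ 2) ^ 1 / u) (Ioo 0 1) :=
    integrableOn_of_integral_ne_zero (by rw [I2_eq]; exact div_ne_zero hZ0 (by norm_num))
  have h4 : ∀ u ∈ Ioo (0 : ℝ) 1, log (1 + u) ^ 1 / u =
      log (1 - u ^ 2) ^ 1 / u - log (1 - u) ^ 1 / u := by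
    intro u hu
    have h5 : 0 < 1 + u := by linarith [hu.1]
    have h6 : 0 < 1 - u := by linarith [hu.2]
    have h7 : 1 - u ^ 2 = (1 - u) * (1 + u) := by ring
    rw [h7, log_mul h6.ne' h5.ne']
    ring
  constructor
  · exact (integrableOn_congr_fun h4 measurableSet_Ioo).2 (h2.sub h1)
  · rw [setIntegral_congr_fun measurableSet_Ioo h4, integral_sub h2 h1, I1_eq, I2_eq]
    ring

theorem image_inv : (fun v : ℝ => v⁻¹ - 1) '' Ioo 0 1 = Ioi 0 := by
  ext w
  constructor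
  · rintro ⟨u, hu, rfl⟩
    have : 1 < u⁻¹ := (one_lt_inv₀ hu.1).2 hu.2
    simp only [mem_Ioi]
    linarith
  · intro hw
    have hw' : (0 : ℝ) < w := hw
    refine ⟨(1 + w)⁻¹, ⟨by positivity, ?_⟩, ?_⟩
    · exact inv_lt_one_of_one_lt₀ (by linarith)
    · simp

/-- `∫_0^∞ log^k (1 + u) / (u (1 + u)) du` -/
theorem T_eq (k : ℕ) : ∫ u in Ioi (0 : ℝ), log (1 + u) ^ k / (u * (1 + u)) = (-1) ^ k * ZZ k := by
  have h := integral_image_eq_integral_abs_deriv_smul (s := Ioo (0 : ℝ) 1)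
    (f := fun v : ℝ => v⁻¹ - 1) (f' := fun v => -(v ^ 2)⁻¹) measurableSet_Ioo
    (fun v hv => ((hasDerivAt_inv hv.1.ne').sub_const 1).hasDerivWithinAt)
    (fun u hu v hv huv => by
      simp only at huv
      have : u⁻¹ = v⁻¹ := by linarith
      exact inv_injective this) (fun u => log (1 + u) ^ k / (u * (1 + u)))
  rw [image_inv] at h
  rw [h, ZZ, ← integral_const_mul]
  apply setIntegral_congr_fun measurableSet_Ioo
  intro v hv
  simp only [smul_eq_mul]
  have h1 : v ≠ 0 := hv.1.ne'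
  have h2 : 1 - v ≠ 0 := by linarith [hv.2]
  have h3 : 1 + (v⁻¹ - 1) = v⁻¹ := by ring
  rw [abs_neg, abs_of_nonneg (by positivity), h3, log_inv, neg_pow]
  have h4 : v⁻¹ - 1 = (1 - v) / v := by field_simp
  rw [h4]
  field_simp

theorem integral_log_pow (k : ℕ) :
    IntegrableOn (fun u : ℝ => log (1 + u) ^ k / (1 + u)) (Ioo 0 1) ∧
    ∫ u in Ioo (0 : ℝ) 1, log (1 + u) ^ k / (1 + u) = log 2 ^ (k + 1) / (k + 1) := by
  have hc : ContinuousOn (fun u : ℝ => log (1 + u) ^ k / (1 + u)) (Icc 0 1) := by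
    apply ContinuousOn.div
    · apply ContinuousOn.pow
      intro u hu
      have : 1 + u ≠ 0 := by linarith [hu.1]
      exact ((continuousAt_log this).comp (f := fun u => 1 + u)
        (by fun_prop)).continuousWithinAt
    · fun_prop
    · intro u hu
      linarith [hu.1]
  constructor
  · exact (hc.integrableOn_compact isCompact_Icc).mono_set Ioo_subset_Icc_self
  · rw [← integral_Ioc_eq_integral_Ioo, ← intervalIntegral.integral_of_le zero_le_one]
    rw [intervalIntegral.integral_eq_sub_of_hasDerivAt (f := fun u => log (1 + u) ^ (k + 1) / (k + 1))]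
    · norm_num
    · intro u hu
      rw [uIcc_of_le zero_le_one] at hu
      have h1 : 1 + u ≠ 0 := by linarith [hu.1]
      have h2 := ((((hasDerivAt_id u).const_add 1).log h1).fun_pow (k + 1)).div_const ((k : ℝ) + 1)
      refine h2.congr_deriv ?_
      have h3 : (k : ℝ) + 1 ≠ 0 := by positivity
      simp only [id, Nat.add_sub_cancel]
      push_cast
      field_simp
    · apply ContinuousOn.intervalIntegrable
      rwa [uIcc_of_le zero_le_one]

/-- the tail integrals, in terms of the integrals over `(0, 1)` -/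
theorem Y_aux (k : ℕ) (hk : 1 ≤ k) (L : ℝ)
    (hL : IntegrableOn (fun u : ℝ => log (1 + u) ^ k / u) (Ioo 0 1) ∧
      ∫ u in Ioo (0 : ℝ) 1, log (1 + u) ^ k / u = L) :
    IntegrableOn (fun u : ℝ => log (1 + u) ^ k / (u * (1 + u))) (Ioi 1) ∧
    ∫ u in Ioi (1 : ℝ), log (1 + u) ^ k / (u * (1 + u)) =
      (-1) ^ k * ZZ k - L + log 2 ^ (k + 1) / (k + 1) := by
  have hT : IntegrableOn (fun u : ℝ => log (1 + u) ^ k / (u * (1 + u))) (Ioi 0) :=
    integrableOn_of_integral_ne_zero (by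
      rw [T_eq]; exact mul_ne_zero (pow_ne_zero _ (by norm_num)) (ZZ_ne_zero k hk))
  refine ⟨hT.mono_set (Ioi_subset_Ioi zero_le_one), ?_⟩
  have h1 := T_eq k
  rw [← Ioc_union_Ioi_eq_Ioi (zero_le_one' ℝ), setIntegral_union (Set.Ioc_disjoint_Ioi le_rfl)
    measurableSet_Ioi (hT.mono_set Ioc_subset_Ioi_self)
    (hT.mono_set (Ioi_subset_Ioi zero_le_one)), integral_Ioc_eq_integral_Ioo] at h1
  obtain ⟨h2, h3⟩ := integral_log_pow k
  have h4 : ∫ u in Ioo (0 : ℝ) 1, log (1 + u) ^ k / (u * (1 + u)) =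
      L - log 2 ^ (k + 1) / (k + 1) := by
    rw [← hL.2, ← h3, ← integral_sub hL.1 h2]
    apply setIntegral_congr_fun measurableSet_Ioo
    intro u hu
    have h5 : u ≠ 0 := hu.1.ne'
    have h6 : 1 + u ≠ 0 := by linarith [hu.1]
    simp only
    field_simp
    ring
  rw [h4] at h1
  linarith

theorem tsum_sq : ∑' n : ℕ, 1 / ((n : ℝ) + 1) ^ 2 = π ^ 2 / 6 := by
  have h := hasSum_zeta_two.tsum_eq
  have hs : Summable (fun i : ℕ => 1 / ((i : ℝ)) ^ 2) := Real.summable_one_div_nat_pow.2 (by omega)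
  rw [hs.tsum_eq_zero_add] at h
  rw [← h]
  simp

theorem ZZ_one : ZZ 1 = -(π ^ 2 / 6) := by
  rw [ZZ_eq 1 le_rfl, tsum_sq]; simp

theorem ZZ_two : ZZ 2 = 2 * ∑' n : ℕ, 1 / ((n : ℝ) + 1) ^ 3 := by
  rw [ZZ_eq 2 (by norm_num)]; norm_num

theorem Y_one : IntegrableOn (fun u : ℝ => log (1 + u) ^ 1 / (u * (1 + u))) (Ioi 1) ∧
    ∫ u in Ioi (1 : ℝ), log (1 + u) ^ 1 / (u * (1 + u)) = π ^ 2 / 12 + log 2 ^ 2 / 2 := by
  obtain ⟨h1, h2⟩ := Y_aux 1 le_rfl _ Lam1
  refine ⟨h1, ?_⟩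
  rw [h2, ZZ_one]
  push_cast
  ring

theorem Y_two : IntegrableOn (fun u : ℝ => log (1 + u) ^ 2 / (u * (1 + u))) (Ioi 1) ∧
    ∫ u in Ioi (1 : ℝ), log (1 + u) ^ 2 / (u * (1 + u)) =
      7 / 4 * (∑' n : ℕ, 1 / ((n : ℝ) + 1) ^ 3) + log 2 ^ 3 / 3 := by
  obtain ⟨h1, h2⟩ := Y_aux 2 (by norm_num) _ Lam2
  refine ⟨h1, ?_⟩
  rw [h2, ZZ_two]
  push_cast
  ring

theorem Y_zero : IntegrableOn (fun u : ℝ => 1 / (u * (1 + u))) (Ioi 1) ∧
    ∫ u in Ioi (1 : ℝ), 1 / (u * (1 + u)) = log 2 := by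
  have hd : ∀ u ∈ Ici (1 : ℝ), HasDerivAt (fun u => log u - log (1 + u)) (1 / (u * (1 + u))) u := by
    intro u hu
    have hu1 : (1 : ℝ) ≤ u := hu
    have h1 : 1 + u ≠ 0 := by linarith
    have h2 : u ≠ 0 := by linarith
    have h3 := (hasDerivAt_log h2).sub (((hasDerivAt_id u).const_add 1).log h1)
    refine h3.congr_deriv ?_
    simp only [id]
    field_simp
    ring
  have hpos : ∀ u ∈ Ioi (1 : ℝ), 0 ≤ 1 / (u * (1 + u)) := by
    intro u hu
    have hu1 : (1 : ℝ) < u := hu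
    have : 0 < u * (1 + u) := by nlinarith
    positivity
  have hlim : Tendsto (fun u : ℝ => log u - log (1 + u)) atTop (𝓝 0) := by
    have h1 : Tendsto (fun u : ℝ => (1 + u)⁻¹) atTop (𝓝 0) :=
      tendsto_inv_atTop_zero.comp (tendsto_atTop_add_const_left _ 1 tendsto_id)
    have h2 : Tendsto (fun u : ℝ => log (1 - (1 + u)⁻¹)) atTop (𝓝 (log (1 - 0))) := by
      apply (continuousAt_log (by norm_num : (1 : ℝ) - 0 ≠ 0)).tendsto.comp
      exact h1.const_sub 1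
    rw [sub_zero, log_one] at h2
    refine h2.congr' ?_
    filter_upwards [eventually_gt_atTop 0] with u hu
    have h3 : (1 : ℝ) + u ≠ 0 := by linarith
    rw [← log_div hu.ne' h3]
    congr 1
    field_simp
    ring
  constructor
  · exact integrableOn_Ioi_deriv_of_nonneg' hd hpos hlim
  · rw [integral_Ioi_of_hasDerivAt_of_nonneg' hd hpos hlim]
    norm_num

end Pool.Agent.SS
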