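import Pool.Agent.SS.E1Int
import Pool.Agent.SS.ZInt

/-!
# The integral `∫_x^∞ E_1(t)^2 dt / t`
-/

namespace Pool.Agent.SS

open MeasureTheory Set Filter Topology Real

open Pool.Agent.Lib.GammaMoments (m m_one m_two m_three integrableOn_exp_log)

/-- `∫_x^∞ E_1(t)^2 dt / t` -/
noncomputable def kap (x : ℝ) : ℝ := ∫ t in Ioi x, E1 t ^ 2 / t

theorem m_zero : m 0 = 1 := by
  unfold m
  have : ∀ t : ℝ, exp (-t) * log t ^ 0 = exp (-t) := fun t => by rw [pow_zero, mul_one]
  simp only [this]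
  rw [integral_exp_neg']; simp

/-- `∫_0^∞ e^{-c t} log^2 t dt` -/
theorem integral_exp_mul_log_sq {c : ℝ} (hc : 0 < c) :
    ∫ t in Ioi (0 : ℝ), exp (-(c * t)) * log t ^ 2 =
      c⁻¹ * (m 2 - 2 * log c * m 1 + log c ^ 2) := by
  have h1 := integral_comp_mul_left_Ioi (fun s => exp (-s) * (log s - log c) ^ 2) 0 hc
  rw [mul_zero, smul_eq_mul] at h1
  have h2 : ∀ t ∈ Ioi (0 : ℝ), exp (-(c * t)) * log t ^ 2 =
      exp (-(c * t)) * (log (c * t) - log c) ^ 2 := by
    intro t ht
    rw [log_mul hc.ne' (ne_of_gt ht)]; ring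
  rw [setIntegral_congr_fun measurableSet_Ioi h2, h1]
  congr 1
  have h3 : ∀ s : ℝ, exp (-s) * (log s - log c) ^ 2 =
      (exp (-s) * log s ^ 2 - (2 * log c) * (exp (-s) * log s ^ 1)) +
        log c ^ 2 * (exp (-s) * log s ^ 0) := fun s => by ring
  simp only [h3]
  have i2 := integrableOn_exp_log 2
  have i1 : IntegrableOn (fun s : ℝ => (2 * log c) * (exp (-s) * log s ^ 1)) (Ioi 0) :=
    (integrableOn_exp_log 1).const_mul _
  have i0 : IntegrableOn (fun s : ℝ => log c ^ 2 * (exp (-s) * log s ^ 0)) (Ioi 0) :=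
    (integrableOn_exp_log 0).const_mul _
  have i21 : IntegrableOn (fun s : ℝ => exp (-s) * log s ^ 2 -
    (2 * log c) * (exp (-s) * log s ^ 1)) (Ioi 0) := i2.sub i1
  rw [integral_add i21 i0, integral_sub i2 i1, integral_const_mul, integral_const_mul]
  change m 2 - 2 * log c * m 1 + log c ^ 2 * m 0 = _
  rw [m_zero, mul_one]

/-- `∫_0^∞ e^{-c t} log^3 t dt` -/
theorem integral_exp_mul_log_cube {c : ℝ} (hc : 0 < c) :
    ∫ t in Ioi (0 : ℝ), exp (-(c * t)) * log t ^ 3 =
      c⁻¹ * (m 3 - 3 * log c * m 2 + 3 * log c ^ 2 * m 1 - log c ^ 3) := by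
  have h1 := integral_comp_mul_left_Ioi (fun s => exp (-s) * (log s - log c) ^ 3) 0 hc
  rw [mul_zero, smul_eq_mul] at h1
  have h2 : ∀ t ∈ Ioi (0 : ℝ), exp (-(c * t)) * log t ^ 3 =
      exp (-(c * t)) * (log (c * t) - log c) ^ 3 := by
    intro t ht
    rw [log_mul hc.ne' (ne_of_gt ht)]; ring
  rw [setIntegral_congr_fun measurableSet_Ioi h2, h1]
  congr 1
  have h3 : ∀ s : ℝ, exp (-s) * (log s - log c) ^ 3 =
      ((exp (-s) * log s ^ 3 - (3 * log c) * (exp (-s) * log s ^ 2)) +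
        (3 * log c ^ 2) * (exp (-s) * log s ^ 1)) - log c ^ 3 * (exp (-s) * log s ^ 0) :=
    fun s => by ring
  simp only [h3]
  have i3 := integrableOn_exp_log 3
  have i2 : IntegrableOn (fun s : ℝ => (3 * log c) * (exp (-s) * log s ^ 2)) (Ioi 0) :=
    (integrableOn_exp_log 2).const_mul _
  have i1 : IntegrableOn (fun s : ℝ => (3 * log c ^ 2) * (exp (-s) * log s ^ 1)) (Ioi 0) :=
    (integrableOn_exp_log 1).const_mul _
  have i0 : IntegrableOn (fun s : ℝ => log c ^ 3 * (exp (-s) * log s ^ 0)) (Ioi 0) :=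
    (integrableOn_exp_log 0).const_mul _
  have i32 : IntegrableOn (fun s : ℝ => exp (-s) * log s ^ 3 -
    (3 * log c) * (exp (-s) * log s ^ 2)) (Ioi 0) := i3.sub i2
  have i321 : IntegrableOn (fun s : ℝ => (exp (-s) * log s ^ 3 -
    (3 * log c) * (exp (-s) * log s ^ 2)) + (3 * log c ^ 2) * (exp (-s) * log s ^ 1)) (Ioi 0) :=
    i32.add i1
  rw [integral_sub i321 i0, integral_add i32 i1, integral_sub i3 i2, integral_const_mul,
    integral_const_mul, integral_const_mul]
  change m 3 - 3 * log c * m 2 + 3 * log c ^ 2 * m 1 - log c ^ 3 * m 0 = _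
  rw [m_zero, mul_one]

theorem E1_scaled {t : ℝ} (ht : 0 < t) : E1 t = ∫ u in Ioi (1 : ℝ), exp (-(t * u)) / u := by
  have h1 := integral_comp_mul_left_Ioi (fun s => exp (-s) / s) 1 ht
  rw [mul_one, smul_eq_mul] at h1
  have h2 : E1 t = t * (t⁻¹ * ∫ s in Ioi t, exp (-s) / s) := by
    rw [← mul_assoc, mul_inv_cancel₀ ht.ne', one_mul]; rfl
  rw [h2, ← h1, ← integral_const_mul]
  apply setIntegral_congr_fun measurableSet_Ioi
  intro u hu
  have hu0 : (0 : ℝ) < u := lt_trans one_pos hu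
  simp only
  field_simp

theorem E1_le_log {t : ℝ} (ht : 0 < t) :
    E1 t ≤ |log t| + ∫ s in Ioi (0 : ℝ), ‖exp (-s) * log s ^ 1‖ := by
  rw [E1_eq_log ht]
  have h1 : -(log t * exp (-t)) ≤ |log t| := by
    refine (neg_le_abs _).trans ?_
    rw [abs_mul, abs_of_pos (exp_pos _)]
    exact mul_le_of_le_one_right (abs_nonneg _) (exp_le_one_iff.2 (by linarith))
  have h2 : ∫ s in Ioi t, exp (-s) * log s ^ 1 ≤ ∫ s in Ioi (0 : ℝ), ‖exp (-s) * log s ^ 1‖ := by
    refine (le_abs_self _).trans ?_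
    rw [← Real.norm_eq_abs]
    refine (norm_integral_le_integral_norm _).trans ?_
    apply setIntegral_mono_set (integrableOn_exp_log 1).norm
    · exact Eventually.of_forall fun _ => norm_nonneg _
    · exact (Ioi_subset_Ioi ht.le).eventuallyLE
  exact add_le_add h1 h2

/-- the integrand of the auxiliary integral -/
noncomputable def fA (t : ℝ) : ℝ := exp (-t) * log t ^ 2 * E1 t

theorem continuousOn_log_pow (k : ℕ) : ContinuousOn (fun t : ℝ => log t ^ k) (Ioi 0) := by
  apply ContinuousOn.pow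
  intro t ht
  exact (continuousAt_log (ne_of_gt ht)).continuousWithinAt

theorem continuousOn_fA : ContinuousOn fA (Ioi 0) :=
  ((by fun_prop : ContinuousOn (fun t : ℝ => exp (-t)) (Ioi 0)).mul (continuousOn_log_pow 2)).mul
    continuousOn_E1

theorem integrableOn_fA : IntegrableOn fA (Ioi 0) := by
  set M := ∫ s in Ioi (0 : ℝ), ‖exp (-s) * log s ^ 1‖ with hM
  have h1 : IntegrableOn (fun t : ℝ => ‖exp (-t) * log t ^ 3‖ + M * ‖exp (-t) * log t ^ 2‖)
      (Ioi 0) := (integrableOn_exp_log 3).norm.add ((integrableOn_exp_log 2).norm.const_mul M)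
  refine Integrable.mono' h1 (continuousOn_fA.aestronglyMeasurable measurableSet_Ioi) ?_
  rw [ae_restrict_iff' measurableSet_Ioi]
  refine Eventually.of_forall fun t ht => ?_
  have ht0 : (0 : ℝ) < t := ht
  rw [fA]
  simp only [norm_mul, norm_pow]
  rw [Real.norm_of_nonneg (E1_nonneg t ht0)]
  have h2 := E1_le_log ht0
  rw [← Real.norm_eq_abs, ← hM] at h2
  calc ‖exp (-t)‖ * ‖log t‖ ^ 2 * E1 t ≤ ‖exp (-t)‖ * ‖log t‖ ^ 2 * (‖log t‖ + M) :=
        mul_le_mul_of_nonneg_left h2 (by positivity)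
    _ = _ := by ring

theorem integral_fA : ∫ t in Ioi (0 : ℝ), fA t = m 2 * log 2 - 2 * m 1 * (π ^ 2 / 12 + log 2 ^ 2 / 2) +
    (7 / 4 * (∑' n : ℕ, 1 / ((n : ℝ) + 1) ^ 3) + log 2 ^ 3 / 3) := by
  let f : ℝ → ℝ → ℝ := fun t u => exp (-t) * log t ^ 2 * (exp (-(t * u)) / u)
  have hmeas : Measurable (Function.uncurry f) := by
    unfold Function.uncurry
    simp only [f]
    fun_prop
  have hinner : ∀ t ∈ Ioi (0 : ℝ), ∫ u in Ioi (1 : ℝ), f t u = fA t := by
    intro t ht
    simp only [f, fA]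
    rw [integral_const_mul, ← E1_scaled ht]
  have hnorm : ∀ t ∈ Ioi (0 : ℝ), ∫ u in Ioi (1 : ℝ), ‖f t u‖ = fA t := by
    intro t ht
    rw [← hinner t ht]
    apply setIntegral_congr_fun measurableSet_Ioi
    intro u hu
    have hu0 : (0 : ℝ) < u := lt_trans one_pos hu
    simp only [f]
    rw [Real.norm_of_nonneg (by positivity)]
  have hint : Integrable (Function.uncurry f)
      ((volume.restrict (Ioi (0 : ℝ))).prod (volume.restrict (Ioi (1 : ℝ)))) := by
    rw [integrable_prod_iff hmeas.aestronglyMeasurable]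
    constructor
    · rw [ae_restrict_iff' measurableSet_Ioi]
      refine Eventually.of_forall fun t ht => ?_
      have ht0 : (0 : ℝ) < t := ht
      have h1 : IntegrableOn (fun u : ℝ => exp (-(t * u)) / u) (Ioi 1) := by
        have h2 : IntegrableOn (fun u : ℝ => exp (-(t * u))) (Ioi 1) := by
          have := exp_neg_integrableOn_Ioi 1 ht0
          simpa using this
        refine Integrable.mono' h2 ?_ ?_
        · apply Measurable.aestronglyMeasurable
          fun_prop
        · rw [ae_restrict_iff' measurableSet_Ioi]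
          refine Eventually.of_forall fun u hu => ?_
          have hu1 : (1 : ℝ) < u := hu
          rw [Real.norm_of_nonneg (by positivity)]
          exact div_le_self (exp_pos _).le hu1.le
      have h3 : IntegrableOn (fun u => f t u) (Ioi 1) := h1.const_mul (exp (-t) * log t ^ 2)
      exact h3
    · have h1 : IntegrableOn (fun t => ∫ u in Ioi (1 : ℝ), ‖f t u‖) (Ioi 0) :=
        (integrableOn_congr_fun hnorm measurableSet_Ioi).2 integrableOn_fA
      exact h1
  have hswap := integral_integral_swap hint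
  rw [setIntegral_congr_fun measurableSet_Ioi hinner] at hswap
  rw [hswap]
  have hin : ∀ u ∈ Ioi (1 : ℝ), ∫ t in Ioi (0 : ℝ), f t u =
      m 2 * (1 / (u * (1 + u))) - (2 * m 1) * (log (1 + u) ^ 1 / (u * (1 + u))) +
        log (1 + u) ^ 2 / (u * (1 + u)) := by
    intro u hu
    have hu0 : (0 : ℝ) < u := lt_trans one_pos hu
    have hu1 : (0 : ℝ) < 1 + u := by linarith
    have h1 : ∀ t : ℝ, f t u = u⁻¹ * (exp (-((1 + u) * t)) * log t ^ 2) := by
      intro t
      simp only [f]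
      have : exp (-((1 + u) * t)) = exp (-t) * exp (-(t * u)) := by
        rw [← exp_add]; congr 1; ring
      rw [this]; ring
    simp only [h1]
    rw [integral_const_mul, integral_exp_mul_log_sq hu1]
    field_simp
  rw [setIntegral_congr_fun measurableSet_Ioi hin]
  obtain ⟨i0, e0⟩ := Y_zero
  obtain ⟨i1, e1⟩ := Y_one
  obtain ⟨i2, e2⟩ := Y_two
  have j0 : IntegrableOn (fun u : ℝ => m 2 * (1 / (u * (1 + u)))) (Ioi 1) := i0.const_mul _
  have j1 : IntegrableOn (fun u : ℝ => (2 * m 1) * (log (1 + u) ^ 1 / (u * (1 + u)))) (Ioi 1) :=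
    i1.const_mul _
  have j01 : IntegrableOn (fun u : ℝ => m 2 * (1 / (u * (1 + u))) -
    (2 * m 1) * (log (1 + u) ^ 1 / (u * (1 + u)))) (Ioi 1) := j0.sub j1
  rw [integral_add j01 i2, integral_sub j0 j1, integral_const_mul, integral_const_mul, e0, e1, e2]

end Pool.Agent.SS
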