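import Pool.Agent.SS.Kappa2
import Pool.Agent.SS.Trdeg

/-!
# Transcendence degree of the field generated by the exponential integrals
-/

namespace Pool.Agent.SS

open Set Cardinal

theorem coeff_Wk (r : ℚ) (n : ℕ) :
    PowerSeries.coeff n (Wk r) = r ^ n * PowerSeries.coeff n (Wk 1) := by
  have h1 : PowerSeries.coeff n (Ek 1 r * Ek 1 r) =
      r ^ n * PowerSeries.coeff n (Ek 1 1 * Ek 1 1) := by
    rw [PowerSeries.coeff_mul, PowerSeries.coeff_mul, Finset.mul_sum]
    refine Finset.sum_congr rfl fun p hp => ?_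
    rw [coeff_Ek 1 r p.1, coeff_Ek 1 r p.2, ← Finset.HasAntidiagonal.mem_antidiagonal.1 hp, pow_add]
    ring
  rw [Wk, Wk, map_sub, map_sub, coeff_prim, coeff_prim, PowerSeries.coeff_C_mul,
    PowerSeries.coeff_C_mul, h1, coeff_Ek 3 r]
  ring

theorem FF_Wk (r : ℚ) (y : ℝ) : FF (Wk r) y = FF (Wk 1) (r * y) := by
  unfold FF
  refine tsum_congr fun n => ?_
  rw [coeff_Wk, mul_pow]; push_cast; ring

theorem ev_Ek_neg (k : ℕ) (r : ℚ) : ev (Ek k (-r)) = FF (Ek k 1) (-(r : ℝ)) := by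
  rw [ev_eq_FF, FF_Ek]; push_cast; rw [mul_one]

theorem ev_Wk_neg (r : ℚ) : ev (Wk (-r)) = G2 r := by
  rw [ev_eq_FF, FF_Wk, G2]; push_cast; rw [mul_one]

theorem ev_Ek_one_neg (r : ℚ) : ev (Ek 1 (-r)) = -Ein r := by
  rw [ev_Ek_neg, Ein, neg_neg]

theorem ev_Ek_two_neg (r : ℚ) : ev (Ek 2 (-r)) = -G1 r := by
  rw [ev_Ek_neg, G1, neg_neg]

/-- the values are algebraic over every ring over which the basic numbers are -/
theorem vals_algebraic {ι : Type} (r : ι → ℚ) (hpos : ∀ i, 0 < r i) {D : ℕ} (hD : 0 < D)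
    {R : Subalgebra ℚ ℝ} (he : IsAlgebraic R (Real.exp 1))
    (hz : IsAlgebraic R (∑' n : ℕ, (1 : ℝ) / ((n : ℝ) + 1) ^ 3))
    (hl : ∀ i, IsAlgebraic R (Real.eulerMascheroniConstant + Real.log (r i)))
    (hE : ∀ i, IsAlgebraic R (E1 (r i))) (hk : ∀ i, IsAlgebraic R (kap (r i)))
    (hG : ∀ i, IsAlgebraic R (G1 (r i))) :
    ∀ o : Option (ι ⊕ ι ⊕ ι), IsAlgebraic R (o.elim (Real.exp ((1 / (D : ℚ) : ℚ)))
      (Sum.elim (fun i => ev (Ek 1 (-r i))) (Sum.elim (fun i => ev (Ek 2 (-r i)))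
        (fun i => ev (Wk (-r i)))))) := by
  have hrat : ∀ q : ℚ, IsAlgebraic R (q : ℝ) := fun q => by
    have := isAlgebraic_algebraMap (R := R) (A := ℝ) (algebraMap ℚ R q)
    simpa using this
  have hposR : ∀ i, (0 : ℝ) < r i := fun i => by exact_mod_cast hpos i
  have hEin : ∀ i, IsAlgebraic R (Ein (r i)) := by
    intro i
    have h1 : Ein (r i) = E1 (r i) + (Real.eulerMascheroniConstant + Real.log (r i)) := by
      rw [E1_eq (hposR i)]; ring
    rw [h1]
    exact (hE i).add (hl i)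
  rintro (_ | i | i | i)
  · change IsAlgebraic R (Real.exp ((1 / (D : ℚ) : ℚ)))
    have h1 : Real.exp ((1 / (D : ℚ) : ℚ)) ^ D = Real.exp 1 := by
      rw [← Real.exp_nat_mul]
      congr 1
      push_cast
      have : (D : ℝ) ≠ 0 := by positivity
      field_simp
    have h2 : IsAlgebraic R (Real.exp ((1 / (D : ℚ) : ℚ)) ^ D) := by rw [h1]; exact he
    exact IsAlgebraic.of_pow hD h2
  · change IsAlgebraic R (ev (Ek 1 (-r i)))
    rw [ev_Ek_one_neg]; exact (hEin i).neg
  · change IsAlgebraic R (ev (Ek 2 (-r i)))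
    rw [ev_Ek_two_neg]; exact (hG i).neg
  · change IsAlgebraic R (ev (Wk (-r i)))
    rw [ev_Wk_neg]
    have h1 : G2 (r i) = ((13 / 12 : ℚ) : ℝ) * (∑' n : ℕ, 1 / ((n : ℝ) + 1) ^ 3) -
        ((1 / 3 : ℚ) : ℝ) * (Real.eulerMascheroniConstant + Real.log (r i)) ^ 3 +
        ((2 : ℚ) : ℝ) * (Real.eulerMascheroniConstant + Real.log (r i)) * G1 (r i) -
        kap (r i) := by
      rw [kap_eq (hposR i)]
      push_cast
      ring
    rw [h1]
    exact ((((hrat _).mul hz).sub ((hrat _).mul ((hl i).pow 3))).add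
      (((hrat _).mul (hl i)).mul (hG i))).sub (hk i)

/-- **Main theorem** -/
theorem trdeg_kap {ι : Type} [Fintype ι] [DecidableEq ι] (r : ι → ℚ) (hpos : ∀ i, 0 < r i)
    (hinj : Function.Injective r) :
    ((2 * Fintype.card ι + 1 : ℕ) : Cardinal) ≤ Algebra.trdeg ℚ (IntermediateField.adjoin ℚ
      ({Real.exp 1, ∑' n : ℕ, (1 : ℝ) / ((n : ℝ) + 1) ^ 3} ∪
        range (fun i => Real.eulerMascheroniConstant + Real.log (r i)) ∪
        range (fun i => E1 (r i)) ∪ range (fun i => kap (r i)) : Set ℝ)) := by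
  set S : Set ℝ := {Real.exp 1, ∑' n : ℕ, (1 : ℝ) / ((n : ℝ) + 1) ^ 3} ∪
        range (fun i => Real.eulerMascheroniConstant + Real.log (r i)) ∪
        range (fun i => E1 (r i)) ∪ range (fun i => kap (r i)) with hS
  let G : Set ℝ := range fun i => G1 (r i)
  have hSfin : S.Finite := (((Set.toFinite _).union (finite_range _)).union (finite_range _)).union
    (finite_range _)
  have hr0 : ∀ i, -r i ≠ 0 := fun i => neg_ne_zero.2 (hpos i).ne'
  have hinj' : Function.Injective fun i => -r i := fun i j h => hinj (neg_injective h)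
  obtain ⟨D, n, hD, hn⟩ := exists_common_den fun i => -r i
  have hval := values_Wk (fun i => -r i) hr0 hinj' hD n hn
  have key := card_le_trdeg_add (G := G) hSfin hval (fun R hRS hRG =>
    vals_algebraic r hpos hD (hRS _ (by simp [hS])) (hRS _ (by simp [hS]))
      (fun i => hRS _ (Or.inl (Or.inl (Or.inr ⟨i, rfl⟩)))) (fun i => hRS _ (Or.inl (Or.inr ⟨i, rfl⟩)))
      (fun i => hRS _ (Or.inr ⟨i, rfl⟩)) (fun i => hRG _ ⟨i, rfl⟩))
  have h1 : #(Option (ι ⊕ ι ⊕ ι)) = ((2 * Fintype.card ι + 1 + Fintype.card ι : ℕ) : Cardinal) := by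
    rw [Cardinal.mk_fintype, Fintype.card_option, Fintype.card_sum, Fintype.card_sum]
    congr 1
    ring
  have h2 : #G ≤ (Fintype.card ι : Cardinal) := by
    refine mk_range_le.trans ?_
    rw [Cardinal.mk_fintype]
  rw [h1] at key
  exact nat_le_of_add_le (key.trans (add_le_add le_rfl h2))

/-- if the `2m` numbers `E_1(r_i)`, `∫_{r_i}^∞ E_1^2 dt / t` are algebraic then `m ≤ 1`, and `ζ(3)` is
transcendental if `m = 1` -/
theorem card_bound {ι : Type} [Fintype ι] [DecidableEq ι] (r : ι → ℚ) (hpos : ∀ i, 0 < r i)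
    (hinj : Function.Injective r) (hE : ∀ i, IsAlgebraic ℚ (E1 (r i)))
    (hk : ∀ i, IsAlgebraic ℚ (kap (r i))) {X : Set ℝ} {N : ℕ} (hX : #X ≤ (N : Cardinal))
    (he : Real.exp 1 ∈ X)
    (hz : IsAlgebraic (Algebra.adjoin ℚ X) (∑' n : ℕ, (1 : ℝ) / ((n : ℝ) + 1) ^ 3))
    (hl : ∀ i, Real.eulerMascheroniConstant + Real.log (r i) ∈ X) (hG : ∀ i, G1 (r i) ∈ X) :
    3 * Fintype.card ι + 1 ≤ N := by
  have hr0 : ∀ i, -r i ≠ 0 := fun i => neg_ne_zero.2 (hpos i).ne'
  have hinj' : Function.Injective fun i => -r i := fun i j h => hinj (neg_injective h)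
  obtain ⟨D, n, hD, hn⟩ := exists_common_den fun i => -r i
  have hval := values_Wk (fun i => -r i) hr0 hinj' hD n hn
  have hinjR : Function.Injective (algebraMap ℚ (Algebra.adjoin ℚ X)) := (algebraMap ℚ _).injective
  have hmem : ∀ x ∈ X, IsAlgebraic (Algebra.adjoin ℚ X) x := fun x hx =>
    isAlgebraic_algebraMap (⟨x, Algebra.subset_adjoin hx⟩ : Algebra.adjoin ℚ X)
  have key := card_le_of_algebraic hval (X := X) (vals_algebraic r hpos hD (hmem _ he) hz
    (fun i => hmem _ (hl i)) (fun i => (hE i).extendScalars hinjR)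
    (fun i => (hk i).extendScalars hinjR) (fun i => hmem _ (hG i)))
  have h1 : #(Option (ι ⊕ ι ⊕ ι)) = ((3 * Fintype.card ι + 1 : ℕ) : Cardinal) := by
    rw [Cardinal.mk_fintype, Fintype.card_option, Fintype.card_sum, Fintype.card_sum]
    congr 1
    ring
  rw [h1] at key
  exact_mod_cast key.trans hX

theorem one_of_three (r : ℚ) (hr : 0 < r) :
    Transcendental ℚ (∑' n : ℕ, (1 : ℝ) / ((n : ℝ) + 1) ^ 3) ∨ Transcendental ℚ (E1 r) ∨
      Transcendental ℚ (kap r) := by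
  classical
  by_contra hcon
  push Not at hcon
  obtain ⟨hz, hE, hk⟩ := hcon
  rw [Transcendental, not_not] at hz hE hk
  let X : Finset ℝ := {Real.exp 1, Real.eulerMascheroniConstant + Real.log r, G1 r}
  have hX : #((X : Set ℝ)) ≤ ((3 : ℕ) : Cardinal) := by
    have h0 : #((X : Set ℝ)) = X.card := Cardinal.mk_coe_finset
    rw [h0]
    exact_mod_cast Finset.card_le_three
  have h := card_bound (ι := Unit) (fun _ => r) (fun _ => hr) (fun _ _ _ => rfl) (fun _ => hE)
    (fun _ => hk) hX (by simp [X]) (hz.extendScalars (algebraMap ℚ _).injective)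
    (fun _ => by simp [X]) (fun _ => by simp [X])
  simp at h

theorem two_points (r s : ℚ) (hr : 0 < r) (hs : 0 < s) (hrs : r ≠ s) :
    Transcendental ℚ (E1 r) ∨ Transcendental ℚ (kap r) ∨ Transcendental ℚ (E1 s) ∨
      Transcendental ℚ (kap s) := by
  classical
  by_contra hcon
  push Not at hcon
  obtain ⟨hE, hk, hE', hk'⟩ := hcon
  rw [Transcendental, not_not] at hE hk hE' hk'
  let X : Finset ℝ := {Real.exp 1, ∑' n : ℕ, (1 : ℝ) / ((n : ℝ) + 1) ^ 3,
    Real.eulerMascheroniConstant + Real.log r, Real.eulerMascheroniConstant + Real.log s, G1 r, G1 s}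
  have hX : #((X : Set ℝ)) ≤ ((6 : ℕ) : Cardinal) := by
    have h0 : #((X : Set ℝ)) = X.card := Cardinal.mk_coe_finset
    rw [h0]
    exact_mod_cast Finset.card_le_six
  let ρ : Bool → ℚ := fun b => if b then r else s
  have hρ : Function.Injective ρ := by
    intro a b hab
    cases a <;> cases b <;> simp [ρ] at hab ⊢
    · exact hrs hab.symm
    · exact hrs hab
  have h := card_bound (ι := Bool) ρ (fun b => by cases b <;> simp [ρ, hr, hs]) hρ
    (fun b => by cases b <;> simpa [ρ]) (fun b => by cases b <;> simpa [ρ]) hX (by simp [X])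
    (isAlgebraic_algebraMap (⟨∑' n : ℕ, (1 : ℝ) / ((n : ℝ) + 1) ^ 3,
      Algebra.subset_adjoin (by simp [X])⟩ : Algebra.adjoin ℚ (X : Set ℝ)))
    (fun b => by cases b <;> simp [ρ, X]) (fun b => by cases b <;> simp [ρ, X])
  simp at h

end Pool.Agent.SS
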