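import Pool.Agent.SS.Linear

/-!
# Siegel–Shidlovskii: linear independence of values at `1`
-/

namespace Pool.Agent.SS

open Polynomial Matrix

variable {w : ℕ}

theorem pow_le_three_pow_mul_factorial (N : ℕ) : (N : ℝ) ^ N ≤ 3 ^ N * N.factorial := by
  have h5 := Real.pow_div_factorial_le_exp (N : ℝ) (by positivity) N
  have h6 : Real.exp (N : ℝ) ≤ 3 ^ N := by
    have : Real.exp (N : ℝ) = Real.exp 1 ^ N := by
      rw [← Real.exp_nat_mul, mul_one]
    rw [this]
    apply pow_le_pow_left₀ (Real.exp_pos _).le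
    have := Real.exp_one_lt_d9
    linarith
  rw [div_le_iff₀ (by positivity)] at h5
  exact h5.trans (mul_le_mul_of_nonneg_right h6 (by positivity))

/-- **Siegel–Shidlovskii, linear form.**  Let `f i = ∑ a i n / n! X^n` be `E`-functions with
rational coefficients, spanning a `θ`-stable `ℚ[X]`-module, linearly independent over `ℚ[X]`, one of
which is the constant `1`.  Then their values at `1` are linearly independent over `ℤ`. -/
theorem ss_linear (M : Matrix (Fin w) (Fin w) ℚ[X]) (a : Fin w → ℕ → ℚ)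
    (hE : ∀ i, EData (a i))
    (hf : ∀ i, ths (eser (a i)) = ∑ j, (M i j : PowerSeries ℚ) * eser (a j))
    (hli : ∀ P : Fin w → ℚ[X], lin (fun i => eser (a i)) P = 0 → P = 0)
    (i0 : Fin w) (hi0 : eser (a i0) = 1)
    (lam : Fin w → ℤ) (hlam : lam ≠ 0) : ∑ i, (lam i : ℝ) * ev (eser (a i)) ≠ 0 := by
  intro hrel
  have hev : ev (eser (a i0)) = 1 := by
    have h2 := ev_coe (1 : ℚ[X])
    rw [Polynomial.coe_one] at h2
    rw [hi0, h2]; simp
  have hw : 1 ≤ w := by have := i0.2; omega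
  rcases Nat.lt_or_ge w 2 with hw2 | hw2
  · obtain rfl : w = 1 := by omega
    apply hlam
    ext i
    have h1 : i = i0 := Subsingleton.elim _ _
    rw [Fintype.sum_eq_single i0 (fun j hj => absurd (Subsingleton.elim j i0) hj), hev, mul_one]
      at hrel
    rw [h1]
    simpa using hrel
  obtain ⟨v, rfl⟩ : ∃ v, w = v + 2 := ⟨w - 2, by omega⟩
  obtain ⟨c₃, k₁, D, Λ, A, hD, hΛ, hA, hineq⟩ :=
    fundamental_inequality M a hE hf hli i0 hi0 lam hlam hrel
  have hfac : (1 : ℝ) ≤ ((v + 2).factorial : ℝ) := by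
    exact_mod_cast Nat.succ_le_of_lt (Nat.factorial_pos _)
  have hc₅ : 1 ≤ ((v + 2).factorial : ℝ) * Λ * A :=
    one_le_mul_of_one_le_of_one_le (one_le_mul_of_one_le_of_one_le hfac hΛ) hA
  obtain ⟨k0, hk0⟩ := growth v c₃ (3 * D) (((v + 2).factorial : ℝ) * Λ * A) (by linarith) hc₅
  set k := max (max k₁ k0) 1 with hk
  have hkk1 : k₁ ≤ k := (le_max_left _ _).trans (le_max_left _ _)
  have hkk0 : k0 ≤ k := (le_max_right _ _).trans (le_max_left _ _)
  have hk1 : 1 ≤ k := le_max_right _ _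
  obtain ⟨𝓑, ε, h𝓑0, hε0, hone, h𝓑, hε⟩ := hineq k hkk1
  have hgr := hk0 k hkk0
  have hcast : ((4 * (v + 2) * k : ℝ)) = ((4 * (v + 2) * k : ℕ) : ℝ) := by push_cast; ring
  rw [hcast] at hgr
  set n := 4 * (v + 2) * k with hn
  set N := (v + 2) * n - k with hN
  set E := k + c₃ + n with hE'
  have hkn : 4 * k ≤ n := by
    rw [hn]
    have : 4 * 1 * k ≤ 4 * (v + 2) * k := by gcongr
    omega
  have hnN : n ≤ N := by
    have : 2 * n ≤ (v + 2) * n := Nat.mul_le_mul_right _ (by omega)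
    omega
  have hNf : (0 : ℝ) < (N.factorial : ℝ) := by positivity
  have hD0 : 0 < D := by linarith
  have h1 : Λ * 𝓑 ^ (v + 2 - 1) * (ε / 𝓑) = Λ * (𝓑 ^ v * ε) := by
    have : v + 2 - 1 = v + 1 := by omega
    rw [this, pow_succ]
    field_simp
  rw [h1] at hone
  have h2 : 𝓑 ^ v * ε ≤ ((D * n) ^ E) ^ v * (A * D ^ E * (n : ℝ) ^ E * (D ^ N / N.factorial)) := by
    apply mul_le_mul _ hε hε0 (by positivity)
    exact pow_le_pow_left₀ h𝓑0.le h𝓑 v
  have h3 : 1 ≤ ((v + 2).factorial : ℝ) * (Λ *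
      (((D * n) ^ E) ^ v * (A * D ^ E * (n : ℝ) ^ E * (D ^ N / N.factorial)))) := by
    refine hone.trans ?_
    apply mul_le_mul_of_nonneg_left _ (by positivity)
    exact mul_le_mul_of_nonneg_left h2 (by linarith)
  have h4 : (N.factorial : ℝ) ≤ ((v + 2).factorial : ℝ) * Λ * A * D ^ ((v + 1) * E + N) *
      (n : ℝ) ^ ((v + 1) * E) := by
    have h5 : ((v + 2).factorial : ℝ) * (Λ *
      (((D * n) ^ E) ^ v * (A * D ^ E * (n : ℝ) ^ E * (D ^ N / N.factorial)))) =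
      (((v + 2).factorial : ℝ) * Λ * A * D ^ ((v + 1) * E + N) * (n : ℝ) ^ ((v + 1) * E)) /
        N.factorial := by
      have e1 : D ^ ((v + 1) * E + N) = (D ^ E) ^ v * D ^ E * D ^ N := by
        rw [← pow_mul, ← pow_add, ← pow_add]; congr 1; ring
      have e2 : (n : ℝ) ^ ((v + 1) * E) = ((n : ℝ) ^ E) ^ v * (n : ℝ) ^ E := by
        rw [← pow_mul, ← pow_add]; congr 1; ring
      rw [e1, e2, mul_pow, mul_pow]
      ring
    rw [h5, le_div_iff₀ hNf, one_mul] at h3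
    exact h3
  have h5 : (n : ℝ) ^ N ≤ (N : ℝ) ^ N :=
    pow_le_pow_left₀ (by positivity) (by exact_mod_cast hnN) _
  have h6 := pow_le_three_pow_mul_factorial N
  have h7 : (n : ℝ) ^ N ≤ 3 ^ N * (((v + 2).factorial : ℝ) * Λ * A * D ^ ((v + 1) * E + N) *
      (n : ℝ) ^ ((v + 1) * E)) :=
    (h5.trans h6).trans (mul_le_mul_of_nonneg_left h4 (by positivity))
  have h8 : (3 : ℝ) ^ N * (((v + 2).factorial : ℝ) * Λ * A * D ^ ((v + 1) * E + N) *
      (n : ℝ) ^ ((v + 1) * E)) ≤ ((v + 2).factorial : ℝ) * Λ * A * (3 * D) ^ ((v + 1) * E + N) *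
      (n : ℝ) ^ ((v + 1) * E) := by
    rw [mul_pow]
    have h9 : (3 : ℝ) ^ N ≤ 3 ^ ((v + 1) * E + N) := pow_le_pow_right₀ (by norm_num) (by omega)
    calc (3 : ℝ) ^ N * (((v + 2).factorial : ℝ) * Λ * A * D ^ ((v + 1) * E + N) *
        (n : ℝ) ^ ((v + 1) * E)) = 3 ^ N * ((((v + 2).factorial : ℝ) * Λ * A) *
          (D ^ ((v + 1) * E + N) * (n : ℝ) ^ ((v + 1) * E))) := by ring
      _ ≤ 3 ^ ((v + 1) * E + N) * ((((v + 2).factorial : ℝ) * Λ * A) *
          (D ^ ((v + 1) * E + N) * (n : ℝ) ^ ((v + 1) * E))) := by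
        apply mul_le_mul_of_nonneg_right h9 (by positivity)
      _ = _ := by ring
  exact absurd hgr (not_lt.2 (h7.trans h8))

end Pool.Agent.SS
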