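import Pool.Agent.SS.Fundamental
import Pool.Agent.SS.Defs

/-!
# The local field at `z = 1`
-/

namespace Pool.Agent.SS

open Polynomial Matrix

/-- local field at `z = 1`: Laurent series in `u = z - 1` -/
def KK : Type := LaurentSeries ℚ

noncomputable instance : Field KK := inferInstanceAs (Field (LaurentSeries ℚ))

instance : CharZero KK := by
  have h : CharZero (LaurentSeries ℚ) := by
    refine ⟨fun a b hab => ?_⟩
    have ha : ∀ a : ℕ, ((a : ℕ) : LaurentSeries ℚ) = HahnSeries.C (a : ℚ) := fun a => by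
      rw [map_natCast]
    rw [ha, ha] at hab
    have := (HahnSeries.C_injective hab)
    exact_mod_cast this
  exact h

/-- power series to `KK` -/
noncomputable def toKK : PowerSeries ℚ →+* KK := HahnSeries.ofPowerSeries ℤ ℚ

theorem toKK_injective : Function.Injective toKK := HahnSeries.ofPowerSeries_injective

/-- Taylor expansion at `z = 1` -/
noncomputable def psiPS : ℚ[X] →+* PowerSeries ℚ :=
  (Polynomial.coeToPowerSeries.ringHom : ℚ[X] →+* PowerSeries ℚ).comp
    (Polynomial.compRingHom (X + 1))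

theorem psiPS_apply (p : ℚ[X]) : psiPS p = ((p.comp (X + 1) : ℚ[X]) : PowerSeries ℚ) := rfl

theorem comp_injective : Function.Injective fun p : ℚ[X] => p.comp (X + 1) := by
  intro p q h
  have h2 : (p.comp (X + 1)).comp (X - 1) = (q.comp (X + 1)).comp (X - 1) := congrArg (fun r => r.comp (X - 1)) h
  rw [comp_assoc, comp_assoc] at h2
  have : (X + 1 : ℚ[X]).comp (X - 1) = X := by simp
  rwa [this, comp_X, comp_X] at h2

theorem psiPS_injective : Function.Injective psiPS := by
  intro p q h
  rw [psiPS_apply, psiPS_apply, Polynomial.coe_inj] at h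
  exact comp_injective h

noncomputable instance : Algebra ℚ[X] KK := (toKK.comp psiPS).toAlgebra

theorem algebraMap_KK (p : ℚ[X]) : algebraMap ℚ[X] KK p = toKK (psiPS p) := rfl

/-- the Euler derivation on `KK` -/
noncomputable def eulerKK : KK →+ KK := euler

theorem eulerKK_mul (x y : KK) : eulerKK (x * y) = eulerKK x * y + x * eulerKK y :=
  euler_mul x y

/-- `(1+u) d/du` on `KK`. -/
noncomputable def del : KK →+ KK :=
  (AddMonoidHom.mulLeft ((toKK (1 + PowerSeries.X)) * (toKK PowerSeries.X)⁻¹)).comp eulerKK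

theorem del_apply (x : KK) :
    del x = (toKK (1 + PowerSeries.X)) * (toKK PowerSeries.X)⁻¹ * eulerKK x := rfl

theorem del_mul (x y : KK) : del (x * y) = del x * y + x * del y := by
  rw [del_apply, del_apply, del_apply, eulerKK_mul]
  ring

theorem toKK_X_ne_zero : toKK PowerSeries.X ≠ 0 := by
  intro h
  have := toKK_injective (h.trans (map_zero _).symm)
  exact PowerSeries.X_ne_zero this

theorem toKK_one_add_X_ne_zero : toKK (1 + PowerSeries.X) ≠ 0 := by
  intro h
  have := toKK_injective (h.trans (map_zero _).symm)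
  have h2 := congrArg (PowerSeries.constantCoeff) this
  simp at h2

theorem del_const (x : KK) (h : del x = 0) : ∃ q : ℚ, x = (q : KK) := by
  rw [del_apply] at h
  have h1 : (toKK (1 + PowerSeries.X)) * (toKK PowerSeries.X)⁻¹ ≠ 0 :=
    mul_ne_zero toKK_one_add_X_ne_zero (inv_ne_zero toKK_X_ne_zero)
  have h2 := (mul_eq_zero.1 h).resolve_left h1
  exact exists_rat_of_euler_eq_zero h2

theorem del_toKK (f : PowerSeries ℚ) :
    del (toKK f) = toKK ((1 + PowerSeries.X) * PowerSeries.derivative ℚ f) := by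
  rw [del_apply]
  have h : eulerKK (toKK f) =
      toKK (PowerSeries.X * PowerSeries.derivative ℚ f) := euler_coe f
  rw [h, map_mul, map_mul]
  have := toKK_X_ne_zero
  field_simp

theorem del_compat (p : ℚ[X]) : del (algebraMap ℚ[X] KK p) = algebraMap ℚ[X] KK (thp p) := by
  rw [algebraMap_KK, del_toKK, algebraMap_KK]
  congr 1
  rw [psiPS_apply, psiPS_apply, PowerSeries.derivative_coe]
  rw [thp, mul_comp, derivative_comp, X_comp]
  simp [add_comm]

/-- the local fundamental matrix -/
theorem exists_local_fundamental {w : ℕ} (M : Matrix (Fin w) (Fin w) ℚ[X]) :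
    ∃ Y Z : Matrix (Fin w) (Fin w) (PowerSeries ℚ), Y * Z = 1 ∧
      Y.map (PowerSeries.constantCoeff) = 1 ∧
      (Y.map fun f => (1 + PowerSeries.X) * PowerSeries.derivative ℚ f) = M.map psiPS * Y := by
  have hu : IsUnit (1 + PowerSeries.X : PowerSeries ℚ) := by
    rw [PowerSeries.isUnit_iff_constantCoeff]
    simp
  obtain ⟨u, hu⟩ := hu
  obtain ⟨Y, hY, hY0⟩ := exists_fundamental ((M.map psiPS).map fun f => (↑u⁻¹ : PowerSeries ℚ) * f)
  have hdet : IsUnit Y.det := by
    rw [PowerSeries.isUnit_iff_constantCoeff]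
    have : PowerSeries.constantCoeff Y.det = (Y.map (PowerSeries.constantCoeff)).det := by
      rw [RingHom.map_det]; rfl
    rw [this, hY0, Matrix.det_one]
    exact isUnit_one
  refine ⟨Y, Y⁻¹, Matrix.mul_nonsing_inv _ hdet, hY0, ?_⟩
  ext1 i j
  have h1 := congrFun (congrFun hY i) j
  simp only [Matrix.map_apply, Matrix.mul_apply] at h1 ⊢
  rw [h1, Finset.mul_sum]
  refine Finset.sum_congr rfl fun l _ => ?_
  rw [← hu]
  rw [← mul_assoc, ← mul_assoc, Units.mul_inv, one_mul]

theorem exists_KK_fundamental {w : ℕ} (M : Matrix (Fin w) (Fin w) ℚ[X]) :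
    ∃ Y Z : Matrix (Fin w) (Fin w) KK, Y * Z = 1 ∧
      Y.map del = M.map (algebraMap ℚ[X] KK) * Y := by
  obtain ⟨Y, Z, h1, _, h3⟩ := exists_local_fundamental M
  refine ⟨Y.map toKK, Z.map toKK, ?_, ?_⟩
  · rw [← Matrix.map_mul, h1]
    ext i j
    by_cases hij : i = j
    · subst hij; simp
    · simp [Matrix.one_apply_ne hij]
  · ext1 i j
    have h4 := congrFun (congrFun h3 i) j
    simp only [Matrix.map_apply, Matrix.mul_apply] at h4 ⊢
    rw [del_toKK, h4, map_sum]
    simp only [map_mul, algebraMap_KK]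

end Pool.Agent.SS
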