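import Pool.Agent.SS.Shid

/-!
# The rank of the derived forms at `z = 1`
-/

namespace Pool.Agent.SS

open Polynomial Matrix

variable {w : ℕ}

theorem constantCoeff_psiPS (p : ℚ[X]) : PowerSeries.constantCoeff (psiPS p) = p.eval 1 := by
  rw [psiPS_apply, ← PowerSeries.coeff_zero_eq_constantCoeff_apply, Polynomial.coeff_coe,
    Polynomial.coeff_zero_eq_eval_zero, eval_comp]
  simp

theorem X_pow_dvd_of_deriv {g h : PowerSeries ℚ} {m : ℕ}
    (hg : (1 + PowerSeries.X) * PowerSeries.derivative ℚ g = h) (h0 : PowerSeries.constantCoeff g = 0)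
    (hm : PowerSeries.X ^ m ∣ h) : PowerSeries.X ^ (m + 1) ∣ g := by
  have hu : IsUnit (1 + PowerSeries.X : PowerSeries ℚ) := by
    rw [PowerSeries.isUnit_iff_constantCoeff]
    simp
  have h1 : PowerSeries.X ^ m ∣ PowerSeries.derivative ℚ g := by
    rw [← hg] at hm
    exact (IsUnit.dvd_mul_left hu).1 hm
  rw [PowerSeries.X_pow_dvd_iff] at h1 ⊢
  intro n hn
  cases n with
  | zero => rw [PowerSeries.coeff_zero_eq_constantCoeff_apply]; exact h0
  | succ n =>
    have h2 := h1 n (by omega)
    rw [PowerSeries.coeff_derivative] at h2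
    have h3 : ((n : ℚ) + 1) ≠ 0 := by positivity
    exact (mul_eq_zero.1 h2).resolve_right h3

theorem rank_at_one (M : Matrix (Fin w) (Fin w) ℚ[X]) (P : Fin w → ℚ[X]) (s : ℕ)
    (hs : ¬ (X - 1) ^ (s + 1) ∣ (Matrix.of fun (k j : Fin w) => (DD M)^[k] P j).det)
    (lam : Fin w → ℚ)
    (h : ∀ k < w + s, ∑ j, ((DD M)^[k] P j).eval 1 * lam j = 0) : lam = 0 := by
  classical
  obtain ⟨Y, Z, _, hY0, hY⟩ := exists_local_fundamental M
  let y : Fin w → PowerSeries ℚ := fun i => ∑ l, Y i l * PowerSeries.C (lam l)
  have hy0 : ∀ i, PowerSeries.constantCoeff (y i) = lam i := by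
    intro i
    simp only [y, map_sum, map_mul, PowerSeries.constantCoeff_C]
    have : ∀ l, PowerSeries.constantCoeff (Y i l) = (1 : Matrix (Fin w) (Fin w) ℚ) i l := by
      intro l
      rw [← hY0]; rfl
    simp [this, Matrix.one_apply]
  have hy : ∀ i, (1 + PowerSeries.X) * PowerSeries.derivative ℚ (y i) =
      ∑ j, psiPS (M i j) * y j := by
    intro i
    simp only [y, map_sum, Derivation.leibniz, smul_eq_mul]
    have hC : ∀ l, PowerSeries.derivative ℚ (PowerSeries.C (lam l)) = 0 := by
      intro l
      ext n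
      rw [PowerSeries.coeff_derivative]
      simp [PowerSeries.coeff_C]
    simp only [hC, mul_zero, zero_add, Finset.mul_sum]
    rw [Finset.sum_comm]
    refine Finset.sum_congr rfl fun l _ => ?_
    have h1 := congrFun (congrFun hY i) l
    simp only [Matrix.map_apply, Matrix.mul_apply] at h1
    calc (1 + PowerSeries.X) * (PowerSeries.C (lam l) * PowerSeries.derivative ℚ (Y i l))
        = ((1 + PowerSeries.X) * PowerSeries.derivative ℚ (Y i l)) * PowerSeries.C (lam l) := by ring
      _ = _ := by
        rw [h1, Finset.sum_mul]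
        refine Finset.sum_congr rfl fun j _ => by ring
  -- the forms at y
  let g : ℕ → PowerSeries ℚ := fun k => ∑ j, psiPS ((DD M)^[k] P j) * y j
  have hg0 : ∀ k < w + s, PowerSeries.constantCoeff (g k) = 0 := by
    intro k hk
    simp only [g, map_sum, map_mul, constantCoeff_psiPS, hy0]
    exact h k hk
  have hgs : ∀ k, (1 + PowerSeries.X) * PowerSeries.derivative ℚ (g k) = g (k + 1) := by
    intro k
    have hpsi : ∀ p : ℚ[X], (1 + PowerSeries.X) * PowerSeries.derivative ℚ (psiPS p) = psiPS (thp p) := by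
      intro p
      apply toKK_injective
      rw [← del_toKK]
      exact del_compat p
    have h1 : (1 + PowerSeries.X) * PowerSeries.derivative ℚ (g k) =
        ∑ j, (psiPS (thp ((DD M)^[k] P j)) * y j +
          psiPS ((DD M)^[k] P j) * ∑ l, psiPS (M j l) * y l) := by
      simp only [g, map_sum, Derivation.leibniz, smul_eq_mul]
      rw [Finset.mul_sum]
      refine Finset.sum_congr rfl fun j _ => ?_
      rw [← hy, ← hpsi]
      ring
    rw [h1]
    simp only [g]
    rw [Function.iterate_succ_apply']
    have h2 : ∀ j, psiPS (DD M ((DD M)^[k] P) j) * y j =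
        psiPS (thp ((DD M)^[k] P j)) * y j + ∑ i, psiPS ((DD M)^[k] P i) * psiPS (M i j) * y j := by
      intro j
      simp only [DD, map_add, map_sum, map_mul, add_mul, Finset.sum_mul]
    simp only [h2, Finset.sum_add_distrib]
    congr 1
    rw [Finset.sum_comm]
    refine Finset.sum_congr rfl fun i _ => ?_
    rw [Finset.mul_sum]
    refine Finset.sum_congr rfl fun j _ => ?_
    ring
  have hdiv : ∀ m, m ≤ w + s → PowerSeries.X ^ m ∣ g (w + s - m) := by
    intro m
    induction m with
    | zero => intro _; simp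
    | succ m ih =>
      intro hm
      have h1 := ih (by omega)
      have h2 : w + s - m = (w + s - (m + 1)) + 1 := by omega
      rw [h2] at h1
      exact X_pow_dvd_of_deriv (hgs _) (hg0 _ (by omega)) h1
  have hdiv2 : ∀ k : Fin w, PowerSeries.X ^ (s + 1) ∣ g k := by
    intro k
    have h1 := hdiv (w + s - k) (by omega)
    have h2 : w + s - (w + s - k) = k := by have := k.2; omega
    rw [h2] at h1
    refine dvd_trans (pow_dvd_pow _ ?_) h1
    have := k.2; omega
  -- Cramer
  set A : Matrix (Fin w) (Fin w) ℚ[X] := Matrix.of fun (k j : Fin w) => (DD M)^[k] P j with hA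
  by_contra hne
  obtain ⟨i, hi⟩ := Function.ne_iff.1 hne
  have h1 : psiPS A.det * y i = ∑ k, psiPS (A.adjugate i k) * g k := by
    have h2 : ∀ j, ∑ k, A.adjugate i k * A k j = if i = j then A.det else 0 := by
      intro j
      have := congrFun (congrFun (Matrix.adjugate_mul A) i) j
      rw [Matrix.mul_apply] at this
      rw [this]
      simp [Matrix.one_apply]
    have h3 : ∀ j, ∑ k, psiPS (A.adjugate i k) * psiPS (A k j) = if i = j then psiPS A.det else 0 := by
      intro j
      have := congrArg psiPS (h2 j)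
      rw [map_sum] at this
      simp only [map_mul] at this
      rw [this]
      split_ifs <;> simp
    simp only [g, Finset.mul_sum]
    rw [Finset.sum_comm]
    have h4 : ∀ j, ∑ k, psiPS (A.adjugate i k) * (psiPS ((DD M)^[k] P j) * y j) =
        (if i = j then psiPS A.det else 0) * y j := by
      intro j
      rw [← h3 j, Finset.sum_mul]
      refine Finset.sum_congr rfl fun k _ => ?_
      simp only [A, Matrix.of_apply]
      ring
    simp only [h4]
    simp
  have h5 : PowerSeries.X ^ (s + 1) ∣ psiPS A.det * y i := by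
    rw [h1]
    apply Finset.dvd_sum
    intro k _
    exact Dvd.dvd.mul_left (hdiv2 k) _
  have hyu : IsUnit (y i) := by
    rw [PowerSeries.isUnit_iff_constantCoeff, hy0]
    exact isUnit_iff_ne_zero.2 hi
  have h6 : PowerSeries.X ^ (s + 1) ∣ psiPS A.det := (IsUnit.dvd_mul_right hyu).1 h5
  apply hs
  have h7 : X ^ (s + 1) ∣ A.det.comp (X + 1) := by
    rw [Polynomial.X_pow_dvd_iff]
    intro d hd
    have := PowerSeries.X_pow_dvd_iff.1 h6 d hd
    rw [psiPS_apply] at this
    simpa using this
  obtain ⟨q, hq⟩ := h7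
  refine ⟨q.comp (X - 1), ?_⟩
  have h8 : (A.det.comp (X + 1)).comp (X - 1) = (X ^ (s + 1) * q).comp (X - 1) := by rw [hq]
  rw [comp_assoc] at h8
  have h9 : (X + 1 : ℚ[X]).comp (X - 1) = X := by simp
  rw [h9, comp_X] at h8
  rw [h8]
  simp

end Pool.Agent.SS
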