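import Pool.Agent.SS.AuxForm
import Pool.Agent.SS.Alg
import Pool.Agent.SS.RankOne

/-!
# Siegel–Shidlovskii: linear independence of values at `1`
-/

namespace Pool.Agent.SS

open Polynomial Matrix

variable {w : ℕ}

theorem coe_dvd_of_powerSeries_dvd {p : ℚ[X]} {N : ℕ}
    (h : (PowerSeries.X : PowerSeries ℚ) ^ N ∣ (p : PowerSeries ℚ)) : X ^ N ∣ p := by
  rw [Polynomial.X_pow_dvd_iff]
  intro d hd
  have := PowerSeries.X_pow_dvd_iff.1 h d hd
  simpa using this

/-- multiplicity of `1` as a zero of the determinant -/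
theorem mult_at_one (M : Matrix (Fin w) (Fin w) ℚ[X]) (f : Fin w → PowerSeries ℚ)
    (hf : ∀ i, ths (f i) = ∑ j, (M i j : PowerSeries ℚ) * f j) (i0 : Fin w) (hi0 : f i0 = 1)
    (P : Fin w → ℚ[X]) {t n N : ℕ} (ht : ∀ i j, (M i j).natDegree ≤ t)
    (hn : ∀ i, (P i).natDegree ≤ n) (hord : PowerSeries.X ^ N ∣ lin f P)
    (hdet : (Matrix.of fun (k j : Fin w) => (DD M)^[k] P j).det ≠ 0) (s : ℕ)
    (hs : w * (n + w * t) ≤ N + s) :
    ¬ (X - 1) ^ (s + 1) ∣ (Matrix.of fun (k j : Fin w) => (DD M)^[k] P j).det := by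
  set A : Matrix (Fin w) (Fin w) ℚ[X] := Matrix.of fun (k j : Fin w) => (DD M)^[k] P j with hA
  have hR : ∀ k : ℕ, PowerSeries.X ^ N ∣ lin f ((DD M)^[k] P) := by
    intro k
    rw [lin_iterate M f hf]
    exact X_pow_dvd_ths_iterate hord k
  have h1 : ((A.det : ℚ[X]) : PowerSeries ℚ) = ∑ k : Fin w,
      ((A.adjugate i0 k : ℚ[X]) : PowerSeries ℚ) * lin f ((DD M)^[k] P) := by
    have h2 : ∀ j, ∑ k, A.adjugate i0 k * A k j = if i0 = j then A.det else 0 := by
      intro j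
      have := congrFun (congrFun (Matrix.adjugate_mul A) i0) j
      rw [Matrix.mul_apply] at this
      rw [this]
      simp [Matrix.one_apply]
    have h3 : ∀ j, ∑ k, ((A.adjugate i0 k : ℚ[X]) : PowerSeries ℚ) * ((A k j : ℚ[X]) : PowerSeries ℚ)
        = if i0 = j then ((A.det : ℚ[X]) : PowerSeries ℚ) else 0 := by
      intro j
      have h4 := congrArg (Polynomial.coeToPowerSeries.ringHom : ℚ[X] →+* PowerSeries ℚ) (h2 j)
      rw [map_sum] at h4
      simp only [map_mul, Polynomial.coeToPowerSeries.ringHom_apply] at h4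
      rw [h4]
      split_ifs <;> simp
    simp only [lin, Finset.mul_sum]
    rw [Finset.sum_comm]
    have h4 : ∀ j, ∑ k : Fin w, ((A.adjugate i0 k : ℚ[X]) : PowerSeries ℚ) *
        (((DD M)^[k] P j : ℚ[X]) * f j) =
        (if i0 = j then ((A.det : ℚ[X]) : PowerSeries ℚ) else 0) * f j := by
      intro j
      rw [← h3 j, Finset.sum_mul]
      refine Finset.sum_congr rfl fun k _ => ?_
      simp only [A, Matrix.of_apply]
      ring
    simp only [h4]
    simp [hi0]
  have h2 : (PowerSeries.X : PowerSeries ℚ) ^ N ∣ ((A.det : ℚ[X]) : PowerSeries ℚ) := by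
    rw [h1]
    apply Finset.dvd_sum
    intro k _
    exact Dvd.dvd.mul_left (hR k) _
  obtain ⟨q, hq⟩ := coe_dvd_of_powerSeries_dvd h2
  intro hcon
  have hcop : IsCoprime ((X - 1 : ℚ[X]) ^ (s + 1)) (X ^ N) := by
    apply IsCoprime.pow
    refine ⟨-1, 1, by ring⟩
  have h3 : (X - 1 : ℚ[X]) ^ (s + 1) ∣ q := by
    apply hcop.dvd_of_dvd_mul_left
    rw [← hq]; exact hcon
  have hq0 : q ≠ 0 := by
    rintro rfl
    exact hdet (by rw [hq, mul_zero])
  have h4 : s + 1 ≤ q.natDegree := by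
    have h5 := Polynomial.natDegree_le_of_dvd h3 hq0
    have h6 : ((X - 1 : ℚ[X]) ^ (s + 1)).natDegree = s + 1 := by
      have : (X - 1 : ℚ[X]) = X - C 1 := by simp
      rw [natDegree_pow, this, natDegree_X_sub_C, mul_one]
    omega
  have h5 : A.det.natDegree = N + q.natDegree := by
    rw [hq, natDegree_mul (pow_ne_zero _ X_ne_zero) hq0, natDegree_X_pow]
  have h6 : A.det.natDegree ≤ w * (n + w * t) := by
    apply natDegree_det_le'
    intro k j
    refine le_trans (natDegree_DD_iterate_le M ht P hn k j) ?_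
    have hk : (k : ℕ) ≤ w := k.2.le
    have := Nat.mul_le_mul_right t hk
    omega
  omega

theorem pow_le_factorial_mul (m k K : ℕ) (hk : k ≤ K) :
    (m : ℝ) ^ k ≤ K.factorial * 3 ^ m := by
  have h1 : (1 : ℝ) ≤ K.factorial := by exact_mod_cast Nat.succ_le_of_lt (Nat.factorial_pos K)
  have h3 : (1 : ℝ) ≤ 3 ^ m := one_le_pow₀ (by norm_num)
  rcases Nat.eq_zero_or_pos m with rfl | hm
  · have : ((0 : ℕ) : ℝ) ^ k ≤ 1 := by
      rcases Nat.eq_zero_or_pos k with rfl | hk0
      · simp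
      · rw [Nat.cast_zero, zero_pow (by omega)]; norm_num
    refine this.trans ?_
    nlinarith
  · have h4 : (m : ℝ) ^ k ≤ (m : ℝ) ^ K := by
      apply pow_le_pow_right₀ _ hk
      exact_mod_cast hm
    have h5 := Real.pow_div_factorial_le_exp (m : ℝ) (by positivity) K
    have h6 : Real.exp (m : ℝ) ≤ 3 ^ m := by
      have : Real.exp (m : ℝ) = Real.exp 1 ^ m := by
        rw [← Real.exp_nat_mul, mul_one]
      rw [this]
      apply pow_le_pow_left₀ (Real.exp_pos _).le
      have := Real.exp_one_lt_d9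
      linarith
    rw [div_le_iff₀ (by positivity)] at h5
    calc (m : ℝ) ^ k ≤ (m : ℝ) ^ K := h4
      _ ≤ Real.exp m * K.factorial := h5
      _ ≤ 3 ^ m * K.factorial := mul_le_mul_of_nonneg_right h6 (by positivity)
      _ = _ := by ring

/-- smallness of the values of the derived forms -/
theorem abs_ev_iterate_le {L : PowerSeries ℚ} {N : ℕ} (hord : PowerSeries.X ^ N ∣ L)
    {A B : ℝ} (hA : 0 ≤ A) (hB : 0 ≤ B)
    (hL : ∀ m, |((PowerSeries.coeff m L : ℚ) : ℝ)| ≤ A * (B ^ m / m.factorial))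
    (k K : ℕ) (hk : k ≤ K) :
    |ev (ths^[k] L)| ≤ (K.factorial * A) * ((3 * B) ^ N / N.factorial * Real.exp (3 * B)) := by
  unfold ev
  apply tail_le (3 * B) (by positivity) N _ (K.factorial * A)
  · intro m hm
    rw [coeff_ths_iterate, PowerSeries.X_pow_dvd_iff.1 hord m hm]
    simp
  · intro m _
    rw [coeff_ths_iterate]
    push_cast
    rw [abs_mul, abs_of_nonneg (by positivity : (0 : ℝ) ≤ (m : ℝ) ^ k)]
    calc (m : ℝ) ^ k * |((PowerSeries.coeff m L : ℚ) : ℝ)|
        ≤ (K.factorial * 3 ^ m) * (A * (B ^ m / m.factorial)) :=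
          mul_le_mul (pow_le_factorial_mul m k K hk) (hL m) (abs_nonneg _) (by positivity)
      _ = _ := by rw [mul_pow]; ring
  · positivity

/-- the growth estimate -/
theorem growth (v c₃ : ℕ) (D c₅ : ℝ) (hD : 1 ≤ D) (hc₅ : 1 ≤ c₅) :
    ∃ k0 : ℕ, ∀ k, k0 ≤ k → c₅ * D ^ ((v + 1) * (k + c₃ + 4 * (v + 2) * k) +
      ((v + 2) * (4 * (v + 2) * k) - k)) * (4 * (v + 2) * k : ℝ) ^ ((v + 1) * (k + c₃ + 4 * (v + 2) * k)) <
      (4 * (v + 2) * k : ℝ) ^ ((v + 2) * (4 * (v + 2) * k) - k) := by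
  obtain ⟨k1, hk1⟩ := exists_nat_gt (c₅ * D ^ (4 * (v + 2)))
  refine ⟨max k1 (c₃ + 1), fun k hk => ?_⟩
  have hkk1 : k1 ≤ k := (le_max_left _ _).trans hk
  have hkc : c₃ + 1 ≤ k := (le_max_right _ _).trans hk
  have hk0 : 1 ≤ k := by omega
  have hkr : c₅ * D ^ (4 * (v + 2)) < k := hk1.trans_le (by exact_mod_cast hkk1)
  set w := v + 2 with hw
  set n := 4 * w * k with hn
  set N := w * n - k with hN
  set E := (v + 1) * (k + c₃ + n) with hE
  -- exponents
  have hwn : k ≤ w * n := by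
    rw [hn]
    have h1 : 1 * (4 * 1 * k) ≤ w * (4 * w * k) := by gcongr <;> omega
    omega
  have hEN : E + 2 * w * k ≤ N := by
    have h1 : E + w * k + n = (v + 1) * c₃ + (v + 1) * k + w * k + w * n := by
      rw [hE]
      have : w * n = (v + 1) * n + n := by rw [hw]; ring
      rw [this]; ring
    have h2 : (v + 1) * c₃ ≤ (v + 1) * k := Nat.mul_le_mul_left _ (by omega)
    have h3 : (v + 1) * k + k = w * k := by rw [hw]; ring
    have h4 : n = 4 * (w * k) := by rw [hn]; ring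
    have h5 : 2 * w * k = 2 * (w * k) := by ring
    omega
  have hE2 : E + N ≤ 4 * w * (2 * w * k) := by
    have h1 : E + N ≤ 2 * N := by omega
    have h2 : N ≤ w * n := Nat.sub_le _ _
    have h3 : 2 * (w * n) = 4 * w * (2 * w * k) := by rw [hn]; ring
    omega
  have hnk : (k : ℝ) ≤ (n : ℝ) := by
    have : k ≤ n := by
      rw [hn]
      have : 1 * k ≤ 4 * w * k := by gcongr; omega
      omega
    exact_mod_cast this
  have hcast : ((4 * (v + 2) * k : ℝ)) = (n : ℝ) := by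
    rw [hn, hw]; push_cast; ring
  rw [hcast]
  have hn1 : (1 : ℝ) ≤ n := le_trans (by exact_mod_cast hk0) hnk
  have h2wk : 1 ≤ 2 * w * k := by
    have : 2 * 1 * 1 ≤ 2 * w * k := by gcongr; omega
    omega
  calc c₅ * D ^ (E + N) * (n : ℝ) ^ E
      ≤ c₅ ^ (2 * w * k) * D ^ (4 * w * (2 * w * k)) * (n : ℝ) ^ E := by
        apply mul_le_mul_of_nonneg_right _ (by positivity)
        apply mul_le_mul _ (pow_le_pow_right₀ hD hE2) (by positivity) (by positivity)
        exact le_self_pow₀ hc₅ (by omega)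
    _ = (c₅ * D ^ (4 * w)) ^ (2 * w * k) * (n : ℝ) ^ E := by
        rw [mul_pow, ← pow_mul]
    _ < (n : ℝ) ^ (2 * w * k) * (n : ℝ) ^ E := by
        apply mul_lt_mul_of_pos_right _ (by positivity)
        apply pow_lt_pow_left₀ (hkr.trans_le hnk) (by positivity) (by omega)
    _ = (n : ℝ) ^ (E + 2 * w * k) := by rw [← pow_add]; congr 1; ring
    _ ≤ (n : ℝ) ^ N := pow_le_pow_right₀ hn1 hEN

end Pool.Agent.SS
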