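import Pool.Agent.SS.Defs
import Pool.Agent.SS.Minor
import Pool.Agent.SS.Coord

/-!
# Auxiliary lemmas for Shidlovskii's lemma
-/

namespace Pool.Agent.SS

open Polynomial Matrix

variable {w : ℕ}

theorem exists_rel_aux (Pk : ℕ → Fin w → ℚ[X]) (s : ℕ) (v : Fin s → ℚ[X]) (hv : v ≠ 0)
    (h : ∀ j, ∑ k : Fin s, v k * Pk k j = 0) :
    ∃ r, r < s ∧ ∃ g : ℕ → ℚ[X], g r ≠ 0 ∧
      ∀ j, ∑ k ∈ Finset.range (r + 1), g k * Pk k j = 0 := by
  classical
  obtain ⟨k1, hk1⟩ := Function.ne_iff.1 hv
  let S : Finset (Fin s) := Finset.univ.filter fun k => v k ≠ 0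
  have hS : S.Nonempty := ⟨k1, by simpa [S] using hk1⟩
  let k0 := S.max' hS
  have hk0 : v k0 ≠ 0 := by
    have := S.max'_mem hS
    exact (Finset.mem_filter.1 this).2
  have hmax : ∀ k : Fin s, k0 < k → v k = 0 := by
    intro k hk
    by_contra hne
    have : k ≤ k0 := S.le_max' k (by simpa [S] using hne)
    exact absurd hk (not_lt.2 this)
  let g : ℕ → ℚ[X] := fun k => if hk : k < s then v ⟨k, hk⟩ else 0
  refine ⟨k0, k0.2, g, ?_, ?_⟩
  · simpa [g] using hk0
  · intro j
    have h1 : ∑ k ∈ Finset.range ((k0 : ℕ) + 1), g k * Pk k j =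
        ∑ k ∈ Finset.range s, g k * Pk k j := by
      apply Finset.sum_subset
      · intro k hk
        simp only [Finset.mem_range] at hk ⊢
        have := k0.2
        omega
      · intro k hk hk2
        simp only [Finset.mem_range] at hk hk2
        have : g k = 0 := by
          simp only [g, hk, dif_pos]
          apply hmax
          rw [Fin.lt_def]
          simp only
          omega
        rw [this, zero_mul]
    rw [h1, Finset.sum_range, ← h j]
    refine Finset.sum_congr rfl fun k _ => ?_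
    simp [g]

theorem exists_rel (Pk : ℕ → Fin w → ℚ[X]) (h0 : Pk 0 ≠ 0)
    (hdet : (Matrix.of fun (k j : Fin w) => Pk k j).det = 0) :
    ∃ r : ℕ, 1 ≤ r ∧ r < w ∧ (∃ g : ℕ → ℚ[X], g r ≠ 0 ∧
        ∀ j, ∑ k ∈ Finset.range (r + 1), g k * Pk k j = 0) ∧
      ∀ v : Fin r → ℚ[X], v ᵥ* (Matrix.of fun (k : Fin r) (j : Fin w) => Pk k j) = 0 → v = 0 := by
  classical
  obtain ⟨v, hv, hv2⟩ := Matrix.exists_vecMul_eq_zero_iff.2 hdet
  have hex : ∃ r, ∃ g : ℕ → ℚ[X], g r ≠ 0 ∧
        ∀ j, ∑ k ∈ Finset.range (r + 1), g k * Pk k j = 0 := by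
    obtain ⟨r, _, g, hg⟩ := exists_rel_aux Pk w v hv (by
      intro j
      have := congrFun hv2 j
      simpa [Matrix.vecMul, dotProduct] using this)
    exact ⟨r, g, hg⟩
  obtain ⟨r1, hr1, g1, hg1⟩ := exists_rel_aux Pk w v hv (by
      intro j
      have := congrFun hv2 j
      simpa [Matrix.vecMul, dotProduct] using this)
  refine ⟨Nat.find hex, ?_, ?_, Nat.find_spec hex, ?_⟩
  · by_contra hcon
    have hz : Nat.find hex = 0 := by omega
    obtain ⟨g, hg, hg2⟩ := Nat.find_spec hex
    rw [hz] at hg hg2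
    apply h0
    ext1 j
    have := hg2 j
    simp only [zero_add, Finset.range_one, Finset.sum_singleton, mul_eq_zero] at this
    rcases this with h | h
    · exact absurd h hg
    · exact h
  · exact lt_of_le_of_lt (Nat.find_min' hex ⟨g1, hg1⟩) hr1
  · intro v hv
    by_contra hne
    obtain ⟨r2, hr2, hg2⟩ := exists_rel_aux Pk (Nat.find hex) v hne (by
      intro j
      have := congrFun hv j
      simpa [Matrix.vecMul, dotProduct] using this)
    exact Nat.find_min hex hr2 hg2

/-- products of elements of a submodule -/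
theorem prod_mem_pow {𝕂 : Type*} [Field 𝕂] [CharZero 𝕂] (E : Submodule ℚ 𝕂) {α : Type*}
    (s : Finset α) (f : α → 𝕂) (hf : ∀ i ∈ s, f i ∈ E) : ∏ i ∈ s, f i ∈ E ^ s.card := by
  classical
  induction s using Finset.induction_on with
  | empty =>
    simp only [Finset.prod_empty, Finset.card_empty, pow_zero]
    exact Submodule.one_le.1 le_rfl
  | insert a s ha ih =>
    rw [Finset.prod_insert ha, Finset.card_insert_of_notMem ha, pow_succ, mul_comm (f a)]
    exact Submodule.mul_mem_mul (ih fun i hi => hf i (Finset.mem_insert_of_mem hi))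
      (hf a (Finset.mem_insert_self a s))

theorem det_mem_pow {𝕂 : Type*} [Field 𝕂] [CharZero 𝕂] (E : Submodule ℚ 𝕂) {r : ℕ}
    (A : Matrix (Fin r) (Fin r) 𝕂) (hA : ∀ i j, A i j ∈ E) : A.det ∈ E ^ r := by
  rw [Matrix.det_apply]
  refine Submodule.sum_mem _ fun σ _ => ?_
  have h1 : ∏ i, A (σ i) i ∈ E ^ r := by
    have := prod_mem_pow E Finset.univ (fun i => A (σ i) i) (fun i _ => hA _ _)
    simpa using this
  rcases Int.units_eq_one_or (Equiv.Perm.sign σ) with h | h
  · rw [h, one_smul]; exact h1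
  · rw [h, Units.neg_smul, one_smul]; exact Submodule.neg_mem _ h1

theorem pow_le_pow_of_one_mem {𝕂 : Type*} [Field 𝕂] [CharZero 𝕂] (E : Submodule ℚ 𝕂)
    (h1 : (1 : 𝕂) ∈ E) {a b : ℕ} (hab : a ≤ b) : E ^ a ≤ E ^ b := by
  induction b, hab using Nat.le_induction with
  | base => exact le_rfl
  | succ b _ ih =>
    refine le_trans ih fun x hx => ?_
    rw [pow_succ, ← mul_one x]
    exact Submodule.mul_mem_mul hx h1

/-- A finite dimensional space of power series has bounded orders. -/
theorem exists_order_bound (V : Submodule ℚ (PowerSeries ℚ)) (hV : V.FG) :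
    ∃ c : ℕ, ∀ g ∈ V, g ≠ 0 → ∀ m : ℕ, PowerSeries.X ^ m ∣ g → m ≤ c := by
  have hfin : Module.Finite ℚ V := Module.Finite.iff_fg.2 hV
  let F : ℕ →o (Submodule ℚ V)ᵒᵈ :=
    { toFun := fun m => OrderDual.toDual
        { carrier := {g | (PowerSeries.X ^ m : PowerSeries ℚ) ∣ (g : PowerSeries ℚ)}
          add_mem' := by intro a b ha hb; exact dvd_add ha hb
          zero_mem' := by exact dvd_zero _
          smul_mem' := by
            intro c x hx
            change _ ∣ (c • (x : PowerSeries ℚ))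
            rw [PowerSeries.smul_eq_C_mul]
            exact Dvd.dvd.mul_left hx _ }
      monotone' := by
        intro a b hab x hx
        exact dvd_trans (pow_dvd_pow _ hab) hx }
  obtain ⟨n, hn⟩ := IsArtinian.monotone_stabilizes F
  refine ⟨n, fun g hg hne m hm => ?_⟩
  by_contra hcon
  push Not at hcon
  apply hne
  have h1 : ∀ k, PowerSeries.X ^ k ∣ g := by
    intro k
    rcases le_total k m with hk | hk
    · exact dvd_trans (pow_dvd_pow _ hk) hm
    · have h2 : (⟨g, hg⟩ : V) ∈ OrderDual.ofDual (F m) := hm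
      have h3 : F m = F k := by rw [← hn m hcon.le, ← hn k (by omega)]
      rw [h3] at h2
      exact h2
  ext k
  have := PowerSeries.X_pow_dvd_iff.1 (h1 (k + 1)) k (Nat.lt_succ_self k)
  simpa using this

end Pool.Agent.SS
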