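import Pool.Agent.SS.ExpLevel

/-!
# Riccati extensions
-/

namespace Pool.Agent.SS

open Polynomial

variable {𝕂 : Type*} [Field 𝕂] {ι : Type*}

namespace DField

variable (δ : DField 𝕂)

theorem derivative_mc (p : 𝕂[X]) : derivative (δ.mc p) = δ.mc (derivative p) := by
  ext i
  rw [coeff_derivative, coeff_mc, coeff_mc, coeff_derivative, mul_comm _ ((i : 𝕂) + 1),
    mul_comm _ ((i : 𝕂) + 1), δ.const_mul]
  have := natCast_mem δ.K (i + 1)
  push_cast at this
  exact this

theorem derivative_D (W p : 𝕂[X]) :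
    derivative (δ.D W p) = δ.D W (derivative p) + derivative W * derivative p := by
  rw [D, D, derivative_add, derivative_mul, derivative_mc]
  ring

/-- every derivative which is a constant vanishes -/
def NoLog : Prop := ∀ x : 𝕂, δ.θ x ∈ δ.K → δ.θ x = 0

variable [CharZero 𝕂]

theorem inv_sq_θ {I v : 𝕂} (hI0 : I ≠ 0) (hI : δ.θ I = v * I) (x : 𝕂) :
    δ.θ (x / I ^ 2) = (δ.θ x - 2 * v * x) / I ^ 2 := by
  have h1 : δ.θ (x / I ^ 2 * I ^ 2) = δ.θ x := by
    rw [div_mul_cancel₀ _ (pow_ne_zero _ hI0)]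
  rw [δ.mul', δ.pow', hI] at h1
  rw [eq_div_iff (pow_ne_zero _ hI0), ← h1]
  field_simp
  push_cast
  ring

/-- a solution of a Riccati equation attached to a linear equation with a logarithm is
transcendental unless it is in the base field -/
theorem riccati_transc {F : Subfield 𝕂} (hF : δ.Stab F) (hNL : δ.NoLog) {v g I u : 𝕂}
    (hg : g ∈ F) (hv : v ∉ F) (hθ : δ.θ v = g - v ^ 2) (hI0 : I ≠ 0) (hI : δ.θ I = v * I)
    (hu : δ.θ u = 1 - 1 / I ^ 2) (p : 𝕂[X]) (hp : CF F p) (h0 : p.eval v = 0) : p = 0 := by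
  classical
  by_contra hne
  have hex : ∃ n, ∃ p : 𝕂[X], CF F p ∧ p.eval v = 0 ∧ p ≠ 0 ∧ p.natDegree = n :=
    ⟨_, p, hp, h0, hne, rfl⟩
  obtain ⟨p, hp, h0, hne, hn⟩ := Nat.find_spec hex
  set n := Nat.find hex with hn'
  have hmin : ∀ q : 𝕂[X], CF F q → q.eval v = 0 → q.natDegree < n → q = 0 := by
    intro q hq hq0 hqn
    by_contra hq1
    exact Nat.find_min hex hqn ⟨q, hq, hq0, hq1, rfl⟩
  -- make it monic
  have hlc : p.coeff n ≠ 0 := by
    rw [← hn]; exact leadingCoeff_ne_zero.2 hne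
  set m : 𝕂[X] := C (p.coeff n)⁻¹ * p with hm
  have hmF : CF F m := (CF.C (F.inv_mem (hp n))).mul hp
  have hm0 : m.eval v = 0 := by rw [hm, eval_mul, h0, mul_zero]
  have hmn : m.coeff n = 1 := by rw [hm, coeff_C_mul, inv_mul_cancel₀ hlc]
  have hmd : m.natDegree ≤ n := by
    rw [hm]; refine (natDegree_C_mul_le _ _).trans hn.le
  have hn0 : n ≠ 0 := by
    intro h
    have h1 : p = C (p.coeff 0) := eq_C_of_natDegree_eq_zero (by rw [hn, h])
    rw [h1, eval_C] at h0
    apply hne
    rw [h1, h0, C_0]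
  have hn1 : n ≠ 1 := by
    intro h
    rw [h] at hmd hmn
    have h1 : m.eval v = m.coeff 1 * v + m.coeff 0 := by
      rw [eval_eq_sum_range' (Nat.lt_succ_of_le hmd)]
      simp only [Finset.sum_range_succ, Finset.sum_range_zero]
      ring
    rw [h1, hmn, one_mul] at hm0
    apply hv
    rw [eq_neg_of_add_eq_zero_left hm0]
    exact F.neg_mem (hmF 0)
  clear_value n m
  obtain ⟨k, rfl⟩ : ∃ k, n = k + 2 := ⟨n - 2, by omega⟩
  have hmgt : ∀ i, k + 2 < i → m.coeff i = 0 := fun i hi =>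
    coeff_eq_zero_of_natDegree_lt (lt_of_le_of_lt hmd hi)
  set W : 𝕂[X] := C g - X ^ 2 with hW
  have hWF : CF F W := (CF.C hg).sub (CF.X.pow 2)
  have hWv : W.eval v = δ.θ v := by rw [hW, hθ]; simp
  set β := m.coeff (k + 1) with hβ
  set L : 𝕂[X] := C β - C ((k : 𝕂) + 2) * X with hL
  have hk2 : ((k : 𝕂) + 2) ∈ F := by
    have := natCast_mem F (k + 2)
    push_cast at this
    exact this
  have hLF : CF F L := (CF.C (hmF _)).sub ((CF.C hk2).mul CF.X)
  have hcoefD : ∀ i, (δ.D W m).coeff (i + 1) = δ.θ (m.coeff (i + 1)) +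
      g * (m.coeff (i + 2) * ((i : 𝕂) + 2)) - i * m.coeff i := by
    intro i
    rw [D, coeff_add, coeff_mc, hW, sub_mul, coeff_sub, coeff_C_mul, coeff_derivative]
    have h1 : (X ^ 2 * derivative m : 𝕂[X]).coeff (i + 1) = i * m.coeff i := by
      rw [coeff_X_pow_mul']
      split_ifs with h
      · obtain ⟨j, rfl⟩ : ∃ j, i = j + 1 := ⟨i - 1, by omega⟩
        have : j + 1 + 1 - 2 = j := by omega
        rw [this, coeff_derivative]
        push_cast; ring
      · have : i = 0 := by omega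
        subst this; simp
    rw [h1]
    push_cast; ring
  have hcoefL : ∀ i, (L * m).coeff (i + 1) = β * m.coeff (i + 1) - ((k : 𝕂) + 2) * m.coeff i := by
    intro i
    rw [hL, sub_mul, coeff_sub, coeff_C_mul, mul_assoc, coeff_C_mul, coeff_X_mul]
  have hq : δ.D W m = L * m := by
    have h1 : δ.D W m - L * m = 0 := by
      apply hmin _ ((δ.CF_D hF hWF hmF).sub (hLF.mul hmF))
      · rw [eval_sub, δ.eval_D hWv, hm0, map_zero, eval_mul, hm0]; ring
      · apply natDegree_lt_of_coeff hn0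
        intro i hi
        obtain ⟨j, rfl⟩ : ∃ j, i = j + 1 := ⟨i - 1, by omega⟩
        rw [coeff_sub, hcoefD, hcoefL]
        rcases (by omega : j = k + 1 ∨ j = k + 2 ∨ k + 2 < j) with rfl | rfl | hj
        · rw [hmn, δ.one', hmgt (k + 1 + 2) (by omega), ← hβ]
          push_cast; ring
        · rw [hmn, hmgt (k + 2 + 1) (by omega), hmgt (k + 2 + 2) (by omega), map_zero]
          push_cast; ring
        · rw [hmgt j hj, hmgt (j + 1) (by omega), hmgt (j + 2) (by omega), map_zero]
          ring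
    exact sub_eq_zero.1 h1
  have hW' : derivative W = -2 * X := by
    rw [hW, derivative_sub, derivative_C, derivative_X_pow]
    have : (C ((2 : ℕ) : 𝕂) : 𝕂[X]) = 2 := map_ofNat C 2
    rw [this]; ring
  have hL' : derivative L = -C ((k : 𝕂) + 2) := by
    rw [hL]; simp
  -- the first derivative
  have hD1 : δ.D W (derivative m) = L * derivative m + 2 * X * derivative m -
      C ((k : 𝕂) + 2) * m := by
    have h1 := δ.derivative_D W m
    rw [hq, derivative_mul, hW', hL'] at h1
    linear_combination -h1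
  have hD2 : δ.D W (derivative (derivative m)) = (L + 4 * X) * derivative (derivative m) -
      C (2 * (k : 𝕂) + 2) * derivative m := by
    have h1 := δ.derivative_D W (derivative m)
    rw [hD1] at h1
    simp only [derivative_sub, derivative_add, derivative_mul, hW', hL', derivative_C,
      derivative_X, derivative_ofNat] at h1
    have h2 : (C (2 * (k : 𝕂) + 2) : 𝕂[X]) = 2 * C ((k : 𝕂) + 2) - 2 := by
      simp only [map_add, map_mul]
      have : (C (2 : 𝕂) : 𝕂[X]) = 2 := map_ofNat C 2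
      rw [this]
      ring
    rw [h2]
    linear_combination -h1
  set M₁ := (derivative m).eval v with hM₁
  set M₂ := (derivative (derivative m)).eval v with hM₂
  have hθ₁ : δ.θ M₁ = (β - k * v) * M₁ := by
    rw [hM₁, ← δ.eval_D hWv, hD1]
    simp only [eval_sub, eval_add, eval_mul, eval_X, hm0, hL, eval_C, eval_ofNat]
    ring
  have hθ₂ : δ.θ M₂ = (β - (k - 2) * v) * M₂ - (2 * k + 2) * M₁ := by
    rw [hM₂, ← δ.eval_D hWv, hD2]
    simp only [eval_sub, eval_add, eval_mul, eval_X, hL, eval_C, eval_ofNat]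
    ring
  have hM₁0 : M₁ ≠ 0 := by
    intro h
    have h1 := hmin _ hmF.derivative h (by
      have := natDegree_derivative_le m
      omega)
    have h2 := congrArg (fun r => coeff r (k + 1)) h1
    simp only [coeff_derivative, coeff_zero] at h2
    rw [hmn, one_mul] at h2
    have h3 : ((k + 2 : ℕ) : 𝕂) = 0 := by push_cast at h2 ⊢; linear_combination h2
    exact absurd h3 (by exact_mod_cast (by omega : k + 2 ≠ 0))
  -- the quotient
  set φ := M₂ / M₁ with hφ
  have hθφ : δ.θ φ = 2 * v * φ - (2 * k + 2) := by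
    have h1 : δ.θ (φ * M₁) = δ.θ M₂ := by rw [hφ, div_mul_cancel₀ _ hM₁0]
    rw [δ.mul', hθ₁, hθ₂] at h1
    have h2 : M₂ = φ * M₁ := by rw [hφ, div_mul_cancel₀ _ hM₁0]
    rw [h2] at h1
    apply mul_right_cancel₀ hM₁0
    linear_combination h1
  have hfin : δ.θ (φ / I ^ 2 - (2 * k + 2) * u) = -(2 * k + 2) := by
    have hc : (2 * (k : 𝕂) + 2) ∈ δ.K := by
      have := natCast_mem δ.K (2 * k + 2)
      push_cast at this
      exact this
    rw [map_sub, δ.inv_sq_θ hI0 hI, hθφ, δ.const_mul hc, hu]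
    field_simp
    ring
  have h1 := hNL (φ / I ^ 2 - (2 * k + 2) * u) (by
    rw [hfin]
    have := natCast_mem δ.K (2 * k + 2)
    push_cast at this
    exact δ.K.neg_mem this)
  rw [hfin] at h1
  have h2 : ((2 * k + 2 : ℕ) : 𝕂) = 0 := by push_cast; linear_combination -h1
  exact absurd h2 (by exact_mod_cast (by omega : 2 * k + 2 ≠ 0))

/-- over the field generated by the logarithmic derivative, the solution is not algebraic -/
theorem noExp_riccati {F : Subfield 𝕂} (hF : δ.Stab F) (hNL : δ.NoLog) {v g I u : 𝕂}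
    (hg : g ∈ F) (hv : v ∉ F) (hθ : δ.θ v = g - v ^ 2) (hI0 : I ≠ 0) (hI : δ.θ I = v * I)
    (hu : δ.θ u = 1 - 1 / I ^ 2) : δ.NoExp (adjF F v) v := by
  intro n hn b hb hθb
  have htr := δ.riccati_transc hF hNL hg hv hθ hI0 hI hu
  obtain ⟨A, E, hA, hE, hE0, hAE⟩ := hb
  set W : 𝕂[X] := C g - X ^ 2 with hW
  have hWF : CF F W := (CF.C hg).sub (CF.X.pow 2)
  have hWv : W.eval v = δ.θ v := by rw [hW, hθ]; simp
  have hW' : derivative W = -2 * X := by
    rw [hW, derivative_sub, derivative_C, derivative_X_pow]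
    have : (C ((2 : ℕ) : 𝕂) : 𝕂[X]) = 2 := map_ofNat C 2
    rw [this]; ring
  -- the polynomial identity
  have hid : C (n : 𝕂) * X * A * E + A * δ.D W E - E * δ.D W A = 0 := by
    apply htr
    · exact (((((CF.C (natCast_mem F n)).mul CF.X).mul hA).mul hE).add
        (hA.mul (δ.CF_D hF hWF hE))).sub (hE.mul (δ.CF_D hF hWF hA))
    · have h1 := congrArg δ.θ hAE
      rw [δ.mul', hθb, ← δ.eval_D hWv, ← δ.eval_D hWv] at h1
      simp only [eval_sub, eval_add, eval_mul, eval_C, eval_X, ← h1, ← hAE]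
      ring
  have hid' := congrArg derivative hid
  simp only [derivative_sub, derivative_add, derivative_mul, derivative_C, derivative_X,
    derivative_zero, δ.derivative_D, hW'] at hid'
  -- evaluate
  have e1 := congrArg (eval v) hid
  have e2 := congrArg (eval v) hid'
  simp only [eval_sub, eval_add, eval_mul, eval_C, eval_X, eval_zero, eval_neg, eval_ofNat,
    eval_one, δ.eval_D hWv] at e1 e2
  set a := A.eval v with ha
  set e := E.eval v with he
  set a' := (derivative A).eval v with ha'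
  set e' := (derivative E).eval v with he'
  set R := (a' * e - a * e') / e ^ 2 with hR
  have hbae : b = a / e := by rw [eq_div_iff hE0]; exact hAE
  have hθR : δ.θ R = (n + 2) * v * R + n * b := by
    have h1 : R * e ^ 2 = a' * e - a * e' := by
      rw [hR, div_mul_cancel₀ _ (pow_ne_zero _ hE0)]
    have h2 := congrArg δ.θ h1
    rw [δ.mul', map_sub, δ.mul', δ.mul', δ.pow'] at h2
    apply mul_right_cancel₀ (pow_ne_zero 3 hE0)
    have h3 : b * e = a := hAE
    have h4 : δ.θ R * e ^ 3 = (δ.θ a' * e + a' * δ.θ e - (δ.θ a * e' + a * δ.θ e')) * e -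
        2 * (a' * e - a * e') * δ.θ e := by
      rw [← h2, ← h1]
      push_cast
      ring
    rw [h4]
    have h5 : ((n + 2) * v * R + n * b) * e ^ 3 = (n + 2) * v * (a' * e - a * e') * e +
        n * a * e ^ 2 := by
      rw [← h1, ← h3]; ring
    rw [h5]
    linear_combination (-e) * e2 + 2 * e' * e1
  -- `b = κ I ^ n`
  have hpow : δ.θ (I ^ n) = n * v * I ^ n := by
    rw [δ.pow', hI]
    have : I ^ n = I ^ (n - 1) * I := by rw [← pow_succ]; congr 1; omega
    rw [this]; ring
  have hIn : I ^ n ≠ 0 := pow_ne_zero _ hI0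
  set κ := b / I ^ n with hκ
  have hκb : κ * I ^ n = b := by rw [hκ, div_mul_cancel₀ _ hIn]
  have hκK : κ ∈ δ.K := by
    rw [← δ.mem_K]
    have h1 := congrArg δ.θ hκb
    rw [δ.mul', hpow, hθb, ← hκb] at h1
    have h2 : δ.θ κ * I ^ n = 0 := by linear_combination h1
    exact (mul_eq_zero.1 h2).resolve_right hIn
  have hnκ : (n : 𝕂) * κ ∈ δ.K := δ.K.mul_mem (natCast_mem δ.K n) hκK
  set S := R / I ^ n with hS
  have hθS : δ.θ S = 2 * v * S + n * κ := by
    have h1 : S * I ^ n = R := by rw [hS, div_mul_cancel₀ _ hIn]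
    have h2 := congrArg δ.θ h1
    rw [δ.mul', hpow, hθR, ← hκb, ← h1] at h2
    apply mul_right_cancel₀ hIn
    linear_combination h2
  have hfin : δ.θ (S / I ^ 2 + (n * κ) * u) = n * κ := by
    rw [map_add, δ.inv_sq_θ hI0 hI, hθS, δ.const_mul hnκ, hu]
    field_simp
    ring
  have h1 := hNL (S / I ^ 2 + (n * κ) * u) (by rw [hfin]; exact hnκ)
  rw [hfin] at h1
  have h2 : κ = 0 := (mul_eq_zero.1 h1).resolve_left (by exact_mod_cast hn)
  rw [← hκb, h2, zero_mul]

end DField

end Pool.Agent.SS
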