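import Pool.Agent.SS.Stable
import Pool.Agent.SS.Local

/-!
# Shidlovskii's lemma
-/

namespace Pool.Agent.SS

open Polynomial Matrix

variable {w : ℕ}

/-- degree of a determinant -/
theorem natDegree_det_le' {r : ℕ} (A : Matrix (Fin r) (Fin r) ℚ[X]) (d : ℕ)
    (h : ∀ i j, (A i j).natDegree ≤ d) : A.det.natDegree ≤ r * d := by
  rw [Matrix.det_apply]
  refine natDegree_sum_le_of_forall_le _ _ fun σ _ => ?_
  have h1 : (∏ i, A (σ i) i).natDegree ≤ r * d := by
    refine le_trans (natDegree_prod_le _ _) ?_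
    refine le_trans (Finset.sum_le_sum fun i _ => h (σ i) i) ?_
    simp
  rcases Int.units_eq_one_or (Equiv.Perm.sign σ) with hs | hs
  · rw [hs, one_smul]; exact h1
  · rw [hs, Units.neg_smul, one_smul, natDegree_neg]; exact h1

theorem dvd_natDegree {p : ℚ[X]} (hp : p ≠ 0) {m : ℕ}
    (h : (PowerSeries.X : PowerSeries ℚ) ^ m ∣ (p : PowerSeries ℚ)) : m ≤ p.natDegree := by
  by_contra hcon
  push Not at hcon
  apply hp
  ext k
  rw [Polynomial.coeff_zero]
  by_cases hk : k < m
  · have := PowerSeries.X_pow_dvd_iff.1 h k hk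
    simpa using this
  · exact Polynomial.coeff_eq_zero_of_natDegree_lt (by omega)

theorem order_split {f g : PowerSeries ℚ} (hg : g ≠ 0) {c m : ℕ}
    (hc : ∀ k : ℕ, (PowerSeries.X : PowerSeries ℚ) ^ k ∣ g → k ≤ c)
    (h : (PowerSeries.X : PowerSeries ℚ) ^ m ∣ f * g) :
    (PowerSeries.X : PowerSeries ℚ) ^ (m - c) ∣ f := by
  by_cases hf : f = 0
  · rw [hf]; exact dvd_zero _
  rw [PowerSeries.X_pow_dvd_iff] at h ⊢
  intro n hn
  have hfg : (m : ℕ∞) ≤ (f * g).order := PowerSeries.nat_le_order _ _ h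
  rw [PowerSeries.order_mul] at hfg
  have hgc : g.order ≤ c := by
    by_contra hcon
    push Not at hcon
    have h1 : (PowerSeries.X : PowerSeries ℚ) ^ (c + 1) ∣ g := by
      rw [PowerSeries.X_pow_dvd_iff]
      intro k hk
      apply PowerSeries.coeff_of_lt_order
      refine lt_of_le_of_lt ?_ hcon
      exact_mod_cast Nat.lt_succ_iff.1 hk
    have := hc _ h1
    omega
  apply PowerSeries.coeff_of_lt_order
  obtain ⟨a, ha⟩ := ENat.ne_top_iff_exists.1 (fun h => hf (PowerSeries.order_eq_top.1 h) : f.order ≠ ⊤)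
  obtain ⟨b, hb⟩ := ENat.ne_top_iff_exists.1 (fun h => hg (PowerSeries.order_eq_top.1 h) : g.order ≠ ⊤)
  rw [← ha, ← hb] at hfg
  rw [← hb] at hgc
  rw [← ha]
  norm_cast at hfg hgc ⊢
  omega

/-- **Shidlovskii's lemma.** -/
theorem shidlovskii (M : Matrix (Fin w) (Fin w) ℚ[X]) (f : Fin w → PowerSeries ℚ)
    (hf : ∀ i, ths (f i) = ∑ j, (M i j : PowerSeries ℚ) * f j)
    (hli : ∀ P : Fin w → ℚ[X], lin f P = 0 → P = 0) :
    ∃ c : ℕ, ∀ P : Fin w → ℚ[X], P ≠ 0 → ∀ n : ℕ, (∀ i, (P i).natDegree ≤ n) →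
      (Matrix.of fun (k j : Fin w) => (DD M)^[k] P j).det = 0 →
      ∀ m : ℕ, PowerSeries.X ^ m ∣ lin f P → m ≤ (w - 1) * n + c := by
  classical
  obtain ⟨Y, Z, hYZ, hY⟩ := exists_KK_fundamental M
  have hinj : Function.Injective (algebraMap ℚ[X] KK) := by
    intro p q h
    exact psiPS_injective (toKK_injective h)
  obtain ⟨c0, hc0⟩ := stable_core M hinj del del_mul del_const del_compat Y Z hYZ hY
  -- order bound space
  let V : Submodule ℚ (PowerSeries ℚ) := Submodule.span ℚ
    (Set.range fun p : Fin (c0 + 1) × Fin w => (PowerSeries.X ^ (p.1 : ℕ) * f p.2 : PowerSeries ℚ))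
  obtain ⟨c1, hc1⟩ := exists_order_bound V (Submodule.fg_span (Set.finite_range _))
  -- degree bound of M
  let t : ℕ := Finset.univ.sup fun i => Finset.univ.sup fun j => (M i j).natDegree
  have ht : ∀ i j, (M i j).natDegree ≤ t := fun i j =>
    le_trans (Finset.le_sup (f := fun j => (M i j).natDegree) (Finset.mem_univ j))
      (Finset.le_sup (f := fun i => Finset.univ.sup fun j => (M i j).natDegree) (Finset.mem_univ i))
  refine ⟨w * (w * t) + c1, fun P hP n hn hdet m hm => ?_⟩
  let Pk : ℕ → Fin w → ℚ[X] := fun k => (DD M)^[k] P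
  obtain ⟨r, hr1, hrw, hrel, hind⟩ := exists_rel Pk hP hdet
  obtain ⟨T, I, B, hI, hT, hB, hBI, hkey⟩ := hc0 r Pk
    (fun k => Function.iterate_succ_apply' _ _ _) hrw hrel hind
  set Pm : Matrix (Fin r) (Fin w) ℚ[X] := Matrix.of fun (k : Fin r) (j : Fin w) => Pk k j with hPm
  -- the row i0
  let i0 : Fin r := ⟨0, hr1⟩
  let G : PowerSeries ℚ := lin f (B i0)
  have hG0 : G ≠ 0 := by
    intro h
    have h1 := hli _ h
    apply hT
    rw [← hBI i0, h1]
    rfl
  have hGV : G ∈ V := by
    refine Submodule.sum_mem _ fun j _ => ?_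
    have h1 : (B i0 j : PowerSeries ℚ) * f j =
        ∑ a ∈ Finset.range (c0 + 1), (B i0 j).coeff a • (PowerSeries.X ^ a * f j) := by
      have h2 : (B i0 j) = ∑ a ∈ Finset.range (c0 + 1), monomial a ((B i0 j).coeff a) := by
        apply Polynomial.as_sum_range'
        have := hB i0 j
        omega
      have h3 : ((B i0 j : ℚ[X]) : PowerSeries ℚ) =
          ∑ a ∈ Finset.range (c0 + 1), (B i0 j).coeff a • (PowerSeries.X ^ a : PowerSeries ℚ) := by
        conv_lhs => rw [h2]
        have := map_sum (Polynomial.coeToPowerSeries.ringHom : ℚ[X] →+* PowerSeries ℚ)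
          (fun a => monomial a ((B i0 j).coeff a)) (Finset.range (c0 + 1))
        simp only [Polynomial.coeToPowerSeries.ringHom_apply] at this
        rw [this]
        refine Finset.sum_congr rfl fun a _ => ?_
        rw [Polynomial.coe_monomial, PowerSeries.monomial_eq_mk, PowerSeries.smul_eq_C_mul,
          PowerSeries.X_pow_eq]
        ext k
        simp [PowerSeries.coeff_monomial]
      rw [h3, Finset.sum_mul]
      refine Finset.sum_congr rfl fun a _ => ?_
      rw [smul_mul_assoc]
    rw [h1]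
    refine Submodule.sum_mem _ fun a ha => ?_
    refine Submodule.smul_mem _ _ (Submodule.subset_span ⟨(⟨a, Finset.mem_range.1 ha⟩, j), rfl⟩)
  have hGord := hc1 G hGV hG0
  -- key divisibility
  have hR : ∀ k, PowerSeries.X ^ m ∣ lin f (Pk k) := by
    intro k
    rw [lin_iterate M f hf]
    exact X_pow_dvd_ths_iterate hm k
  have hdiv : PowerSeries.X ^ m ∣ (((Pm.submatrix id I).det : ℚ[X]) : PowerSeries ℚ) * G := by
    have h1 : (((Pm.submatrix id I).det : ℚ[X]) : PowerSeries ℚ) * G =
        (T : PowerSeries ℚ) * ∑ k : Fin r,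
          (((Pm.submatrix id I).adjugate i0 k : ℚ[X]) : PowerSeries ℚ) * lin f (Pk k) := by
      have h2 : ∀ j, (((Pm.submatrix id I).det : ℚ[X]) : PowerSeries ℚ) * (B i0 j : PowerSeries ℚ) =
          (T : PowerSeries ℚ) * ∑ k : Fin r,
          (((Pm.submatrix id I).adjugate i0 k : ℚ[X]) : PowerSeries ℚ) * (Pk k j : PowerSeries ℚ) := by
        intro j
        have h3 := congrArg (fun p : ℚ[X] => (p : PowerSeries ℚ)) (hkey i0 j)
        simp only [Polynomial.coe_mul] at h3
        rw [← h3]
        congr 1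
        rw [Matrix.mul_apply]
        have := map_sum (Polynomial.coeToPowerSeries.ringHom : ℚ[X] →+* PowerSeries ℚ)
          (fun k => (Pm.submatrix id I).adjugate i0 k * Pm k j) Finset.univ
        simp only [Polynomial.coeToPowerSeries.ringHom_apply, Polynomial.coe_mul] at this
        rw [this]
        rfl
      simp only [G, lin, Finset.mul_sum]
      rw [Finset.sum_comm]
      refine Finset.sum_congr rfl fun j _ => ?_
      rw [← mul_assoc, h2 j, Finset.mul_sum, Finset.sum_mul]
      refine Finset.sum_congr rfl fun k _ => by ring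
    rw [h1]
    apply Dvd.dvd.mul_left
    apply Finset.dvd_sum
    intro k _
    exact Dvd.dvd.mul_left (hR k) _
  have h5 := order_split hG0 hGord hdiv
  have h6 := dvd_natDegree hI h5
  -- degree bound
  have h7 : (Pm.submatrix id I).det.natDegree ≤ r * (n + w * t) := by
    apply natDegree_det_le'
    intro k j
    have := natDegree_DD_iterate_le M ht P hn k (I j)
    refine le_trans this ?_
    have hk : (k : ℕ) ≤ w := by have := k.2; omega
    have := Nat.mul_le_mul_right t hk
    omega
  have h8 : r * (n + w * t) ≤ (w - 1) * n + w * (w * t) := by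
    have ha : r * n ≤ (w - 1) * n := Nat.mul_le_mul_right n (by omega)
    have hb : r * (w * t) ≤ w * (w * t) := Nat.mul_le_mul_right _ hrw.le
    rw [mul_add]
    omega
  omega

end Pool.Agent.SS
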