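import Mathlib

/-!
# The auxiliary integers from Siegel's lemma
-/

namespace Pool.Agent.SS

open Matrix

attribute [local instance] Matrix.seminormedAddCommGroup

theorem siegel_step (w : ℕ) (hw : 1 ≤ w) (a : Fin w → ℕ → ℚ) (C : ℕ) (hC : 1 ≤ C) (d : ℕ → ℕ)
    (hd : ∀ n, d n ≤ C ^ (n + 1)) (hd0 : ∀ n, 0 < d n)
    (ha : ∀ i n, |a i n| ≤ (C : ℚ) ^ (n + 1))
    (hint : ∀ i n k, k ≤ n → ∃ m : ℤ, (d n : ℚ) * a i k = m) :
    ∃ G : ℕ, 1 ≤ G ∧ ∀ k : ℕ, 1 ≤ k → ∃ t : Fin w → ℕ → ℤ,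
      (∃ i j, j < 4 * w * k ∧ t i j ≠ 0) ∧ (∀ i j, 4 * w * k ≤ j → t i j = 0) ∧
      (∀ i j, |(t i j : ℝ)| ≤ (G : ℝ) ^ (4 * w * k)) ∧
      ∀ m < w * (4 * w * k) - k, ∑ i, ∑ j ∈ Finset.range (m + 1),
        (t i j : ℚ) * (m.choose j : ℚ) * a i (m - j) = 0 := by
  classical
  choose z hz using hint
  refine ⟨(4 * C ^ 4) ^ (w * (4 * w * w)), Nat.one_le_pow _ _ (by positivity), fun k hk => ?_⟩
  set n := 4 * w * k with hn
  set N := w * n - k with hN
  have hwn : k < w * n := by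
    rw [hn]
    have h1 : 1 * (4 * 1 * k) ≤ w * (4 * w * k) := by gcongr
    omega
  have hn1 : 1 ≤ n := by
    rw [hn]
    have : 4 * 1 * 1 ≤ 4 * w * k := by gcongr
    omega
  have hNk : N + k = w * n := by omega
  have hNpos : 0 < N := by omega
  -- the matrix
  let A : Matrix (Fin N) (Fin w × Fin n) ℤ := Matrix.of fun m p =>
    if h : (p.2 : ℕ) ≤ m then ((m : ℕ).choose p.2 : ℤ) *
      z p.1 N ((m : ℕ) - p.2) (by have := m.2; omega) else 0
  have hcard : Fintype.card (Fin N) < Fintype.card (Fin w × Fin n) := by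
    simp only [Fintype.card_fin, Fintype.card_prod]; omega
  have hcard2 : 0 < Fintype.card (Fin N) := by simpa using hNpos
  obtain ⟨t, ht0, htA, htn⟩ := Int.Matrix.exists_ne_zero_int_vec_norm_le A hcard hcard2
  -- norm bound
  have hAn : ‖A‖ ≤ (4 * C ^ 4 : ℝ) ^ (w * n) / 2 ^ (w * n) := by
    rw [Matrix.norm_le_iff (by positivity)]
    intro m p
    simp only [A, Matrix.of_apply]
    split_ifs with h
    · rw [Int.norm_eq_abs]
      push_cast
      rw [abs_mul]
      have h1 : |(((m : ℕ).choose p.2 : ℕ) : ℝ)| ≤ 2 ^ (w * n) := by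
        rw [abs_of_nonneg (by positivity)]
        have h2 : (m : ℕ).choose p.2 ≤ 2 ^ (m : ℕ) := Nat.choose_le_two_pow _ _
        have h3 : 2 ^ (m : ℕ) ≤ 2 ^ (w * n) := Nat.pow_le_pow_right (by norm_num) (by have := m.2; omega)
        exact_mod_cast h2.trans h3
      have h2 : |((z p.1 N ((m : ℕ) - p.2) (by have := m.2; omega) : ℤ) : ℝ)| ≤
          (C : ℝ) ^ (w * n) * (C : ℝ) ^ (w * n) * (C : ℝ) ^ 2 := by
        have h3 := hz p.1 N ((m : ℕ) - p.2) (by have := m.2; omega)
        have h4 : |((z p.1 N ((m : ℕ) - p.2) (by have := m.2; omega) : ℤ) : ℚ)| ≤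
            (C : ℚ) ^ (N + 1) * (C : ℚ) ^ (N + 1) := by
          rw [← h3, abs_mul]
          have h5 : |((d N : ℕ) : ℚ)| ≤ (C : ℚ) ^ (N + 1) := by
            rw [abs_of_nonneg (by positivity)]
            exact_mod_cast hd N
          have h6 : |a p.1 ((m : ℕ) - p.2)| ≤ (C : ℚ) ^ (N + 1) := by
            refine le_trans (ha _ _) ?_
            apply pow_le_pow_right₀
            · exact_mod_cast hC
            · have := m.2; omega
          exact mul_le_mul h5 h6 (abs_nonneg _) (by positivity)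
        have h7 : |((z p.1 N ((m : ℕ) - p.2) (by have := m.2; omega) : ℤ) : ℝ)| ≤
            (C : ℝ) ^ (N + 1) * (C : ℝ) ^ (N + 1) := by exact_mod_cast h4
        refine le_trans h7 ?_
        have h8 : (C : ℝ) ^ (N + 1) ≤ (C : ℝ) ^ (w * n) * C := by
          rw [← pow_succ]
          apply pow_le_pow_right₀ (by exact_mod_cast hC)
          omega
        calc (C : ℝ) ^ (N + 1) * (C : ℝ) ^ (N + 1) ≤ ((C : ℝ) ^ (w * n) * C) * ((C : ℝ) ^ (w * n) * C) := by
              gcongr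
          _ = _ := by ring
      refine le_trans (mul_le_mul h1 h2 (abs_nonneg _) (by positivity)) ?_
      rw [le_div_iff₀ (by positivity)]
      have h9 : (C : ℝ) ^ 2 ≤ ((C : ℝ) ^ 2) ^ (w * n) := by
        apply le_self_pow₀
        · exact one_le_pow₀ (by exact_mod_cast hC)
        · have : 1 ≤ w * n := Nat.mul_pos hw hn1
          omega
      calc (2 : ℝ) ^ (w * n) * ((C : ℝ) ^ (w * n) * (C : ℝ) ^ (w * n) * (C : ℝ) ^ 2) * 2 ^ (w * n)
          ≤ (2 : ℝ) ^ (w * n) * ((C : ℝ) ^ (w * n) * (C : ℝ) ^ (w * n) * ((C : ℝ) ^ 2) ^ (w * n)) * 2 ^ (w * n) := by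
            gcongr
        _ = (4 * C ^ 4 : ℝ) ^ (w * n) := by
            rw [← mul_pow, ← mul_pow, ← mul_pow, ← mul_pow]
            congr 1; ring
    · simp only [norm_zero]; positivity
  have hbase : ((Fintype.card (Fin w × Fin n) : ℕ) : ℝ) * max 1 ‖A‖ ≤ (4 * C ^ 4 : ℝ) ^ (w * n) := by
    have h1 : ((Fintype.card (Fin w × Fin n) : ℕ) : ℝ) ≤ 2 ^ (w * n) := by
      simp only [Fintype.card_prod, Fintype.card_fin]
      exact_mod_cast Nat.lt_two_pow_self.le
    have h2 : max 1 ‖A‖ ≤ (4 * C ^ 4 : ℝ) ^ (w * n) / 2 ^ (w * n) := by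
      apply max_le _ hAn
      rw [le_div_iff₀ (by positivity), one_mul]
      apply pow_le_pow_left₀ (by norm_num)
      have : (1 : ℝ) ≤ (C : ℝ) ^ 4 := one_le_pow₀ (by exact_mod_cast hC)
      linarith
    calc _ ≤ (2 : ℝ) ^ (w * n) * ((4 * C ^ 4 : ℝ) ^ (w * n) / 2 ^ (w * n)) :=
          mul_le_mul h1 h2 (by positivity) (by positivity)
      _ = _ := by field_simp
  have hexp : ((Fintype.card (Fin N) : ℕ) : ℝ) / ((Fintype.card (Fin w × Fin n) : ℕ) - (Fintype.card (Fin N) : ℕ) : ℝ)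
      = ((4 * w * w - 1 : ℕ) : ℝ) := by
    simp only [Fintype.card_fin, Fintype.card_prod]
    have hk0 : (k : ℝ) ≠ 0 := by positivity
    have h1 : ((N : ℕ) : ℝ) = ((4 * w * w - 1 : ℕ) : ℝ) * k := by
      have h2 : N = (4 * w * w - 1) * k := by
        rw [hN, hn, Nat.sub_mul, one_mul]
        congr 1; ring
      rw [h2]; push_cast; ring
    have h3 : (((w * n : ℕ)) : ℝ) - ((N : ℕ) : ℝ) = k := by
      have : ((N + k : ℕ) : ℝ) = ((w * n : ℕ) : ℝ) := by rw [hNk]
      push_cast at this ⊢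
      linarith
    rw [h3, h1]
    field_simp
  have htn2 : ‖t‖ ≤ ((((4 * C ^ 4) ^ (w * (4 * w * w)) : ℕ)) : ℝ) ^ n := by
    refine le_trans htn ?_
    rw [hexp, Real.rpow_natCast]
    have hb0 : (0 : ℝ) ≤ ((Fintype.card (Fin w × Fin n) : ℕ) : ℝ) * max 1 ‖A‖ := by positivity
    refine le_trans (pow_le_pow_left₀ hb0 hbase _) ?_
    push_cast
    rw [← pow_mul, ← pow_mul]
    apply pow_le_pow_right₀
    · have : (1 : ℝ) ≤ (C : ℝ) ^ 4 := one_le_pow₀ (by exact_mod_cast hC)
      linarith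
    · have : 4 * w * w - 1 ≤ 4 * w * w := Nat.sub_le _ _
      calc w * n * (4 * w * w - 1) ≤ w * n * (4 * w * w) := Nat.mul_le_mul_left _ this
        _ = _ := by ring
  refine ⟨fun i j => if h : j < n then t (i, ⟨j, h⟩) else 0, ?_, ?_, ?_, ?_⟩
  · obtain ⟨p, hp⟩ := Function.ne_iff.1 ht0
    refine ⟨p.1, p.2, p.2.2, ?_⟩
    simpa using hp
  · intro i j hj
    simp [not_lt.2 hj]
  · intro i j
    by_cases h : j < n
    · simp only [h, dif_pos]
      refine le_trans ?_ htn2
      have := norm_le_pi_norm t (i, ⟨j, h⟩)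
      rwa [Int.norm_eq_abs] at this
    · simp only [h, dif_neg, not_false_eq_true, Int.cast_zero, abs_zero]; positivity
  · intro m hm
    have h1 := congrFun htA ⟨m, hm⟩
    simp only [Matrix.mulVec, dotProduct, A, Matrix.of_apply, Pi.zero_apply,
      Fintype.sum_prod_type] at h1
    have h2 : ∀ i : Fin w, ∑ j ∈ Finset.range (m + 1),
        (((if h : j < n then t (i, ⟨j, h⟩) else 0 : ℤ)) : ℚ) * (m.choose j : ℚ) * a i (m - j) =
        ((∑ j : Fin n, (if h : (j : ℕ) ≤ m then ((m : ℕ).choose j : ℤ) *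
          z i N ((m : ℕ) - j) (by omega) else 0) * t (i, j) : ℤ) : ℚ) / (d N : ℚ) := by
      intro i
      have hdN : (d N : ℚ) ≠ 0 := by have := hd0 N; positivity
      rw [eq_div_iff hdN]
      push_cast
      -- extend both sums to a common range
      have hL : ∑ j ∈ Finset.range (m + 1),
          (((if h : j < n then t (i, ⟨j, h⟩) else 0 : ℤ)) : ℚ) * (m.choose j : ℚ) * a i (m - j) =
          ∑ j ∈ Finset.range n, (if j ≤ m then (((if h : j < n then t (i, ⟨j, h⟩) else 0 : ℤ)) : ℚ) * (m.choose j : ℚ) * a i (m - j) else 0) := by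
        rw [← Finset.sum_filter]
        refine (Finset.sum_subset_zero_on_sdiff ?_ ?_ ?_).symm
        · intro j hj
          simp only [Finset.mem_filter, Finset.mem_range] at hj ⊢
          omega
        · intro j hj
          simp only [Finset.mem_sdiff, Finset.mem_filter, Finset.mem_range, not_and, not_le] at hj
          have : ¬ j < n := by
            intro h; have := hj.2 h; omega
          simp [this]
        · intro j _; rfl
      push_cast at hL
      rw [hL, Finset.sum_mul, Finset.sum_range]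
      refine Finset.sum_congr rfl fun j _ => ?_
      by_cases hj : (j : ℕ) ≤ m
      · have h3 := hz i N (m - j) (by omega)
        simp only [hj, if_true, dif_pos, j.2, Fin.eta]
        rw [Int.cast_mul, ← h3]
        push_cast
        ring
      · simp [hj]
    rw [Finset.sum_congr rfl fun i _ => h2 i, ← Finset.sum_div, ← Int.cast_sum]
    have h3 : ∑ i : Fin w, ∑ j : Fin n, (if h : (j : ℕ) ≤ m then ((m : ℕ).choose j : ℤ) *
          z i N ((m : ℕ) - j) (by omega) else 0) * t (i, j) = 0 := h1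
    rw [h3]
    simp

end Pool.Agent.SS
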