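import Pool.Agent.SS.Rel

/-!
# Uniform degree bounds for stable subspaces (core of Shidlovskii's lemma)
-/

namespace Pool.Agent.SS

open Polynomial Matrix

variable {w : ℕ}

theorem map_mul_of_leibniz {𝕂 : Type*} [Field 𝕂] (δ : 𝕂 →+ 𝕂)
    (hδ : ∀ x y, δ (x * y) = δ x * y + x * δ y) {a b c : ℕ}
    (A : Matrix (Fin a) (Fin b) 𝕂) (B : Matrix (Fin b) (Fin c) 𝕂) :
    (A * B).map δ = A.map δ * B + A * B.map δ := by
  ext i j
  simp only [Matrix.map_apply, Matrix.mul_apply, Matrix.add_apply, map_sum, hδ,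
    Finset.sum_add_distrib]

theorem stable_core (M : Matrix (Fin w) (Fin w) ℚ[X]) 
    {𝕂 : Type*} [Field 𝕂] [CharZero 𝕂] [Algebra ℚ[X] 𝕂]
    (hinj : Function.Injective (algebraMap ℚ[X] 𝕂))
    (δ : 𝕂 →+ 𝕂) (hδ : ∀ x y, δ (x * y) = δ x * y + x * δ y)
    (hconst : ∀ x, δ x = 0 → ∃ q : ℚ, x = (q : 𝕂))
    (hcompat : ∀ p : ℚ[X], δ (algebraMap ℚ[X] 𝕂 p) = algebraMap ℚ[X] 𝕂 (thp p))
    (Y Z : Matrix (Fin w) (Fin w) 𝕂) (hYZ : Y * Z = 1)
    (hY : Y.map δ = M.map (algebraMap ℚ[X] 𝕂) * Y) :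
    ∃ c0 : ℕ, ∀ (r : ℕ) (Pk : ℕ → Fin w → ℚ[X]), (∀ k, Pk (k + 1) = DD M (Pk k)) →
      r < w → (∃ g : ℕ → ℚ[X], g r ≠ 0 ∧
        ∀ j, ∑ k ∈ Finset.range (r + 1), g k * Pk k j = 0) →
      (∀ v : Fin r → ℚ[X], v ᵥ* (Matrix.of fun (k : Fin r) (j : Fin w) => Pk k j) = 0 → v = 0) →
      ∃ (T : ℚ[X]) (I : Fin r → Fin w) (B : Matrix (Fin r) (Fin w) ℚ[X]),
        ((Matrix.of fun (k : Fin r) (j : Fin w) => Pk k j).submatrix id I).det ≠ 0 ∧ T ≠ 0 ∧
        (∀ i j, (B i j).natDegree ≤ c0) ∧ (∀ i, B i (I i) = T) ∧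
        ∀ i j, T * ((((Matrix.of fun (k : Fin r) (j : Fin w) => Pk k j).submatrix id I).adjugate *
          (Matrix.of fun (k : Fin r) (j : Fin w) => Pk k j)) i j) =
          ((Matrix.of fun (k : Fin r) (j : Fin w) => Pk k j).submatrix id I).det * B i j := by
  classical
  set ψ := algebraMap ℚ[X] 𝕂 with hψ
  -- the finite dimensional space
  let E : Submodule ℚ 𝕂 := Submodule.span ℚ (insert (1 : 𝕂) (Set.range fun p : Fin w × Fin w => Z p.1 p.2))
  have hEfg : E.FG := Submodule.fg_span ((Set.finite_range _).insert _)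
  have h1E : (1 : 𝕂) ∈ E := Submodule.subset_span (Set.mem_insert _ _)
  have hZE : ∀ i j, Z i j ∈ E := fun i j =>
    Submodule.subset_span (Set.mem_insert_of_mem _ ⟨(i, j), rfl⟩)
  let W : Submodule ℚ 𝕂 := E ^ (w + 1)
  have hWfg : W.FG := hEfg.pow _
  obtain ⟨c0, hc0⟩ := exists_coord hinj W hWfg
  refine ⟨c0, fun r Pk hPk hrw hrel hind => ?_⟩
  set Pm : Matrix (Fin r) (Fin w) ℚ[X] := Matrix.of fun (k : Fin r) (j : Fin w) => Pk k j with hPm
  obtain ⟨I, hI⟩ := exists_minor Pm hind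
  -- matrices over 𝕂
  let Pψ : Matrix (Fin r) (Fin w) 𝕂 := Pm.map ψ
  have hPψI : (Pψ.submatrix id I).det = ψ (Pm.submatrix id I).det := by
    rw [RingHom.map_det]; rfl
  have hPψI0 : (Pψ.submatrix id I).det ≠ 0 := by
    rw [hPψI]
    intro h
    exact hI (hinj (h.trans (map_zero _).symm))
  -- companion relation
  have hcomp : ∃ Λ : Matrix (Fin r) (Fin r) 𝕂,
      (Matrix.of fun (k : Fin r) (j : Fin w) => ψ (Pk (k + 1) j)) = Λ * Pψ := by
    have : ∀ k : Fin r, ∃ a : Fin r → 𝕂, ∀ j, ψ (Pk (k + 1) j) = ∑ l, a l * ψ (Pk l j) := by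
      intro k
      by_cases hk : (k : ℕ) + 1 < r
      · refine ⟨Pi.single ⟨k + 1, hk⟩ 1, fun j => ?_⟩
        rw [Finset.sum_eq_single ⟨(k : ℕ) + 1, hk⟩]
        · simp
        · intro b _ hb; simp [Pi.single_eq_of_ne hb]
        · intro h; exact absurd (Finset.mem_univ _) h
      · have hkr : (k : ℕ) + 1 = r := by have := k.2; omega
        obtain ⟨g, hg, hg2⟩ := hrel
        have hg' : ψ (g r) ≠ 0 := fun h => hg (hinj (h.trans (map_zero _).symm))
        refine ⟨fun l => -(ψ (g r))⁻¹ * ψ (g l), fun j => ?_⟩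
        rw [hkr]
        have h2 := congrArg ψ (hg2 j)
        rw [Finset.sum_range_succ, map_add, map_sum, map_zero, map_mul, Finset.sum_range] at h2
        simp only [map_mul] at h2
        have h3 : ∑ l : Fin r, -(ψ (g r))⁻¹ * ψ (g l) * ψ (Pk l j) =
            -(ψ (g r))⁻¹ * ∑ l : Fin r, ψ (g l) * ψ (Pk l j) := by
          rw [Finset.mul_sum]
          refine Finset.sum_congr rfl fun l _ => by ring
        rw [h3]
        have h4 : ∑ l : Fin r, ψ (g l) * ψ (Pk l j) = - (ψ (g r) * ψ (Pk r j)) := by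
          linear_combination h2
        rw [h4]
        field_simp
    choose a ha using this
    refine ⟨Matrix.of a, ?_⟩
    ext k j
    simp only [Matrix.of_apply, Matrix.mul_apply, ha]
    rfl
  obtain ⟨Λ, hΛ⟩ := hcomp
  let Γ : Matrix (Fin r) (Fin w) 𝕂 := Pψ * Y
  have hδΓ : Γ.map δ = Λ * Γ := by
    have h1 : Γ.map δ = Pψ.map δ * Y + Pψ * Y.map δ := map_mul_of_leibniz δ hδ _ _
    rw [h1, hY, ← Matrix.mul_assoc, ← Matrix.add_mul]
    change _ = Λ * (Pψ * Y)
    rw [← Matrix.mul_assoc, ← hΛ]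
    congr 1
    ext k j
    simp only [Matrix.add_apply, Matrix.map_apply, Matrix.mul_apply, Matrix.of_apply, Pψ, hcompat]
    rw [hPk]
    simp only [DD, map_add, map_sum, map_mul, Pm, Matrix.of_apply]
  -- minor of Γ
  have hΓind : ∃ J : Fin r → Fin w, (Γ.submatrix id J).det ≠ 0 := by
    apply exists_minor
    intro v hv
    have h1 : v ᵥ* Pψ = 0 := by
      have : v ᵥ* Γ ᵥ* Z = v ᵥ* Pψ := by
        rw [Matrix.vecMul_vecMul, Matrix.mul_assoc, hYZ, Matrix.mul_one]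
      rw [← this, hv, Matrix.zero_vecMul]
    have h2 : v ᵥ* (Pψ.submatrix id I) = 0 := by
      ext i
      have := congrFun h1 (I i)
      simpa [Matrix.vecMul, dotProduct] using this
    exact Matrix.eq_zero_of_vecMul_eq_zero hPψI0 h2
  obtain ⟨J, hJ⟩ := hΓind
  let ΓJ : Matrix (Fin r) (Fin r) 𝕂 := Γ.submatrix id J
  have hΓJu : IsUnit ΓJ.det := isUnit_iff_ne_zero.2 hJ
  let C : Matrix (Fin r) (Fin w) 𝕂 := ΓJ⁻¹ * Γ
  have hC : Γ = ΓJ * C := by
    change Γ = ΓJ * (ΓJ⁻¹ * Γ)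
    rw [← Matrix.mul_assoc, Matrix.mul_nonsing_inv _ hΓJu, Matrix.one_mul]
  have hδC : C.map δ = 0 := by
    have h1 : Γ.map δ = ΓJ.map δ * C + ΓJ * C.map δ := by
      conv_lhs => rw [hC]
      exact map_mul_of_leibniz δ hδ _ _
    have h2 : ΓJ.map δ = Λ * ΓJ := by
      have : ΓJ.map δ = (Γ.map δ).submatrix id J := rfl
      rw [this, hδΓ]
      rfl
    have h3 : ΓJ * C.map δ = 0 := by
      have h4 : Γ.map δ = Λ * ΓJ * C := by rw [hδΓ, Matrix.mul_assoc, ← hC]
      rw [h2, h4] at h1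
      have := h1.symm
      rwa [add_eq_left] at this
    have h5 : ΓJ⁻¹ * (ΓJ * C.map δ) = 0 := by rw [h3, Matrix.mul_zero]
    rwa [← Matrix.mul_assoc, Matrix.nonsing_inv_mul _ hΓJu, Matrix.one_mul] at h5
  have hCq : ∀ i j, ∃ q : ℚ, C i j = (q : 𝕂) := by
    intro i j
    apply hconst
    have := congrFun (congrFun hδC i) j
    simpa using this
  let Q : Matrix (Fin r) (Fin w) 𝕂 := C * Z
  have hQE : ∀ i j, Q i j ∈ E := by
    intro i j
    simp only [Q, Matrix.mul_apply]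
    refine Submodule.sum_mem _ fun l _ => ?_
    obtain ⟨q, hq⟩ := hCq i l
    rw [hq]
    have : (q : 𝕂) * Z l j = q • Z l j := by
      rw [Algebra.smul_def, eq_ratCast]
    rw [this]
    exact Submodule.smul_mem _ _ (hZE l j)
  have hPQ : Pψ = ΓJ * Q := by
    have : Γ * Z = Pψ := by
      change Pψ * Y * Z = Pψ
      rw [Matrix.mul_assoc, hYZ, Matrix.mul_one]
    rw [← this]
    conv_lhs => rw [hC]
    rw [Matrix.mul_assoc]
  let QI : Matrix (Fin r) (Fin r) 𝕂 := Q.submatrix id I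
  have hPQI : Pψ.submatrix id I = ΓJ * QI := by
    conv_lhs => rw [hPQ]
    rfl
  have hQI0 : QI.det ≠ 0 := by
    intro h
    apply hPψI0
    rw [hPQI, Matrix.det_mul, h, mul_zero]
  -- membership in W
  have hrw1 : r ≤ w + 1 := by omega
  have hw2 : QI.det ∈ W :=
    pow_le_pow_of_one_mem E h1E hrw1 (det_mem_pow E QI fun i j => hQE _ _)
  have hadj : ∀ i j, QI.adjugate i j ∈ E ^ r := by
    intro i j
    rw [Matrix.adjugate_apply]
    apply det_mem_pow
    intro a b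
    rw [Matrix.updateRow_apply]
    split_ifs with hab
    · by_cases hib : b = i
      · subst hib; simpa using h1E
      · rw [Pi.single_eq_of_ne hib]; exact Submodule.zero_mem _
    · exact hQE _ _
  have hwij : ∀ i j, (QI.adjugate * Q) i j ∈ W := by
    intro i j
    rw [Matrix.mul_apply]
    refine Submodule.sum_mem _ fun l _ => ?_
    have h1 : QI.adjugate i l * Q l j ∈ E ^ (r + 1) := by
      rw [pow_succ]
      exact Submodule.mul_mem_mul (hadj i l) (hQE l j)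
    exact pow_le_pow_of_one_mem E h1E (by omega) h1
  obtain ⟨φ, hφd, hφ0, hφr⟩ := hc0 QI.det hw2 hQI0
  -- the key relation over 𝕂
  have hkey : ∀ i j, ψ (((Pm.submatrix id I).adjugate * Pm) i j) * QI.det =
      ψ (Pm.submatrix id I).det * (QI.adjugate * Q) i j := by
    intro i j
    have h1 : ψ (((Pm.submatrix id I).adjugate * Pm) i j) =
        ((Pψ.submatrix id I).adjugate * Pψ) i j := by
      have h2 : (Pψ.submatrix id I).adjugate = (Pm.submatrix id I).adjugate.map ψ := by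
        have := RingHom.map_adjugate ψ (Pm.submatrix id I)
        exact this.symm
      rw [h2]
      simp only [Matrix.mul_apply, map_sum, map_mul, Matrix.map_apply, Pψ]
    have h3 : (Pψ.submatrix id I).adjugate * Pψ = ΓJ.det • (QI.adjugate * Q) := by
      conv_lhs => rw [hPQI, Matrix.adjugate_mul_distrib, hPQ]
      rw [Matrix.mul_assoc, ← Matrix.mul_assoc ΓJ.adjugate, Matrix.adjugate_mul,
        Matrix.smul_mul, Matrix.one_mul, Matrix.mul_smul]
    rw [h1, h3, ← hPψI, hPQI, Matrix.det_mul, Matrix.smul_apply, smul_eq_mul]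
    ring
  refine ⟨φ QI.det, I, Matrix.of fun i j => φ ((QI.adjugate * Q) i j), hI, hφ0, ?_, ?_, ?_⟩
  · intro i j
    exact hφd _ (hwij i j)
  · intro i
    simp only [Matrix.of_apply]
    congr 1
    have : (QI.adjugate * Q) i (I i) = (QI.adjugate * QI) i i := rfl
    rw [this, Matrix.adjugate_mul]
    simp
  · intro i j
    have := hφr _ hw2 _ (hwij i j) _ _ (hkey i j)
    simp only [Matrix.of_apply]
    rw [← this]
    ring

end Pool.Agent.SS
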