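import Mathlib

/-!
# Tail integrals `∫_x^∞ f`
-/

namespace Pool.Agent.SS

open MeasureTheory Set Filter Topology

theorem tail_eq {f : ℝ → ℝ} {a y : ℝ} (hay : a ≤ y) (hf : IntegrableOn f (Ioi a)) :
    ∫ t in Ioi y, f t = (∫ t in Ioi a, f t) - ∫ t in a..y, f t := by
  rw [intervalIntegral.integral_of_le hay, eq_sub_iff_add_eq, add_comm,
    ← setIntegral_union Ioc_disjoint_Ioi_same measurableSet_Ioi
      (hf.mono_set Ioc_subset_Ioi_self) (hf.mono_set (Ioi_subset_Ioi hay)),
    Ioc_union_Ioi_eq_Ioi hay]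

theorem hasDerivAt_tail {f : ℝ → ℝ} {x : ℝ} (hx : 0 < x)
    (hf : ∀ y, 0 < y → IntegrableOn f (Ioi y)) (hc : ContinuousOn f (Ioi 0)) :
    HasDerivAt (fun y => ∫ t in Ioi y, f t) (-f x) x := by
  set a := x / 2 with ha
  have ha0 : 0 < a := by positivity
  have hax : a < x := by rw [ha]; linarith
  have h1 : HasDerivAt (fun y => (∫ t in Ioi a, f t) - ∫ t in a..y, f t) (-f x) x := by
    apply HasDerivAt.const_sub
    apply intervalIntegral.integral_hasDerivAt_right
    · rw [intervalIntegrable_iff_integrableOn_Ioc_of_le hax.le]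
      exact (hf a ha0).mono_set Ioc_subset_Ioi_self
    · exact (hc.stronglyMeasurableAtFilter isOpen_Ioi) x hx
    · exact hc.continuousAt (Ioi_mem_nhds hx)
  refine h1.congr_of_eventuallyEq ?_
  filter_upwards [Ioi_mem_nhds hax] with y hy
  exact tail_eq (le_of_lt hy) (hf a ha0)

theorem tendsto_tail_zero {f : ℝ → ℝ} (hf : IntegrableOn f (Ioi 0)) :
    Tendsto (fun x => ∫ t in Ioi x, f t) (𝓝[>] 0) (𝓝 (∫ t in Ioi 0, f t)) := by
  have h1 : ∀ x : ℝ, ∫ t in Ioi x, f t = ∫ t, (Ioi x).indicator f t := fun x =>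
    (integral_indicator measurableSet_Ioi).symm
  simp only [h1]
  apply tendsto_integral_filter_of_dominated_convergence (fun t => ‖(Ioi (0 : ℝ)).indicator f t‖)
  · filter_upwards [self_mem_nhdsWithin] with x hx
    have : IntegrableOn f (Ioi x) := hf.mono_set (Ioi_subset_Ioi (le_of_lt hx))
    exact (this.integrable_indicator measurableSet_Ioi).aestronglyMeasurable
  · filter_upwards [self_mem_nhdsWithin] with x hx
    refine Eventually.of_forall fun t => ?_
    by_cases ht : t ∈ Ioi x
    · have ht0 : t ∈ Ioi (0 : ℝ) := (show (0 : ℝ) < x from hx).trans (show x < t from ht)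
      rw [indicator_of_mem ht, indicator_of_mem ht0]
    · rw [indicator_of_notMem ht]; simp
  · exact (hf.integrable_indicator measurableSet_Ioi).norm
  · refine Eventually.of_forall fun t => ?_
    by_cases ht : 0 < t
    · apply tendsto_const_nhds.congr'
      filter_upwards [Ioo_mem_nhdsGT ht] with x hx
      rw [indicator_of_mem (show t ∈ Ioi (0 : ℝ) from ht), indicator_of_mem (show t ∈ Ioi x from hx.2)]
    · apply tendsto_const_nhds.congr'
      filter_upwards [self_mem_nhdsWithin] with x hx
      rw [indicator_of_notMem (show t ∉ Ioi (0 : ℝ) from ht), indicator_of_notMem]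
      intro h
      exact ht ((show (0 : ℝ) < x from hx).trans (show x < t from h))

theorem tendsto_tail_atTop {f : ℝ → ℝ} (hf : IntegrableOn f (Ioi 0)) :
    Tendsto (fun x => ∫ t in Ioi x, f t) atTop (𝓝 0) := by
  have h1 : ∀ x : ℝ, ∫ t in Ioi x, f t = ∫ t, (Ioi x).indicator f t := fun x =>
    (integral_indicator measurableSet_Ioi).symm
  simp only [h1]
  have h0 : (0 : ℝ) = ∫ t : ℝ, (0 : ℝ) := by simp
  rw [h0]
  apply tendsto_integral_filter_of_dominated_convergence (fun t => ‖(Ioi (0 : ℝ)).indicator f t‖)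
  · filter_upwards [eventually_gt_atTop 0] with x hx
    have : IntegrableOn f (Ioi x) := hf.mono_set (Ioi_subset_Ioi (le_of_lt hx))
    exact (this.integrable_indicator measurableSet_Ioi).aestronglyMeasurable
  · filter_upwards [eventually_gt_atTop 0] with x hx
    refine Eventually.of_forall fun t => ?_
    by_cases ht : t ∈ Ioi x
    · have ht0 : t ∈ Ioi (0 : ℝ) := (show (0 : ℝ) < x from hx).trans (show x < t from ht)
      rw [indicator_of_mem ht, indicator_of_mem ht0]
    · rw [indicator_of_notMem ht]; simp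
  · exact (hf.integrable_indicator measurableSet_Ioi).norm
  · refine Eventually.of_forall fun t => ?_
    apply tendsto_const_nhds.congr'
    filter_upwards [eventually_ge_atTop t] with x hx
    rw [indicator_of_notMem]
    exact not_lt.2 hx

/-- two functions on `(0, ∞)` with the same derivative and the same limit at infinity agree -/
theorem eq_of_deriv_eq_of_tendsto {f g f' : ℝ → ℝ} {c : ℝ}
    (hf : ∀ x, 0 < x → HasDerivAt f (f' x) x) (hg : ∀ x, 0 < x → HasDerivAt g (f' x) x)
    {l : Filter ℝ} [l.NeBot] (hl : ∀ᶠ x in l, 0 < x)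
    (hlim : Tendsto (fun x => f x - g x) l (𝓝 c)) : ∀ x, 0 < x → f x = g x + c := by
  intro x hx
  have h1 : ∀ y, 0 < y → f y - g y = f x - g x := by
    intro y hy
    have hd : ∀ z ∈ Ioi (0 : ℝ), HasDerivAt (fun z => f z - g z) (f' z - f' z) z := fun z hz =>
      (hf z hz).sub (hg z hz)
    have := (convex_Ioi (0 : ℝ)).is_const_of_fderivWithin_eq_zero (𝕜 := ℝ)
      (f := fun z => f z - g z) (fun z hz => (hd z hz).differentiableAt.differentiableWithinAt)
      (fun z hz => by
        have h2 := (hd z hz).hasDerivWithinAt (s := Ioi 0)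
        rw [sub_self] at h2
        have h3 := h2.hasFDerivWithinAt.fderivWithin (isOpen_Ioi.uniqueDiffWithinAt hz)
        rw [h3]
        ext
        simp) hy hx
    exact this
  have h2 : Tendsto (fun x => f x - g x) l (𝓝 (f x - g x)) :=
    tendsto_const_nhds.congr' (hl.mono fun y hy => (h1 y hy).symm)
  have := tendsto_nhds_unique hlim h2
  linarith

end Pool.Agent.SS
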