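import Mathlib

/-!
# Towers of differential fields inside a field with a derivation
-/

namespace Pool.Agent.SS

open Polynomial

/-- A field with a derivation and its field of constants. -/
structure DField (𝕂 : Type*) [Field 𝕂] where
  /-- the derivation -/
  θ : 𝕂 →+ 𝕂
  mul' : ∀ f g, θ (f * g) = θ f * g + f * θ g
  /-- the constants -/
  K : Subfield 𝕂
  mem_K : ∀ f, θ f = 0 ↔ f ∈ K

variable {𝕂 : Type*} [Field 𝕂]

/-- polynomials with coefficients in a subfield -/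
def CF (F : Subfield 𝕂) (p : 𝕂[X]) : Prop := ∀ i, p.coeff i ∈ F

theorem natDegree_lt_of_coeff {q : 𝕂[X]} {n : ℕ} (hn : n ≠ 0) (h : ∀ i, n ≤ i → q.coeff i = 0) :
    q.natDegree < n := by
  by_contra hcon
  push Not at hcon
  have h1 := h _ hcon
  have h2 : q = 0 := leadingCoeff_eq_zero.1 h1
  rw [h2, natDegree_zero] at hcon
  omega

namespace CF

variable {F : Subfield 𝕂} {p q : 𝕂[X]}

theorem add (hp : CF F p) (hq : CF F q) : CF F (p + q) := fun i => by
  rw [coeff_add]; exact F.add_mem (hp i) (hq i)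

theorem sub (hp : CF F p) (hq : CF F q) : CF F (p - q) := fun i => by
  rw [coeff_sub]; exact F.sub_mem (hp i) (hq i)

theorem neg (hp : CF F p) : CF F (-p) := fun i => by
  rw [coeff_neg]; exact F.neg_mem (hp i)

theorem mul (hp : CF F p) (hq : CF F q) : CF F (p * q) := fun i => by
  rw [coeff_mul]; exact F.sum_mem fun x _ => F.mul_mem (hp _) (hq _)

theorem C {c : 𝕂} (hc : c ∈ F) : CF F (Polynomial.C c) := fun i => by
  rw [coeff_C]; split_ifs
  · exact hc
  · exact F.zero_mem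

theorem X : CF F (Polynomial.X : 𝕂[X]) := fun i => by
  rw [coeff_X]; split_ifs
  · exact F.one_mem
  · exact F.zero_mem

theorem zero : CF F (0 : 𝕂[X]) := fun i => by rw [coeff_zero]; exact F.zero_mem

theorem one : CF F (1 : 𝕂[X]) := CF.C F.one_mem

theorem pow (hp : CF F p) (n : ℕ) : CF F (p ^ n) := by
  induction n with
  | zero => rw [pow_zero]; exact CF.one
  | succ n ih => rw [pow_succ]; exact ih.mul hp

theorem derivative (hp : CF F p) : CF F (Polynomial.derivative p) := fun i => by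
  rw [coeff_derivative]
  exact F.mul_mem (hp _) (by have := natCast_mem F (i + 1); push_cast at this; exact this)

theorem mono {G : Subfield 𝕂} (h : F ≤ G) (hp : CF F p) : CF G p := fun i => h (hp i)

theorem eval (hp : CF F p) {t : 𝕂} (ht : t ∈ F) : p.eval t ∈ F := by
  rw [eval_eq_sum_range]
  exact F.sum_mem fun i _ => F.mul_mem (hp i) (F.pow_mem ht i)

end CF

namespace DField

variable (δ : DField 𝕂)

theorem one' : δ.θ 1 = 0 := (δ.mem_K 1).2 δ.K.one_mem

theorem const_mul {c f : 𝕂} (hc : c ∈ δ.K) : δ.θ (c * f) = c * δ.θ f := by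
  rw [δ.mul', (δ.mem_K c).2 hc]; ring

theorem pow' (t : 𝕂) (n : ℕ) : δ.θ (t ^ n) = n * t ^ (n - 1) * δ.θ t := by
  induction n with
  | zero => simp [δ.one']
  | succ n ih =>
    rw [pow_succ, δ.mul', ih]
    rcases Nat.eq_zero_or_pos n with rfl | hn
    · simp
    · have : t ^ n = t ^ (n - 1) * t := by rw [← pow_succ]; congr 1; omega
      push_cast
      rw [this]
      ring

/-- coefficientwise derivation -/
noncomputable def mc (p : 𝕂[X]) : 𝕂[X] :=
  ∑ i ∈ Finset.range (p.natDegree + 1), C (δ.θ (p.coeff i)) * X ^ i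

theorem coeff_mc (p : 𝕂[X]) (i : ℕ) : (δ.mc p).coeff i = δ.θ (p.coeff i) := by
  unfold mc
  simp only [finsetSum_coeff, coeff_C_mul_X_pow]
  rw [Finset.sum_ite_eq]
  split_ifs with h
  · rfl
  · rw [coeff_eq_zero_of_natDegree_lt (by simpa [Nat.lt_succ_iff] using h), map_zero]

/-- the extension of `θ` to polynomials sending `X` to `W` -/
noncomputable def D (W p : 𝕂[X]) : 𝕂[X] := δ.mc p + W * derivative p

theorem eval_D {W : 𝕂[X]} {t : 𝕂} (hW : W.eval t = δ.θ t) (p : 𝕂[X]) :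
    (δ.D W p).eval t = δ.θ (p.eval t) := by
  have h1 : (δ.mc p).eval t = ∑ i ∈ Finset.range (p.natDegree + 1), δ.θ (p.coeff i) * t ^ i := by
    unfold mc
    simp [eval_finsetSum]
  have h2 : (derivative p).eval t = ∑ i ∈ Finset.range (p.natDegree + 1),
      p.coeff i * (i * t ^ (i - 1)) := by
    rw [derivative_eval, sum_over_range]
    · refine Finset.sum_congr rfl fun i _ => by ring
    · intro n; simp
  unfold D
  rw [eval_add, eval_mul, hW, h1, h2, eval_eq_sum_range, map_sum, Finset.mul_sum,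
    ← Finset.sum_add_distrib]
  refine Finset.sum_congr rfl fun i _ => ?_
  rw [δ.mul', δ.pow']
  ring

theorem coeff_D_C (a : 𝕂) (p : 𝕂[X]) (i : ℕ) :
    (δ.D (C a) p).coeff i = δ.θ (p.coeff i) + a * (p.coeff (i + 1) * (i + 1)) := by
  rw [D, coeff_add, coeff_mc, coeff_C_mul, coeff_derivative]

theorem coeff_D_CX (a : 𝕂) (p : 𝕂[X]) (i : ℕ) :
    (δ.D (C a * X) p).coeff i = δ.θ (p.coeff i) + i * a * p.coeff i := by
  rw [D, coeff_add, coeff_mc, mul_assoc, coeff_C_mul]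
  congr 1
  cases i with
  | zero => simp
  | succ i => rw [coeff_X_mul, coeff_derivative]; push_cast; ring

/-- stability under the derivation -/
def Stab (F : Subfield 𝕂) : Prop := ∀ x ∈ F, δ.θ x ∈ F

theorem CF_mc {F : Subfield 𝕂} (hF : δ.Stab F) {p : 𝕂[X]} (hp : CF F p) : CF F (δ.mc p) :=
  fun i => by rw [coeff_mc]; exact hF _ (hp i)

theorem CF_D {F : Subfield 𝕂} (hF : δ.Stab F) {W p : 𝕂[X]} (hW : CF F W) (hp : CF F p) :
    CF F (δ.D W p) := (δ.CF_mc hF hp).add (hW.mul hp.derivative)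

end DField

/-- the field `F(t)` -/
def adjF (F : Subfield 𝕂) (t : 𝕂) : Subfield 𝕂 where
  carrier := {x | ∃ A B : 𝕂[X], CF F A ∧ CF F B ∧ B.eval t ≠ 0 ∧ x * B.eval t = A.eval t}
  mul_mem' := by
    rintro x y ⟨A, B, hA, hB, hB0, h⟩ ⟨A', B', hA', hB', hB'0, h'⟩
    refine ⟨A * A', B * B', hA.mul hA', hB.mul hB', ?_, ?_⟩
    · rw [eval_mul]; exact mul_ne_zero hB0 hB'0
    · rw [eval_mul, eval_mul, ← h, ← h']; ring
  one_mem' := ⟨1, 1, CF.one, CF.one, by simp, by simp⟩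
  add_mem' := by
    rintro x y ⟨A, B, hA, hB, hB0, h⟩ ⟨A', B', hA', hB', hB'0, h'⟩
    refine ⟨A * B' + A' * B, B * B', (hA.mul hB').add (hA'.mul hB), hB.mul hB', ?_, ?_⟩
    · rw [eval_mul]; exact mul_ne_zero hB0 hB'0
    · rw [eval_mul, eval_add, eval_mul, eval_mul, ← h, ← h']; ring
  zero_mem' := ⟨0, 1, CF.zero, CF.one, by simp, by simp⟩
  neg_mem' := by
    rintro x ⟨A, B, hA, hB, hB0, h⟩
    exact ⟨-A, B, hA.neg, hB, hB0, by rw [eval_neg, ← h]; ring⟩
  inv_mem' := by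
    rintro x ⟨A, B, hA, hB, hB0, h⟩
    by_cases hx : x = 0
    · subst hx
      exact ⟨0, 1, CF.zero, CF.one, by simp, by simp⟩
    · refine ⟨B, A, hB, hA, ?_, ?_⟩
      · rw [← h]; exact mul_ne_zero hx hB0
      · rw [← h, ← mul_assoc, inv_mul_cancel₀ hx, one_mul]

theorem mem_adjF {F : Subfield 𝕂} {t x : 𝕂} :
    x ∈ adjF F t ↔ ∃ A B : 𝕂[X], CF F A ∧ CF F B ∧ B.eval t ≠ 0 ∧ x * B.eval t = A.eval t := Iff.rfl

theorem le_adjF (F : Subfield 𝕂) (t : 𝕂) : F ≤ adjF F t := fun x hx =>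
  ⟨C x, 1, CF.C hx, CF.one, by simp, by simp⟩

theorem self_mem_adjF (F : Subfield 𝕂) (t : 𝕂) : t ∈ adjF F t :=
  ⟨X, 1, CF.X, CF.one, by simp, by simp⟩

theorem eval_mem_adjF {F : Subfield 𝕂} {t : 𝕂} {p : 𝕂[X]} (hp : CF F p) : p.eval t ∈ adjF F t :=
  ⟨p, 1, hp, CF.one, by simp, by simp⟩

theorem adjF_le {F G : Subfield 𝕂} {t : 𝕂} (h : F ≤ G) (ht : t ∈ G) : adjF F t ≤ G := by
  rintro x ⟨A, B, hA, hB, hB0, h'⟩
  have h1 := (hA.mono h).eval ht
  have h2 := (hB.mono h).eval ht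
  have : x = A.eval t / B.eval t := by rw [eq_div_iff hB0]; exact h'
  rw [this]
  exact G.div_mem h1 h2

theorem adjF_eq_of_mem {F : Subfield 𝕂} {t : 𝕂} (ht : t ∈ F) : adjF F t = F :=
  le_antisymm (adjF_le le_rfl ht) (le_adjF F t)

namespace DField

variable (δ : DField 𝕂)

theorem stab_adjF {F : Subfield 𝕂} (hF : δ.Stab F) {t : 𝕂} (ht : δ.θ t ∈ adjF F t) :
    δ.Stab (adjF F t) := by
  have hpoly : ∀ p : 𝕂[X], CF F p → δ.θ (p.eval t) ∈ adjF F t := by
    intro p hp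
    have h1 : δ.θ (p.eval t) = (δ.mc p).eval t + δ.θ t * (derivative p).eval t := by
      have h2 := δ.eval_D (W := C (δ.θ t)) (t := t) (by simp) p
      rw [← h2, D, eval_add, eval_mul, eval_C]
    rw [h1]
    exact (adjF F t).add_mem (eval_mem_adjF (δ.CF_mc hF hp))
      ((adjF F t).mul_mem ht (eval_mem_adjF hp.derivative))
  rintro x ⟨A, B, hA, hB, hB0, h⟩
  have hx : x ∈ adjF F t := ⟨A, B, hA, hB, hB0, h⟩
  have h1 := congrArg δ.θ h
  rw [δ.mul'] at h1
  have h2 : δ.θ x = (δ.θ (A.eval t) - x * δ.θ (B.eval t)) / B.eval t := by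
    rw [eq_div_iff hB0, ← h1]; ring
  rw [h2]
  exact (adjF F t).div_mem ((adjF F t).sub_mem (hpoly A hA) ((adjF F t).mul_mem hx (hpoly B hB)))
    (eval_mem_adjF hB)

variable [CharZero 𝕂]

/-- a primitive which is not in the base field is transcendental -/
theorem transc_prim {F : Subfield 𝕂} (hF : δ.Stab F) (hK : δ.K ≤ F) {t : 𝕂} (ht : t ∉ F)
    (hθ : δ.θ t ∈ F) (p : 𝕂[X]) (hp : CF F p) (h0 : p.eval t = 0) : p = 0 := by
  classical
  by_contra hne
  have hex : ∃ n, ∃ p : 𝕂[X], CF F p ∧ p.eval t = 0 ∧ p ≠ 0 ∧ p.natDegree = n :=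
    ⟨_, p, hp, h0, hne, rfl⟩
  obtain ⟨p, hp, h0, hne, hn⟩ := Nat.find_spec hex
  set n := Nat.find hex with hn'
  have hmin : ∀ q : 𝕂[X], CF F q → q.eval t = 0 → q.natDegree < n → q = 0 := by
    intro q hq hq0 hqn
    by_contra hq1
    exact Nat.find_min hex hqn ⟨q, hq, hq0, hq1, rfl⟩
  -- make it monic
  have hlc : p.coeff n ≠ 0 := by
    rw [← hn]; exact leadingCoeff_ne_zero.2 hne
  set m : 𝕂[X] := C (p.coeff n)⁻¹ * p with hm
  have hmF : CF F m := (CF.C (F.inv_mem (hp n))).mul hp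
  have hm0 : m.eval t = 0 := by rw [hm, eval_mul, h0, mul_zero]
  have hmn : m.coeff n = 1 := by rw [hm, coeff_C_mul, inv_mul_cancel₀ hlc]
  have hmd : m.natDegree ≤ n := by
    rw [hm]; refine (natDegree_C_mul_le _ _).trans hn.le
  have hn0 : n ≠ 0 := by
    intro h
    have h1 : p = C (p.coeff 0) := eq_C_of_natDegree_eq_zero (by rw [hn, h])
    rw [h1, eval_C] at h0
    apply hne
    rw [h1, h0, C_0]
  set q := δ.D (C (δ.θ t)) m with hq
  have hqF : CF F q := δ.CF_D hF (CF.C hθ) hmF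
  have hq0 : q.eval t = 0 := by rw [hq, δ.eval_D (by simp), hm0, map_zero]
  have hmgt : ∀ i, n < i → m.coeff i = 0 := fun i hi =>
    coeff_eq_zero_of_natDegree_lt (lt_of_le_of_lt hmd hi)
  have hqd : q.natDegree < n := by
    have h1 : ∀ i, n ≤ i → q.coeff i = 0 := by
      intro i hi
      rw [hq, coeff_D_C, hmgt (i + 1) (by omega)]
      rcases hi.eq_or_lt with rfl | hi'
      · rw [hmn, δ.one']; ring
      · rw [hmgt i hi', map_zero]; ring
    exact natDegree_lt_of_coeff hn0 h1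
  have hqz := hmin q hqF hq0 hqd
  have h2 : q.coeff (n - 1) = δ.θ (m.coeff (n - 1) + n * t) := by
    rw [hq, coeff_D_C, map_add]
    have h3 : n - 1 + 1 = n := by omega
    rw [h3, hmn]
    have h4 : ((n - 1 : ℕ) : 𝕂) + 1 = n := by exact_mod_cast congrArg (Nat.cast (R := 𝕂)) h3
    rw [h4, δ.const_mul (natCast_mem δ.K n)]
    ring
  rw [hqz, coeff_zero] at h2
  have h3 : m.coeff (n - 1) + n * t ∈ F := hK ((δ.mem_K _).1 h2.symm)
  apply ht
  have h4 : (n : 𝕂) * t ∈ F := by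
    have := F.sub_mem h3 (hmF (n - 1))
    rwa [add_sub_cancel_left] at this
  have h5 : (n : 𝕂) ≠ 0 := by exact_mod_cast hn0
  have h6 := F.mul_mem (F.inv_mem (natCast_mem F n)) h4
  rwa [← mul_assoc, inv_mul_cancel₀ h5, one_mul] at h6

/-- denominators: `x ∈ F(t)`, `θ x ∈ F[t]` imply `x ∈ F[t]` -/
theorem poly_of_deriv_poly {F : Subfield 𝕂} (hF : δ.Stab F) (hK : δ.K ≤ F) {t : 𝕂} (ht : t ∉ F)
    (hθ : δ.θ t ∈ F) {x : 𝕂} (hx : x ∈ adjF F t) {G : 𝕂[X]} (hG : CF F G)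
    (hxG : δ.θ x = G.eval t) : ∃ A : 𝕂[X], CF F A ∧ x = A.eval t := by
  classical
  obtain ⟨A, B, hA, hB, hB0, hAB⟩ := hx
  have hex : ∃ n, ∃ A B : 𝕂[X], CF F A ∧ CF F B ∧ B ≠ 0 ∧ x * B.eval t = A.eval t ∧
      B.natDegree = n := by
    refine ⟨_, A, B, hA, hB, ?_, hAB, rfl⟩
    rintro rfl; simp at hB0
  obtain ⟨A, B, hA, hB, hne, hAB, hn⟩ := Nat.find_spec hex
  set n := Nat.find hex with hn'
  have hmin : ∀ A B : 𝕂[X], CF F A → CF F B → x * B.eval t = A.eval t → B.natDegree < n → B = 0 := by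
    intro A B hA hB hAB hBn
    by_contra h1
    exact Nat.find_min hex hBn ⟨A, B, hA, hB, h1, hAB, rfl⟩
  have hlc : B.coeff n ≠ 0 := by rw [← hn]; exact leadingCoeff_ne_zero.2 hne
  set u := (B.coeff n)⁻¹ with hu
  have huF : u ∈ F := F.inv_mem (hB n)
  set m : 𝕂[X] := C u * B with hm
  have hmF : CF F m := (CF.C huF).mul hB
  have hmn : m.coeff n = 1 := by rw [hm, coeff_C_mul, hu, inv_mul_cancel₀ hlc]
  have hmd : m.natDegree ≤ n := by
    rw [hm]; refine (natDegree_C_mul_le _ _).trans hn.le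
  have hmA : x * m.eval t = (C u * A).eval t := by
    rw [hm, eval_mul, eval_mul, eval_C, ← hAB]; ring
  have hmgt : ∀ i, n < i → m.coeff i = 0 := fun i hi =>
    coeff_eq_zero_of_natDegree_lt (lt_of_le_of_lt hmd hi)
  by_cases hn0 : n = 0
  · have h1 : m = C (m.coeff 0) := eq_C_of_natDegree_le_zero (by omega)
    rw [hn0] at hmn
    rw [hmn] at h1
    rw [h1, eval_C, mul_one] at hmA
    exact ⟨C u * A, (CF.C huF).mul hA, hmA⟩
  exfalso
  set q := δ.D (C (δ.θ t)) m with hq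
  have hqF : CF F q := δ.CF_D hF (CF.C hθ) hmF
  have hqd : q.natDegree < n := by
    have h1 : ∀ i, n ≤ i → q.coeff i = 0 := by
      intro i hi
      rw [hq, coeff_D_C, hmgt (i + 1) (by omega)]
      rcases hi.eq_or_lt with rfl | hi'
      · rw [hmn, δ.one']; ring
      · rw [hmgt i hi', map_zero]; ring
    exact natDegree_lt_of_coeff hn0 h1
  have hqx : x * q.eval t = (δ.D (C (δ.θ t)) (C u * A) - G * m).eval t := by
    have h1 := congrArg δ.θ hmA
    rw [δ.mul', hxG, ← δ.eval_D (W := C (δ.θ t)) (by simp) (C u * A),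
      ← δ.eval_D (W := C (δ.θ t)) (by simp) m] at h1
    rw [eval_sub, eval_mul, ← h1]
    ring
  have hqz := hmin _ q ((δ.CF_D hF (CF.C hθ) ((CF.C huF).mul hA)).sub (hG.mul hmF)) hqF hqx hqd
  -- `m(t)` is a constant
  have h1 : δ.θ (m.eval t) = 0 := by
    rw [← δ.eval_D (W := C (δ.θ t)) (by simp) m, ← hq, hqz, eval_zero]
  have h2 : m.eval t ∈ F := hK ((δ.mem_K _).1 h1)
  have h3 := δ.transc_prim hF hK ht hθ (m - C (m.eval t)) (hmF.sub (CF.C h2)) (by simp)
  have h4 := congrArg (fun r => coeff r n) h3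
  simp only [coeff_sub, coeff_C, if_neg hn0, coeff_zero, hmn] at h4
  norm_num at h4

end DField

end Pool.Agent.SS
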